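import Pool.Agent.Work.MP_bd2638_an.Interface

set_option autoImplicit false

namespace Pool.AN

open Set Filter Topology Metric

theorem p_BPD : Stmt_BPD := by
  intro d A A' L κ n hL hκ
  induction n with
  | zero =>
    intro _ _ _
    simp
  | succ n ih =>
    intro h1 h2 h3
    have h1' : ∀ l < n, ‖A l‖ ≤ L := fun l hl => h1 l (hl.trans (Nat.lt_succ_self n))
    have h2' : ∀ l < n, ‖A' l‖ ≤ L := fun l hl => h2 l (hl.trans (Nat.lt_succ_self n))
    have h3' : ∀ l < n, ‖A l - A' l‖ ≤ κ := fun l hl => h3 l (hl.trans (Nat.lt_succ_self n))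
    have hi := ih h1' h2' h3'
    have hL0 : 0 ≤ L := by linarith
    have hB' := norm_Bp_le A' L hL0 n h2'
    have hid : Bp A (n + 1) - Bp A' (n + 1) = A n ∘L (Bp A n - Bp A' n) + (A n - A' n) ∘L Bp A' n := by
      rw [Bp_succ, Bp_succ]
      ext1 v
      simp
    rw [hid]
    have hp : 0 ≤ L ^ n := pow_nonneg hL0 n
    have e1 : ‖A n ∘L (Bp A n - Bp A' n)‖ ≤ L * (n * L ^ n * κ) :=
      (ContinuousLinearMap.opNorm_comp_le _ _).trans
        (mul_le_mul (h1 n (Nat.lt_succ_self n)) hi (norm_nonneg _) hL0)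
    have e2 : ‖(A n - A' n) ∘L Bp A' n‖ ≤ κ * L ^ n :=
      (ContinuousLinearMap.opNorm_comp_le _ _).trans
        (mul_le_mul (h3 n (Nat.lt_succ_self n)) hB' (norm_nonneg _) hκ)
    have e3 : κ * L ^ n ≤ L ^ (n + 1) * κ := by
      rw [pow_succ]
      have : 0 ≤ κ * L ^ n := mul_nonneg hκ hp
      nlinarith
    have e4 : ((n + 1 : ℕ) : ℝ) * L ^ (n + 1) * κ = L * (n * L ^ n * κ) + L ^ (n + 1) * κ := by
      push_cast
      ring
    rw [e4]
    exact (norm_add_le _ _).trans (add_le_add e1 (e2.trans e3))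

end Pool.AN
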