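import Pool.Agent.Work.MP_bd2638_an.Interface

/-!
# MP_bd2638_an, THEOREM AN, block CH2: chain rule for two steps
-/

set_option autoImplicit false

namespace Pool.AN

open Set Filter Topology Metric

/-- Block CH2. -/
theorem p_CH2 : Stmt_CH2 := by
  intro d al M _ _ f S a b i j l x hxi hxj hxl
  have hxl' : f^[a + b] x ∈ (S.φ l).source := by
    rw [Nat.add_comm, Function.iterate_add_apply]; exact hxl
  have hfa : Continuous f^[a] := f.continuous.iterate a
  -- the value of the inner map
  have hval : Fn S.φ f a i j (S.φ i x) = S.φ j (f^[a] x) := by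
    rw [Fn, (S.φ i).left_inv hxi]
  -- near `φ i x` the point `f^[a] (symm u)` is in the source of `φ j`
  have htgt : S.φ i x ∈ (S.φ i).target := (S.φ i).map_source hxi
  have hcont : ContinuousAt (fun u => f^[a] ((S.φ i).symm u)) (S.φ i x) :=
    hfa.continuousAt.comp ((S.φ i).continuousAt_symm htgt)
  have hev : ∀ᶠ u in 𝓝 (S.φ i x), f^[a] ((S.φ i).symm u) ∈ (S.φ j).source := by
    apply hcont.eventually_mem
    apply (S.φ j).open_source.mem_nhds
    simp only [(S.φ i).left_inv hxi]
    exact hxj
  have heq : Fn S.φ f (a + b) i l =ᶠ[𝓝 (S.φ i x)] (Fn S.φ f b j l) ∘ (Fn S.φ f a i j) := by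
    filter_upwards [hev] with u hu
    simp only [Function.comp, Fn]
    rw [(S.φ j).left_inv hu, Nat.add_comm, Function.iterate_add_apply]
  have hd1 : DifferentiableAt ℝ (Fn S.φ f a i j) (S.φ i x) :=
    (S.sm a i j x hxi hxj).differentiableAt (by norm_num)
  have hd2 : DifferentiableAt ℝ (Fn S.φ f b j l) (Fn S.φ f a i j (S.φ i x)) := by
    rw [hval]
    exact (S.sm b j l (f^[a] x) hxj hxl).differentiableAt (by norm_num)
  rw [DF, heq.fderiv_eq, fderiv_comp _ hd2 hd1, hval]
  rfl

end Pool.AN
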