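import Pool.Agent.Work.MP_bd2638_an.Interface

/-!
# MP_bd2638_an, THEOREM AN: block CHN (chain rule along an orbit)
-/

set_option autoImplicit false

namespace Pool.AN

open Set Filter Topology Metric

theorem p_CHN (hCH2 : Stmt_CH2) : Stmt_CHN := by
  intro d al M _ _ f S i q n
  induction n with
  | zero =>
    intro h
    have hq : q ∈ (S.φ (i 0)).source := h 0 le_rfl
    rw [Bp_zero]
    have he : Fn S.φ f 0 (i 0) (i 0) =ᶠ[𝓝 (S.φ (i 0) q)] id := by
      filter_upwards [(S.φ (i 0)).open_target.mem_nhds ((S.φ (i 0)).map_source hq)] with u hu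
      exact (S.φ (i 0)).right_inv hu
    show fderiv ℝ (Fn S.φ f 0 (i 0) (i 0)) (S.φ (i 0) q) = _
    rw [he.fderiv_eq, fderiv_id]
  | succ n ih =>
    intro h
    have h1 := ih fun l hl => h l (hl.trans (Nat.le_succ n))
    have h2 := hCH2 d al M f S n 1 (i 0) (i n) (i (n + 1)) q (h 0 (Nat.zero_le _)) (h n (Nat.le_succ n)) (by
      have h3 := h (n + 1) le_rfl
      rw [Function.iterate_succ_apply'] at h3
      exact h3)
    rw [Bp_succ, h2, h1]

end Pool.AN
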