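import Pool.Agent.Work.MP_bd2638_an.Interface

/-!
# MP_bd2638_an, THEOREM AN: block CLO, almost closed orbits
-/

set_option autoImplicit false

namespace Pool.AN

open Set Filter Topology Metric

theorem CLO_log (L t : ℝ) (hL : 1 ≤ L) (h1 : L⁻¹ ≤ t) (h2 : t ≤ L) : |Real.log t| ≤ Real.log L := by
  have hL0 : 0 < L := by linarith
  have ht : 0 < t := lt_of_lt_of_le (inv_pos.2 hL0) h1
  rw [abs_le]
  refine ⟨?_, Real.log_le_log ht h2⟩
  rw [← Real.log_inv]
  exact Real.log_le_log (inv_pos.2 hL0) h1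

theorem p_CLO (hNEA : Stmt_NEA) (hONE : Stmt_ONE) (hCHN : Stmt_CHN) (hSHD : Stmt_SHD)
    (hEXP : Stmt_EXP) (hSUM : Stmt_SUM) : Stmt_CLO := by
  intro d al M _ _ f S
  obtain ⟨δ₁, r, L, H, hδ₁, hr, hL, hH, hone, -⟩ := hONE d al M f S
  obtain ⟨ρ, C₁, la, hρ, hC₁, hla, hla1, hexp⟩ := hEXP d al M f S
  obtain ⟨C₃, hC₃, hsum⟩ := hSUM la al hla hla1 S.hal
  obtain ⟨ε₀, hε₀, hnea⟩ := hNEA d al M f S 1 one_pos
  have hε : 0 < min ρ (min r ε₀) := lt_min hρ (lt_min hr hε₀)
  obtain ⟨δ₂, hδ₂, hshd⟩ := hSHD d al M f S _ hε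
  have hL0 : 0 < L := by linarith
  have hlogL : 0 ≤ Real.log L := Real.log_nonneg hL
  have hC0 : 0 ≤ H * C₁ ^ al := mul_nonneg hH (Real.rpow_nonneg hC₁.le _)
  refine ⟨min δ₁ δ₂, H * C₁ ^ al * C₃ + 2 * Real.log L, lt_min hδ₁ hδ₂,
    add_nonneg (mul_nonneg hC0 hC₃.le) (by linarith), ?_⟩
  intro n x hn hd
  haveI : NeZero n := ⟨hn.ne'⟩
  obtain ⟨X, hXdef⟩ : ∃ X : ZMod n → M, ∀ j, X j = f^[j.val] x := ⟨fun j => f^[j.val] x, fun _ => rfl⟩
  have hX : ∀ l : ℕ, X (l : ZMod n) = f^[l % n] x := fun l => by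
    rw [hXdef, ZMod.val_natCast]
  have hXlt : ∀ l : ℕ, l < n → X (l : ZMod n) = f^[l] x := fun l hl => by
    rw [hX, Nat.mod_eq_of_lt hl]
  have hX0 : X ((0 : ℕ) : ZMod n) = x := by rw [hXlt 0 hn]; rfl
  have hXn : X ((n : ℕ) : ZMod n) = x := by rw [hX, Nat.mod_self]; rfl
  have hch : ∀ l : ℕ, dist (f (X (l : ZMod n))) (X ((l + 1 : ℕ) : ZMod n)) ≤ min δ₁ δ₂ := by
    intro l
    have hl := Nat.mod_lt l hn
    have h1 : (l + 1) % n = (l % n + 1) % n := (Nat.mod_add_mod l n 1).symm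
    rw [hX, hX, h1, ← Function.iterate_succ_apply' (⇑f)]
    rcases Nat.lt_or_ge (l % n + 1) n with h2 | h2
    · rw [Nat.mod_eq_of_lt h2, dist_self]
      exact (lt_min hδ₁ hδ₂).le
    · have h3 : l % n + 1 = n := by omega
      rw [h3, Nat.mod_self]
      have h4 : Nat.succ (l % n) = n := h3
      rw [h4]
      exact hd
  have hchain : ∀ j : ZMod n, dist (f (X j)) (X (j + 1)) ≤ δ₂ := by
    intro j
    have h1 := hch j.val
    rw [Nat.cast_add, ZMod.natCast_zmod_val, Nat.cast_one] at h1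
    exact h1.trans (min_le_right _ _)
  obtain ⟨p, hp, hsh⟩ := hshd n X hchain
  refine ⟨p, hp, ?_, ?_⟩
  · have h0 := (hsh 0).1
    rw [hX0] at h0
    refine (hnea x p ?_).1
    rw [dist_comm]
    exact h0.trans ((min_le_right _ _).trans (min_le_right _ _))
  · have hchn := hCHN d al M f S (fun l => S.c (X (l : ZMod n))) p n (fun l _ => (hsh l).2.1)
    simp only [hX0, hXn] at hchn
    obtain ⟨D, hDdef⟩ : ∃ D : ℕ → (EE d →L[ℝ] EE d), ∀ l, D l =
        fderiv ℝ (S.G (X (l : ZMod n)) (X ((l + 1 : ℕ) : ZMod n)))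
          (S.pos (X (l : ZMod n)) (f^[l] p)) := ⟨_, fun _ => rfl⟩
    have hchn' : DF S.φ f n (S.c x) (S.c x) p = Bp D n := by
      rw [hchn]
      congr 1
      funext l
      rw [hDdef]
      rfl
    have hball : ∀ l : ℕ, S.pos (X (l : ZMod n)) (f^[l] p) ∈
        closedBall (S.pos (X (l : ZMod n)) (X (l : ZMod n))) r := fun l =>
      mem_closedBall_iff_norm.2 ((hsh l).2.2.trans ((min_le_right _ _).trans (min_le_left _ _)))
    have hO := fun l : ℕ => hone (X (l : ZMod n)) (X ((l + 1 : ℕ) : ZMod n))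
      ((hch l).trans (min_le_left _ _)) _ (hball l)
    have hlow : ∀ l, L⁻¹ ≤ |(D l).det| := fun l => by rw [hDdef]; exact (hO l).2.2.2.2.1
    have hup : ∀ l, |(D l).det| ≤ L := fun l => by rw [hDdef]; exact (hO l).2.2.2.2.2.1
    have hdet : ∀ l, |(D l).det| ≠ 0 := fun l =>
      (lt_of_lt_of_le (inv_pos.2 hL0) (hlow l)).ne'
    have hlog : Real.log |(Bp D n).det| = ∑ l ∈ Finset.range n, Real.log |(D l).det| := by
      rw [det_Bp, Finset.abs_prod, Real.log_prod (fun l _ => hdet l)]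
    rw [hchn', hlog, Sys.Sn, ← Finset.sum_sub_distrib]
    refine (Finset.abs_sum_le_sum_abs _ _).trans ?_
    have hterm : ∀ l ∈ Finset.range n, abs (S.g (f^[l] x) - Real.log |(D l).det|) ≤
        H * C₁ ^ al * (la ^ l + la ^ (n - 1 - l)) ^ al +
          (if l = n - 1 then 2 * Real.log L else 0) := by
      intro l hl
      have hln := Finset.mem_range.1 hl
      have hW : 0 ≤ (la ^ l + la ^ (n - 1 - l)) ^ al :=
        Real.rpow_nonneg (add_nonneg (pow_nonneg hla.le _) (pow_nonneg hla.le _)) _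
      rcases eq_or_ne l (n - 1) with h | h
      · rw [if_pos h]
        have a1 : |S.g (f^[l] x)| ≤ Real.log L := by
          have h1 := hone (f^[l] x) (f (f^[l] x)) (by rw [dist_self]; exact hδ₁.le)
            (S.pos (f^[l] x) (f^[l] x)) (mem_closedBall_self hr.le)
          exact CLO_log L _ hL h1.2.2.2.2.1 h1.2.2.2.2.2.1
        have a2 : abs (Real.log |(D l).det|) ≤ Real.log L := CLO_log L _ hL (hlow l) (hup l)
        have a3 := abs_sub (S.g (f^[l] x)) (Real.log |(D l).det|)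
        have a4 := mul_nonneg hC0 hW
        linarith
      · rw [if_neg h, add_zero]
        have hl1 : l + 1 < n := by omega
        have h1 := (hO l).2.2.2.2.2.2 (S.pos (X (l : ZMod n)) (X (l : ZMod n)))
          (mem_closedBall_self hr.le)
        have h2 := hexp x p (n - 1) (fun j hj => by
          have h3 := hsh j
          rw [hXlt j (by omega)] at h3
          exact ⟨h3.2.1, h3.2.2.trans (min_le_left _ _)⟩) l (by omega)
        rw [← hDdef, hXlt l hln, hXlt (l + 1) hl1, Function.iterate_succ_apply'] at h1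
        rw [abs_sub_comm]
        refine h1.trans ?_
        have h4 : ‖S.pos (f^[l] x) (f^[l] p) - S.pos (f^[l] x) (f^[l] x)‖ ^ al ≤
            C₁ ^ al * (la ^ l + la ^ (n - 1 - l)) ^ al := by
          rw [← Real.mul_rpow hC₁.le
            (add_nonneg (pow_nonneg hla.le _) (pow_nonneg hla.le _))]
          exact Real.rpow_le_rpow (norm_nonneg _) h2 S.hal.le
        calc H * ‖S.pos (f^[l] x) (f^[l] p) - S.pos (f^[l] x) (f^[l] x)‖ ^ al
            ≤ H * (C₁ ^ al * (la ^ l + la ^ (n - 1 - l)) ^ al) :=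
              mul_le_mul_of_nonneg_left h4 hH
          _ = H * C₁ ^ al * (la ^ l + la ^ (n - 1 - l)) ^ al := by ring
    refine (Finset.sum_le_sum hterm).trans ?_
    rw [Finset.sum_add_distrib, ← Finset.mul_sum, Finset.sum_ite_eq',
      if_pos (Finset.mem_range.2 (by omega))]
    have h5 := hsum (n - 1)
    rw [Nat.sub_add_cancel hn] at h5
    have h6 := mul_le_mul_of_nonneg_left h5 hC0
    linarith

end Pool.AN
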