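import Pool.Agent.Work.MP_bd2638_an.Interface

set_option autoImplicit false

namespace Pool.AN

open Set Filter Topology Metric

theorem CTR_orbit {M : Type} [MetricSpace M] (f : M → M) (δ : ℝ) (hδ : 0 < δ) (z : M) (k : ℕ) :
    Relation.ReflTransGen (Jump f δ) z (f^[k] z) := by
  induction k with
  | zero => exact Relation.ReflTransGen.refl
  | succ k ih =>
    refine ih.tail ?_
    rw [Function.iterate_succ_apply']
    simpa [Jump] using hδ

theorem p_CTR : Stmt_CTR := by
  intro M _ _ _ f hNW δ hδ x y
  set R : Set M := {y | Relation.TransGen (Jump f δ) x y} with hR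
  have hopen : IsOpen R := by
    rw [Metric.isOpen_iff]
    intro y hy
    obtain ⟨w, hw, hwy⟩ := Relation.TransGen.tail'_iff.mp hy
    have hwy' : dist (f w) y < δ := hwy
    refine ⟨δ - dist (f w) y, by linarith, fun y' hy' => ?_⟩
    refine Relation.TransGen.tail' hw ?_
    have h1 := dist_triangle (f w) y y'
    rw [mem_ball, dist_comm] at hy'
    show dist (f w) y' < δ
    linarith
  have hclosed : IsClosed R := by
    rw [← closure_subset_iff_isClosed]
    intro y hy
    have huc := CompactSpace.uniformContinuous_of_continuous f.continuous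
    obtain ⟨η, hη, hf⟩ := Metric.uniformContinuous_iff.mp huc (δ/2) (by linarith)
    have hε0 : 0 < min (η / 2) (δ / 2) := lt_min (by linarith) (by linarith)
    have hε1 : min (η / 2) (δ / 2) ≤ η / 2 := min_le_left _ _
    have hε2 : min (η / 2) (δ / 2) ≤ δ / 2 := min_le_right _ _
    set ε := min (η / 2) (δ / 2) with hε
    obtain ⟨y', hy'R, hy'⟩ := Metric.mem_closure_iff.mp hy ε hε0
    obtain ⟨k, hk, ⟨z', ⟨z, hz, rfl⟩, hz'⟩⟩ := hNW (ball y ε) isOpen_ball ⟨y, mem_ball_self hε0⟩
    rw [mem_ball] at hz hz'
    have h0 : dist y' z < η := by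
      have h2 := dist_triangle y' y z
      rw [dist_comm y' y, dist_comm y z] at h2
      linarith
    have h1 : dist (f y') (f z) < δ / 2 := hf h0
    obtain ⟨k1, rfl⟩ := Nat.exists_eq_add_of_lt hk
    rw [zero_add] at hz'
    rcases k1 with _ | k2
    · have h2 : dist (f z) y < ε := hz'
      have h3 := dist_triangle (f y') (f z) y
      refine Relation.TransGen.tail hy'R ?_
      show dist (f y') y < δ
      linarith
    · have h2 : Jump f δ y' (f z) := by
        show dist (f y') (f z) < δ
        linarith
      have h3 := CTR_orbit f δ hδ (f z) k2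
      have h4 : Jump f δ (f^[k2] (f z)) y := by
        have h5 : f (f^[k2] (f z)) = f^[k2 + 1 + 1] z := by
          rw [← Function.iterate_succ_apply, ← Function.iterate_succ_apply' f]
        show dist (f (f^[k2] (f z))) y < δ
        rw [h5]
        linarith
      have h6 : Relation.TransGen (Jump f δ) x (f z) := Relation.TransGen.tail hy'R h2
      exact Relation.TransGen.tail' (h6.to_reflTransGen.trans h3) h4
  have hu : R = univ := IsClopen.eq_univ ⟨hclosed, hopen⟩
    ⟨f x, Relation.TransGen.single (by simpa [Jump] using hδ)⟩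
  have : y ∈ R := by rw [hu]; exact mem_univ _
  exact this

end Pool.AN
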