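import Pool.Agent.Work.MP_bd2638_an.Interface

set_option autoImplicit false

namespace Pool.AN

open Set Filter Topology Metric

lemma CYC_chain {M : Type} {r : M → M → Prop} {x y : M} (h : Relation.TransGen r x y) :
    ∃ (k : ℕ) (u : ℕ → M), 1 ≤ k ∧ u 0 = x ∧ u k = y ∧ ∀ l < k, r (u l) (u (l + 1)) := by
  induction h with
  | single h =>
    rename_i b
    refine ⟨1, fun l => if l = 0 then x else b, le_refl _, by simp, by simp, ?_⟩
    intro l hl
    have hl0 : l = 0 := by omega
    subst hl0
    simpa using h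
  | tail h1 h2 ih =>
    rename_i b c
    obtain ⟨k, u, hk, hu0, huk, hu⟩ := ih
    refine ⟨k + 1, fun l => if l ≤ k then u l else c, by omega, by simp [hu0], by simp, ?_⟩
    intro l hl
    rcases Nat.lt_or_ge l k with hlk | hlk
    · have e1 : l ≤ k := hlk.le
      have e2 : l + 1 ≤ k := hlk
      simp only [e1, e2, if_true]
      exact hu l hlk
    · have e : l = k := by omega
      subst e
      have e2 : ¬ (l + 1 ≤ l) := by omega
      simp only [le_refl, if_true, e2, if_false]
      rw [huk]
      exact h2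

theorem p_CYC : Stmt_CYC := by
  intro M r x y hxy hyx
  obtain ⟨k, u, hk, hu0, huk, hu⟩ := CYC_chain hxy
  obtain ⟨k', u', hk', hu0', huk', hu'⟩ := CYC_chain hyx
  have hn : NeZero (k + k') := ⟨by omega⟩
  obtain ⟨w, hw⟩ : ∃ w : ℕ → M, w = fun l => if l ≤ k then u l else u' (l - k) := ⟨_, rfl⟩
  have w1 : ∀ l, l ≤ k → w l = u l := by
    intro l hl
    rw [hw]
    simp only [hl, if_true]
  have w2 : ∀ l, k ≤ l → w l = u' (l - k) := by
    intro l hl
    rcases Nat.lt_or_ge k l with h | h
    · have e : ¬ (l ≤ k) := by omega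
      rw [hw]
      simp only [e, if_false]
    · have e : l = k := by omega
      subst e
      rw [w1 l le_rfl, huk, Nat.sub_self, hu0']
  have hwr : ∀ l < k + k', r (w l) (w (l + 1)) := by
    intro l hl
    rcases Nat.lt_or_ge l k with h | h
    · rw [w1 l h.le, w1 (l + 1) h]
      exact hu l h
    · rw [w2 l h, w2 (l + 1) (by omega)]
      have e : l + 1 - k = (l - k) + 1 := by omega
      rw [e]
      exact hu' (l - k) (by omega)
  refine ⟨k + k', hn, fun j => w j.val, k, ?_, ?_, ?_⟩
  · show w (0 : ZMod (k + k')).val = x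
    rw [ZMod.val_zero, w1 0 (Nat.zero_le _), hu0]
  · show w ((k : ZMod (k + k'))).val = y
    rw [ZMod.val_natCast_of_lt (by omega), w1 k le_rfl, huk]
  · intro j
    show r (w j.val) (w (j + 1).val)
    have hj : j.val < k + k' := ZMod.val_lt j
    have e : j + 1 = ((j.val + 1 : ℕ) : ZMod (k + k')) := by
      push_cast
      rw [ZMod.natCast_zmod_val]
    have e2 : (j + 1).val = (j.val + 1) % (k + k') := by
      rw [e, ZMod.val_natCast]
    rw [e2]
    rcases Nat.lt_or_ge (j.val + 1) (k + k') with h | h
    · rw [Nat.mod_eq_of_lt h]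
      exact hwr _ hj
    · have e3 : j.val + 1 = k + k' := by omega
      have e4 : w (j.val + 1) = w 0 := by
        rw [e3, w2 (k + k') (by omega), w1 0 (Nat.zero_le _), hu0]
        have e5 : k + k' - k = k' := by omega
        rw [e5, huk']
      have h5 := hwr _ hj
      rw [e4] at h5
      rw [e3, Nat.mod_self]
      exact h5

end Pool.AN
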