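import Pool.Agent.Work.MP_bd2638_an.Interface

set_option autoImplicit false

namespace Pool.AN

open Set Filter Topology Metric

theorem p_DCT : Stmt_DCT := by
  intro d al M _ _ f S n i j x hx hfx
  have h := S.sm n i j x hx hfx
  have h1 : ContinuousAt (fderiv ℝ (Fn S.φ f n i j)) (S.φ i x) :=
    (h.fderiv_right (m := 0) (by norm_num)).continuousAt
  have h2 : ContinuousAt (S.φ i) x := (S.φ i).continuousAt hx
  exact ContinuousAt.comp (g := fderiv ℝ (Fn S.φ f n i j)) (f := S.φ i) h1 h2

end Pool.AN
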