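import Pool.Agent.Work.MP_bd2638_an.Interface

/-!
# Block DTN: the Birkhoff sum is the logarithm of the determinant
-/

set_option autoImplicit false

namespace Pool.AN

theorem p_DTN (hCHN : Stmt_CHN) : Stmt_DTN := by
  intro d al M _ _ f S n x
  have h2 : DF S.φ f n (S.c x) (S.c (f^[n] x)) x =
      Bp (fun l => DF S.φ f 1 (S.c (f^[l] x)) (S.c (f^[l + 1] x)) (f^[l] x)) n :=
    hCHN d al M f S (fun l => S.c (f^[l] x)) x n (fun l _ => S.c_src _)
  rw [h2, det_Bp, Finset.abs_prod, Sys.Sn, Real.exp_sum]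
  refine Finset.prod_congr rfl fun l _ => ?_
  have e : S.g (f^[l] x) = Real.log |(DF S.φ f 1 (S.c (f^[l] x)) (S.c (f^[l + 1] x)) (f^[l] x)).det| := by
    rw [Function.iterate_succ_apply']
    rfl
  have hs : f^[1] (f^[l] x) ∈ (S.φ (S.c (f^[l + 1] x))).source := by
    have e1 : f^[1] (f^[l] x) = f^[l + 1] x := by
      rw [Function.iterate_succ_apply' f l x]
      rfl
    rw [e1]
    exact S.c_src _
  rw [e, Real.exp_log]
  exact abs_pos.mpr (S.inj 1 _ _ _ (S.c_src _) hs)

end Pool.AN
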