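import Pool.Agent.Work.MP_bd2638_an.Interface

/-!
# MP_bd2638_an, block EXP: two orbits which stay near are exponentially near in the middle
-/

set_option autoImplicit false

namespace Pool.AN

open Set Filter Topology Metric

/-- Growth and linearisation error along `k` steps. -/
lemma EXP_steps {d : ℕ} (A : ℕ → (EE d →L[ℝ] EE d)) (z : ℕ → EE d) (L η : ℝ) (m j : ℕ) (hL : 1 ≤ L) (hη : 0 < η) (hηL : η ≤ L)
    (hA : ∀ i < m, ‖A i‖ ≤ L) (hz : ∀ i < m, ‖z (i + 1) - A i (z i)‖ ≤ η * ‖z i‖) (k : ℕ) (hk : j + k ≤ m) :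
    ‖z (j + k)‖ ≤ (2 * L) ^ k * ‖z j‖ ∧ ‖z (j + k) - Bp (fun l => A (j + l)) k (z j)‖ ≤ k * (2 * L) ^ k * η * ‖z j‖ := by
  induction k with
  | zero => simp
  | succ k ih =>
    obtain ⟨h1, h2⟩ := ih (by omega)
    have hlt : j + k < m := by omega
    have h3 := hz (j + k) hlt
    have h4 := hA (j + k) hlt
    have hP : 0 ≤ (2 * L) ^ k := by positivity
    have hzj : 0 ≤ ‖z j‖ := norm_nonneg _
    have h5 : ‖z (j + k + 1) - A (j + k) (z (j + k))‖ ≤ η * ((2 * L) ^ k * ‖z j‖) :=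
      h3.trans (mul_le_mul_of_nonneg_left h1 hη.le)
    have h6 : ‖A (j + k) (z (j + k))‖ ≤ L * ((2 * L) ^ k * ‖z j‖) :=
      ((A (j + k)).le_opNorm _).trans (mul_le_mul h4 h1 (norm_nonneg _) (by linarith))
    have hzp : 0 ≤ (2 * L) ^ k * ‖z j‖ := mul_nonneg hP hzj
    constructor
    · have h7 : ‖z (j + k + 1)‖ ≤ ‖z (j + k + 1) - A (j + k) (z (j + k))‖ + ‖A (j + k) (z (j + k))‖ := by
        have := norm_add_le (z (j + k + 1) - A (j + k) (z (j + k))) (A (j + k) (z (j + k)))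
        rwa [sub_add_cancel] at this
      have h8 : (2 * L) ^ (k + 1) * ‖z j‖ = L * ((2 * L) ^ k * ‖z j‖) + L * ((2 * L) ^ k * ‖z j‖) := by ring
      have h9 : η * ((2 * L) ^ k * ‖z j‖) ≤ L * ((2 * L) ^ k * ‖z j‖) := mul_le_mul_of_nonneg_right hηL hzp
      rw [← add_assoc, h8]
      linarith
    · have h7 : Bp (fun l => A (j + l)) (k + 1) (z j) = A (j + k) (Bp (fun l => A (j + l)) k (z j)) := by
        rw [Bp_succ]; rfl
      have h8 : ‖A (j + k) (z (j + k) - Bp (fun l => A (j + l)) k (z j))‖ ≤ L * (k * (2 * L) ^ k * η * ‖z j‖) :=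
        ((A (j + k)).le_opNorm _).trans (mul_le_mul h4 h2 (norm_nonneg _) (by linarith))
      have h9 : z (j + k + 1) - A (j + k) (Bp (fun l => A (j + l)) k (z j)) = (z (j + k + 1) - A (j + k) (z (j + k))) +
          A (j + k) (z (j + k) - Bp (fun l => A (j + l)) k (z j)) := by
        rw [map_sub]; abel
      have h10 : ‖z (j + k + 1) - A (j + k) (Bp (fun l => A (j + l)) k (z j))‖ ≤
          η * ((2 * L) ^ k * ‖z j‖) + L * (k * (2 * L) ^ k * η * ‖z j‖) := by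
        rw [h9]
        exact (norm_add_le _ _).trans (add_le_add h5 h8)
      have h11 : ((k + 1 : ℕ) : ℝ) * (2 * L) ^ (k + 1) * η * ‖z j‖ = 2 * L * (η * ((2 * L) ^ k * ‖z j‖)) +
          2 * (L * (k * (2 * L) ^ k * η * ‖z j‖)) := by
        push_cast; ring
      have h12 : 0 ≤ η * ((2 * L) ^ k * ‖z j‖) := mul_nonneg hη.le hzp
      have h13 : 0 ≤ L * (k * (2 * L) ^ k * η * ‖z j‖) := by positivity
      have h14 : 1 * (η * ((2 * L) ^ k * ‖z j‖)) ≤ 2 * L * (η * ((2 * L) ^ k * ‖z j‖)) :=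
        mul_le_mul_of_nonneg_right (by linarith) h12
      rw [← add_assoc, h7, h11]
      linarith

/-- One block of hyperbolicity with a small error. -/
lemma EXP_block {d : ℕ} (Q0 Q1 B : EE d →L[ℝ] EE d) (L : ℝ) (v w : EE d) (hH : H8 Q0 Q1 B)
    (hQ : ∀ v : EE d, ‖Q1 v‖ ≤ L * ‖v‖ ∧ ‖v - Q1 v‖ ≤ L * ‖v‖) (hE : L * ‖w - B v‖ ≤ 1 / 8 * ‖v‖) :
    ‖w - Q1 w‖ ≤ 1 / 4 * (‖v - Q0 v‖ + ‖Q0 v‖) ∧ ‖Q0 v‖ ≤ 1 / 4 * (‖Q1 w‖ + ‖v - Q0 v‖) := by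
  obtain ⟨h1, h2⟩ := hH v
  obtain ⟨h3, h4⟩ := hQ (w - B v)
  have h5 : ‖v‖ ≤ ‖v - Q0 v‖ + ‖Q0 v‖ := by
    have := norm_add_le (v - Q0 v) (Q0 v)
    rwa [sub_add_cancel] at this
  constructor
  · have h6 : w - Q1 w = (B v - Q1 (B v)) + ((w - B v) - Q1 (w - B v)) := by
      rw [map_sub]; abel
    have h7 := norm_add_le (B v - Q1 (B v)) ((w - B v) - Q1 (w - B v))
    rw [← h6] at h7
    linarith
  · have h6 : Q1 (B v) = Q1 w - Q1 (w - B v) := by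
      rw [map_sub]; abel
    have h7 := norm_sub_le (Q1 w) (Q1 (w - B v))
    rw [← h6] at h7
    have h8 : 0 ≤ ‖Q0 v‖ := norm_nonneg _
    have h9 : 0 ≤ ‖v - Q0 v‖ := norm_nonneg _
    have h10 : 0 ≤ ‖Q1 w‖ := norm_nonneg _
    linarith

/-- The rate. -/
lemma EXP_rate (N : ℕ) (hN : 1 ≤ N) : 0 < 1 - 1 / (4 * (N : ℝ)) ∧ 1 - 1 / (4 * (N : ℝ)) < 1 ∧ 3 / 4 ≤ (1 - 1 / (4 * (N : ℝ))) ^ N := by
  have hN' : (1 : ℝ) ≤ N := by exact_mod_cast hN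
  have h1 : 0 < 1 / (4 * (N : ℝ)) := by positivity
  have h2 : 1 / (4 * (N : ℝ)) ≤ 1 / 4 := by
    apply one_div_le_one_div_of_le <;> linarith
  refine ⟨by linarith, by linarith, ?_⟩
  have h3 := one_add_mul_le_pow (a := -(1 / (4 * (N : ℝ)))) (by linarith) N
  have h4 : 1 + (N : ℝ) * -(1 / (4 * (N : ℝ))) = 3 / 4 := by
    field_simp
    norm_num
  rw [h4] at h3
  rwa [← sub_eq_add_neg] at h3

theorem p_EXP (h1 : Stmt_LER) (h2 : Stmt_HYP) (h3 : Stmt_MAX) : Stmt_EXP := by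
  intro d al M _ _ f S
  obtain ⟨N, L, δ₁, hN, hL, hδ₁, hP, hAL, hH⟩ := h2 d al M f S
  obtain ⟨hla0, hla1, hlaN⟩ := EXP_rate N hN
  have hN' : (1 : ℝ) ≤ N := by exact_mod_cast hN
  have hL0 : 0 < L := by linarith
  have hD : 0 < L * (N * (2 * L) ^ N) := by positivity
  set η : ℝ := min L (1 / (8 * (L * (N * (2 * L) ^ N)))) with hηdef
  have hη : 0 < η := lt_min hL0 (by positivity)
  have hηL : η ≤ L := min_le_left _ _
  have hη8 : L * (N * (2 * L) ^ N * η) ≤ 1 / 8 := by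
    have h5 : η ≤ 1 / (8 * (L * (N * (2 * L) ^ N))) := min_le_right _ _
    have h6 : L * (N * (2 * L) ^ N * η) = (L * (N * (2 * L) ^ N)) * η := by ring
    rw [h6]
    calc (L * (N * (2 * L) ^ N)) * η ≤ (L * (N * (2 * L) ^ N)) * (1 / (8 * (L * (N * (2 * L) ^ N)))) :=
          mul_le_mul_of_nonneg_left h5 hD.le
      _ = 1 / 8 := by field_simp
  obtain ⟨δ₂, r, hδ₂, hr, hler⟩ := h1 d al M f S η hη
  refine ⟨r, 8 / 3 * (L * r), 1 - 1 / (4 * (N : ℝ)), hr, by positivity, hla0, hla1, ?_⟩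
  intro x q m hq
  set z : ℕ → EE d := fun j => S.pos (f^[j] x) (f^[j] q) - S.pos (f^[j] x) (f^[j] x) with hzdef
  set A : ℕ → (EE d →L[ℝ] EE d) := fun j => S.A (f^[j] x) (f^[j + 1] x) with hAdef
  have hsucc : ∀ (j : ℕ) (y : M), f (f^[j] y) = f^[j + 1] y := fun j y => (Function.iterate_succ_apply' f j y).symm
  have hdist : ∀ (j : ℕ) (δ : ℝ), 0 < δ → dist (f (f^[j] x)) (f^[j + 1] x) ≤ δ := by
    intro j δ hδ
    rw [hsucc, dist_self]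
    exact hδ.le
  have hA : ∀ i < m, ‖A i‖ ≤ L := fun i _ => hAL _ _ (hdist i δ₁ hδ₁)
  have hzr : ∀ j ≤ m, ‖z j‖ ≤ r := fun j hj => (hq j hj).2
  have hz : ∀ i < m, ‖z (i + 1) - A i (z i)‖ ≤ η * ‖z i‖ := by
    intro i hi
    have h5 := (hler (f^[i] x) (f^[i + 1] x) (hdist i δ₂ hδ₂)).2 (S.pos (f^[i] x) (f^[i] q))
      (by rw [mem_closedBall, dist_eq_norm]; exact (hq i hi.le).2)
      (S.pos (f^[i] x) (f^[i] x)) (mem_closedBall_self hr.le)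
    rw [S.G_pos _ _ _ (hq i hi.le).1, S.G_pos _ _ _ (S.c_src _), hsucc, hsucc] at h5
    exact h5
  have hBlock : ∀ j, j + N ≤ m →
      ‖z (j + N) - S.P (f^[j + N] x) (z (j + N))‖ ≤ 1 / 4 * (‖z j - S.P (f^[j] x) (z j)‖ + ‖S.P (f^[j] x) (z j)‖) ∧
      ‖S.P (f^[j] x) (z j)‖ ≤ 1 / 4 * (‖S.P (f^[j + N] x) (z (j + N))‖ + ‖z j - S.P (f^[j] x) (z j)‖) := by
    intro j hj
    have h5 := hH (fun l => f^[j + l] x) (fun l _ => by
      show dist (f (f^[j + l] x)) (f^[j + (l + 1)] x) ≤ δ₁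
      exact hdist (j + l) δ₁ hδ₁)
    have h6 := (EXP_steps A z L η m j hL hη hηL hA hz N hj).2
    refine EXP_block _ _ (Bp (fun l => A (j + l)) N) L (z j) (z (j + N)) ?_ (hP _) ?_
    · exact h5
    · calc L * ‖z (j + N) - Bp (fun l => A (j + l)) N (z j)‖ ≤ L * (N * (2 * L) ^ N * η * ‖z j‖) :=
            mul_le_mul_of_nonneg_left h6 hL0.le
        _ = L * (N * (2 * L) ^ N * η) * ‖z j‖ := by ring
        _ ≤ 1 / 8 * ‖z j‖ := mul_le_mul_of_nonneg_right hη8 (norm_nonneg _)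
  have hmax := h3 N m (1 - 1 / (4 * (N : ℝ))) (L * r) (fun j => ‖z j - S.P (f^[j] x) (z j)‖) (fun j => ‖S.P (f^[j] x) (z j)‖)
    hN hla0 hla1 hlaN (fun j hj => ⟨norm_nonneg _, ((hP (f^[j] x) (z j)).2).trans (mul_le_mul_of_nonneg_left (hzr j hj) hL0.le),
      norm_nonneg _, ((hP (f^[j] x) (z j)).1).trans (mul_le_mul_of_nonneg_left (hzr j hj) hL0.le)⟩) hBlock
  intro j hj
  obtain ⟨h5, h6⟩ := hmax j hj
  have h7 : ‖z j‖ ≤ ‖z j - S.P (f^[j] x) (z j)‖ + ‖S.P (f^[j] x) (z j)‖ := by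
    have := norm_add_le (z j - S.P (f^[j] x) (z j)) (S.P (f^[j] x) (z j))
    rwa [sub_add_cancel] at this
  have h8 : ‖z j‖ ≤ 8 / 3 * (L * r) * ((1 - 1 / (4 * (N : ℝ))) ^ j + (1 - 1 / (4 * (N : ℝ))) ^ (m - j)) := by
    linarith
  exact h8

end Pool.AN
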