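import Pool.Agent.Work.MP_bd2638_an.Interface

set_option autoImplicit false

namespace Pool.AN

open Set Filter Topology Metric

lemma HYP_N (C be eta : ℝ) (_hC : 0 < C) (h0 : 0 < be) (h1 : be < 1) (h2 : 1 < eta) :
    ∃ N : ℕ, 1 ≤ N ∧ C * be ^ N ≤ 1 / 16 ∧ C * (eta ^ N)⁻¹ ≤ 1 / 16 := by
  have t1 : Tendsto (fun n : ℕ => C * be ^ n) atTop (𝓝 0) := by
    have := (tendsto_pow_atTop_nhds_zero_of_lt_one h0.le h1).const_mul C
    simpa using this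
  have t2 : Tendsto (fun n : ℕ => C * (eta ^ n)⁻¹) atTop (𝓝 0) := by
    have := (tendsto_pow_atTop_nhds_zero_of_lt_one (r := eta⁻¹) (by positivity)
      (inv_lt_one_of_one_lt₀ h2)).const_mul C
    simpa [inv_pow] using this
  have e1 := t1.eventually (eventually_le_nhds (show (0 : ℝ) < 1 / 16 by norm_num))
  have e2 := t2.eventually (eventually_le_nhds (show (0 : ℝ) < 1 / 16 by norm_num))
  obtain ⟨N, hN⟩ := ((e1.and e2).and (eventually_ge_atTop 1)).exists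
  exact ⟨N, hN.2, hN.1.1, hN.1.2⟩

/-- The perturbation of the hyperbolicity of `D`. -/
lemma HYP_core {d : ℕ} (Q0 Q1 Q' B D : EE d →L[ℝ] EE d) (L b κ : ℝ) (hκ : 0 ≤ κ)
    (hτ : κ * (L + b + 1) ≤ 1 / 32) (hD : ‖D‖ ≤ b + 1)
    (hQ1 : ∀ v, ‖Q1 v‖ ≤ L * ‖v‖ ∧ ‖v - Q1 v‖ ≤ L * ‖v‖)
    (hE : ‖B - D‖ ≤ κ) (hQ : ‖Q' - Q1‖ ≤ κ) (hL : 0 ≤ L)
    (hs : ∀ v, ‖D v - Q' (D v)‖ ≤ 1 / 16 * ‖v - Q0 v‖)
    (hu : ∀ v, ‖Q0 v‖ ≤ 1 / 16 * ‖Q' (D v)‖) : H8 Q0 Q1 B := by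
  intro v
  have hv : ‖v‖ ≤ ‖v - Q0 v‖ + ‖Q0 v‖ := by
    calc ‖v‖ = ‖(v - Q0 v) + Q0 v‖ := by rw [sub_add_cancel]
      _ ≤ _ := norm_add_le _ _
  have hEv : ‖(B - D) v‖ ≤ κ * ‖v‖ := (B - D).le_of_opNorm_le hE v
  have hDv : ‖D v‖ ≤ (b + 1) * ‖v‖ := D.le_of_opNorm_le hD v
  have hQv : ‖(Q' - Q1) (D v)‖ ≤ κ * ((b + 1) * ‖v‖) :=
    ((Q' - Q1).le_of_opNorm_le hQ (D v)).trans (mul_le_mul_of_nonneg_left hDv hκ)
  have h1 := (hQ1 ((B - D) v)).1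
  have h2 := (hQ1 ((B - D) v)).2
  have h1' : ‖Q1 ((B - D) v)‖ ≤ L * (κ * ‖v‖) := h1.trans (mul_le_mul_of_nonneg_left hEv hL)
  have h2' : ‖(B - D) v - Q1 ((B - D) v)‖ ≤ L * (κ * ‖v‖) :=
    h2.trans (mul_le_mul_of_nonneg_left hEv hL)
  have hB : B v = D v + (B - D) v := by simp
  have hτv : L * (κ * ‖v‖) + κ * ((b + 1) * ‖v‖) ≤ 1 / 32 * ‖v‖ := by
    calc L * (κ * ‖v‖) + κ * ((b + 1) * ‖v‖) = κ * (L + b + 1) * ‖v‖ := by ring
      _ ≤ 1 / 32 * ‖v‖ := mul_le_mul_of_nonneg_right hτ (norm_nonneg _)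
  have n1 := norm_nonneg (v - Q0 v)
  have n2 := norm_nonneg (Q0 v)
  constructor
  · have e : B v - Q1 (B v) = (D v - Q' (D v)) + ((Q' - Q1) (D v)) +
        ((B - D) v - Q1 ((B - D) v)) := by
      rw [hB, map_add, sub_apply Q' Q1]
      abel
    rw [e]
    have h3 := norm_add_le ((D v - Q' (D v)) + ((Q' - Q1) (D v))) ((B - D) v - Q1 ((B - D) v))
    have h4 := norm_add_le (D v - Q' (D v)) ((Q' - Q1) (D v))
    have h5 := hs v
    linarith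
  · have e : Q' (D v) = Q1 (B v) - Q1 ((B - D) v) + (Q' - Q1) (D v) := by
      rw [hB, map_add, sub_apply Q' Q1]
      abel
    have h3 := norm_add_le (Q1 (B v) - Q1 ((B - D) v)) ((Q' - Q1) (D v))
    have h4 := norm_sub_le (Q1 (B v)) (Q1 ((B - D) v))
    have h5 := hu v
    rw [e] at h5
    have n3 := norm_nonneg (Q1 (B v))
    linarith

theorem p_HYP (hBND : Stmt_BND) (hONE : Stmt_ONE) (hNST : Stmt_NST) : Stmt_HYP := by
  intro d al M _ _ f S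
  obtain ⟨L1, hL1, hB1⟩ := hBND d al M f S
  obtain ⟨δ1, r, L2, H, hδ1, hr, hL2, _, hone, _⟩ := hONE d al M f S
  obtain ⟨N, hN, hN1, hN2⟩ := HYP_N S.C S.be S.eta S.hC S.hbe0 S.hbe S.heta
  set L := max L1 L2 with hLdef
  have hL : 1 ≤ L := hL1.trans (le_max_left _ _)
  have hL0 : 0 ≤ L := by linarith
  have hLN : 1 ≤ L ^ N := one_le_pow₀ hL
  have hBL : ∀ (x : M) (v : EE d), ‖S.P x v‖ ≤ L * ‖v‖ ∧ ‖v - S.P x v‖ ≤ L * ‖v‖ := by
    intro x v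
    have := hB1 x v
    have h2 : L1 * ‖v‖ ≤ L * ‖v‖ :=
      mul_le_mul_of_nonneg_right (le_max_left _ _) (norm_nonneg _)
    exact ⟨this.1.trans h2, this.2.trans h2⟩
  have hAL : ∀ x y : M, dist (f x) y ≤ δ1 → ‖S.A x y‖ ≤ L := by
    intro x y hxy
    have h := hone x y hxy (S.pos x x) (mem_closedBall_self hr.le)
    rw [S.A_eq]
    exact h.2.2.2.1.trans (le_max_right _ _)
  set κ : ℝ := 1 / (64 * L * (L ^ N + 2)) with hκdef
  have hden : 0 < 64 * L * (L ^ N + 2) := by positivity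
  have hκ : 0 < κ := by positivity
  have hτ : κ * (L + L ^ N + 1) ≤ 1 / 32 := by
    rw [hκdef, one_div, inv_mul_le_iff₀ hden]
    nlinarith [mul_nonneg (sub_nonneg.2 hL) (sub_nonneg.2 hLN)]
  have hκ1 : κ ≤ 1 := by
    nlinarith
  obtain ⟨δ2, hδ2, hnst⟩ := hNST d al M f S N κ hκ
  refine ⟨N, L, min δ1 δ2, hN, hL, lt_min hδ1 hδ2, hBL,
    fun x y hxy => hAL x y (hxy.trans (min_le_left _ _)), ?_⟩
  intro x hx
  obtain ⟨hV, hBD, hQQ⟩ := hnst x (fun l hl => (hx l hl).trans (min_le_right _ _))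
  set B := Bp (fun l => S.A (x l) (x (l + 1))) N with hBdef
  set D := DF S.φ f N (S.c (x 0)) (S.c (x N)) (x 0) with hDdef
  have hV0 : x 0 ∈ S.V (S.c (x 0)) := S.c_V (x 0)
  have hBn : ‖B‖ ≤ L ^ N :=
    norm_Bp_le _ L hL0 N (fun l hl => hAL _ _ ((hx l hl).trans (min_le_left _ _)))
  have hDn : ‖D‖ ≤ L ^ N + 1 := by
    have : D = B - (B - D) := by abel
    rw [this]
    exact (norm_sub_le _ _).trans (by linarith)
  have hP : ∀ v, S.P (x 0) (S.P (x 0) v) = S.P (x 0) v := by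
    intro v
    have := congrArg (fun T : EE d →L[ℝ] EE d => T v) (S.Qp (S.c (x 0)) (x 0) hV0)
    exact this
  have hQe : ∀ v, S.Q (S.c (x N)) (f^[N] (x 0)) (D v) = D (S.P (x 0) v) := by
    intro v
    have := congrArg (fun T : EE d →L[ℝ] EE d => T v)
      (S.Qe N (S.c (x 0)) (S.c (x N)) (x 0) hV0 hV)
    exact this
  refine HYP_core (S.P (x 0)) (S.P (x N)) (S.Q (S.c (x N)) (f^[N] (x 0))) B D L (L ^ N) κ hκ.le
    hτ hDn (hBL (x N)) hBD hQQ hL0 ?_ ?_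
  · intro v
    rw [hQe, ← map_sub]
    have h0 : S.P (x 0) (v - S.P (x 0) v) = 0 := by
      rw [map_sub, hP, sub_self]
    have h1 := S.hs N (S.c (x 0)) (S.c (x N)) (x 0) (v - S.P (x 0) v) hV0 hV h0
    exact h1.trans (mul_le_mul_of_nonneg_right hN1 (norm_nonneg _))
  · intro v
    rw [hQe]
    have h1 := S.hu N (S.c (x 0)) (S.c (x N)) (x 0) (S.P (x 0) v) hV0 hV (hP v)
    have hη : 0 < S.eta ^ N := by
      have := S.heta
      positivity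
    have h2 : ‖S.P (x 0) v‖ ≤ S.C * (S.eta ^ N)⁻¹ * ‖D (S.P (x 0) v)‖ := by
      have h3 : ‖S.P (x 0) v‖ = S.C * (S.eta ^ N)⁻¹ * (S.C⁻¹ * S.eta ^ N * ‖S.P (x 0) v‖) := by
        have := S.hC.ne'
        field_simp
      rw [h3]
      have h4 := S.hC
      exact mul_le_mul_of_nonneg_left h1 (by positivity)
    exact h2.trans (mul_le_mul_of_nonneg_right hN2 (norm_nonneg _))

end Pool.AN
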