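import Pool.Agent.Work.MP_bd2638_an.Interface

/-!
# MP_bd2638_an, THEOREM AN, block LER: linearisation error of one step
-/

set_option autoImplicit false

namespace Pool.AN

open Set Filter Topology Metric

/-- Block LER. -/
theorem p_LER (h1 : Stmt_ONE) : Stmt_LER := by
  intro d al M _ _ f S κ hκ
  obtain ⟨δ, r0, L, H, hδ, hr0, _, _, hA, hB⟩ := h1 d al M f S
  obtain ⟨s, hs, hB'⟩ := hB κ hκ
  refine ⟨δ, min r0 s, hδ, lt_min hr0 hs, fun x y hxy => ⟨fun u hu => ?_, fun u hu v hv => ?_⟩⟩
  · have := hA x y hxy u (closedBall_subset_closedBall (min_le_left _ _) hu)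
    exact ⟨this.1, this.2.1⟩
  · have hconv : Convex ℝ (closedBall (S.pos x x) (min r0 s)) := convex_closedBall _ _
    have hpos : S.pos x x ∈ closedBall (S.pos x x) r0 := mem_closedBall_self hr0.le
    have hder : ∀ w ∈ closedBall (S.pos x x) (min r0 s),
        HasFDerivWithinAt (fun w => S.G x y w - S.A x y w) (fderiv ℝ (S.G x y) w - S.A x y)
          (closedBall (S.pos x x) (min r0 s)) w := by
      intro w hw
      have hd := (hA x y hxy w (closedBall_subset_closedBall (min_le_left _ _) hw)).2.2.1
      exact (hd.hasFDerivAt.sub (S.A x y).hasFDerivAt).hasFDerivWithinAt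
    have hbound : ∀ w ∈ closedBall (S.pos x x) (min r0 s), ‖fderiv ℝ (S.G x y) w - S.A x y‖ ≤ κ := by
      intro w hw
      rw [S.A_eq]
      refine hB' x y hxy w (closedBall_subset_closedBall (min_le_left _ _) hw) _ hpos ?_
      have := mem_closedBall.mp hw
      rw [dist_eq_norm] at this
      exact this.trans (min_le_right _ _)
    have := hconv.norm_image_sub_le_of_norm_hasFDerivWithin_le hder hbound hv hu
    have heq : S.G x y u - S.A x y u - (S.G x y v - S.A x y v) = S.G x y u - S.G x y v - S.A x y (u - v) := by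
      rw [map_sub]; abel
    rw [heq] at this
    exact this

end Pool.AN
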