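import Pool.Agent.Work.MP_bd2638_an.Interface

/-! # MP_bd2638_an, THEOREM AN: the a priori estimate of the cyclic equation (LIN) -/

set_option autoImplicit false

namespace Pool.AN

open Set Filter Topology Metric

/-- the defect after `k` steps -/
theorem LIN_defect {d n : ℕ} {L c : ℝ} (hL : 1 ≤ L) (hc : 0 ≤ c) (A : ZMod n → (EE d →L[ℝ] EE d))
    (hA : ∀ j, ‖A j‖ ≤ L) (v : ZMod n → EE d) (hv : ∀ j, ‖v (j + 1) - A j (v j)‖ ≤ c) (j : ZMod n) (k : ℕ) :
    ‖v (j + (k : ZMod n)) - Bp (fun l => A (j + (l : ZMod n))) k (v j)‖ ≤ k * L ^ k * c := by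
  induction k with
  | zero => simp
  | succ k ih =>
    have h1 : v (j + ((k + 1 : ℕ) : ZMod n)) - Bp (fun l => A (j + (l : ZMod n))) (k + 1) (v j) =
        (v (j + (k : ZMod n) + 1) - A (j + (k : ZMod n)) (v (j + (k : ZMod n)))) +
          A (j + (k : ZMod n)) (v (j + (k : ZMod n)) - Bp (fun l => A (j + (l : ZMod n))) k (v j)) := by
      rw [Bp_succ, map_sub, Nat.cast_succ, ← add_assoc]
      simp only [ContinuousLinearMap.comp_apply]
      abel
    rw [h1]
    have h2 : ‖A (j + (k : ZMod n)) (v (j + (k : ZMod n)) - Bp (fun l => A (j + (l : ZMod n))) k (v j))‖ ≤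
        L * (k * L ^ k * c) :=
      ((A (j + (k : ZMod n))).le_opNorm _).trans
        (mul_le_mul (hA _) ih (norm_nonneg _) (by linarith))
    have h3 : (1 : ℝ) ≤ L ^ (k + 1) := one_le_pow₀ hL
    calc _ ≤ c + L * (k * L ^ k * c) := (norm_add_le _ _).trans (add_le_add (hv _) h2)
      _ ≤ L ^ (k + 1) * c + L * (k * L ^ k * c) := by
        have := mul_le_mul_of_nonneg_right h3 hc
        linarith
      _ = ((k + 1 : ℕ) : ℝ) * L ^ (k + 1) * c := by
        push_cast
        ring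

theorem p_LIN : Stmt_LIN := by
  intro d N L hN hL
  have hN' : (1 : ℝ) ≤ N := by exact_mod_cast hN
  have hLN : (1 : ℝ) ≤ L ^ N := one_le_pow₀ hL
  refine ⟨3 * (L * (N * L ^ N)), by positivity, ?_⟩
  intro n _ A Q hA hQ hH v c hv j
  have hc : 0 ≤ c := (norm_nonneg _).trans (hv 0)
  let e : ZMod n → EE d := fun j => v (j + (N : ZMod n)) - Bp (fun l => A (j + (l : ZMod n))) N (v j)
  have he : ∀ j, ‖e j‖ ≤ N * L ^ N * c := fun j => LIN_defect hL hc A hA v hv j N
  obtain ⟨js, hs⟩ := Finite.exists_max fun j : ZMod n => ‖v j - Q j (v j)‖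
  obtain ⟨ju, hu⟩ := Finite.exists_max fun j : ZMod n => ‖Q j (v j)‖
  have hdec : ∀ j, v (j + (N : ZMod n)) = Bp (fun l => A (j + (l : ZMod n))) N (v j) + e j := by
    intro j
    simp only [e]
    abel
  have ht : ∀ j, L * ‖e j‖ ≤ L * (N * L ^ N * c) := fun j =>
    mul_le_mul_of_nonneg_left (he j) (by linarith)
  -- the stable part
  have h1 : ∀ j, ‖v (j + (N : ZMod n)) - Q (j + (N : ZMod n)) (v (j + (N : ZMod n)))‖ ≤
      1 / 8 * (‖v j - Q j (v j)‖ + ‖Q j (v j)‖) + L * (N * L ^ N * c) := by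
    intro j
    have h2 : v (j + (N : ZMod n)) - Q (j + (N : ZMod n)) (v (j + (N : ZMod n))) =
        (Bp (fun l => A (j + (l : ZMod n))) N (v j) -
          Q (j + (N : ZMod n)) (Bp (fun l => A (j + (l : ZMod n))) N (v j))) +
        (e j - Q (j + (N : ZMod n)) (e j)) := by
      rw [hdec j, map_add]
      abel
    rw [h2]
    exact (norm_add_le _ _).trans (add_le_add ((hH j) (v j)).1 (((hQ _ _).2).trans (ht j)))
  -- the unstable part
  have h3 : ∀ j, ‖Q j (v j)‖ ≤
      1 / 8 * (‖Q (j + (N : ZMod n)) (v (j + (N : ZMod n)))‖ + L * (N * L ^ N * c) + ‖v j - Q j (v j)‖) := by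
    intro j
    refine ((hH j) (v j)).2.trans ?_
    have h4 : Q (j + (N : ZMod n)) (Bp (fun l => A (j + (l : ZMod n))) N (v j)) =
        Q (j + (N : ZMod n)) (v (j + (N : ZMod n))) - Q (j + (N : ZMod n)) (e j) := by
      rw [hdec j, map_add]
      abel
    have h5 : ‖Q (j + (N : ZMod n)) (Bp (fun l => A (j + (l : ZMod n))) N (v j))‖ ≤
        ‖Q (j + (N : ZMod n)) (v (j + (N : ZMod n)))‖ + L * (N * L ^ N * c) := by
      rw [h4]
      exact (norm_sub_le _ _).trans (add_le_add le_rfl (((hQ _ _).1).trans (ht j)))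
    linarith
  have h6 := h1 (js - (N : ZMod n))
  rw [sub_add_cancel] at h6
  have h7 := h3 ju
  have h8 := hs (js - (N : ZMod n))
  have h9 := hu (js - (N : ZMod n))
  have h10 := hu (ju + (N : ZMod n))
  have h11 := hs ju
  have h12 := hs j
  have h13 := hu j
  have h14 : ‖v j‖ ≤ ‖v j - Q j (v j)‖ + ‖Q j (v j)‖ := by
    have := norm_add_le (v j - Q j (v j)) (Q j (v j))
    rwa [sub_add_cancel] at this
  have h15 : 0 ≤ L * (N * L ^ N * c) := by positivity
  have h16 : 3 * (L * (N * L ^ N)) * c = 3 * (L * (N * L ^ N * c)) := by ring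
  rw [h16]
  linarith

end Pool.AN
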