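import Pool.Agent.Work.MP_bd2638_an.Interface

/-!
# Block MAX: discrete maximum principle (helper48)
-/

set_option autoImplicit false

namespace Pool.AN

open Set Filter Topology Metric

theorem MAX_W {N m : ℕ} {la : ℝ} (hla : 0 < la) (hla1 : la < 1) (hN : 3 / 4 ≤ la ^ N) (j : ℕ) (hj : j + N ≤ m) :
    la ^ j + la ^ (m - j) ≤ 4 / 3 * (la ^ (j + N) + la ^ (m - (j + N))) ∧
    la ^ (j + N) + la ^ (m - (j + N)) ≤ 4 / 3 * (la ^ j + la ^ (m - j)) := by
  have h1 : la ^ (j + N) = la ^ j * la ^ N := pow_add _ _ _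
  have h2 : la ^ (m - j) = la ^ (m - (j + N)) * la ^ N := by
    rw [← pow_add]
    congr 1
    omega
  have h3 : la ^ N ≤ 1 := pow_le_one₀ hla.le hla1.le
  have h4 : 0 < la ^ j := pow_pos hla _
  have h5 : 0 < la ^ (m - (j + N)) := pow_pos hla _
  rw [h1, h2]
  constructor
  · nlinarith
  · nlinarith

theorem p_MAX : Stmt_MAX := by
  intro N m la ρ a b hN hla hla1 hlaN hab hstep
  have hW : ∀ j, 0 < la ^ j + la ^ (m - j) := fun j => add_pos (pow_pos hla _) (pow_pos hla _)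
  have hρ : 0 ≤ ρ := (hab 0 (Nat.zero_le _)).1.trans (hab 0 (Nat.zero_le _)).2.1
  obtain ⟨j0, hj0, hmax⟩ := Finset.exists_max_image (Finset.range (m + 1))
    (fun j => max (a j) (b j) / (la ^ j + la ^ (m - j))) ⟨0, Finset.mem_range.2 (Nat.succ_pos _)⟩
  have hj0m : j0 ≤ m := Nat.lt_succ_iff.1 (Finset.mem_range.1 hj0)
  set μ := max (a j0) (b j0) / (la ^ j0 + la ^ (m - j0)) with hμ
  have hle : ∀ j ≤ m, a j ≤ μ * (la ^ j + la ^ (m - j)) ∧ b j ≤ μ * (la ^ j + la ^ (m - j)) := by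
    intro j hj
    have h1 := hmax j (Finset.mem_range.2 (Nat.lt_succ_iff.2 hj))
    have h2 : max (a j) (b j) ≤ μ * (la ^ j + la ^ (m - j)) := (div_le_iff₀ (hW j)).1 h1
    exact ⟨(le_max_left _ _).trans h2, (le_max_right _ _).trans h2⟩
  have heq : max (a j0) (b j0) = μ * (la ^ j0 + la ^ (m - j0)) := by
    rw [hμ, div_mul_cancel₀ _ (hW j0).ne']
  have hμρ : μ ≤ 4 / 3 * ρ := by
    rcases le_or_gt μ 0 with h0 | h0
    · linarith
    have hsmall : 3 / 4 ≤ la ^ j0 + la ^ (m - j0) → max (a j0) (b j0) ≤ ρ → μ ≤ 4 / 3 * ρ := by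
      intro h1 h2
      rw [heq] at h2
      nlinarith
    have hmaxρ : max (a j0) (b j0) ≤ ρ := max_le (hab j0 hj0m).2.1 (hab j0 hj0m).2.2.2
    rcases max_choice (a j0) (b j0) with hc | hc
    · rcases Nat.lt_or_ge j0 N with hjN | hjN
      · refine hsmall ?_ hmaxρ
        have h1 : la ^ N ≤ la ^ j0 := pow_le_pow_of_le_one hla.le hla1.le hjN.le
        have h2 : 0 < la ^ (m - j0) := pow_pos hla _
        linarith
      · exfalso
        obtain ⟨k, rfl⟩ := Nat.exists_eq_add_of_le' hjN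
        have h1 := (hstep k hj0m).1
        have h2 := hle k (by omega)
        have h3 := (MAX_W hla hla1 hlaN k hj0m).1
        rw [heq] at hc
        have h4 : μ * (la ^ k + la ^ (m - k)) ≤ μ * (4 / 3 * (la ^ (k + N) + la ^ (m - (k + N)))) :=
          mul_le_mul_of_nonneg_left h3 h0.le
        have h5 : 0 < μ * (la ^ (k + N) + la ^ (m - (k + N))) := mul_pos h0 (hW _)
        linarith
    · rcases Nat.lt_or_ge m (j0 + N) with hjN | hjN
      · refine hsmall ?_ hmaxρ
        have h1 : la ^ N ≤ la ^ (m - j0) := pow_le_pow_of_le_one hla.le hla1.le (by omega)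
        have h2 : 0 < la ^ j0 := pow_pos hla _
        linarith
      · exfalso
        have h1 := (hstep j0 hjN).2
        have h2 := hle (j0 + N) hjN
        have h2' := hle j0 hj0m
        have h3 := (MAX_W hla hla1 hlaN j0 hjN).2
        rw [heq] at hc
        have h4 : μ * (la ^ (j0 + N) + la ^ (m - (j0 + N))) ≤ μ * (4 / 3 * (la ^ j0 + la ^ (m - j0))) :=
          mul_le_mul_of_nonneg_left h3 h0.le
        have h5 : 0 < μ * (la ^ j0 + la ^ (m - j0)) := mul_pos h0 (hW _)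
        linarith
  intro j hj
  have h1 := hle j hj
  have h2 : μ * (la ^ j + la ^ (m - j)) ≤ 4 / 3 * ρ * (la ^ j + la ^ (m - j)) :=
    mul_le_mul_of_nonneg_right hμρ (hW j).le
  exact ⟨h1.1.trans h2, h1.2.trans h2⟩

end Pool.AN
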