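import Pool.Agent.Work.MP_bd2638_an.Interface

/-! THEOREM AN, block MEA (helper4). -/

set_option autoImplicit false

namespace Pool.AN

open Set Filter Topology Metric MeasureTheory

theorem p_MEA : Stmt_MEA := by
  intro M _ mu _ T g C hg h1 h2
  set j : M → ENNReal := fun x => ENNReal.ofReal (Real.exp (g x)) with hj
  have hjm : Measurable j := (Real.measurable_exp.comp hg).ennreal_ofReal
  have hj0 : ∀ x, j x ≠ 0 := fun x => by
    rw [hj]
    exact (ENNReal.ofReal_pos.2 (Real.exp_pos _)).ne'
  have hjt : ∀ x, j x ≠ ⊤ := fun x => ENNReal.ofReal_ne_top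
  set J : ℕ → M → ENNReal := fun n x => ENNReal.ofReal (Real.exp (∑ l ∈ Finset.range n, g (T^[l] x))) with hJ
  have hJ0 : ∀ x, J 0 x = 1 := fun x => by simp [hJ]
  have hJs : ∀ n x, J (n + 1) x = j x * J n (T x) := by
    intro n x
    simp only [hJ, hj]
    rw [← ENNReal.ofReal_mul (Real.exp_pos _).le, ← Real.exp_add, Finset.sum_range_succ', add_comm]
    simp only [Function.iterate_succ_apply, Function.iterate_zero_apply]
  have hJs' : ∀ n x, J (n + 1) x = J n x * j (T^[n] x) := by
    intro n x
    simp only [hJ, hj]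
    rw [← ENNReal.ofReal_mul (Real.exp_pos _).le, ← Real.exp_add, Finset.sum_range_succ]
  have hJm : ∀ n, Measurable (J n) := by
    intro n
    refine (Real.measurable_exp.comp ?_).ennreal_ofReal
    refine Finset.measurable_sum _ fun l _ => hg.comp ?_
    exact T.measurable.iterate l
  have hJl : ∀ n x, ENNReal.ofReal (Real.exp (-C)) ≤ J n x := fun n x =>
    ENNReal.ofReal_le_ofReal (Real.exp_le_exp.2 (h2 n x))
  -- change of variables
  have hmap : mu.map T.symm = mu.withDensity j := by
    refine Measure.ext fun B hB => ?_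
    rw [T.symm.map_apply, withDensity_apply _ hB, ← h1 B hB]
    congr 1
    ext y
    constructor
    · intro hy
      exact ⟨T.symm y, hy, T.apply_symm_apply y⟩
    · rintro ⟨x, hx, rfl⟩
      show T.symm (T x) ∈ B
      rwa [T.symm_apply_apply]
  have hA : ∀ h : M → ENNReal, Measurable h → ∫⁻ y, h y ∂mu = ∫⁻ x, h (T x) * j x ∂mu := by
    intro h hh
    have e1 : ∫⁻ x, h (T x) ∂(mu.map T.symm) = ∫⁻ y, h y ∂mu := by
      rw [lintegral_map_equiv]
      refine lintegral_congr fun y => ?_
      rw [T.apply_symm_apply]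
    have e2 : ∫⁻ x, h (T x) ∂(mu.withDensity j) = ∫⁻ x, (j * fun x => h (T x)) x ∂mu :=
      lintegral_withDensity_eq_lintegral_mul mu hjm (g := fun x => h (T x)) (hh.comp T.measurable)
    rw [← e1, hmap, e2]
    refine lintegral_congr fun x => ?_
    exact mul_comm _ _
  -- the density
  set U : M → ENNReal := fun x => ⨅ n, J n x with hU
  have hUm : Measurable U := Measurable.iInf hJm
  have hU1 : ∀ x, U x ≤ 1 := fun x => (iInf_le _ 0).trans (hJ0 x).le
  have hUl : ∀ x, ENNReal.ofReal (Real.exp (-C)) ≤ U x := fun x => le_iInf fun n => hJl n x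
  have hUT : ∀ x, U x ≤ U (T x) * j x := by
    intro x
    have e : U (T x) * j x = ⨅ n, J (n + 1) x := by
      rw [mul_comm]
      simp only [hU]
      rw [ENNReal.mul_iInf_of_ne (hj0 x) (hjt x)]
      refine iInf_congr fun n => ?_
      rw [hJs]
    rw [e]
    exact le_iInf fun n => iInf_le _ (n + 1)
  have hfin : ∫⁻ x, U x ∂mu ≠ ⊤ := by
    refine ne_top_of_le_ne_top (b := ∫⁻ _, 1 ∂mu) ?_ (lintegral_mono hU1)
    rw [lintegral_const, one_mul]
    exact measure_ne_top _ _
  have hae : U =ᵐ[mu] fun x => U (T x) * j x := by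
    refine ae_eq_of_ae_le_of_lintegral_le (Eventually.of_forall hUT) hfin
      ((hUm.comp T.measurable).mul hjm).aemeasurable ?_
    exact (hA U hUm).symm.le
  -- quasi-invariance
  have hQ : Measure.QuasiMeasurePreserving T mu mu := by
    refine ⟨T.measurable, Measure.AbsolutelyContinuous.mk fun N hN h0 => ?_⟩
    rw [T.map_apply]
    have e := hA (N.indicator fun _ => 1) (measurable_const.indicator hN)
    rw [lintegral_indicator hN, setLIntegral_const, one_mul, h0] at e
    have hm : Measurable fun x => (N.indicator (fun _ => (1 : ENNReal)) (T x)) * j x :=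
      ((measurable_const.indicator hN).comp T.measurable).mul hjm
    have e2 := (lintegral_eq_zero_iff hm).1 e.symm
    have e3 : ∀ᵐ x ∂mu, x ∉ T ⁻¹' N := by
      filter_upwards [e2] with x hx hxN
      have hx' : N.indicator (fun _ => (1 : ENNReal)) (T x) * j x = 0 := hx
      rw [indicator_of_mem (show T x ∈ N from hxN), one_mul] at hx'
      exact hj0 x hx'
    have e4 := ae_iff.1 e3
    have e5 : {x | ¬ x ∉ T ⁻¹' N} = T ⁻¹' N := by
      ext x
      exact not_not
    rwa [e5] at e4
  have hall : ∀ n : ℕ, ∀ᵐ x ∂mu, U (T^[n] x) = U (T (T^[n] x)) * j (T^[n] x) := fun n =>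
    (hQ.iterate n).ae hae
  have hind : ∀ n : ℕ, ∀ᵐ x ∂mu, U (T^[n] x) * J n x = U x := by
    intro n
    induction n with
    | zero => exact Eventually.of_forall fun x => by rw [hJ0, mul_one]; rfl
    | succ n ih =>
      filter_upwards [ih, hall n] with x hx hx'
      rw [Function.iterate_succ_apply', hJs', ← hx]
      conv_rhs => rw [hx']
      ring
  refine ⟨mu.withDensity U, isFiniteMeasure_withDensity hfin, ⟨T.measurable, ?_⟩, ?_, ?_⟩
  · refine Measure.ext fun B hB => ?_
    rw [T.map_apply, withDensity_apply _ (T.measurable hB), withDensity_apply _ hB]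
    have e := hA (B.indicator U) (hUm.indicator hB)
    rw [← lintegral_indicator hB, e, ← lintegral_indicator (T.measurable hB)]
    refine lintegral_congr_ae ?_
    filter_upwards [hae] with x hx
    by_cases hxB : T x ∈ B
    · rw [indicator_of_mem (show x ∈ T ⁻¹' B from hxB), indicator_of_mem hxB, hx]
    · rw [indicator_of_notMem (show x ∉ T ⁻¹' B from hxB), indicator_of_notMem hxB, zero_mul]
  · refine withDensity_absolutelyContinuous' hUm.aemeasurable (Eventually.of_forall fun x => ?_)
    exact ((ENNReal.ofReal_pos.2 (Real.exp_pos _)).trans_le (hUl x)).ne'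
  · intro n
    filter_upwards [hind n] with x hx
    have e1 : ENNReal.ofReal (Real.exp (-C)) * J n x ≤ 1 := by
      calc ENNReal.ofReal (Real.exp (-C)) * J n x ≤ U (T^[n] x) * J n x := by gcongr; exact hUl _
        _ = U x := hx
        _ ≤ 1 := hU1 x
    simp only [hJ] at e1
    rw [← ENNReal.ofReal_mul (Real.exp_pos _).le, ← Real.exp_add, ENNReal.ofReal_le_one, Real.exp_le_one_iff] at e1
    have e2 := h2 n x
    rw [abs_le]
    have e3 := le_abs_self C
    constructor <;> linarith

end Pool.AN
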