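import Pool.Agent.Work.MP_bd2638_an.Interface
set_option autoImplicit false
namespace Pool.AN
open Set Filter Topology Metric

theorem MEB_sum {M : Type} [MeasurableSpace M] (T : M ≃ᵐ M) (g : M → ℝ) (n : ℕ) (x : M) :
    ∑ l ∈ Finset.range n, (fun z => -g (T.symm z)) (T.symm^[l] x) = -∑ l ∈ Finset.range n, g (T^[l] (T.symm^[n] x)) := by
  induction n with
  | zero => simp
  | succ n ih =>
    rw [Finset.sum_range_succ, ih, Finset.sum_range_succ' (fun l => g (T^[l] (T.symm^[n + 1] x)))]
    have h1 : ∀ l : ℕ, T^[l + 1] (T.symm^[n + 1] x) = T^[l] (T.symm^[n] x) := by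
      intro l
      rw [Function.iterate_succ_apply, Function.iterate_succ_apply', MeasurableEquiv.apply_symm_apply]
    simp only [h1]
    rw [Function.iterate_zero_apply, Function.iterate_succ_apply' T.symm n x]
    ring

theorem MEB_key {M : Type} [MeasurableSpace M] (mu : MeasureTheory.Measure M) (T : M ≃ᵐ M) (g : M → ℝ) (hg : Measurable g)
    (h : ∀ B, MeasurableSet B → mu (T '' B) = ∫⁻ x in B, ENNReal.ofReal (Real.exp (g x)) ∂mu) (B : Set M) (hB : MeasurableSet B) :
    mu (T.symm '' B) = ∫⁻ x in B, ENNReal.ofReal (Real.exp (-g (T.symm x))) ∂mu := by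
  have hJ : Measurable fun x => ENNReal.ofReal (Real.exp (g x)) := (Real.measurable_exp.comp hg).ennreal_ofReal
  have hmap : mu.map T.symm = mu.withDensity fun x => ENNReal.ofReal (Real.exp (g x)) := by
    ext A hA
    rw [MeasureTheory.Measure.map_apply T.symm.measurable hA, MeasureTheory.withDensity_apply _ hA, ← h A hA]
    congr 1
    ext z
    constructor
    · intro hz
      exact ⟨T.symm z, hz, T.apply_symm_apply z⟩
    · rintro ⟨w, hw, rfl⟩
      simpa using hw
  have hmap2 : mu = (mu.withDensity fun x => ENNReal.ofReal (Real.exp (g x))).map T := by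
    rw [← hmap, MeasureTheory.Measure.map_map T.measurable T.symm.measurable]
    have : (T : M → M) ∘ T.symm = id := by
      ext z
      exact T.apply_symm_apply z
    rw [this, MeasureTheory.Measure.map_id]
  have h3 : (∫⁻ x in B, ENNReal.ofReal (Real.exp (-g (T.symm x))) ∂((mu.withDensity fun x => ENNReal.ofReal (Real.exp (g x))).map T)) =
      mu (T ⁻¹' B) := by
    rw [MeasurableEquiv.restrict_map, MeasureTheory.lintegral_map_equiv, MeasureTheory.restrict_withDensity (T.measurable hB),
      MeasureTheory.lintegral_withDensity_eq_lintegral_mul _ hJ]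
    · have h4 : ((fun x => ENNReal.ofReal (Real.exp (g x))) * fun a => ENNReal.ofReal (Real.exp (-g (T.symm (T a))))) = fun _ => 1 := by
        ext a
        rw [Pi.mul_apply, MeasurableEquiv.symm_apply_apply, ← ENNReal.ofReal_mul (Real.exp_pos _).le, ← Real.exp_add, add_neg_cancel,
          Real.exp_zero, ENNReal.ofReal_one]
      rw [h4]
      simp
    · simp only [MeasurableEquiv.symm_apply_apply]
      exact (Real.measurable_exp.comp hg.neg).ennreal_ofReal
  rw [← hmap2] at h3
  rw [h3]
  congr 1
  ext z
  constructor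
  · rintro ⟨w, hw, rfl⟩
    simpa using hw
  · intro hz
    exact ⟨T z, hz, T.symm_apply_apply z⟩

theorem p_MEB (hMEA : Stmt_MEA) : Stmt_MEB := by
  intro M _ mu _ T g C hg h hC
  have key := MEB_key mu T g hg h
  have hg' : Measurable fun z => -g (T.symm z) := (hg.comp T.symm.measurable).neg
  obtain ⟨nu, hf, hp, hac, hae⟩ := hMEA M mu T.symm (fun z => -g (T.symm z)) C hg' key (by
    intro n x
    rw [MEB_sum]
    exact neg_le_neg (hC n _))
  refine ⟨nu, hf, ?_, hac, ?_⟩
  · have := hp.symm T.symm
    simpa using this
  · intro n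
    have hq : MeasureTheory.Measure.QuasiMeasurePreserving T mu mu := by
      refine ⟨T.measurable, MeasureTheory.Measure.AbsolutelyContinuous.mk fun B hB h0 => ?_⟩
      rw [MeasureTheory.Measure.map_apply T.measurable hB]
      have h1 : T ⁻¹' B = T.symm '' B := by
        ext z
        constructor
        · intro hz
          exact ⟨T z, hz, T.symm_apply_apply z⟩
        · rintro ⟨w, hw, rfl⟩
          simpa using hw
      rw [h1, key B hB]
      exact MeasureTheory.setLIntegral_measure_zero B _ h0
    have h2 := (hq.iterate n).ae (hae n)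
    filter_upwards [h2] with y hy
    rw [MEB_sum, abs_neg] at hy
    have h3 : T.symm^[n] (T^[n] y) = y := by
      have : Function.LeftInverse T.symm T := T.symm_apply_apply
      exact this.iterate n y
    rwa [h3] at hy

end Pool.AN
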