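import Pool.Agent.Work.MP_bd2638_an.Interface

set_option autoImplicit false

namespace Pool.AN

open Set Filter Topology Metric

lemma MES_cell {d : ℕ} {al : ℝ} {M : Type} [MetricSpace M] [CompactSpace M] [MeasurableSpace M] [BorelSpace M]
    {f : M ≃ₜ M} (S : Sys d al M f) (j : Fin S.m) : MeasurableSet {x | S.c x = j} := by
  have h : {x | S.c x = j} = S.K j \ ⋃ i ∈ {i : Fin S.m | i < j}, S.K i := by
    ext x
    simp only [mem_setOf_eq, S.c_eq_iff, mem_diff, mem_iUnion, not_exists]
  rw [h]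
  exact (S.hK j).isClosed.measurableSet.diff
    (MeasurableSet.biUnion (Set.to_countable _) (fun i _ => (S.hK i).isClosed.measurableSet))

lemma MES_pre {X Y : Type} [MeasurableSpace X] [MeasurableSpace Y] (s : Set X) (g : X → Y)
    (hs : MeasurableSet s) (hg : Measurable (s.restrict g)) (T : Set Y) (hT : MeasurableSet T) :
    MeasurableSet (s ∩ g ⁻¹' T) := by
  have h : s ∩ g ⁻¹' T = Subtype.val '' ((s.restrict g) ⁻¹' T) := by
    ext x
    constructor
    · rintro ⟨hx1, hx2⟩
      exact ⟨⟨x, hx1⟩, hx2, rfl⟩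
    · rintro ⟨⟨y, hy⟩, hy2, rfl⟩
      exact ⟨hy, hy2⟩
  rw [h]
  exact MeasurableSet.subtype_image hs (hg hT)

theorem p_MES (h1 : Stmt_DCT) : Stmt_MES := by
  intro d al M _ _ _ _ f S
  refine ⟨fun j => ⟨MES_cell S j, fun T hT hTs => ?_⟩, ?_⟩
  · rw [(S.φ j).image_eq_target_inter_inv_preimage hTs]
    exact MES_pre _ _ (S.φ j).open_target.measurableSet
      ((continuousOn_iff_continuous_restrict.mp (S.φ j).continuousOn_symm).measurable) T hT
  · intro T hT
    have h : S.g ⁻¹' T = ⋃ i : Fin S.m, ⋃ j : Fin S.m, (({x | S.c x = i} ∩ f ⁻¹' {x | S.c x = j}) ∩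
        (fun x => Real.log |(DF S.φ f 1 i j x).det|) ⁻¹' T) := by
      ext x
      simp only [mem_preimage, mem_iUnion, mem_inter_iff, mem_setOf_eq]
      constructor
      · intro hx
        exact ⟨S.c x, S.c (f x), ⟨rfl, rfl⟩, hx⟩
      · rintro ⟨i, j, ⟨rfl, rfl⟩, hx⟩
        exact hx
    rw [h]
    refine MeasurableSet.iUnion fun i => MeasurableSet.iUnion fun j => ?_
    refine MES_pre _ _ ((MES_cell S i).inter (f.continuous.measurable (MES_cell S j))) ?_ T hT
    have hc : ContinuousOn (fun x => (DF S.φ f 1 i j x).det) ({x | S.c x = i} ∩ f ⁻¹' {x | S.c x = j}) := by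
      rintro x ⟨hx1, hx2⟩
      have hx1' : S.c x = i := hx1
      have hx2' : S.c (f x) = j := hx2
      have hA := h1 d al M f S 1 i j x (by rw [← hx1']; exact S.c_src x)
        (by rw [← hx2']; exact S.c_src (f x))
      exact (ContinuousLinearMap.continuous_det.continuousAt.comp hA).continuousWithinAt
    have hm : Measurable (({x | S.c x = i} ∩ f ⁻¹' {x | S.c x = j}).restrict (fun x => (DF S.φ f 1 i j x).det)) :=
      (continuousOn_iff_continuous_restrict.mp hc).measurable
    exact Real.measurable_log.comp (measurable_norm.comp hm)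

end Pool.AN
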