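import Pool.Agent.Work.MP_bd2638_an.Interface

/-!
# MP_bd2638_an, block MUC: change of variables for one step
-/

set_option autoImplicit false

namespace Pool.AN

open Set Filter Topology Metric

/-- The case of a set on which the two chart indices are constant. -/
lemma MUC_cell (h1 : Stmt_MES) (h2 : Stmt_MUR) (d : ℕ) (al : ℝ) (M : Type) [MetricSpace M] [CompactSpace M]
    [MeasurableSpace M] [BorelSpace M] (f : M ≃ₜ M) (S : Sys d al M f) (i j : Fin S.m) (D : Set M)
    (hD : MeasurableSet D) (hi : ∀ x ∈ D, S.c x = i) (hj : ∀ x ∈ D, S.c (f x) = j) :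
    S.mu (f '' D) = ∫⁻ x in D, ENNReal.ofReal (Real.exp (S.g x)) ∂S.mu := by
  have hsrc : ∀ x ∈ D, x ∈ (S.φ i).source := fun x hx => by
    have := S.c_src x
    rwa [hi x hx] at this
  have hsrc' : ∀ x ∈ D, f x ∈ (S.φ j).source := fun x hx => by
    have := S.c_src (f x)
    rwa [hj x hx] at this
  have hfD : MeasurableSet (f '' D) := by
    rw [f.image_eq_preimage_symm]
    exact f.symm.continuous.measurable hD
  have hfj : f '' D ⊆ {x | S.c x = j} := by
    rintro _ ⟨x, hx, rfl⟩
    exact hj x hx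
  have hDi : D ⊆ {x | S.c x = i} := fun x hx => hi x hx
  have himg : MeasurableSet (S.φ i '' D) := ((h1 d al M f S).1 i).2 D hD hsrc
  have hmg : Measurable S.g := (h1 d al M f S).2
  have hmh : Measurable (fun x => ENNReal.ofReal (Real.exp (S.g x))) :=
    ENNReal.measurable_ofReal.comp (Real.measurable_exp.comp hmg)
  have e1 : S.mu (f '' D) = MeasureTheory.volume (S.φ j '' (f '' D)) := by
    have := h2 d al M f S j (f '' D) (fun _ => 1) hfD hfj measurable_const
    rw [MeasureTheory.setLIntegral_one, MeasureTheory.setLIntegral_one] at this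
    exact this
  have hF : ∀ x ∈ D, Fn S.φ f 1 i j (S.φ i x) = S.φ j (f x) := by
    intro x hx
    simp only [Fn, Function.iterate_one]
    rw [(S.φ i).left_inv (hsrc x hx)]
  have e2 : S.φ j '' (f '' D) = Fn S.φ f 1 i j '' (S.φ i '' D) := by
    rw [Set.image_image, Set.image_image]
    exact Set.image_congr fun x hx => (hF x hx).symm
  have hinj : Set.InjOn (Fn S.φ f 1 i j) (S.φ i '' D) := by
    rintro _ ⟨x, hx, rfl⟩ _ ⟨y, hy, rfl⟩ he
    rw [hF x hx, hF y hy] at he
    have := (S.φ j).injOn (hsrc' x hx) (hsrc' y hy) he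
    rw [f.injective this]
  have hder : ∀ u ∈ S.φ i '' D, HasFDerivWithinAt (Fn S.φ f 1 i j) (fderiv ℝ (Fn S.φ f 1 i j) u) (S.φ i '' D) u := by
    rintro _ ⟨x, hx, rfl⟩
    have hs := S.sm 1 i j x (hsrc x hx) (by simpa using hsrc' x hx)
    exact (hs.differentiableAt one_ne_zero).hasFDerivAt.hasFDerivWithinAt
  have e3 := MeasureTheory.lintegral_abs_det_fderiv_eq_addHaar_image MeasureTheory.volume himg hder hinj
  have e4 := h2 d al M f S i D (fun x => ENNReal.ofReal (Real.exp (S.g x))) hD hDi hmh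
  rw [e1, e2, ← e3, e4]
  refine MeasureTheory.setLIntegral_congr_fun himg ?_
  rintro _ ⟨x, hx, rfl⟩
  have hdet : (DF S.φ f 1 i j x).det ≠ 0 := S.inj 1 i j x (hsrc x hx) (by simpa using hsrc' x hx)
  have hA : S.A x (f x) = DF S.φ f 1 i j x := by
    rw [Sys.A, hi x hx, hj x hx]
  show ENNReal.ofReal |(fderiv ℝ (Fn S.φ f 1 i j) (S.φ i x)).det| =
    ENNReal.ofReal (Real.exp (S.g ((S.φ i).symm (S.φ i x))))
  rw [(S.φ i).left_inv (hsrc x hx), Sys.g, hA, Real.exp_log (abs_pos.mpr hdet)]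
  rfl

theorem p_MUC (h1 : Stmt_MES) (h2 : Stmt_MUR) : Stmt_MUC := by
  intro d al M _ _ _ _ f S B hB
  have hc : ∀ j : Fin S.m, MeasurableSet {x | S.c x = j} := fun j => ((h1 d al M f S).1 j).1
  set C : Fin S.m × Fin S.m → Set M := fun p => B ∩ ({x | S.c x = p.1} ∩ f ⁻¹' {x | S.c x = p.2}) with hC
  have hCm : ∀ p, MeasurableSet (C p) := fun p =>
    hB.inter ((hc p.1).inter (f.continuous.measurable (hc p.2)))
  have hCd : Pairwise (Function.onFun Disjoint C) := by
    intro p q hpq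
    rw [Function.onFun, Set.disjoint_left]
    rintro x ⟨-, hx1, hx2⟩ ⟨-, hy1, hy2⟩
    apply hpq
    simp only [Set.mem_setOf_eq, Set.mem_preimage] at hx1 hx2 hy1 hy2
    exact Prod.ext (hx1.symm.trans hy1) (hx2.symm.trans hy2)
  have hCu : (⋃ p, C p) = B := by
    ext x
    simp only [hC, Set.mem_iUnion, Set.mem_inter_iff, Set.mem_setOf_eq, Set.mem_preimage]
    constructor
    · rintro ⟨p, hx, -⟩
      exact hx
    · intro hx
      exact ⟨(S.c x, S.c (f x)), hx, rfl, rfl⟩
  have hfm : ∀ p, MeasurableSet (f '' C p) := fun p => by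
    rw [f.image_eq_preimage_symm]
    exact f.symm.continuous.measurable (hCm p)
  have hfd : Pairwise (Function.onFun Disjoint fun p => f '' C p) := by
    intro p q hpq
    exact (Set.disjoint_image_iff f.injective).mpr (hCd hpq)
  have hfu : f '' B = ⋃ p, f '' C p := by
    rw [← Set.image_iUnion, hCu]
  have hcell : ∀ p, S.mu (f '' C p) = ∫⁻ x in C p, ENNReal.ofReal (Real.exp (S.g x)) ∂S.mu := fun p =>
    MUC_cell h1 h2 d al M f S p.1 p.2 (C p) (hCm p) (fun x hx => hx.2.1) (fun x hx => hx.2.2)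
  rw [hfu, MeasureTheory.measure_iUnion hfd hfm]
  conv_rhs => rw [← hCu]
  rw [MeasureTheory.lintegral_iUnion hCm hCd]
  exact tsum_congr hcell

end Pool.AN
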