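import Pool.Agent.Work.MP_bd2638_an.Interface

set_option autoImplicit false

namespace Pool.AN

open Set Filter Topology Metric

lemma MUF_rem {M ι : Type} [TopologicalSpace M] [DecidableEq ι] (K : ι → Set M) (hK : ∀ i, IsClosed (K i)) (W : Set M)
    (hW : IsOpen W) (hWn : W.Nonempty) (s : Finset ι)
    (h : ∀ j ∈ s, ∀ W' : Set M, IsOpen W' → W'.Nonempty → W' ⊆ W → ¬ W' ⊆ K j) :
    ∃ W' : Set M, IsOpen W' ∧ W'.Nonempty ∧ W' ⊆ W ∧ ∀ j ∈ s, ∀ x ∈ W', x ∉ K j := by
  induction s using Finset.induction_on with
  | empty => exact ⟨W, hW, hWn, subset_rfl, by simp⟩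
  | insert a s ha ih =>
    obtain ⟨W', h1, h2, h3, h4⟩ := ih (fun j hj => h j (Finset.mem_insert_of_mem hj))
    have hna := h a (Finset.mem_insert_self a s) W' h1 h2 h3
    obtain ⟨x, hx1, hx2⟩ := Set.not_subset.mp hna
    refine ⟨W' \ K a, h1.sdiff (hK a), ⟨x, hx1, hx2⟩, fun y hy => h3 hy.1, ?_⟩
    intro j hj y hy
    rcases Finset.mem_insert.mp hj with rfl | hj
    · exact hy.2
    · exact h4 j hj y hy.1

theorem p_MUF (h1 : Stmt_MES) (h2 : Stmt_MUR) : Stmt_MUF := by
  intro d al M _ _ _ _ f S
  constructor
  · unfold Sys.mu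
    refine Finset.sum_induction _ (fun ν => MeasureTheory.IsFiniteMeasure ν) ?_ ?_ ?_
    · intro a b ha hb
      infer_instance
    · infer_instance
    · intro j _
      have hfin : MeasureTheory.IsFiniteMeasure ((MeasureTheory.volume : MeasureTheory.Measure (EE d)).restrict (S.φ j '' {x | S.c x = j})) := by
        rw [MeasureTheory.isFiniteMeasure_restrict]
        have hc : IsCompact (S.φ j '' S.K j) :=
          (S.hK j).image_of_continuousOn ((S.φ j).continuousOn.mono ((S.hKV j).trans (S.hVs j)))
        have hsub : S.φ j '' {x | S.c x = j} ⊆ S.φ j '' S.K j := by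
          apply Set.image_mono
          intro x hx
          have hx' : S.c x = j := hx
          rw [← hx']
          exact S.c_mem x
        exact ((MeasureTheory.measure_mono hsub).trans_lt hc.measure_lt_top).ne
      infer_instance
  · intro W hW hWn
    classical
    have hI : (Finset.univ.filter (fun i : Fin S.m => (W ∩ interior (S.K i)).Nonempty)).Nonempty := by
      obtain ⟨x, hx⟩ := hWn
      obtain ⟨i, hi⟩ := S.cov x
      exact ⟨i, by simpa using ⟨x, hx, hi⟩⟩
    set i := (Finset.univ.filter (fun i : Fin S.m => (W ∩ interior (S.K i)).Nonempty)).min' hI with hidef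
    have hi : (W ∩ interior (S.K i)).Nonempty := by
      have := Finset.min'_mem _ hI
      exact (Finset.mem_filter.mp this).2
    have hmin : ∀ j, (W ∩ interior (S.K j)).Nonempty → i ≤ j := by
      intro j hj
      exact Finset.min'_le _ _ (by simpa using hj)
    obtain ⟨W', g1, g2, g3, g4⟩ := MUF_rem S.K (fun j => (S.hK j).isClosed) (W ∩ interior (S.K i)) (hW.inter isOpen_interior) hi
      (Finset.univ.filter (fun j => j < i)) (by
        intro j hj W' hW' hn hs hc
        have hj' : j < i := by simpa using hj
        have : W' ⊆ interior (S.K j) := interior_maximal hc hW'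
        obtain ⟨x, hx⟩ := hn
        exact absurd (hmin j ⟨x, (hs hx).1, this hx⟩) (not_le.mpr hj'))
    have hc : W' ⊆ {x | S.c x = i} := by
      intro x hx
      have hx' := g3 hx
      show S.c x = i
      rw [S.c_eq_iff]
      exact ⟨interior_subset hx'.2, fun j hj => g4 j (by simpa using hj) x hx⟩
    have hmeas := h2 d al M f S i W' (fun _ => 1) g1.measurableSet hc measurable_const
    rw [MeasureTheory.lintegral_one, MeasureTheory.lintegral_one, MeasureTheory.Measure.restrict_apply_univ,
      MeasureTheory.Measure.restrict_apply_univ] at hmeas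
    have hsrc : W' ⊆ (S.φ i).source := fun x hx => S.hVs i (S.hKV i (interior_subset (g3 hx).2))
    have hop : IsOpen (S.φ i '' W') := (S.φ i).isOpen_image_of_subset_source g1 hsrc
    have hpos : 0 < (MeasureTheory.volume : MeasureTheory.Measure (EE d)) (S.φ i '' W') :=
      hop.measure_pos _ (g2.image _)
    rw [← hmeas] at hpos
    exact hpos.trans_le (MeasureTheory.measure_mono (fun x hx => (g3 hx).1))

end Pool.AN
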