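import Pool.Agent.Work.MP_bd2638_an.Interface

set_option autoImplicit false

namespace Pool.AN

open Set Filter Topology Metric

theorem p_MUR (hMES : Stmt_MES) : Stmt_MUR := by
  intro d al M _ _ _ _ f S j B h hB hBj hh
  have hcell : ∀ i, MeasurableSet {x | S.c x = i} := fun i => ((hMES d al M f S).1 i).1
  have himg : ∀ i, ∀ T : Set M, MeasurableSet T → T ⊆ (S.φ i).source → MeasurableSet (S.φ i '' T) :=
    fun i => ((hMES d al M f S).1 i).2
  have hsrc : ∀ i, {x | S.c x = i} ⊆ (S.φ i).source := by
    rintro i x rfl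
    exact S.c_src x
  have hci : ∀ i, MeasurableSet (S.φ i '' {x | S.c x = i}) := fun i => himg i _ (hcell i) (hsrc i)
  have hae : ∀ i, AEMeasurable (S.φ i).symm (MeasureTheory.volume.restrict (S.φ i '' {x | S.c x = i})) := by
    intro i
    refine ContinuousOn.aemeasurable ?_ (hci i)
    refine (S.φ i).continuousOn_symm.mono ?_
    rintro _ ⟨x, hx, rfl⟩
    exact (S.φ i).map_source (hsrc i hx)
  rw [← MeasureTheory.lintegral_indicator hB, Sys.mu, MeasureTheory.lintegral_finset_sum_measure]
  have hind : Measurable (B.indicator h) := hh.indicator hB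
  rw [Finset.sum_eq_single j]
  · rw [MeasureTheory.lintegral_map' hind.aemeasurable (hae j)]
    have hBs : B ⊆ (S.φ j).source := hBj.trans (hsrc j)
    have hBm : MeasurableSet (S.φ j '' B) := himg j B hB hBs
    have h1 : ∫⁻ u in S.φ j '' {x | S.c x = j}, B.indicator h ((S.φ j).symm u)
        = ∫⁻ u in S.φ j '' {x | S.c x = j}, (S.φ j '' B).indicator (fun u => h ((S.φ j).symm u)) u := by
      refine MeasureTheory.setLIntegral_congr_fun (hci j) ?_
      rintro _ ⟨x, hx, rfl⟩
      have h2 : (S.φ j).symm (S.φ j x) = x := (S.φ j).left_inv (hsrc j hx)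
      by_cases hxB : x ∈ B
      · have h3 : S.φ j x ∈ S.φ j '' B := ⟨x, hxB, rfl⟩
        simp only [h2, indicator_of_mem hxB, indicator_of_mem h3]
      · have h3 : S.φ j x ∉ S.φ j '' B := by
          rintro ⟨y, hy, hyx⟩
          have := (S.φ j).injOn (hBs hy) (hsrc j hx) hyx
          exact hxB (this ▸ hy)
        simp only [h2, indicator_of_notMem hxB, indicator_of_notMem h3]
    rw [h1, MeasureTheory.lintegral_indicator hBm, MeasureTheory.Measure.restrict_restrict hBm,
      inter_eq_left.mpr (image_mono hBj)]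
  · intro i _ hij
    rw [MeasureTheory.lintegral_map' hind.aemeasurable (hae i)]
    have h1 : ∫⁻ u in S.φ i '' {x | S.c x = i}, B.indicator h ((S.φ i).symm u)
        = ∫⁻ _ in S.φ i '' {x | S.c x = i}, (0 : ENNReal) := by
      refine MeasureTheory.setLIntegral_congr_fun (hci i) ?_
      rintro _ ⟨x, hx, rfl⟩
      have h2 : (S.φ i).symm (S.φ i x) = x := (S.φ i).left_inv (hsrc i hx)
      have hxB : x ∉ B := by
        intro hxB
        have h3 : S.c x = j := hBj hxB
        exact hij ((show S.c x = i from hx).symm.trans h3)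
      simp only [h2, indicator_of_notMem hxB]
    rw [h1, MeasureTheory.lintegral_zero]
  · intro h0
    exact absurd (Finset.mem_univ j) h0

end Pool.AN
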