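import Pool.Agent.Work.MP_bd2638_an.Interface

/-! # Block NST: `N` steps of a pseudo-orbit -/

set_option autoImplicit false

namespace Pool.AN

open Set Filter Topology Metric

theorem p_NST (hNEA : Stmt_NEA) (hONE : Stmt_ONE) (hCHN : Stmt_CHN) (hBPD : Stmt_BPD) (hPSO : Stmt_PSO) :
    Stmt_NST := by
  intro d al M _ _ f S N κ hκ
  obtain ⟨δ₁, r, L, H, hδ1, hr, hL, -, hone, hcont⟩ := hONE d al M f S
  have ha : (0 : ℝ) ≤ (N : ℝ) * L ^ N := by positivity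
  obtain ⟨κ', hκ'⟩ : ∃ κ' : ℝ, κ' = κ / ((N : ℝ) * L ^ N + 1) := ⟨_, rfl⟩
  have hκ0 : 0 < κ' := by
    rw [hκ']
    positivity
  have hκ1 : (N : ℝ) * L ^ N * κ' ≤ κ := by
    rw [hκ', ← mul_div_assoc, div_le_iff₀ (by positivity)]
    nlinarith
  obtain ⟨s, hs0, hs⟩ := hcont κ' hκ0
  obtain ⟨ε, hε⟩ : ∃ ε : ℝ, ε = min r (min s κ) := ⟨_, rfl⟩
  have hε0 : 0 < ε := by
    rw [hε]
    exact lt_min hr (lt_min hs0 hκ)
  have hεr : ε ≤ r := by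
    rw [hε]
    exact min_le_left _ _
  have hεs : ε ≤ s := by
    rw [hε]
    exact (min_le_right _ _).trans (min_le_left _ _)
  have hεκ : ε ≤ κ := by
    rw [hε]
    exact (min_le_right _ _).trans (min_le_right _ _)
  obtain ⟨δ₂, hδ2, hnea⟩ := hNEA d al M f S ε hε0
  obtain ⟨δ₃, hδ3, hpso⟩ := hPSO M f N δ₂ hδ2
  refine ⟨min δ₁ δ₃, lt_min hδ1 hδ3, fun x hx => ?_⟩
  have hx1 : ∀ l < N, dist (f (x l)) (x (l + 1)) ≤ δ₁ := fun l hl => (hx l hl).trans (min_le_left _ _)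
  have hx3 : ∀ l < N, dist (f (x l)) (x (l + 1)) ≤ δ₃ := fun l hl => (hx l hl).trans (min_le_right _ _)
  have hn : ∀ l ≤ N, f^[l] (x 0) ∈ S.V (S.c (x l)) ∧
      ‖S.pos (x l) (f^[l] (x 0)) - S.pos (x l) (x l)‖ ≤ ε ∧
      ‖S.Q (S.c (x l)) (f^[l] (x 0)) - S.P (x l)‖ ≤ ε :=
    fun l hl => hnea (x l) (f^[l] (x 0)) (hpso x hx3 l hl)
  refine ⟨(hn N le_rfl).1, ?_, (hn N le_rfl).2.2.trans hεκ⟩
  rw [hCHN d al M f S (fun l => S.c (x l)) (x 0) N (fun l hl => S.hVs _ (hn l hl).1)]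
  refine (hBPD d _ _ L κ' N hL hκ0.le ?_ ?_ ?_).trans hκ1
  · intro l hl
    exact (hone (x l) (x (l + 1)) (hx1 l hl) (S.pos (x l) (x l)) (mem_closedBall_self hr.le)).2.2.2.1
  · intro l hl
    have hu : S.pos (x l) (f^[l] (x 0)) ∈ closedBall (S.pos (x l) (x l)) r := by
      rw [mem_closedBall, dist_eq_norm]
      exact (hn l hl.le).2.1.trans hεr
    exact (hone (x l) (x (l + 1)) (hx1 l hl) _ hu).2.2.2.1
  · intro l hl
    have hu : S.pos (x l) (f^[l] (x 0)) ∈ closedBall (S.pos (x l) (x l)) r := by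
      rw [mem_closedBall, dist_eq_norm]
      exact (hn l hl.le).2.1.trans hεr
    refine hs (x l) (x (l + 1)) (hx1 l hl) (S.pos (x l) (x l)) (mem_closedBall_self hr.le) _ hu ?_
    rw [norm_sub_rev]
    exact (hn l hl.le).2.1.trans hεs

end Pool.AN
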