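import Pool.Agent.Work.MP_bd2638_an.Interface

set_option autoImplicit false

namespace Pool.AN

open Set Filter Topology Metric

lemma ONE_min {m : ℕ} (g : Fin m → ℝ) (hg : ∀ i, 0 < g i) : ∃ δ : ℝ, 0 < δ ∧ ∀ i, δ ≤ g i := by
  rcases isEmpty_or_nonempty (Fin m) with h | h
  · exact ⟨1, one_pos, fun i => (h.false i).elim⟩
  · obtain ⟨i, hi⟩ := Finite.exists_min g
    exact ⟨g i, hg i, hi⟩

lemma ONE_min2 {m : ℕ} (g : Fin m → Fin m → ℝ) (hg : ∀ i j, 0 < g i j) : ∃ δ : ℝ, 0 < δ ∧ ∀ i j, δ ≤ g i j := by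
  choose a ha hb using fun i => ONE_min (g i) (hg i)
  obtain ⟨δ, h1, h2⟩ := ONE_min a ha
  exact ⟨δ, h1, fun i j => (h2 i).trans (hb i j)⟩

lemma ONE_max2 {m : ℕ} (g : Fin m → Fin m → ℝ) : ∃ L : ℝ, 1 ≤ L ∧ ∀ i j, g i j ≤ L := by
  refine ⟨1 + ∑ i, ∑ j, |g i j|, ?_, fun i j => ?_⟩
  · have : 0 ≤ ∑ i, ∑ j, |g i j| := Finset.sum_nonneg fun i _ => Finset.sum_nonneg fun j _ => abs_nonneg _
    linarith
  · have h1 : |g i j| ≤ ∑ j, |g i j| :=
      Finset.single_le_sum (f := fun j => |g i j|) (fun j _ => abs_nonneg _) (Finset.mem_univ j)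
    have h2 : ∑ j, |g i j| ≤ ∑ i, ∑ j, |g i j| :=
      Finset.single_le_sum (f := fun i => ∑ j, |g i j|) (fun i _ => Finset.sum_nonneg fun j _ => abs_nonneg _)
        (Finset.mem_univ i)
    linarith [le_abs_self (g i j)]

theorem p_ONE (h1 : Stmt_UCF) : Stmt_ONE := by
  intro d al M _ _ f S
  -- the neighbourhoods of the compact sets
  have hd : ∀ j, ∃ δ : ℝ, 0 < δ ∧ cthickening δ (S.K j) ⊆ (S.φ j).source := fun j =>
    (S.hK j).exists_cthickening_subset_open (S.φ j).open_source ((S.hKV j).trans (S.hVs j))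
  choose δ0 hδ0 hδ1 using hd
  obtain ⟨δ, hδ, hδm⟩ := ONE_min δ0 hδ0
  have hsub : ∀ j, cthickening δ (S.K j) ⊆ (S.φ j).source := fun j =>
    (cthickening_mono (hδm j) _).trans (hδ1 j)
  -- the open sets and the compact sets
  let D : Fin S.m → Fin S.m → Set (EE d) := fun i j =>
    (S.φ i).target ∩ (fun u => f ((S.φ i).symm u)) ⁻¹' (S.φ j).source
  let Z : Fin S.m → Fin S.m → Set (EE d) := fun i j => S.φ i '' (S.K i ∩ f ⁻¹' cthickening δ (S.K j))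
  have hDo : ∀ i j, IsOpen (D i j) := fun i j =>
    (f.continuous.comp_continuousOn (S.φ i).continuousOn_symm).isOpen_inter_preimage (S.φ i).open_target
      (S.φ j).open_source
  have hKs : ∀ i, S.K i ⊆ (S.φ i).source := fun i => (S.hKV i).trans (S.hVs i)
  have hZc : ∀ i j, IsCompact (Z i j) := fun i j =>
    ((S.hK i).inter_right (isClosed_cthickening.preimage f.continuous)).image_of_continuousOn
      ((S.φ i).continuousOn.mono (inter_subset_left.trans (hKs i)))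
  have hZD : ∀ i j, Z i j ⊆ D i j := by
    rintro i j u ⟨x, ⟨hx, hfx⟩, rfl⟩
    have hxs : x ∈ (S.φ i).source := hKs i hx
    refine ⟨(S.φ i).map_source hxs, ?_⟩
    show f ((S.φ i).symm (S.φ i x)) ∈ (S.φ j).source
    rw [(S.φ i).left_inv hxs]
    exact hsub j hfx
  have hpt : ∀ i j, ∀ u ∈ D i j, ∃ x, x ∈ (S.φ i).source ∧ f x ∈ (S.φ j).source ∧ S.φ i x = u := by
    rintro i j u ⟨hu, hfu⟩
    exact ⟨(S.φ i).symm u, (S.φ i).map_target hu, hfu, (S.φ i).right_inv hu⟩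
  have hsm : ∀ i j, ∀ u ∈ D i j, ContDiffAt ℝ 1 (Fn S.φ f 1 i j) u := by
    intro i j u hu
    obtain ⟨x, hx, hfx, rfl⟩ := hpt i j u hu
    exact S.sm 1 i j x hx hfx
  have hdet : ∀ i j, ∀ u ∈ D i j, (fderiv ℝ (Fn S.φ f 1 i j) u).det ≠ 0 := by
    intro i j u hu
    obtain ⟨x, hx, hfx, rfl⟩ := hpt i j u hu
    exact S.inj 1 i j x hx hfx
  have hhol : ∀ i j, ∀ u ∈ D i j, ∃ r > 0, ∃ H : ℝ, ∀ v ∈ ball u r, ∀ w ∈ ball u r,
      abs (Real.log |(fderiv ℝ (Fn S.φ f 1 i j) v).det| - Real.log |(fderiv ℝ (Fn S.φ f 1 i j) w).det|)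
        ≤ H * ‖v - w‖ ^ al := by
    intro i j u hu
    obtain ⟨x, hx, hfx, rfl⟩ := hpt i j u hu
    exact S.hol i j x hx hfx
  choose r L H hr hL hH hA hB using fun i j => h1 d al (D i j) (Z i j) (Fn S.φ f 1 i j) S.hal (hDo i j) (hZc i j)
    (hZD i j) (hsm i j) (hdet i j) (hhol i j)
  obtain ⟨r0, hr0, hrm⟩ := ONE_min2 r hr
  obtain ⟨L0, hL0, hLm⟩ := ONE_max2 L
  obtain ⟨H0, hH0, hHm⟩ := ONE_max2 H
  have hz : ∀ x y : M, dist (f x) y ≤ δ → S.pos x x ∈ Z (S.c x) (S.c y) := fun x y hxy =>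
    ⟨x, ⟨S.c_mem x, mem_cthickening_of_dist_le _ y _ _ (S.c_mem y) hxy⟩, rfl⟩
  refine ⟨δ, r0, L0, H0, hδ, hr0, hL0, zero_le_one.trans hH0, ?_, ?_⟩
  · intro x y hxy u hu
    have hu' : u ∈ closedBall (S.pos x x) (r (S.c x) (S.c y)) := closedBall_subset_closedBall (hrm _ _) hu
    obtain ⟨a1, a2, a3, a4, a5⟩ := hA (S.c x) (S.c y) _ (hz x y hxy) u hu'
    refine ⟨a1.1, a1.2, (hsm _ _ u a1).differentiableAt (by simp), a2.trans (hLm _ _), ?_,
      a4.trans (hLm _ _), fun v hv => ?_⟩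
    · refine le_trans ?_ a3
      exact inv_anti₀ (zero_lt_one.trans_le (hL _ _)) (hLm _ _)
    · refine (a5 v (closedBall_subset_closedBall (hrm _ _) hv)).trans ?_
      exact mul_le_mul_of_nonneg_right (hHm _ _) (Real.rpow_nonneg (norm_nonneg _) _)
  · intro κ hκ
    choose s hs0 hs using fun i j => hB i j κ hκ
    obtain ⟨s0, hs0', hsm'⟩ := ONE_min2 s hs0
    refine ⟨s0, hs0', fun x y hxy u hu v hv huv => ?_⟩
    exact hs (S.c x) (S.c y) _ (hz x y hxy) u (closedBall_subset_closedBall (hrm _ _) hu) v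
      (closedBall_subset_closedBall (hrm _ _) hv) (huv.trans (hsm' _ _))

end Pool.AN
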