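import Pool.Agent.Work.MP_bd2638_an.Interface

/-!
# Block PDT: the determinants at periodic points are one
-/

set_option autoImplicit false

namespace Pool.AN

open Set Filter Topology Metric

section

variable {d : ℕ} {al : ℝ} {M : Type} [MetricSpace M] [CompactSpace M] {f : M ≃ₜ M}

/-- Two applications of the chain rule: the derivative of `f^N` in the chart `i` and the charts of the cells. -/
theorem PDT_chain (hCH2 : Stmt_CH2) (S : Sys d al M f) (N : ℕ) (i : Fin S.m) (x : M)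
    (hx : x ∈ (S.φ i).source) (hN : f^[N] x ∈ (S.φ i).source) :
    (DF S.φ f N i i x).det = (DF S.φ f 0 (S.c (f^[N] x)) i (f^[N] x)).det *
      ((DF S.φ f N (S.c x) (S.c (f^[N] x)) x).det * (DF S.φ f 0 i (S.c x) x).det) := by
  have h1 := hCH2 d al M f S 0 N i (S.c x) (S.c (f^[N] x)) x hx (S.c_src x) (S.c_src (f^[N] x))
  rw [Nat.zero_add] at h1
  have h2 := hCH2 d al M f S N 0 i (S.c (f^[N] x)) i x hx (S.c_src (f^[N] x)) hN
  rw [Nat.add_zero, h1] at h2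
  rw [h2, det_comp', det_comp']
  rfl

theorem PDT_log (S : Sys d al M f) (hCH2 : Stmt_CH2) (hDTN : Stmt_DTN) (N : ℕ) (i : Fin S.m) (x : M) (C C₁ : ℝ)
    (hx : x ∈ (S.φ i).source) (hN : f^[N] x ∈ (S.φ i).source)
    (h1 : abs (Real.log |(DF S.φ f 0 i (S.c x) x).det|) ≤ C₁)
    (h2 : abs (Real.log |(DF S.φ f 0 (S.c (f^[N] x)) i (f^[N] x)).det|) ≤ C₁)
    (h3 : |S.Sn N x| ≤ C) : abs (Real.log |(DF S.φ f N i i x).det|) ≤ C + 2 * C₁ := by
  have e0 : (DF S.φ f 0 i (S.c x) x).det ≠ 0 := S.inj 0 i (S.c x) x hx (S.c_src x)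
  have e1 : (DF S.φ f 0 (S.c (f^[N] x)) i (f^[N] x)).det ≠ 0 :=
    S.inj 0 (S.c (f^[N] x)) i (f^[N] x) (S.c_src _) hN
  have e2 : (DF S.φ f N (S.c x) (S.c (f^[N] x)) x).det ≠ 0 :=
    S.inj N (S.c x) (S.c (f^[N] x)) x (S.c_src x) (S.c_src _)
  have e3 : Real.log |(DF S.φ f N (S.c x) (S.c (f^[N] x)) x).det| = S.Sn N x := by
    rw [← hDTN d al M f S N x, Real.log_exp]
  rw [PDT_chain hCH2 S N i x hx hN, abs_mul, abs_mul,
    Real.log_mul (abs_ne_zero.2 e1) (mul_ne_zero (abs_ne_zero.2 e2) (abs_ne_zero.2 e0)),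
    Real.log_mul (abs_ne_zero.2 e2) (abs_ne_zero.2 e0), e3]
  have a1 := abs_le.1 h1
  have a2 := abs_le.1 h2
  have a3 := abs_le.1 h3
  rw [abs_le]
  constructor <;> linarith [a1.1, a1.2, a2.1, a2.2, a3.1, a3.2]

theorem PDT_bound (hCH2 : Stmt_CH2) (hDCT : Stmt_DCT) (hDTN : Stmt_DTN) (hMUF : Stmt_MUF)
    [MeasurableSpace M] [BorelSpace M] (S : Sys d al M f) (C C₁ : ℝ)
    (hC : ∀ n : ℕ, ∀ᵐ x ∂S.mu, |S.Sn n x| ≤ C) (i : Fin S.m) (p : M) (hp : p ∈ (S.φ i).source)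
    (hT : ∀ᶠ x in 𝓝 p, x ∈ (S.φ i).source ∧ abs (Real.log |(DF S.φ f 0 i (S.c x) x).det|) ≤ C₁ ∧
      abs (Real.log |(DF S.φ f 0 (S.c x) i x).det|) ≤ C₁) (N : ℕ) (hN : f^[N] p = p) :
    abs (Real.log |(DF S.φ f N i i p).det|) ≤ C + 2 * C₁ + 1 := by
  have hpN : f^[N] p ∈ (S.φ i).source := by rw [hN]; exact hp
  have ht : Tendsto (f^[N]) (𝓝 p) (𝓝 p) := by
    have h := (f.continuous.iterate N).continuousAt (x := p)
    unfold ContinuousAt at h
    rw [hN] at h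
    exact h
  have hT2 := ht.eventually hT
  have hc : ContinuousAt (fun x => Real.log |(DF S.φ f N i i x).det|) p := by
    have h1 : ContinuousAt (DF S.φ f N i i) p := hDCT d al M f S N i i p hp hpN
    have h2 : ContinuousAt (fun x => (DF S.φ f N i i x).det) p :=
      (ContinuousLinearMap.continuous_det.continuousAt).comp h1
    exact h2.abs.log (abs_ne_zero.2 (S.inj N i i p hp hpN))
  have hT3 : ∀ᶠ x in 𝓝 p, dist (Real.log |(DF S.φ f N i i x).det|) (Real.log |(DF S.φ f N i i p).det|) < 1 :=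
    Metric.tendsto_nhds.1 hc 1 one_pos
  have hall := hT.and (hT2.and hT3)
  rw [_root_.eventually_nhds_iff] at hall
  obtain ⟨W, hW, hWo, hpW⟩ := hall
  have hpos := (hMUF d al M f S).2 W hWo ⟨p, hpW⟩
  obtain ⟨x, hxW, hxC⟩ : ∃ x ∈ W, |S.Sn N x| ≤ C := by
    by_contra hcon
    push Not at hcon
    have h0 : S.mu {x | ¬ |S.Sn N x| ≤ C} = 0 := MeasureTheory.ae_iff.1 (hC N)
    have hsub : W ⊆ {x | ¬ |S.Sn N x| ≤ C} := fun x hx => not_le.2 (hcon x hx)
    have := MeasureTheory.measure_mono_null hsub h0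
    exact absurd this hpos.ne'
  obtain ⟨⟨b1, b2, _⟩, ⟨b3, _, b5⟩, b6⟩ := hW x hxW
  have hl := PDT_log S hCH2 hDTN N i x C C₁ b1 b3 b2 b5 hxC
  rw [Real.dist_eq] at b6
  have a1 := abs_le.1 hl
  have a2 := abs_lt.1 b6
  rw [abs_le]
  constructor <;> linarith [a1.1, a1.2, a2.1, a2.2]

theorem PDT_fix (k : ℕ) (p : M) (hk : f^[k] p = p) (n : ℕ) : f^[k * n] p = p := by
  rw [Function.iterate_mul]
  exact Function.iterate_fixed hk n

theorem PDT_pow (hCH2 : Stmt_CH2) (S : Sys d al M f) (k : ℕ) (i : Fin S.m) (p : M)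
    (hp : p ∈ (S.φ i).source) (hk : f^[k] p = p) (n : ℕ) :
    (DF S.φ f (k * (n + 1)) i i p).det = (DF S.φ f k i i p).det ^ (n + 1) := by
  induction n with
  | zero => rw [Nat.zero_add, Nat.mul_one, pow_one]
  | succ n ih =>
    have hf := PDT_fix k p hk (n + 1)
    have h := hCH2 d al M f S (k * (n + 1)) k i i i p hp (by rw [hf]; exact hp) (by rw [hf, hk]; exact hp)
    rw [hf] at h
    rw [Nat.mul_succ k (n + 1), h, det_comp', ih, pow_succ (DF S.φ f k i i p).det (n + 1), mul_comm]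

end

theorem p_PDT (hCH2 : Stmt_CH2) (hDCT : Stmt_DCT) (hDTN : Stmt_DTN) (hMUF : Stmt_MUF) (hTRB : Stmt_TRB) :
    Stmt_PDT := by
  intro d al M _ _ _ _ f S C hC k i p _ hpV hk
  have hp : p ∈ (S.φ i).source := S.hVs i hpV
  obtain ⟨C₁, hT⟩ := hTRB d al M f S i p hp
  have hb : ∀ n : ℕ, ((n + 1 : ℕ) : ℝ) * abs (Real.log |(DF S.φ f k i i p).det|) ≤ C + 2 * C₁ + 1 := by
    intro n
    have h := PDT_bound hCH2 hDCT hDTN hMUF S C C₁ hC i p hp hT (k * (n + 1)) (PDT_fix k p hk (n + 1))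
    rw [PDT_pow hCH2 S k i p hp hk n, abs_pow, Real.log_pow, abs_mul, Nat.abs_cast] at h
    exact h
  have hne : (DF S.φ f k i i p).det ≠ 0 := S.inj k i i p hp (by rw [hk]; exact hp)
  have h0 : Real.log |(DF S.φ f k i i p).det| = 0 := by
    by_contra hcon
    have hpos : 0 < abs (Real.log |(DF S.φ f k i i p).det|) := abs_pos.2 hcon
    obtain ⟨n, hn⟩ := exists_nat_gt ((C + 2 * C₁ + 1) / abs (Real.log |(DF S.φ f k i i p).det|))
    rw [div_lt_iff₀ hpos] at hn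
    have h1 := hb n
    push_cast at h1
    nlinarith
  have hexp := Real.exp_log (abs_pos.2 hne)
  rw [h0, Real.exp_zero] at hexp
  exact hexp.symm

end Pool.AN
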