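import Pool.Agent.Work.MP_bd2638_an.Interface

/-!
# Block PIG: pigeonhole (helper46)
-/

set_option autoImplicit false

namespace Pool.AN

open Set Filter Topology Metric

theorem PIG_main (M : Type) [MetricSpace M] (T : M → M) (g : M → ℝ) (δ B C : ℝ) (hB : 0 ≤ B)
    (hC : 0 ≤ C) (hg : ∀ x, -B ≤ g x)
    (h : ∀ (n : ℕ) (x : M), 0 < n → dist (T^[n] x) x ≤ δ →
      -C ≤ ∑ l ∈ Finset.range n, g (T^[l] x))
    (k : M → M) (hk : ∀ x y, k x = k y → dist x y ≤ δ) :
    ∀ (r : ℕ) (A : Finset M), A.card ≤ r → ∀ (n : ℕ) (x : M), (∀ l < n, k (T^[l] x) ∈ A) →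
      -(r * (C + B)) ≤ ∑ l ∈ Finset.range n, g (T^[l] x) := by
  classical
  intro r
  induction r with
  | zero =>
    intro A hA n x hx
    have hA' : A = ∅ := Finset.card_eq_zero.1 (Nat.le_zero.1 hA)
    rcases Nat.eq_zero_or_pos n with rfl | hn
    · simp
    · have := hx 0 hn
      rw [hA'] at this
      exact absurd this (Finset.notMem_empty _)
  | succ r ih =>
    intro A hA n x hx
    have hCB : 0 ≤ C + B := add_nonneg hC hB
    rcases Nat.eq_zero_or_pos n with rfl | hn
    · rw [Finset.range_zero, Finset.sum_empty]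
      have : 0 ≤ ((r + 1 : ℕ) : ℝ) * (C + B) := mul_nonneg (Nat.cast_nonneg _) hCB
      linarith
    · have hne : ((Finset.range n).filter fun l => k (T^[l] x) = k x).Nonempty :=
        ⟨0, Finset.mem_filter.2 ⟨Finset.mem_range.2 hn, rfl⟩⟩
      obtain ⟨m, hm⟩ : ∃ m, m = ((Finset.range n).filter fun l => k (T^[l] x) = k x).max' hne :=
        ⟨_, rfl⟩
      have hmem := Finset.max'_mem _ hne
      rw [← hm, Finset.mem_filter, Finset.mem_range] at hmem
      obtain ⟨hmn, hmk⟩ := hmem
      have hlast : ∀ l, m < l → l < n → k (T^[l] x) ≠ k x := by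
        intro l h1 h2 h3
        have h4 : l ∈ (Finset.range n).filter fun l => k (T^[l] x) = k x :=
          Finset.mem_filter.2 ⟨Finset.mem_range.2 h2, h3⟩
        have h5 := Finset.le_max' _ l h4
        omega
      obtain ⟨q, hq⟩ : ∃ q, n = m + 1 + q := ⟨n - (m + 1), by omega⟩
      have hit : ∀ l, T^[m + 1 + l] x = T^[l] (T^[m + 1] x) := by
        intro l
        rw [add_comm (m + 1) l, Function.iterate_add_apply]
      have h1 : -C ≤ ∑ l ∈ Finset.range m, g (T^[l] x) := by
        rcases Nat.eq_zero_or_pos m with h0 | h0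
        · rw [h0, Finset.range_zero, Finset.sum_empty]
          linarith
        · exact h m x h0 (hk _ _ hmk)
      have h2 := hg (T^[m] x)
      have h3 : -(r * (C + B)) ≤ ∑ l ∈ Finset.range q, g (T^[l] (T^[m + 1] x)) := by
        apply ih (A.erase (k x))
        · have hxA : k x ∈ A := hx 0 hn
          rw [Finset.card_erase_of_mem hxA]
          omega
        · intro l hl
          rw [← hit]
          exact Finset.mem_erase.2 ⟨hlast _ (by omega) (by omega), hx _ (by omega)⟩
      have h4 : ∑ l ∈ Finset.range n, g (T^[l] x) = ∑ l ∈ Finset.range m, g (T^[l] x) +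
          g (T^[m] x) + ∑ l ∈ Finset.range q, g (T^[l] (T^[m + 1] x)) := by
        rw [hq, Finset.sum_range_add, Finset.sum_range_succ]
        congr 1
        exact Finset.sum_congr rfl fun l _ => by rw [hit]
      rw [h4]
      push_cast
      linarith

theorem p_PIG : Stmt_PIG := by
  classical
  intro M _ _ T g δ B C hδ hg h
  obtain ⟨t, -, ht, hcov⟩ := (isCompact_univ (X := M)).finite_cover_balls (half_pos hδ)
  have hex : ∀ x : M, ∃ y ∈ t, dist x y < δ / 2 := by
    intro x
    obtain ⟨y, hy, hxy⟩ := Set.mem_iUnion₂.1 (hcov (Set.mem_univ x))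
    exact ⟨y, hy, hxy⟩
  choose k hk1 hk2 using hex
  have hk : ∀ x y, k x = k y → dist x y ≤ δ := by
    intro x y hxy
    have h1 := hk2 x
    have h2 := hk2 y
    rw [hxy] at h1
    have h3 := dist_triangle_right x y (k y)
    linarith
  refine ⟨ht.toFinset.card * (|C| + |B|), fun n x => ?_⟩
  refine PIG_main M T g δ |B| |C| (abs_nonneg _) (abs_nonneg _)
    (fun x => (neg_le_neg (le_abs_self B)).trans (hg x))
    (fun n x hn hx => (neg_le_neg (le_abs_self C)).trans (h n x hn hx)) k hk
    _ ht.toFinset le_rfl n x fun l _ => ?_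
  exact ht.mem_toFinset.2 (hk1 _)

end Pool.AN
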