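import Pool.Agent.Work.MP_bd2638_an.Interface

/-!
# MP_bd2638_an, block PSO: pseudo-orbits stay near the true orbit
-/

set_option autoImplicit false

open MeasureTheory Set Filter Topology

noncomputable section

namespace Pool.AN

theorem p_PSO : Stmt_PSO := by
  intro M _ _ f N
  induction N with
  | zero =>
    intro ε hε
    refine ⟨1, one_pos, fun x _ l hl => ?_⟩
    obtain rfl : l = 0 := by omega
    rw [Function.iterate_zero, id, dist_self]
    exact hε.le
  | succ N ih =>
    intro ε hε
    have huc := CompactSpace.uniformContinuous_of_continuous f.continuous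
    obtain ⟨η, hη, hη2⟩ := Metric.uniformContinuous_iff.1 huc (ε / 2) (by linarith)
    obtain ⟨δ, hδ, hδ2⟩ := ih (min ε (η / 2)) (lt_min hε (by linarith))
    refine ⟨min δ (ε / 2), lt_min hδ (by linarith), fun x hx l hl => ?_⟩
    have h1 : ∀ l ≤ N, dist (x l) (f^[l] (x 0)) ≤ min ε (η / 2) :=
      hδ2 x fun l hl => (hx l (by omega)).trans (min_le_left _ _)
    rcases Nat.lt_or_ge l (N + 1) with h2 | h2
    · exact (h1 l (by omega)).trans (min_le_left _ _)
    · obtain rfl : l = N + 1 := by omega
      have h3 : dist (x N) (f^[N] (x 0)) < η :=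
        lt_of_le_of_lt ((h1 N le_rfl).trans (min_le_right _ _)) (by linarith)
      have h4 := hη2 h3
      have h5 : dist (f (x N)) (x (N + 1)) ≤ ε / 2 := (hx N (by omega)).trans (min_le_right _ _)
      rw [Function.iterate_succ_apply']
      calc dist (x (N + 1)) (f (f^[N] (x 0)))
          ≤ dist (x (N + 1)) (f (x N)) + dist (f (x N)) (f (f^[N] (x 0))) := dist_triangle _ _ _
        _ ≤ ε / 2 + ε / 2 := add_le_add (by rw [dist_comm]; exact h5) h4.le
        _ = ε := by ring

end Pool.AN
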