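import Pool.Agent.Work.MP_bd2638_an.Interface

/-!
# Block SGB: bounds for all orbits
-/

set_option autoImplicit false

namespace Pool.AN

theorem p_SGB (hONE : Stmt_ONE) (hCLO : Stmt_CLO) (hPIG : Stmt_PIG) : Stmt_SGB := by
  intro d al M _ _ f S
  obtain ⟨δ₁, r, L, H, hδ₁, hr, hL, hH, h1, -⟩ := hONE d al M f S
  have hg : ∀ x, |S.g x| ≤ Real.log L := by
    intro x
    obtain ⟨-, -, -, -, h5, h6, -⟩ := h1 x (f x) (by rw [dist_self]; exact hδ₁.le) (S.pos x x)
      (Metric.mem_closedBall_self hr.le)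
    have e : S.g x = Real.log |(fderiv ℝ (S.G x (f x)) (S.pos x x)).det| := rfl
    have hL0 : 0 < L := by linarith
    rw [e, abs_le]
    constructor
    · rw [← Real.log_inv]
      exact Real.log_le_log (inv_pos.mpr hL0) h5
    · exact Real.log_le_log (lt_of_lt_of_le (inv_pos.mpr hL0) h5) h6
  obtain ⟨δ, C, hδ, hC, h2⟩ := hCLO d al M f S
  constructor
  · intro hp
    refine hPIG M f S.g δ (Real.log L) C hδ (fun x => (abs_le.mp (hg x)).1) (fun n x hn hx => ?_)
    obtain ⟨p, hfp, hpV, h3⟩ := h2 n x hn hx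
    have h5 := Real.log_nonneg (hp n (S.c x) p hn hpV hfp)
    have h6 := (abs_le.mp h3).1
    have e : S.Sn n x = ∑ l ∈ Finset.range n, S.g (f^[l] x) := rfl
    linarith
  · intro hp
    obtain ⟨C', hC'⟩ := hPIG M f (fun x => - S.g x) δ (Real.log L) C hδ
      (fun x => neg_le_neg (abs_le.mp (hg x)).2) (fun n x hn hx => by
        obtain ⟨p, hfp, hpV, h3⟩ := h2 n x hn hx
        have h5 := Real.log_nonpos (abs_nonneg _) (hp n (S.c x) p hn hpV hfp)
        have h6 := (abs_le.mp h3).2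
        have e : S.Sn n x = ∑ l ∈ Finset.range n, S.g (f^[l] x) := rfl
        rw [Finset.sum_neg_distrib]
        linarith)
    refine ⟨C', fun n x => ?_⟩
    have h7 := hC' n x
    have e : S.Sn n x = ∑ l ∈ Finset.range n, S.g (f^[l] x) := rfl
    rw [Finset.sum_neg_distrib] at h7
    linarith

end Pool.AN
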