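import Pool.Agent.Work.MP_bd2638_an.Interface

/-!
# Block SHD: periodic shadowing (helper48)
-/

set_option autoImplicit false

namespace Pool.AN

open Set Filter Topology Metric

theorem p_SHD (h1 : Stmt_NEA) (h2 : Stmt_SYM) (h3 : Stmt_LER) (h4 : Stmt_HYP) (h5 : Stmt_LIN)
    (h6 : Stmt_FIX) : Stmt_SHD := by
  intro d al M _ _ f S ε hε
  obtain ⟨N, L, δ₁, hN, hL, hδ₁, hP, hA, hH⟩ := h4 d al M f S
  obtain ⟨C, hC, hlin⟩ := h5 d N L hN hL
  obtain ⟨δ₂, r, hδ₂, hr, hler⟩ := h3 d al M f S (1 / (2 * C)) (by positivity)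
  obtain ⟨ρ₁, hρ₁, hsym⟩ := h2 d al M f S ε hε
  obtain ⟨ρ, hρ, hρr, hρε, hρρ⟩ : ∃ ρ : ℝ, 0 < ρ ∧ ρ ≤ r ∧ ρ ≤ ε ∧ ρ ≤ ρ₁ :=
    ⟨min r (min ε ρ₁), lt_min hr (lt_min hε hρ₁), min_le_left _ _,
      (min_le_right _ _).trans (min_le_left _ _), (min_le_right _ _).trans (min_le_right _ _)⟩
  obtain ⟨δ₃, hδ₃, hnea⟩ := h1 d al M f S (ρ / (2 * C)) (by positivity)
  refine ⟨min δ₁ (min δ₂ δ₃), lt_min hδ₁ (lt_min hδ₂ hδ₃), ?_⟩
  intro n _ x hx
  have hx1 : ∀ j, dist (f (x j)) (x (j + 1)) ≤ δ₁ := fun j => (hx j).trans (min_le_left _ _)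
  have hx2 : ∀ j, dist (f (x j)) (x (j + 1)) ≤ δ₂ := fun j =>
    (hx j).trans ((min_le_right _ _).trans (min_le_left _ _))
  have hx3 : ∀ j, dist (f (x j)) (x (j + 1)) ≤ δ₃ := fun j =>
    (hx j).trans ((min_le_right _ _).trans (min_le_right _ _))
  have hH8 : ∀ j : ZMod n, H8 (S.P (x j)) (S.P (x (j + (N : ZMod n))))
      (Bp (fun l => S.A (x (j + (l : ZMod n))) (x (j + (l : ZMod n) + 1))) N) := by
    intro j
    have h7 := hH (fun l : ℕ => x (j + (l : ZMod n))) (fun l _ => by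
      have h8 := hx1 (j + (l : ZMod n))
      have h9 : j + ((l + 1 : ℕ) : ZMod n) = j + (l : ZMod n) + 1 := by
        push_cast
        ring
      show dist (f (x (j + (l : ZMod n)))) (x (j + ((l + 1 : ℕ) : ZMod n))) ≤ δ₁
      rw [h9]
      exact h8)
    have h10 : (fun l : ℕ => S.A (x (j + (l : ZMod n))) (x (j + ((l + 1 : ℕ) : ZMod n)))) =
        fun l : ℕ => S.A (x (j + (l : ZMod n))) (x (j + (l : ZMod n) + 1)) := by
      funext l
      have h9 : j + ((l + 1 : ℕ) : ZMod n) = j + (l : ZMod n) + 1 := by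
        push_cast
        ring
      rw [h9]
    have h11 : j + ((0 : ℕ) : ZMod n) = j := by
      rw [Nat.cast_zero, add_zero]
    have h12 : H8 (S.P (x (j + ((0 : ℕ) : ZMod n)))) (S.P (x (j + (N : ZMod n))))
      (Bp (fun l : ℕ => S.A (x (j + (l : ZMod n))) (x (j + ((l + 1 : ℕ) : ZMod n)))) N) := h7
    rw [h10, h11] at h12
    exact h12
  have hap := hlin n (fun j => S.A (x j) (x (j + 1))) (fun j => S.P (x j)) (fun j => hA _ _ (hx1 j))
    (fun j v => hP (x j) v) hH8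
  obtain ⟨y, hy⟩ := h6 d n (fun j => S.A (x j) (x (j + 1))) (fun j => S.G (x j) (x (j + 1)))
    (fun j => S.pos (x j) (x j)) C (ρ / (2 * C)) (1 / (2 * C)) ρ hC hρ (by positivity)
    (by field_simp; norm_num) (by
      have : C * (ρ / (2 * C)) = ρ / 2 := by field_simp
      rw [this]) hap
    (fun j u hu v hv => (hler (x j) (x (j + 1)) (hx2 j)).2 u (closedBall_subset_closedBall hρr hu) v
      (closedBall_subset_closedBall hρr hv))
    (fun j => by
      show ‖S.G (x j) (x (j + 1)) (S.pos (x j) (x j)) - S.pos (x (j + 1)) (x (j + 1))‖ ≤ ρ / (2 * C)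
      rw [S.G_pos _ _ _ (S.c_src (x j))]
      exact (hnea (x (j + 1)) (f (x j)) (by rw [dist_comm]; exact hx3 j)).2.1)
  have hyt : ∀ j, y j ∈ (S.φ (S.c (x j))).target ∧
      f ((S.φ (S.c (x j))).symm (y j)) ∈ (S.φ (S.c (x (j + 1)))).source := fun j =>
    (hler (x j) (x (j + 1)) (hx2 j)).1 (y j) (closedBall_subset_closedBall hρr (hy j).1)
  have hstep : ∀ j, f ((S.φ (S.c (x j))).symm (y j)) = (S.φ (S.c (x (j + 1)))).symm (y (j + 1)) := by
    intro j
    have h7 : S.G (x j) (x (j + 1)) (y j) = y (j + 1) := (hy j).2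
    rw [S.G_apply] at h7
    rw [← h7, (S.φ (S.c (x (j + 1)))).left_inv (hyt j).2]
  have hiter : ∀ l : ℕ, f^[l] ((S.φ (S.c (x 0))).symm (y 0)) =
      (S.φ (S.c (x (l : ZMod n)))).symm (y (l : ZMod n)) := by
    intro l
    induction l with
    | zero =>
      rw [Function.iterate_zero, id_eq, Nat.cast_zero]
    | succ l ih =>
      rw [Function.iterate_succ_apply', ih, hstep, Nat.cast_succ]
  refine ⟨(S.φ (S.c (x 0))).symm (y 0), ?_, fun l => ?_⟩
  · rw [hiter n, ZMod.natCast_self]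
  · rw [hiter l]
    have h7 : ‖y (l : ZMod n) - S.pos (x (l : ZMod n)) (x (l : ZMod n))‖ ≤ ρ := by
      have h8 := (hy (l : ZMod n)).1
      rwa [mem_closedBall_iff_norm] at h8
    refine ⟨(hsym (x (l : ZMod n)) (y (l : ZMod n)) (h7.trans hρρ)).2,
      (S.φ (S.c (x (l : ZMod n)))).map_target (hyt (l : ZMod n)).1, ?_⟩
    have h8 : S.pos (x (l : ZMod n)) ((S.φ (S.c (x (l : ZMod n)))).symm (y (l : ZMod n))) = y (l : ZMod n) :=
      (S.φ (S.c (x (l : ZMod n)))).right_inv (hyt (l : ZMod n)).1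
    rw [h8]
    exact h7.trans hρε

end Pool.AN
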