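import Pool.Agent.Work.MP_bd2638_an.Interface

set_option autoImplicit false

/-! # Block SUM: a uniform bound for the Hoelder sums -/

open Set Filter Topology Metric

namespace Pool.AN

theorem SUM_add {s t al : ℝ} (hs : 0 ≤ s) (ht : 0 ≤ t) (hal : 0 < al) :
    (s + t) ^ al ≤ 2 ^ al * (s ^ al + t ^ al) := by
  have h2 : (0 : ℝ) ≤ 2 ^ al := Real.rpow_nonneg (by norm_num) _
  have hs' : 0 ≤ s ^ al := Real.rpow_nonneg hs _
  have ht' : 0 ≤ t ^ al := Real.rpow_nonneg ht _
  rcases le_total s t with h | h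
  · calc (s + t) ^ al ≤ (2 * t) ^ al := Real.rpow_le_rpow (by linarith) (by linarith) hal.le
      _ = 2 ^ al * t ^ al := Real.mul_rpow (by norm_num) ht
      _ ≤ 2 ^ al * (s ^ al + t ^ al) := mul_le_mul_of_nonneg_left (by linarith) h2
  · calc (s + t) ^ al ≤ (2 * s) ^ al := Real.rpow_le_rpow (by linarith) (by linarith) hal.le
      _ = 2 ^ al * s ^ al := Real.mul_rpow (by norm_num) hs
      _ ≤ 2 ^ al * (s ^ al + t ^ al) := mul_le_mul_of_nonneg_left (by linarith) h2

theorem SUM_pow {la al : ℝ} (hla : 0 < la) (j : ℕ) : (la ^ j) ^ al = (la ^ al) ^ j := by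
  rw [← Real.rpow_natCast la j, ← Real.rpow_mul hla.le, mul_comm, Real.rpow_mul hla.le,
    Real.rpow_natCast]

theorem SUM_geom {r : ℝ} (h0 : 0 < r) (h1 : r < 1) (n : ℕ) :
    ∑ j ∈ Finset.range n, r ^ j ≤ 1 / (1 - r) := by
  rw [one_div, ← tsum_geometric_of_lt_one h0.le h1]
  exact (summable_geometric_of_lt_one h0.le h1).sum_le_tsum _ fun j _ => (pow_pos h0 j).le

/-- Block SUM. -/
theorem p_SUM : Stmt_SUM := by
  intro la al h0 h1 hal
  have hr0 : 0 < la ^ al := Real.rpow_pos_of_pos h0 _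
  have hr1 : la ^ al < 1 := Real.rpow_lt_one h0.le h1 hal
  have h2 : (0 : ℝ) < 2 ^ al := Real.rpow_pos_of_pos (by norm_num) _
  have h3 : 0 < 1 - la ^ al := by linarith
  refine ⟨2 ^ al * (1 / (1 - la ^ al) + 1 / (1 - la ^ al)), by positivity, fun m => ?_⟩
  calc ∑ j ∈ Finset.range (m + 1), (la ^ j + la ^ (m - j)) ^ al
      ≤ ∑ j ∈ Finset.range (m + 1), 2 ^ al * ((la ^ al) ^ j + (la ^ al) ^ (m - j)) := by
        refine Finset.sum_le_sum fun j _ => ?_
        have h := SUM_add (pow_pos h0 j).le (pow_pos h0 (m - j)).le hal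
        rwa [SUM_pow h0, SUM_pow h0] at h
    _ = 2 ^ al * (∑ j ∈ Finset.range (m + 1), (la ^ al) ^ j
          + ∑ j ∈ Finset.range (m + 1), (la ^ al) ^ (m - j)) := by
        rw [← Finset.mul_sum, Finset.sum_add_distrib]
    _ ≤ 2 ^ al * (1 / (1 - la ^ al) + 1 / (1 - la ^ al)) := by
        refine mul_le_mul_of_nonneg_left (add_le_add (SUM_geom hr0 hr1 _) ?_) h2.le
        have h := Finset.sum_range_reflect (fun j => (la ^ al) ^ j) (m + 1)
        have h' : ∑ j ∈ Finset.range (m + 1), (la ^ al) ^ (m - j)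
            = ∑ j ∈ Finset.range (m + 1), (la ^ al) ^ j := h
        rw [h']
        exact SUM_geom hr0 hr1 _

end Pool.AN
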