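import Pool.Agent.Work.MP_bd2638_an.Interface

set_option autoImplicit false

namespace Pool.AN

open Set Filter Topology Metric

theorem SYM_min {m : ℕ} (g : Fin m → ℝ) (hg : ∀ i, 0 < g i) : ∃ δ : ℝ, 0 < δ ∧ ∀ i, δ ≤ g i := by
  rcases isEmpty_or_nonempty (Fin m) with h | h
  · exact ⟨1, one_pos, fun i => (h.false i).elim⟩
  · obtain ⟨i₀, hi₀⟩ := Finite.exists_min g
    exact ⟨g i₀, hg i₀, hi₀⟩

theorem SYM_one {d : ℕ} {M : Type} [MetricSpace M] (φ : OpenPartialHomeomorph M (EE d))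
    (K : Set M) (hK : IsCompact K) (hs : K ⊆ φ.source) (ε : ℝ) (hε : 0 < ε) :
    ∃ δ : ℝ, 0 < δ ∧ ∀ x ∈ K, ∀ u : EE d, ‖u - φ x‖ < δ → u ∈ φ.target ∧ dist (φ.symm u) x ≤ ε := by
  have hZ : IsCompact (φ '' K) := hK.image_of_continuousOn (φ.continuousOn.mono hs)
  have hZt : φ '' K ⊆ φ.target := by
    rintro _ ⟨x, hx, rfl⟩
    exact φ.map_source (hs hx)
  obtain ⟨δ₁, h1, h2⟩ := hZ.exists_thickening_subset_open φ.open_target hZt
  have h3 := hZ.uniformContinuousAt_of_continuousAt φ.symm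
    (fun a ha => φ.symm.continuousAt (hZt ha)) (dist_mem_uniformity hε)
  obtain ⟨δ₂, h4, h5⟩ := Metric.mem_uniformity_dist.1 h3
  refine ⟨min δ₁ δ₂, lt_min h1 h4, fun x hx u hu => ⟨?_, ?_⟩⟩
  · refine h2 (mem_thickening_iff.2 ⟨φ x, ⟨x, hx, rfl⟩, ?_⟩)
    rw [dist_eq_norm]
    exact hu.trans_le (min_le_left _ _)
  · have h6 : dist (φ x) u < δ₂ := by
      rw [dist_comm, dist_eq_norm]
      exact hu.trans_le (min_le_right _ _)
    have h7 := h5 h6 ⟨x, hx, rfl⟩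
    have h8 : dist (φ.symm (φ x)) (φ.symm u) < ε := h7
    rw [φ.left_inv (hs hx), dist_comm] at h8
    exact h8.le

theorem p_SYM : Stmt_SYM := by
  intro d al M _ _ f S ε hε
  have h : ∀ i : Fin S.m, ∃ δ : ℝ, 0 < δ ∧ ∀ x ∈ S.K i, ∀ u : EE d, ‖u - S.φ i x‖ < δ →
      u ∈ (S.φ i).target ∧ dist ((S.φ i).symm u) x ≤ ε := fun i =>
    SYM_one (S.φ i) (S.K i) (S.hK i) ((S.hKV i).trans (S.hVs i)) ε hε
  choose g hg1 hg2 using h
  obtain ⟨δ, h1, h2⟩ := SYM_min g hg1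
  refine ⟨δ / 2, half_pos h1, fun x u hu => ?_⟩
  refine hg2 (S.c x) x (S.c_mem x) u ?_
  have h3 : ‖u - S.φ (S.c x) x‖ ≤ δ / 2 := hu
  have h4 := h2 (S.c x)
  linarith

end Pool.AN
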