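import Pool.Agent.Work.MP_bd2638_an.Interface

set_option autoImplicit false

namespace Pool.AN

open Set Filter Topology Metric

theorem TRB_one (hD : Stmt_DCT) {d : ℕ} {al : ℝ} {M : Type} [MetricSpace M] [CompactSpace M] {f : M ≃ₜ M} (S : Sys d al M f)
    (i j : Fin S.m) (p : M) (hi : p ∈ (S.φ i).source) (hj : p ∈ (S.φ j).source) :
    ∀ᶠ x in 𝓝 p, abs (Real.log |(DF S.φ f 0 i j x).det|) ≤ abs (Real.log |(DF S.φ f 0 i j p).det|) + 1 := by
  have h0 : f^[0] p ∈ (S.φ j).source := hj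
  have hc : ContinuousAt (DF S.φ f 0 i j) p := hD d al M f S 0 i j p hi h0
  have hdet : ContinuousAt (fun x => (DF S.φ f 0 i j x).det) p :=
    ContinuousLinearMap.continuous_det.continuousAt.comp hc
  have hne : |(DF S.φ f 0 i j p).det| ≠ 0 := abs_ne_zero.mpr (S.inj 0 i j p hi h0)
  have hlog : ContinuousAt (fun x => abs (Real.log |(DF S.φ f 0 i j x).det|)) p :=
    (ContinuousAt.log hdet.abs hne).abs
  have h1 : abs (Real.log |(DF S.φ f 0 i j p).det|) < abs (Real.log |(DF S.φ f 0 i j p).det|) + 1 := by linarith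
  exact (hlog.eventually (gt_mem_nhds h1)).mono fun x hx => le_of_lt hx

theorem TRB_chart (hD : Stmt_DCT) {d : ℕ} {al : ℝ} {M : Type} [MetricSpace M] [CompactSpace M] {f : M ≃ₜ M} (S : Sys d al M f)
    (i : Fin S.m) (p : M) (hi : p ∈ (S.φ i).source) (j : Fin S.m) :
    ∃ C : ℝ, ∀ᶠ x in 𝓝 p, S.c x = j →
      abs (Real.log |(DF S.φ f 0 i j x).det|) ≤ C ∧ abs (Real.log |(DF S.φ f 0 j i x).det|) ≤ C := by
  by_cases hp : p ∈ S.K j
  · have hj : p ∈ (S.φ j).source := S.hVs j (S.hKV j hp)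
    refine ⟨max (abs (Real.log |(DF S.φ f 0 i j p).det|) + 1) (abs (Real.log |(DF S.φ f 0 j i p).det|) + 1), ?_⟩
    filter_upwards [TRB_one hD S i j p hi hj, TRB_one hD S j i p hj hi] with x h1 h2 _
    exact ⟨h1.trans (le_max_left _ _), h2.trans (le_max_right _ _)⟩
  · refine ⟨0, ?_⟩
    have hopen : (S.K j)ᶜ ∈ 𝓝 p := (S.hK j).isClosed.isOpen_compl.mem_nhds hp
    filter_upwards [hopen] with x hx hc
    exact absurd (hc ▸ S.c_mem x) hx

theorem p_TRB (hD : Stmt_DCT) : Stmt_TRB := by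
  intro d al M _ _ f S i p hp
  choose C hC using TRB_chart hD S i p hp
  refine ⟨∑ j, |C j|, ?_⟩
  have hs : ∀ᶠ x in 𝓝 p, x ∈ (S.φ i).source := (S.φ i).open_source.mem_nhds hp
  filter_upwards [hs, eventually_all.mpr hC] with x h1 h2
  have h3 := h2 (S.c x) rfl
  have h4 : C (S.c x) ≤ ∑ j, |C j| :=
    (le_abs_self _).trans (Finset.single_le_sum (f := fun j => |C j|) (fun j _ => abs_nonneg (C j)) (Finset.mem_univ _))
  exact ⟨h1, h3.1.trans h4, h3.2.trans h4⟩

end Pool.AN
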