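import Pool.Agent.Work.MP_bd2638_an.Interface

/-! Block UCF: uniform constants on a compact set. -/

set_option autoImplicit false

namespace Pool.AN

open Set Filter Topology Metric

theorem UCF_hoelder (d : ℕ) (al : ℝ) (Z : Set (EE d)) (g : EE d → ℝ) (hZ : IsCompact Z)
    (h : ∀ u ∈ Z, ∃ r > 0, ∃ H : ℝ, ∀ v ∈ ball u r, ∀ w ∈ ball u r, abs (g v - g w) ≤ H * ‖v - w‖ ^ al) :
    ∃ r H : ℝ, 0 < r ∧ 0 ≤ H ∧ ∀ z ∈ Z, ∀ u ∈ closedBall z r, ∀ v ∈ closedBall z r,
      abs (g u - g v) ≤ H * ‖u - v‖ ^ al := by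
  refine hZ.induction_on (p := fun s => ∃ r H : ℝ, 0 < r ∧ 0 ≤ H ∧ ∀ z ∈ s, ∀ u ∈ closedBall z r,
    ∀ v ∈ closedBall z r, abs (g u - g v) ≤ H * ‖u - v‖ ^ al) ?_ ?_ ?_ ?_
  · exact ⟨1, 0, one_pos, le_refl _, fun z hz => absurd hz (Set.notMem_empty z)⟩
  · rintro s t hst ⟨r, H, hr, hH, h1⟩
    exact ⟨r, H, hr, hH, fun z hz => h1 z (hst hz)⟩
  · rintro s t ⟨r, H, hr, hH, h1⟩ ⟨r', H', hr', hH', h2⟩
    refine ⟨min r r', max H H', lt_min hr hr', le_max_of_le_left hH, ?_⟩
    rintro z (hz | hz) u hu v hv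
    · refine (h1 z hz u (closedBall_subset_closedBall (min_le_left _ _) hu) v
        (closedBall_subset_closedBall (min_le_left _ _) hv)).trans ?_
      exact mul_le_mul_of_nonneg_right (le_max_left _ _) (Real.rpow_nonneg (norm_nonneg _) _)
    · refine (h2 z hz u (closedBall_subset_closedBall (min_le_right _ _) hu) v
        (closedBall_subset_closedBall (min_le_right _ _) hv)).trans ?_
      exact mul_le_mul_of_nonneg_right (le_max_right _ _) (Real.rpow_nonneg (norm_nonneg _) _)
  · intro z hz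
    obtain ⟨r, hr, H, h1⟩ := h z hz
    refine ⟨ball z (r / 2), mem_nhdsWithin_of_mem_nhds (ball_mem_nhds z (by linarith)), r / 4, max H 0,
      by linarith, le_max_right _ _, ?_⟩
    intro y hy u hu v hv
    have hb : ∀ w ∈ closedBall y (r / 4), w ∈ ball z r := by
      intro w hw
      rw [mem_closedBall] at hw
      rw [mem_ball] at hy ⊢
      have := dist_triangle w y z
      linarith
    refine (h1 u (hb u hu) v (hb v hv)).trans ?_
    exact mul_le_mul_of_nonneg_right (le_max_left _ _) (Real.rpow_nonneg (norm_nonneg _) _)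

theorem p_UCF : Stmt_UCF := by
  intro d al D Z F hal hD hZ hZD hF hdet hhol
  obtain ⟨r0, hr0, hsub⟩ := hZ.exists_cthickening_subset_open hD hZD
  set W := cthickening r0 Z with hWdef
  have hW : IsCompact W := hZ.cthickening
  have hcf : ∀ u ∈ D, ContinuousAt (fderiv ℝ F) u := by
    intro u hu
    have h0 : ContDiffAt ℝ 0 (fderiv ℝ F) u := (hF u hu).fderiv_right (by norm_num)
    exact h0.continuousAt
  have hcW : ContinuousOn (fderiv ℝ F) W := fun u hu => (hcf u (hsub hu)).continuousWithinAt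
  have hdW : ContinuousOn (fun u => (fderiv ℝ F u).det) W := by
    have h1 : Continuous (fun A : EE d →L[ℝ] EE d => A.det) := ContinuousLinearMap.continuous_det
    exact h1.comp_continuousOn hcW
  have hiW : ContinuousOn (fun u => ((fderiv ℝ F u).det)⁻¹) W :=
    hdW.inv₀ (fun u hu => hdet u (hsub hu))
  obtain ⟨C1, hC1⟩ := hW.exists_bound_of_continuousOn hcW
  obtain ⟨C2, hC2⟩ := hW.exists_bound_of_continuousOn hdW
  obtain ⟨C3, hC3⟩ := hW.exists_bound_of_continuousOn hiW
  obtain ⟨r1, H, hr1, hH, hHol⟩ := UCF_hoelder d al Z (fun u => Real.log |(fderiv ℝ F u).det|) hZ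
    (fun u hu => hhol u (hZD hu))
  have hmem : ∀ z ∈ Z, ∀ u ∈ closedBall z (min r0 r1), u ∈ W := by
    intro z hz u hu
    rw [mem_closedBall] at hu
    exact mem_cthickening_of_dist_le u z r0 Z hz (hu.trans (min_le_left _ _))
  refine ⟨min r0 r1, max 1 (max C1 (max C2 C3)), H, lt_min hr0 hr1, le_max_left _ _, hH, ?_, ?_⟩
  · intro z hz u hu
    have huW := hmem z hz u hu
    refine ⟨hsub huW, (hC1 u huW).trans ((le_max_left _ _).trans (le_max_right _ _)), ?_, ?_, ?_⟩
    · have h3 := hC3 u huW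
      have hpos : 0 < |(fderiv ℝ F u).det| := abs_pos.2 (hdet u (hsub huW))
      rw [Real.norm_eq_abs, abs_inv] at h3
      have h4 : |(fderiv ℝ F u).det|⁻¹ ≤ max 1 (max C1 (max C2 C3)) :=
        h3.trans ((le_max_right _ _).trans ((le_max_right _ _).trans (le_max_right _ _)))
      exact inv_le_of_inv_le₀ hpos h4
    · have h2 := hC2 u huW
      rw [Real.norm_eq_abs] at h2
      exact h2.trans ((le_max_left _ _).trans ((le_max_right _ _).trans (le_max_right _ _)))
    · intro v hv
      exact hHol z hz u (closedBall_subset_closedBall (min_le_right _ _) hu) v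
        (closedBall_subset_closedBall (min_le_right _ _) hv)
  · intro κ hκ
    have huc := hW.uniformContinuousOn_of_continuous hcW
    rw [Metric.uniformContinuousOn_iff] at huc
    obtain ⟨s, hs, h1⟩ := huc κ hκ
    refine ⟨s / 2, by linarith, ?_⟩
    intro z hz u hu v hv huv
    have h2 := h1 u (hmem z hz u hu) v (hmem z hz v hv) (by rw [dist_eq_norm]; linarith)
    rw [dist_eq_norm] at h2
    exact h2.le

end Pool.AN
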