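import Pool.Agent.Work.MP_bd2638_an.Interface

/-! # THEOREM AN (MP_bd2638_an): block VOL -/

set_option autoImplicit false

namespace Pool.AN

open Set Filter Topology Metric

/-- BLOCK VOL. -/
theorem p_VOL (h1 : Stmt_MES) (h2 : Stmt_MUF) (h3 : Stmt_MUC) (h4 : Stmt_MEA) (h5 : Stmt_MEB) :
    Stmt_VOL := by
  intro d al M _ _ _ _ f S h
  have hfin := (h2 d al M f S).1
  have hpos := (h2 d al M f S).2
  have hg := (h1 d al M f S).2
  have hmu : ∀ B, MeasurableSet B → S.mu (f.toMeasurableEquiv '' B) =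
      ∫⁻ x in B, ENNReal.ofReal (Real.exp (S.g x)) ∂S.mu := fun B hB => h3 d al M f S B hB
  have key : ∃ (C : ℝ) (nu : MeasureTheory.Measure M), MeasureTheory.IsFiniteMeasure nu ∧
      MeasureTheory.MeasurePreserving f nu nu ∧ MeasureTheory.Measure.AbsolutelyContinuous S.mu nu ∧
      ∀ n : ℕ, ∀ᵐ x ∂S.mu, |S.Sn n x| ≤ C := by
    rcases h with ⟨C, hC⟩ | ⟨C, hC⟩
    · obtain ⟨nu, a, b, c, e⟩ := h4 M S.mu f.toMeasurableEquiv S.g C hg hmu hC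
      exact ⟨|C|, nu, a, b, c, e⟩
    · obtain ⟨nu, a, b, c, e⟩ := h5 M S.mu f.toMeasurableEquiv S.g C hg hmu hC
      exact ⟨|C|, nu, a, b, c, e⟩
  obtain ⟨C, nu, hnu, hpr, hac, hb⟩ := key
  refine ⟨?_, C, hb⟩
  intro W hW hWn
  have h0 : nu W ≠ 0 := fun h0 => (hpos W hW hWn).ne' (hac h0)
  obtain ⟨x, hx, m, hm, hxm⟩ :=
    hpr.conservative.exists_mem_iterate_mem hW.measurableSet.nullMeasurableSet h0
  exact ⟨m, Nat.pos_of_ne_zero hm, ⟨_, ⟨x, hx, rfl⟩, hxm⟩⟩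

end Pool.AN
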