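import Pool.Agent.Work.MP_bd2638_an.B_BND
import Pool.Agent.Work.MP_bd2638_an.B_BPD
import Pool.Agent.Work.MP_bd2638_an.B_CH2
import Pool.Agent.Work.MP_bd2638_an.B_CHN
import Pool.Agent.Work.MP_bd2638_an.B_CLO
import Pool.Agent.Work.MP_bd2638_an.B_CTR
import Pool.Agent.Work.MP_bd2638_an.B_CYC
import Pool.Agent.Work.MP_bd2638_an.B_DCT
import Pool.Agent.Work.MP_bd2638_an.B_DTN
import Pool.Agent.Work.MP_bd2638_an.B_EXP
import Pool.Agent.Work.MP_bd2638_an.B_FIX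
import Pool.Agent.Work.MP_bd2638_an.B_HYP
import Pool.Agent.Work.MP_bd2638_an.B_LER
import Pool.Agent.Work.MP_bd2638_an.B_LIN
import Pool.Agent.Work.MP_bd2638_an.B_MAX
import Pool.Agent.Work.MP_bd2638_an.B_MEA
import Pool.Agent.Work.MP_bd2638_an.B_MEB
import Pool.Agent.Work.MP_bd2638_an.B_MES
import Pool.Agent.Work.MP_bd2638_an.B_MUC
import Pool.Agent.Work.MP_bd2638_an.B_MUF
import Pool.Agent.Work.MP_bd2638_an.B_MUR
import Pool.Agent.Work.MP_bd2638_an.B_NEA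
import Pool.Agent.Work.MP_bd2638_an.B_NST
import Pool.Agent.Work.MP_bd2638_an.B_ONE
import Pool.Agent.Work.MP_bd2638_an.B_PDT
import Pool.Agent.Work.MP_bd2638_an.B_PIG
import Pool.Agent.Work.MP_bd2638_an.B_PSO
import Pool.Agent.Work.MP_bd2638_an.B_SGB
import Pool.Agent.Work.MP_bd2638_an.B_SHD
import Pool.Agent.Work.MP_bd2638_an.B_SUM
import Pool.Agent.Work.MP_bd2638_an.B_SYM
import Pool.Agent.Work.MP_bd2638_an.B_TRB
import Pool.Agent.Work.MP_bd2638_an.B_TRS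
import Pool.Agent.Work.MP_bd2638_an.B_UCF
import Pool.Agent.Work.MP_bd2638_an.B_VOL

/-!
# MP_bd2638_an, THEOREM AN: all blocks of the dynamics together
-/

set_option autoImplicit false

namespace Pool.AN

theorem t_NEA : Stmt_NEA := p_NEA

theorem t_SYM : Stmt_SYM := p_SYM

theorem t_BND : Stmt_BND := p_BND

theorem t_UCF : Stmt_UCF := p_UCF

theorem t_ONE : Stmt_ONE := p_ONE t_UCF

theorem t_LER : Stmt_LER := p_LER t_ONE

theorem t_CH2 : Stmt_CH2 := p_CH2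

theorem t_CHN : Stmt_CHN := p_CHN t_CH2

theorem t_BPD : Stmt_BPD := p_BPD

theorem t_PSO : Stmt_PSO := p_PSO

theorem t_NST : Stmt_NST := p_NST t_NEA t_ONE t_CHN t_BPD t_PSO

theorem t_HYP : Stmt_HYP := p_HYP t_BND t_ONE t_NST

theorem t_LIN : Stmt_LIN := p_LIN

theorem t_FIX : Stmt_FIX := p_FIX

theorem t_SHD : Stmt_SHD := p_SHD t_NEA t_SYM t_LER t_HYP t_LIN t_FIX

theorem t_MAX : Stmt_MAX := p_MAX

theorem t_EXP : Stmt_EXP := p_EXP t_LER t_HYP t_MAX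

theorem t_SUM : Stmt_SUM := p_SUM

theorem t_CLO : Stmt_CLO := p_CLO t_NEA t_ONE t_CHN t_SHD t_EXP t_SUM

theorem t_PIG : Stmt_PIG := p_PIG

theorem t_SGB : Stmt_SGB := p_SGB t_ONE t_CLO t_PIG

theorem t_DTN : Stmt_DTN := p_DTN t_CHN

theorem t_DCT : Stmt_DCT := p_DCT

theorem t_MES : Stmt_MES := p_MES t_DCT

theorem t_MUR : Stmt_MUR := p_MUR t_MES

theorem t_MUF : Stmt_MUF := p_MUF t_MES t_MUR

theorem t_MUC : Stmt_MUC := p_MUC t_MES t_MUR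

theorem t_MEA : Stmt_MEA := p_MEA

theorem t_MEB : Stmt_MEB := p_MEB t_MEA

theorem t_VOL : Stmt_VOL := p_VOL t_MES t_MUF t_MUC t_MEA t_MEB

theorem t_TRB : Stmt_TRB := p_TRB t_DCT

theorem t_PDT : Stmt_PDT := p_PDT t_CH2 t_DCT t_DTN t_MUF t_TRB

theorem t_CTR : Stmt_CTR := p_CTR

theorem t_CYC : Stmt_CYC := p_CYC

theorem t_TRS : Stmt_TRS := p_TRS t_SHD t_CTR t_CYC

/-- The theorem on chart systems. -/
theorem t_SYS : Stmt_SYS := sys_of t_SGB t_VOL t_PDT t_TRS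

end Pool.AN
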