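import Pool.Agent.Work.MP_bd2638_an.Stmt

/-!
# THEOREM AN (MP_bd2638_an): interface, part M: from the manifold to the charts

File `B_X.lean` of the block `X`: `import Pool.Agent.Work.MP_bd2638_an.InterfaceM`, the `open` lines
of this file, `namespace Pool.AN`, `theorem p_X (hA : Stmt_A) .. : Stmt_X` with exactly the blocks of
the column `uses` as hypotheses, in that order; names of auxiliary lemmas begin with `X_`.

`TangentSpace I x` is by definition the model space `EE d`, and all linear maps are written as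
`EE d →L[ℝ] EE d`. In proofs use `show` or `change` to pass to `mfderiv`, and the lemmas of
`Mathlib/Geometry/Manifold/MFDeriv/Atlas.lean` (`OpenPartialHomeomorph.MDifferentiable`,
`mdifferentiable_chart`, `TangentBundle.continuousLinearMapAt_trivializationAt`,
`TangentBundle.symmL_trivializationAt`) and `mfderiv_comp`, `mfderiv_eq_fderiv`.
-/

set_option autoImplicit false

open Set Bundle Topology Filter
open scoped Manifold ContDiff

noncomputable section

namespace Pool.AN

section defs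

variable {d : ℕ} {M : Type} [TopologicalSpace M] [ChartedSpace (EE d) M]

/-- the chart at `a` -/
abbrev ch (a : M) : OpenPartialHomeomorph M (EE d) := chartAt (EE d) a

/-- the derivative of the chart at `a`, at the point `x` -/
def TT (a x : M) : EE d →L[ℝ] EE d := mfderiv 𝓘(ℝ, EE d) 𝓘(ℝ, EE d) (ch (d := d) a) x

/-- the derivative of the inverse of the chart at `a`, at the image of the point `x` -/
def TI (a x : M) : EE d →L[ℝ] EE d :=
  mfderiv 𝓘(ℝ, EE d) 𝓘(ℝ, EE d) (ch (d := d) a).symm (ch (d := d) a x)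

/-- the map `g` in the charts at `a` and `b` -/
def inch (a b : M) (g : M → M) (u : EE d) : EE d := ch (d := d) b (g ((ch (d := d) a).symm u))

/-- the domain of `g` in the charts at `a` and `b` -/
def dom (a b : M) (g : M → M) : Set (EE d) :=
  {u | u ∈ (ch (d := d) a).target ∧ g ((ch (d := d) a).symm u) ∈ (ch (d := d) b).source}

/-- the derivative of `g` at `x` in the charts at `a` and `b` -/
def dch (a b : M) (g : M → M) (x : M) : EE d →L[ℝ] EE d :=
  fderiv ℝ (inch (d := d) a b g) (ch (d := d) a x)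

/-- the derivative of `g` at `x` -/
def dd (g : M → M) (x : M) : EE d →L[ℝ] EE d := mfderiv 𝓘(ℝ, EE d) 𝓘(ℝ, EE d) g x

/-- the linear map `P` of the tangent space at `x` in the chart at `a` -/
def pch (a x : M) (P : EE d →L[ℝ] EE d) : EE d →L[ℝ] EE d := (TT a x).comp (P.comp (TI a x))

end defs

/-- MTI (60 lines): `TT` and `TI` are inverse to each other. Proof. `mdifferentiable_chart` gives
`(ch a).MDifferentiable`, and `OpenPartialHomeomorph.MDifferentiable.symm_comp_deriv`,
`comp_symm_deriv` (with `(ch a).left_inv`). -/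
def Stmt_MTI : Prop :=
  ∀ (d : ℕ) (M : Type) [TopologicalSpace M] [ChartedSpace (EE d) M] [IsManifold 𝓘(ℝ, EE d) ∞ M]
    (a x : M), x ∈ (ch (d := d) a).source →
    (TT (d := d) a x).comp (TI a x) = ContinuousLinearMap.id ℝ (EE d) ∧
    (TI (d := d) a x).comp (TT a x) = ContinuousLinearMap.id ℝ (EE d)

/-- MDF (100 lines): the derivative in charts. Proof. `inch a b g = ch b ∘ g ∘ (ch a).symm`; on the model
space `fderiv = mfderiv` (`mfderiv_eq_fderiv`), and the chain rule `mfderiv_comp` twice, with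
`(ch a).symm (ch a x) = x`. -/
def Stmt_MDF : Prop :=
  ∀ (d : ℕ) (M : Type) [TopologicalSpace M] [ChartedSpace (EE d) M] [IsManifold 𝓘(ℝ, EE d) ∞ M]
    (a b x : M) (g : M → M), x ∈ (ch (d := d) a).source → g x ∈ (ch (d := d) b).source →
    MDifferentiableAt 𝓘(ℝ, EE d) 𝓘(ℝ, EE d) g x →
    dch (d := d) a b g x = (TT b (g x)).comp ((dd g x).comp (TI a x))

/-- MSM (80 lines): `g` is `C^1` in charts. Proof. The domain is open (`(ch a).isOpen_inter_preimage_symm`
or `ContinuousOn.isOpen_inter_preimage`). `contMDiffOn_iff_contDiffOn`, `contMDiffOn_chart`,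
`contMDiffOn_chart_symm` (or `contMDiffOn_extChartAt` with `𝓘(ℝ, EE d)`), `ContMDiffOn.comp`. -/
def Stmt_MSM : Prop :=
  ∀ (d : ℕ) (M : Type) [TopologicalSpace M] [ChartedSpace (EE d) M] [IsManifold 𝓘(ℝ, EE d) ∞ M]
    (a b : M) (g : M → M), ContMDiff 𝓘(ℝ, EE d) 𝓘(ℝ, EE d) 1 g →
    IsOpen (dom (d := d) a b g) ∧ ContDiffOn ℝ 1 (inch (d := d) a b g) (dom (d := d) a b g)

/-- MIN (80 lines; uses MTI MDF): determinants. Proof. If `h (g x) = x` for all `x` then
`dd h (g x) ∘ dd g x = 1` (`mfderiv_comp`), so `det (dd g x) ≠ 0`. MDF, and `det (TT b _)`,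
`det (TI a x)` are not zero by MTI. If `g x = x` then
`det (TT a x) det (dd g x) det (TI a x) = det (dd g x)`. (`ContinuousLinearMap.det` is the determinant of
the linear map; `LinearMap.det_comp`.) -/
def Stmt_MIN : Prop :=
  ∀ (d : ℕ) (M : Type) [TopologicalSpace M] [ChartedSpace (EE d) M] [IsManifold 𝓘(ℝ, EE d) ∞ M]
    (g h : M → M), ContMDiff 𝓘(ℝ, EE d) 𝓘(ℝ, EE d) 1 g →
    ContMDiff 𝓘(ℝ, EE d) 𝓘(ℝ, EE d) 1 h → (∀ x, h (g x) = x) →
    (∀ a b x : M, x ∈ (ch (d := d) a).source → g x ∈ (ch (d := d) b).source →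
      (dch (d := d) a b g x).det ≠ 0) ∧
    ∀ a x : M, x ∈ (ch (d := d) a).source → g x = x →
      (dch (d := d) a a g x).det = (dd (d := d) g x).det

/-- MIT (80 lines): iterates. Proof. Induction on `n`: `f^[n + 1] = f^[n] ∘ f` or `f ∘ f^[n]`
(`Function.iterate_succ`, `Function.iterate_succ'`), `ContMDiff.comp`, `mfderiv_comp`. -/
def Stmt_MIT : Prop :=
  ∀ (d : ℕ) (M : Type) [TopologicalSpace M] [ChartedSpace (EE d) M] [IsManifold 𝓘(ℝ, EE d) ∞ M]
    (f : M → M) (P : M → EE d →L[ℝ] EE d), ContMDiff 𝓘(ℝ, EE d) 𝓘(ℝ, EE d) 1 f →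
    (∀ x v, P (f x) (dd f x v) = dd f x (P x v)) →
    ∀ n : ℕ, ContMDiff 𝓘(ℝ, EE d) 𝓘(ℝ, EE d) 1 (f^[n]) ∧
      ∀ x v, P (f^[n] x) (dd (f^[n]) x v) = dd (f^[n]) x (P x v)

/-- MHO (200 lines; uses MSM MIN): the Jacobian is locally Hölder continuous in all charts. Proof. Near
`u₀ = ch a x`: `inch a b f = τ₂ ∘ F ∘ τ₁` with `F = inch x (f x) f = loc f x`,
`τ₁ = ch x ∘ (ch a).symm`, `τ₂ = ch b ∘ (ch (f x)).symm`; `τ₁`, `τ₂` are `C^2` near `u₀` and
`F (τ₁ u₀)`, `F` is `C^1` near `τ₁ u₀`, and the determinants of the derivatives are not zero near the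
points. By the chain rule
`logJac (inch a b f) u = logJac τ₂ (F (τ₁ u)) + logJac F (τ₁ u) + logJac τ₁ u`. The first and the last
term are `C^1` functions composed with `C^1` functions (`logJac τ` is `C^1` near a point if `τ` is `C^2`
there and the determinant is not zero), so Lipschitz near `u₀`
(`ContDiffAt.exists_lipschitzOnWith`); the middle one is Hölder with the exponent `α`, `τ₁` is
Lipschitz. A number `t ∈ [0, 1]` satisfies `t ≤ t ^ (min α 1)`, `t ^ α ≤ t ^ (min α 1)`; take
`r ≤ 1 / 2`. -/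
def Stmt_MHO : Prop :=
  ∀ (d : ℕ) (M : Type) [TopologicalSpace M] [ChartedSpace (EE d) M] [IsManifold 𝓘(ℝ, EE d) ∞ M]
    (f h : M → M) (α : ℝ), 0 < α → ContMDiff 𝓘(ℝ, EE d) 𝓘(ℝ, EE d) 1 f →
    ContMDiff 𝓘(ℝ, EE d) 𝓘(ℝ, EE d) 1 h → (∀ x, h (f x) = x) →
    HolderJac (d := d) f α → ∀ a b x : M, x ∈ (ch (d := d) a).source →
    f x ∈ (ch (d := d) b).source → ∃ r C : ℝ, 0 < r ∧
      ∀ y ∈ Metric.ball (ch (d := d) a x) r, ∀ z ∈ Metric.ball (ch (d := d) a x) r,
        |logJac (inch (d := d) a b f) y - logJac (inch (d := d) a b f) z| ≤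
          C * dist y z ^ min α 1

/-- MNO (100 lines): the metric in a chart. Proof. With the instance
`RiemannianBundle (fun x : M => TangentSpace 𝓘(ℝ, EE d) x) := ⟨g.toRiemannianMetric⟩` the norm of the
tangent space at `x` is `len g x`. `eventually_norm_trivializationAt_lt`,
`eventually_norm_symmL_trivializationAt_lt` (see the proofs in
`Mathlib/Geometry/Manifold/Riemannian/Basic.lean`, lines 240 to 280),
`TangentBundle.continuousLinearMapAt_trivializationAt`: `TT a x` is
`(trivializationAt (EE d) (TangentSpace _) a).continuousLinearMapAt ℝ x` for `x` in the source. -/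
def Stmt_MNO : Prop :=
  ∀ (d : ℕ) (M : Type) [TopologicalSpace M] [ChartedSpace (EE d) M] [IsManifold 𝓘(ℝ, EE d) ∞ M]
    (g : RMetric d M) (a : M), ∃ c : ℝ, 0 < c ∧ ∀ᶠ x in 𝓝 a, ∀ v : EE d,
      c * ‖TT (d := d) a x v‖ ≤ len g x v ∧ c * len g x v ≤ ‖TT (d := d) a x v‖

/-- MQC (120 lines; uses MTI): a continuous bundle map in a chart. Proof. Maps into
`EE d →L[ℝ] EE d` are continuous if they are continuous on each vector `e`
(finite dimension: `continuousOn_clm_apply`). For `x` in the source let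
`τ = trivializationAt (EE d) (TangentSpace _) a`: `x ↦ τ.symm (x, e)` (the vector `TI a x e` at `x`) is
continuous into the tangent bundle on the source, then apply the bundle map and the second component
of `τ`: this is `TT a x (P x (TI a x e))` (`TangentBundle.continuousLinearMapAt_trivializationAt`,
`TangentBundle.symmL_trivializationAt`; `range 𝓘(ℝ, EE d) = univ`). -/
def Stmt_MQC : Prop :=
  ∀ (d : ℕ) (M : Type) [TopologicalSpace M] [ChartedSpace (EE d) M] [IsManifold 𝓘(ℝ, EE d) ∞ M]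
    (P : ∀ x : M, TangentSpace 𝓘(ℝ, EE d) x →L[ℝ] TangentSpace 𝓘(ℝ, EE d) x),
    Continuous (fun v : TangentBundle 𝓘(ℝ, EE d) M =>
      (⟨v.1, P v.1 v.2⟩ : TangentBundle 𝓘(ℝ, EE d) M)) →
    ∀ a : M, ContinuousOn (fun x : M => pch (d := d) a x (P x)) (ch (d := d) a).source

/-- MCV (80 lines): finitely many compact neighbourhoods. Proof. Choose an open neighbourhood `V a ⊆ W a`
of `a` and a compact neighbourhood `K a ⊆ V a` (`exists_compact_subset` in a locally compact space: a
manifold is one, `ChartedSpace.locallyCompactSpace`, or `M` is compact Hausdorff); finitely many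
interiors cover `M` (`CompactSpace.elim_nhds_subcover`). -/
def Stmt_MCV : Prop :=
  ∀ (M : Type) [TopologicalSpace M] [T2Space M] [CompactSpace M] (W : M → Set M),
    (∀ a, W a ∈ 𝓝 a) → ∃ (A : Finset M) (K V : M → Set M),
      (∀ a, IsCompact (K a) ∧ IsOpen (V a) ∧ K a ⊆ V a ∧ V a ⊆ W a) ∧
      ∀ x, ∃ a ∈ A, x ∈ interior (K a)

end Pool.AN
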