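import Pool.Agent.Work.MP_bd2638_an.StmtQ
import Pool.Agent.Work.MP_bd2638_an.InterfaceM

/-!
# THEOREM AN (MP_bd2638_an): from Jacobians to the sums of the Lyapunov exponents
-/

set_option autoImplicit false

open Set Bundle Topology
open scoped Manifold ContDiff

noncomputable section

namespace Pool.AN

variable {d : ℕ} {M : Type} [TopologicalSpace M] [ChartedSpace (EE d) M]

/-- linear algebra: the determinant of a map which commutes with a projection -/
theorem det_split (D Q : EE d →L[ℝ] EE d) (hQ : Q.comp Q = Q) (hD : Q.comp D = D.comp Q) :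
    (D.comp Q + (1 - Q)).det * (D.comp (1 - Q) + (1 - (1 - Q))).det = D.det := by
  have h : (D.comp Q + (1 - Q)).comp (D.comp (1 - Q) + (1 - (1 - Q))) = D := by
    ext1 v
    have h1 : ∀ w, Q (Q w) = Q w := fun w => congrArg (fun T : EE d →L[ℝ] EE d => T w) hQ
    have h2 : ∀ w, Q (D w) = D (Q w) := fun w => congrArg (fun T : EE d →L[ℝ] EE d => T w) hD
    simp only [ContinuousLinearMap.comp_apply, ContinuousLinearMap.add_apply,
      ContinuousLinearMap.sub_apply, ContinuousLinearMap.one_apply, map_add, map_sub, h1, h2,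
      sub_self, sub_sub_cancel]
    abel
  conv_rhs => rw [← h]
  have e : ∀ A B : EE d →L[ℝ] EE d, (A.comp B).det = A.det * B.det := fun A B => by
    unfold ContinuousLinearMap.det
    rw [ContinuousLinearMap.toLinearMap_comp, LinearMap.det_comp]
  rw [e]

theorem anq_of (hAN : Stmt_AN) (hMIN : Stmt_MIN) (hMIT : Stmt_MIT) : Stmt_ANQ := by
  intro d M _ _ _ _ _ _ f P α hα hA hH
  obtain ⟨g, c, β, η, hc, hβ, hβ1, hη, hPP, hPc, hPf, hyp⟩ := hA
  have hf1 : ContMDiff 𝓘(ℝ, EE d) 𝓘(ℝ, EE d) 1 f := f.contMDiff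
  have hfs1 : ContMDiff 𝓘(ℝ, EE d) 𝓘(ℝ, EE d) 1 f.symm := f.symm.contMDiff
  have hit := hMIT d M f (fun x => (P x : EE d →L[ℝ] EE d)) hf1 (fun x v => hPf x v)
  have hits : ∀ n, ContMDiff 𝓘(ℝ, EE d) 𝓘(ℝ, EE d) 1 (f.symm^[n]) := fun n =>
    (hMIT d M f.symm (fun x => 0) hfs1 (fun x v => by simp) n).1
  have hinv : ∀ (n : ℕ) (x : M), f.symm^[n] (f^[n] x) = x := fun n x =>
    (Function.LeftInverse.iterate (fun y => f.symm_apply_apply y) n) x
  have key : ∀ (k : ℕ) (p : M), f^[k] p = p →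
      0 < jac (d := d) f k p ∧ lamU f P k p + lamS f P k p = Real.log (jac (d := d) f k p) / k := by
    intro k p hp
    have hM := hMIN d M (f^[k]) (f.symm^[k]) (hit k).1 (hits k) (hinv k)
    have hp1 : p ∈ (ch (d := d) p).source := mem_chart_source _ p
    have h1 := hM.2 p p hp1 hp
    have h0 : (dch (d := d) p p (f^[k]) p).det ≠ 0 := hM.1 p p p hp1 (by rw [hp]; exact hp1)
    rw [h1] at h0
    have hD0 : (dd (d := d) (f^[k]) p).det ≠ 0 := h0
    have hsp := det_split (dd (d := d) (f^[k]) p) (P p : EE d →L[ℝ] EE d)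
      (by ext1 v; exact hPP p v)
      (by
        ext1 v
        have h2 := (hit k).2 p v
        rw [hp] at h2
        exact h2)
    refine ⟨abs_pos.2 hD0, ?_⟩
    have hj : jac (d := d) f k p = |(dd (d := d) (f^[k]) p).det| := rfl
    rw [hj, ← hsp, abs_mul, Real.log_mul, add_div]
    · rfl
    · intro h3
      rw [abs_eq_zero] at h3
      rw [h3, zero_mul] at hsp
      exact hD0 hsp.symm
    · intro h3
      rw [abs_eq_zero] at h3
      rw [h3, mul_zero] at hsp
      exact hD0 hsp.symm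
  rcases hAN d M f α hα ⟨g, c, β, η, P, hc, hβ, hβ1, hη, hPP, hPc, hPf, hyp⟩ hH with
    ⟨⟨k, p, hk, hp, h1⟩, ⟨l, q, hl, hq, h2⟩⟩ | ⟨h1, h2⟩
  · left
    refine ⟨⟨k, p, hk, hp, ?_⟩, ⟨l, q, hl, hq, ?_⟩⟩
    · obtain ⟨h3, h4⟩ := key k p hp
      have h5 : Real.log (jac (d := d) f k p) / k < 0 :=
        div_neg_of_neg_of_pos (Real.log_neg h3 h1) (by exact_mod_cast hk)
      linarith
    · obtain ⟨h3, h4⟩ := key l q hq
      have h5 : 0 < Real.log (jac (d := d) f l q) / l :=
        div_pos (Real.log_pos h2) (by exact_mod_cast hl)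
      linarith
  · right
    refine ⟨fun k p hk hp => ?_, h2⟩
    obtain ⟨h3, h4⟩ := key k p hp
    rw [h1 k p hk hp, Real.log_one, zero_div] at h4
    linarith

end Pool.AN
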