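import Pool.Agent.Work.MP_bd2638_an.Interface

/-!
# MP_bd2638_an, LOCAL FORM (helper10): blocks

`U` is a trapping region: open, nonempty, `U ≠ univ`, `f '' closure U ⊆ U`. THEOREM: there is a
periodic point in `U` with `|det Df^k| < 1` and a periodic point outside `closure U` with
`|det Df^k| > 1`. If `f` is not transitive, trapping regions exist.

RULES. File `B_X.lean` in this folder, import `Pool.Agent.Work.MP_bd2638_an.InterfaceL`, namespace
`Pool.AN`, `open Set Filter Topology Metric`, `theorem p_X (h1 : Stmt_Y) .. : Stmt_X` with the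
blocks named after `uses` in that order; auxiliary lemmas with the prefix `X_`.
-/

set_option autoImplicit false

namespace Pool.AN

open Set Filter Topology Metric

/-- **CLP** (140; uses NEA ONE CHN SHD EXP SUM). COPY of `B_CLO.lean` with `ε` in the minimum:
`min ε (min ρ (min r ε₀))` in place of `min ρ (min r ε₀)`; the new claim `dist x p ≤ ε` is `h0` in
the first part of the proof there. -/
def Stmt_CLP : Prop := ∀ (d : ℕ) (al : ℝ) (M : Type) [MetricSpace M] [CompactSpace M] (f : M ≃ₜ M)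
  (S : Sys d al M f) (ε : ℝ), 0 < ε → ∃ δ C : ℝ, 0 < δ ∧ 0 ≤ C ∧ ∀ (n : ℕ) (x : M), 0 < n →
    dist (f^[n] x) x ≤ δ → ∃ p : M, f^[n] p = p ∧ dist x p ≤ ε ∧ p ∈ S.V (S.c x) ∧
      abs (S.Sn n x - Real.log |(DF S.φ f n (S.c x) (S.c x) p).det|) ≤ C

/-- **PGL** (50; uses PIG). PIGEONHOLE ON A CLOSED INVARIANT SET `A`. `PIG` for the compact metric
space `↥A` (`isCompact_iff_compactSpace`), `T' x = ⟨T x, h x⟩`, `g' x = g x`;
`((T'^[l] x : A) : M) = T^[l] x` by induction on `l`. -/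
def Stmt_PGL : Prop := ∀ (M : Type) [MetricSpace M] [CompactSpace M] (T : M → M) (g : M → ℝ)
  (A : Set M) (δ B C : ℝ), IsClosed A → (∀ x ∈ A, T x ∈ A) → 0 < δ → (∀ x, -B ≤ g x) →
  (∀ (n : ℕ) (x : M), x ∈ A → 0 < n → dist (T^[n] x) x ≤ δ →
    -C ≤ ∑ l ∈ Finset.range n, g (T^[l] x)) →
  ∃ C' : ℝ, ∀ (n : ℕ) (x : M), x ∈ A → -C' ≤ ∑ l ∈ Finset.range n, g (T^[l] x)

/-- **SUL** (90; uses ONE CLP PGL). `A = closure U`, `T = f`, `g = S.g` (`|S.g x| ≤ log L` as in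
`B_SGB.lean`). The compact set `f '' closure U` is contained in the open set `U`: for some `ε > 0`
every point at distance `≤ 2 ε` from it is in `U` (`IsCompact.exists_cthickening_subset_open`).
`δ` of CLP for this `ε`, `min δ ε`. If `x ∈ closure U`, `n > 0`, `dist (f^[n] x) x ≤ min δ ε`, then
`f^[n] x ∈ f '' closure U` (invariance), so the point `p` of CLP is at distance `≤ 2 ε` from it:
`p ∈ U`, `1 ≤ |det|`, `log |det| ≥ 0`, `S.Sn n x ≥ -C`. PGL. -/
def Stmt_SUL : Prop := ∀ (d : ℕ) (al : ℝ) (M : Type) [MetricSpace M] [CompactSpace M] (f : M ≃ₜ M)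
  (S : Sys d al M f) (U : Set M), IsOpen U → f '' closure U ⊆ U →
  (∀ n i x, 0 < n → x ∈ U → x ∈ S.V i → f^[n] x = x → 1 ≤ |(DF S.φ f n i i x).det|) →
  ∃ C : ℝ, ∀ (n : ℕ) (x : M), x ∈ closure U → -C ≤ S.Sn n x

/-- **SUR** (110; uses ONE CLP PGL). The same for `f.symm`: `A = closure V`, `T = f.symm`,
`g x = - S.g (f.symm x)`. For `x ∈ closure V`, `n > 0`, `dist (f.symm^[n] x) x ≤ min δ ε` put
`y = f.symm^[n] x ∈ f.symm '' closure V`; `f^[n] y = x`, `dist (f^[n] y) y ≤ δ`; CLP for `y`: `p` is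
at distance `≤ ε` from `y`, so `p ∈ V`, `log |det| ≤ 0`, `S.Sn n y ≤ C`; and
`∑ l < n, - S.g (f.symm (f.symm^[l] x)) = - S.Sn n y` (reflect the sum:
`f.symm (f.symm^[l] x) = f^[n-1-l] y`; compare `B_MEB.lean`). -/
def Stmt_SUR : Prop := ∀ (d : ℕ) (al : ℝ) (M : Type) [MetricSpace M] [CompactSpace M] (f : M ≃ₜ M)
  (S : Sys d al M f) (V : Set M), IsOpen V → f.symm '' closure V ⊆ V →
  (∀ n i x, 0 < n → x ∈ V → x ∈ S.V i → f^[n] x = x → |(DF S.φ f n i i x).det| ≤ 1) →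
  ∃ C : ℝ, ∀ (n : ℕ) (x : M), x ∈ closure V →
    -C ≤ ∑ l ∈ Finset.range n, (- S.g (f.symm (f.symm^[l] x)))

/-- **MEL** (100; uses nothing). As `B_MEA.lean`, on `U`: `J n x = ofReal (exp (∑ l < n, g (T^[l] x)))`,
`J = J 1`, `W x = ⨅ n, J n x` (measurable), `ofReal (exp (-C)) ≤ W ≤ J 0 = 1` on `U`,
`W x ≤ J x * W (T x)` (`J x * ⨅ n, J n (T x) = ⨅ n, J (n+1) x`). The hypothesis gives
`∫⁻ x in T '' B, h x ∂mu = ∫⁻ x in B, h (T x) * J x ∂mu`. So
`∫⁻ x in T '' U, W ∂mu = ∫⁻ x in U, W (T x) * J x ∂mu ≥ ∫⁻ x in U, W ∂mu`, which is finite and equal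
to `∫⁻ x in T '' U, W + ∫⁻ x in U \ T '' U, W`; hence the last integral is `0`, and `W > 0` on `U`:
`mu (U \ T '' U) = 0`. -/
def Stmt_MEL : Prop := ∀ (M : Type) [MeasurableSpace M] (mu : MeasureTheory.Measure M)
  [MeasureTheory.IsFiniteMeasure mu] (T : M ≃ᵐ M) (g : M → ℝ) (C : ℝ) (U : Set M), Measurable g →
  (∀ B, MeasurableSet B → mu (T '' B) = ∫⁻ x in B, ENNReal.ofReal (Real.exp (g x)) ∂mu) →
  MeasurableSet U → T '' U ⊆ U →
  (∀ (n : ℕ) (x : M), x ∈ U → -C ≤ ∑ l ∈ Finset.range n, g (T^[l] x)) → mu (U \ T '' U) = 0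

/-- **MEI** (50; uses nothing). THE INVERSE: contained in the proof of `B_MEB.lean` (hypothesis of MEA for
`T.symm`, `g' x = - g (T.symm x)`): copy it. -/
def Stmt_MEI : Prop := ∀ (M : Type) [MeasurableSpace M] (mu : MeasureTheory.Measure M)
  [MeasureTheory.IsFiniteMeasure mu] (T : M ≃ᵐ M) (g : M → ℝ), Measurable g →
  (∀ B, MeasurableSet B → mu (T '' B) = ∫⁻ x in B, ENNReal.ofReal (Real.exp (g x)) ∂mu) →
  Measurable (fun x => - g (T.symm x)) ∧
  ∀ B, MeasurableSet B → mu (T.symm '' B) =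
    ∫⁻ x in B, ENNReal.ofReal (Real.exp (- g (T.symm x))) ∂mu

/-- **TOP** (40; uses nothing). `U \ f '' closure U` is open (`closure U` is compact, so its image is closed)
and contained in the null set `U \ f '' U`, hence empty; so `U ⊆ f '' closure U ⊆ U`, `U` is
closed, `IsClopen.eq_univ`. -/
def Stmt_TOP : Prop := ∀ (M : Type) [MetricSpace M] [CompactSpace M] [ConnectedSpace M]
  [MeasurableSpace M] [BorelSpace M] (mu : MeasureTheory.Measure M) (f : M ≃ₜ M) (U : Set M),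
  IsOpen U → U.Nonempty → f '' closure U ⊆ U → (∀ W : Set M, IsOpen W → W.Nonempty → 0 < mu W) →
  mu (U \ f '' U) = 0 → U = univ

/-- **LOC** (100; uses MES MUF MUC SUL SUR MEL MEI TOP). `borel M`, `mu = S.mu`,
`T = f.toMeasurableEquiv`. First: if no such point in `U`, SUL gives `-C ≤ S.Sn n x` on `closure U`,
MEL with `g = S.g` (MES: measurable; MUC), TOP: `U = univ`, false. Second: `V = (closure U)ᶜ` is
open; `closure V ⊆ Uᶜ`, `f.symm '' closure V ⊆ V` (if `f.symm y ∈ closure U` then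
`y ∈ f '' closure U ⊆ U`); nonempty (otherwise `closure U = univ`, `f '' univ ⊆ U`, `U = univ`).
SUR, MEI, MEL for `T.symm`, TOP for `f.symm` and `V`: `V = univ`, so `closure U` is empty, false. -/
def Stmt_LOC : Prop := ∀ (d : ℕ) (al : ℝ) (M : Type) [MetricSpace M] [CompactSpace M]
  [ConnectedSpace M] (f : M ≃ₜ M) (S : Sys d al M f) (U : Set M), IsOpen U → U.Nonempty →
  U ≠ univ → f '' closure U ⊆ U →
  (∃ n i x, 0 < n ∧ x ∈ U ∧ x ∈ S.V i ∧ f^[n] x = x ∧ |(DF S.φ f n i i x).det| < 1) ∧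
  ∃ n i x, 0 < n ∧ x ∉ closure U ∧ x ∈ S.V i ∧ f^[n] x = x ∧ 1 < |(DF S.φ f n i i x).det|

/-- **TRN** (80; uses SHD CYC). If for all `δ > 0` and all `x y` one has `TransGen (Jump f δ) x y`, then
`Trans f` (the proof in `B_TRS.lean`). So there are `δ, x, y` without; `U` = the set of the `z` with
`TransGen (Jump f δ) x z`: contains `f x`, not `y`, open (last jump), and for `z ∈ closure U` there
is `z' ∈ U` with `dist (f z') (f z) < δ` (continuity of `f` at `z`), so `z' → f z` is a jump: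
`f z ∈ U`. -/
def Stmt_TRN : Prop := ∀ (d : ℕ) (al : ℝ) (M : Type) [MetricSpace M] [CompactSpace M]
  [ConnectedSpace M] (f : M ≃ₜ M) (_ : Sys d al M f), ¬ Trans f →
  ∃ U : Set M, IsOpen U ∧ U.Nonempty ∧ U ≠ univ ∧ f '' closure U ⊆ U

end Pool.AN
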