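import Pool.Agent.Work.MP_bd2638_an.Stmt

/-!
# MP_bd2638_an: the definitions of the theorem on the sums of the Lyapunov exponents

`M` is a smooth manifold without boundary of dimension `d`, modelled on `EE d`. The tangent space at
`x` is `TangentSpace 𝓘(ℝ, EE d) x`, which is `EE d` by definition (via the preferred chart at `x`).
-/

set_option autoImplicit false

open Set Bundle Topology
open scoped Manifold ContDiff

noncomputable section

namespace Pool.AN

/-- continuous linear maps of `EE d` -/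
abbrev LL (d : ℕ) : Type := EE d →L[ℝ] EE d

/-- `T v` -/
def ap {d : ℕ} (T : LL d) (v : EE d) : EE d := T v

/-- continuous bilinear forms on `EE d` -/
abbrev BB (d : ℕ) : Type := EE d →L[ℝ] EE d →L[ℝ] ℝ

/-- `B (v, w)` -/
def apB {d : ℕ} (B : BB d) (v w : EE d) : ℝ := B v w

/-- smooth manifolds -/
abbrev Mfd (d : ℕ) (M : Type) [TopologicalSpace M] [ChartedSpace (EE d) M] : Prop :=
  IsManifold 𝓘(ℝ, EE d) ∞ M

variable {d : ℕ} {M : Type} [TopologicalSpace M] [ChartedSpace (EE d) M]

/-- the derivative `T_x M → T_(f x) M` of `f` at `x` -/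
def Dx (f : M → M) (x : M) : LL d := mfderiv 𝓘(ℝ, EE d) 𝓘(ℝ, EE d) f x

/-- `f` is a diffeomorphism of class `C^1` -/
def IsDiffeo (d : ℕ) {M : Type} [TopologicalSpace M] [ChartedSpace (EE d) M] (f : M → M) : Prop :=
  ∃ F : M ≃ₘ^1⟮𝓘(ℝ, EE d), 𝓘(ℝ, EE d)⟯ M, ∀ x, F x = f x

/-- the inner product on `T_x M` -/
def innerAt [Mfd d M] (g : RMetric d M) (x : M) : BB d := g.inner x

/-- the length of the tangent vector `v` at `x` for the Riemannian metric `g` -/
def leng [Mfd d M] (g : RMetric d M) (x : M) (v : EE d) : ℝ := Real.sqrt (apB (innerAt g x) v v)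

/-- the linear maps `P x` of the tangent spaces form a continuous map of the tangent bundle -/
def ContField [Mfd d M] (P : M → LL d) : Prop :=
  Continuous (fun v : TangentBundle 𝓘(ℝ, EE d) M =>
      (⟨v.1, P v.1 v.2⟩ : TangentBundle 𝓘(ℝ, EE d) M))

/-- `f` is Anosov with the splitting `T M = E^u ⊕ E^s`, where `P x` is the projection of `T_x M` onto
`E^u x` along `E^s x`: the splitting is continuous and invariant under `Df`, and for some Riemannian
metric and `0 < c`, `0 < β < 1 < η`, all `n`: `c η^n |v| ≤ |Df^n v|` for `v` in `E^u` and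
`c |Df^n v| ≤ β^n |v|` for `v` in `E^s`. -/
def Anosov [Mfd d M] (f : M → M) (P : M → LL d) : Prop :=
  ∃ (g : RMetric d M) (c β η : ℝ), 0 < c ∧ 0 < β ∧ β < 1 ∧ 1 < η ∧
    (∀ x v, ap (P x) (ap (P x) v) = ap (P x) v) ∧ ContField P ∧
    (∀ x v, ap (P (f x)) (ap (Dx f x) v) = ap (Dx f x) (ap (P x) v)) ∧
    ∀ (n : ℕ) (x : M) (v : EE d),
      (ap (P x) v = v → c * η ^ n * leng g x v ≤ leng g (f^[n] x) (ap (Dx (f^[n]) x) v)) ∧
      (ap (P x) v = 0 → c * leng g (f^[n] x) (ap (Dx (f^[n]) x) v) ≤ β ^ n * leng g x v)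

/-- the logarithm of the absolute value of the determinant -/
def logDet (T : LL d) : ℝ := Real.log |T.det|

/-- `f` in the charts at `x` and at `f x` -/
def locMap (d : ℕ) {M : Type} [TopologicalSpace M] [ChartedSpace (EE d) M] (f : M → M) (x : M)
    (u : EE d) : EE d :=
  chartAt (EE d) (f x) (f ((chartAt (EE d) x).symm u))

/-- The Jacobian determinant of `f` is locally Hölder continuous with exponent `α` (in charts, for
the logarithm of its absolute value). -/
def HolderDet (d : ℕ) {M : Type} [TopologicalSpace M] [ChartedSpace (EE d) M] (f : M → M)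
    (α : ℝ) : Prop :=
  ∀ x : M, ∃ r H : ℝ, 0 < r ∧ ∀ y z : EE d,
    dist (chartAt (EE d) x x) y < r → dist (chartAt (EE d) x x) z < r →
      |logDet (fderiv ℝ (locMap d f x) y) - logDet (fderiv ℝ (locMap d f x) z)| ≤
        H * dist y z ^ α

/-- the map which is `T` on the image of the projection `Q` (if `T` leaves it invariant) and the
identity on its kernel; its determinant is the determinant of the restriction of `T` -/
def extId (T Q : LL d) : LL d := T.comp Q + (1 - Q)

/-- `Λ^u_f(p) = (1/k) log |det (Df^k(p) | E^u p)|` for `f^k p = p`, `0 < k`: the sum of the positive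
Lyapunov exponents at `p` -/
def Lu (f : M → M) (P : M → LL d) (k : ℕ) (p : M) : ℝ :=
  logDet (extId (Dx (f^[k]) p) (P p)) / k

/-- `Λ^s_f(p) = (1/k) log |det (Df^k(p) | E^s p)|` for `f^k p = p`, `0 < k`: the sum of the negative
Lyapunov exponents at `p` -/
def Ls (f : M → M) (P : M → LL d) (k : ℕ) (p : M) : ℝ :=
  logDet (extId (Dx (f^[k]) p) (1 - P p)) / k

/-- The theorem with the sums `Λ^u`, `Λ^s` of the positive and of the negative exponents. -/
def Stmt_ANR : Prop :=
  ∀ (d : ℕ) (M : Type) [TopologicalSpace M] [T2Space M] [CompactSpace M] [ConnectedSpace M]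
    [ChartedSpace (EE d) M] [Mfd d M] (f : M → M) (P : M → LL d) (α : ℝ),
    IsDiffeo d f → Anosov f P → 0 < α → HolderDet d f α →
    ((∃ (k : ℕ) (p : M), 0 < k ∧ f^[k] p = p ∧ Ls f P k p < - Lu f P k p) ∧
      ∃ (k : ℕ) (p : M), 0 < k ∧ f^[k] p = p ∧ - Lu f P k p < Ls f P k p) ∨
    ((∀ (k : ℕ) (p : M), 0 < k → f^[k] p = p → Ls f P k p = - Lu f P k p) ∧ Trans f)

end Pool.AN
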