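import Pool.Agent.Work.MP_bd2638_an.AssemblyM
import Pool.Agent.Work.MP_bd2638_an.AssemblyQ
import Pool.Agent.Work.MP_bd2638_an.StmtR
import Pool.Agent.Work.MP_bd2638_an.InterfaceL

/-!
# MP_bd2638_an, LOCAL FORM: from chart systems to manifolds (helper10)
-/

set_option autoImplicit false

open Set Bundle Topology Filter
open scoped Manifold ContDiff

noncomputable section

namespace Pool.AN

/-- The local theorem on chart systems. -/
def Stmt_SYSL : Prop := ∀ (d : ℕ) (al : ℝ) (M : Type) [MetricSpace M] [CompactSpace M]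
  [ConnectedSpace M] (f : M ≃ₜ M) (S : Sys d al M f),
  (∀ U : Set M, IsOpen U → U.Nonempty → U ≠ univ → f '' closure U ⊆ U →
    (∃ n i x, 0 < n ∧ x ∈ U ∧ x ∈ S.V i ∧ f^[n] x = x ∧ |(DF S.φ f n i i x).det| < 1) ∧
    ∃ n i x, 0 < n ∧ x ∉ closure U ∧ x ∈ S.V i ∧ f^[n] x = x ∧ 1 < |(DF S.φ f n i i x).det|) ∧
  (¬ Trans f → ∃ U : Set M, IsOpen U ∧ U.Nonempty ∧ U ≠ univ ∧ f '' closure U ⊆ U)

theorem sysl_of (hLOC : Stmt_LOC) (hTRN : Stmt_TRN) : Stmt_SYSL :=
  fun d al M _ _ _ f S => ⟨hLOC d al M f S, hTRN d al M f S⟩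

/-- The local theorem with Jacobians. -/
def Stmt_ANL : Prop :=
  ∀ (d : ℕ) (M : Type) [TopologicalSpace M] [T2Space M] [CompactSpace M] [ConnectedSpace M]
    [ChartedSpace (EE d) M] [IsManifold 𝓘(ℝ, EE d) ∞ M]
    (f : M ≃ₘ^1⟮𝓘(ℝ, EE d), 𝓘(ℝ, EE d)⟯ M) (α : ℝ), 0 < α → IsAnosov (d := d) f →
    HolderJac (d := d) f α →
    (∀ U : Set M, IsOpen U → U.Nonempty → U ≠ univ → f '' closure U ⊆ U →
      (∃ (k : ℕ) (p : M), 0 < k ∧ p ∈ U ∧ f^[k] p = p ∧ jac (d := d) f k p < 1) ∧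
      ∃ (k : ℕ) (p : M), 0 < k ∧ p ∉ closure U ∧ f^[k] p = p ∧ 1 < jac (d := d) f k p) ∧
    (¬ Trans f → ∃ U : Set M, IsOpen U ∧ U.Nonempty ∧ U ≠ univ ∧ f '' closure U ⊆ U)

theorem main_of_L (hSYS : Stmt_SYSL) (hMTI : Stmt_MTI) (hMDF : Stmt_MDF) (hMSM : Stmt_MSM)
    (hMIN : Stmt_MIN) (hMIT : Stmt_MIT) (hMHO : Stmt_MHO) (hMNO : Stmt_MNO) (hMQC : Stmt_MQC)
    (hMCV : Stmt_MCV) : Stmt_ANL := by
  intro d M _ _ _ _ _ _ f α hα hA hH
  obtain ⟨g, c, β, η, P, hc, hβ, hβ1, hη, hPP, hPc, hPf, hyp⟩ := hA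
  have hf1 : ContMDiff 𝓘(ℝ, EE d) 𝓘(ℝ, EE d) 1 f := f.contMDiff
  have hfs1 : ContMDiff 𝓘(ℝ, EE d) 𝓘(ℝ, EE d) 1 f.symm := f.symm.contMDiff
  -- iterates
  have hit := hMIT d M f (fun x => (P x : EE d →L[ℝ] EE d)) hf1 (fun x v => hPf x v)
  have hits : ∀ n, ContMDiff 𝓘(ℝ, EE d) 𝓘(ℝ, EE d) 1 (f.symm^[n]) := fun n =>
    (hMIT d M f.symm (fun x => 0) hfs1 (fun x v => by simp) n).1
  have hinv : ∀ (n : ℕ) (x : M), f.symm^[n] (f^[n] x) = x := fun n x =>
    (Function.LeftInverse.iterate (fun y => f.symm_apply_apply y) n) x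
  -- the constants of the metric
  choose ca hca hca' using hMNO d M g
  obtain ⟨A, K, V, hKV, hcov⟩ := hMCV M
    (fun a => {x | x ∈ (ch (d := d) a).source ∧ ∀ v : EE d,
      ca a * ‖TT (d := d) a x v‖ ≤ len g x v ∧ ca a * len g x v ≤ ‖TT (d := d) a x v‖})
    (fun a => Filter.inter_mem ((ch (d := d) a).open_source.mem_nhds (mem_chart_source _ a))
      (hca' a))
  obtain ⟨c0, hc0, hc0'⟩ := exists_pos_lower A ca hca
  let e : Fin A.card ≃ A := A.equivFin.symm
  haveI : SecondCountableTopology M :=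
    ChartedSpace.secondCountable_of_sigmaCompact (EE d) M
  letI : MetricSpace M := TopologicalSpace.metrizableSpaceMetric M
  have hVs : ∀ a : M, V a ⊆ (ch (d := d) a).source := fun a x hx => ((hKV a).2.2.2 hx).1
  -- the derivative in charts
  have hD : ∀ (n : ℕ) (a b x : M), x ∈ (ch (d := d) a).source →
      f^[n] x ∈ (ch (d := d) b).source →
      dch (d := d) a b (f^[n]) x = (TT b (f^[n] x)).comp ((dd (f^[n]) x).comp (TI a x)) :=
    fun n a b x hx hy => hMDF d M a b x (f^[n]) hx hy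
      (((hit n).1 x).mdifferentiableAt one_ne_zero)
  have hTI : ∀ a x : M, x ∈ (ch (d := d) a).source → ∀ v, TT (d := d) a x (TI a x v) = v :=
    fun a x hx v => by
      have := congrArg (fun T : EE d →L[ℝ] EE d => T v) (hMTI d M a x hx).1
      exact this
  have hIT : ∀ a x : M, x ∈ (ch (d := d) a).source → ∀ v, TI (d := d) a x (TT a x v) = v :=
    fun a x hx v => by
      have := congrArg (fun T : EE d →L[ℝ] EE d => T v) (hMTI d M a x hx).2
      exact this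
  have hmem : ∀ i : Fin A.card, (e i : M) ∈ A := fun i => (e i).2
  have hcV : ∀ i : Fin A.card, ∀ x ∈ V (e i), ∀ v : EE d,
      c0 * ‖TT (d := d) (e i : M) x v‖ ≤ len g x v ∧
      c0 * len g x v ≤ ‖TT (d := d) (e i : M) x v‖ := by
    intro i x hx v
    obtain ⟨h1, h2⟩ := ((hKV (e i)).2.2.2 hx).2 v
    exact ⟨(mul_le_mul_of_nonneg_right (hc0' _ (hmem i)) (norm_nonneg _)).trans h1,
      (mul_le_mul_of_nonneg_right (hc0' _ (hmem i)) (len_nonneg g x v)).trans h2⟩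
  let Q : Fin A.card → M → EE d →L[ℝ] EE d := fun i x => pch (d := d) (e i : M) x (P x)
  have hQ : ∀ i x v, Q i x v = TT (d := d) (e i : M) x (P x (TI (d := d) (e i : M) x v)) :=
    fun i x v => rfl
  have hDF : ∀ (n : ℕ) (i j : Fin A.card) (x : M), x ∈ V (e i) → f^[n] x ∈ V (e j) → ∀ v,
      dch (d := d) (e i : M) (e j : M) (f^[n]) x v =
        TT (e j : M) (f^[n] x) (dd (d := d) (f^[n]) x (TI (e i : M) x v)) := by
    intro n i j x hx hy v
    rw [hD n _ _ x (hVs _ hx) (hVs _ hy)]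
    rfl
  let S : Sys d (min α 1) M f.toHomeomorph :=
    { m := A.card
      φ := fun i => ch (d := d) (e i : M)
      K := fun i => K (e i)
      V := fun i => V (e i)
      Q := Q
      C := (c0 ^ 2 * c)⁻¹
      be := β
      eta := η
      hal := lt_min hα one_pos
      hC := by positivity
      hbe0 := hβ
      hbe := hβ1
      heta := hη
      hK := fun i => (hKV _).1
      hV := fun i => (hKV _).2.1
      hKV := fun i => (hKV _).2.2.1
      hVs := fun i => hVs _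
      cov := fun x => by
        obtain ⟨a, ha, hx⟩ := hcov x
        refine ⟨e.symm ⟨a, ha⟩, ?_⟩
        rw [e.apply_symm_apply]
        exact hx
      sm := fun n i j x hx hy => by
        obtain ⟨h1, h2⟩ := hMSM d M (e i : M) (e j : M) (f^[n]) (hit n).1
        refine h2.contDiffAt (h1.mem_nhds ⟨(ch (d := d) (e i : M)).map_source hx, ?_⟩)
        rw [(ch (d := d) (e i : M)).left_inv hx]
        exact hy
      inj := fun n i j x hx hy =>
        (hMIN d M (f^[n]) (f.symm^[n]) (hit n).1 (hits n) (hinv n)).1 _ _ x hx hy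
      hol := fun i j x hx hy => by
        obtain ⟨r, C, hr, hrC⟩ := hMHO d M f f.symm α hα hf1 hfs1 (fun y => f.symm_apply_apply y)
          hH (e i : M) (e j : M) x hx hy
        refine ⟨r, hr, C, fun u hu v hv => ?_⟩
        rw [← dist_eq_norm]
        exact hrC u hu v hv
      Qc := fun i => (hMQC d M P hPc (e i : M)).mono (hVs _)
      Qp := fun i x hx => by
        ext1 v
        show Q i x (Q i x v) = Q i x v
        rw [hQ, hQ, hIT _ _ (hVs _ hx)]
        congr 1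
        exact hPP x _
      Qe := fun n i j x hx hy => by
        ext1 v
        show Q j (f^[n] x) (dch (d := d) (e i : M) (e j : M) (f^[n]) x v) =
          dch (d := d) (e i : M) (e j : M) (f^[n]) x (Q i x v)
        have hy' : f^[n] x ∈ V (e j) := hy
        rw [hDF n i j x hx hy', hDF n i j x hx hy', hQ, hQ, hIT _ _ (hVs _ hx),
          hIT _ _ (hVs _ hy')]
        congr 1
        exact (hit n).2 x _
      hs := fun n i j x v hx hy hv => by
        have hy' : f^[n] x ∈ V (e j) := hy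
        show ‖dch (d := d) (e i : M) (e j : M) (f^[n]) x v‖ ≤ _
        rw [hDF n i j x hx hy']
        have h0 : P x (TI (d := d) (e i : M) x v) = 0 := by
          have h1 : TT (d := d) (e i : M) x (P x (TI (d := d) (e i : M) x v)) = 0 := hv
          have h2 := hIT (e i : M) x (hVs _ hx) (P x (TI (d := d) (e i : M) x v))
          rw [h1, map_zero] at h2
          exact h2.symm
        have h1 := (hcV i x hx (TI (d := d) (e i : M) x v)).2
        rw [hTI _ _ (hVs _ hx)] at h1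
        have h2 := (hyp n x (TI (d := d) (e i : M) x v)).2 h0
        have h3 := (hcV j _ hy' (dd (d := d) (f^[n]) x (TI (e i : M) x v))).1
        have h4 : c * (c0 * ‖TT (d := d) (e j : M) (f^[n] x)
            (dd (d := d) (f^[n]) x (TI (e i : M) x v))‖) ≤
            β ^ n * len g x (TI (d := d) (e i : M) x v) :=
          (mul_le_mul_of_nonneg_left h3 hc.le).trans h2
        have h5 : c0 * (c * (c0 * ‖TT (d := d) (e j : M) (f^[n] x)
            (dd (d := d) (f^[n]) x (TI (e i : M) x v))‖)) ≤ β ^ n * ‖v‖ := by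
          calc _ ≤ c0 * (β ^ n * len g x (TI (d := d) (e i : M) x v)) :=
                mul_le_mul_of_nonneg_left h4 hc0.le
            _ = β ^ n * (c0 * len g x (TI (d := d) (e i : M) x v)) := by ring
            _ ≤ β ^ n * ‖v‖ := mul_le_mul_of_nonneg_left h1 (pow_nonneg hβ.le n)
        have h6 : 0 < c0 ^ 2 * c := by positivity
        rw [mul_assoc, inv_mul_eq_div, le_div_iff₀ h6]
        calc _ = c0 * (c * (c0 * ‖TT (d := d) (e j : M) (f^[n] x)
            (dd (d := d) (f^[n]) x (TI (e i : M) x v))‖)) := by ring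
          _ ≤ _ := h5
      hu := fun n i j x v hx hy hv => by
        have hy' : f^[n] x ∈ V (e j) := hy
        show _ ≤ ‖dch (d := d) (e i : M) (e j : M) (f^[n]) x v‖
        rw [hDF n i j x hx hy']
        have h0 : P x (TI (d := d) (e i : M) x v) = TI (d := d) (e i : M) x v := by
          have h1 : TT (d := d) (e i : M) x (P x (TI (d := d) (e i : M) x v)) = v := hv
          have h2 := hIT (e i : M) x (hVs _ hx) (P x (TI (d := d) (e i : M) x v))
          rw [h1] at h2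
          exact h2.symm
        have h1 := (hcV i x hx (TI (d := d) (e i : M) x v)).1
        rw [hTI _ _ (hVs _ hx)] at h1
        have h2 := (hyp n x (TI (d := d) (e i : M) x v)).1 h0
        have h3 := (hcV j _ hy' (dd (d := d) (f^[n]) x (TI (e i : M) x v))).2
        rw [inv_inv]
        calc c0 ^ 2 * c * η ^ n * ‖v‖ = c0 * (c * η ^ n * (c0 * ‖v‖)) := by ring
          _ ≤ c0 * (c * η ^ n * len g x (TI (d := d) (e i : M) x v)) :=
            mul_le_mul_of_nonneg_left (mul_le_mul_of_nonneg_left h1 (by positivity)) hc0.le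
          _ ≤ c0 * len g (f^[n] x) (dd (d := d) (f^[n]) x (TI (e i : M) x v)) :=
            mul_le_mul_of_nonneg_left h2 hc0.le
          _ ≤ _ := h3 }
  have hjac : ∀ (k : ℕ) (i : Fin A.card) (p : M), p ∈ V (e i) → f^[k] p = p →
      |(DF S.φ f.toHomeomorph k i i p).det| = jac (d := d) f k p := by
    intro k i p hp hk
    have := (hMIN d M (f^[k]) (f.symm^[k]) (hit k).1 (hits k) (hinv k)).2 (e i : M) p
      (hVs _ hp) hk
    show |(dch (d := d) (e i : M) (e i : M) (f^[k]) p).det| = |(dd (d := d) (f^[k]) p).det|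
    rw [this]
  obtain ⟨h1, h2⟩ := hSYS d (min α 1) M f.toHomeomorph S
  refine ⟨fun U hU hne hU1 hfU => ?_, h2⟩
  obtain ⟨⟨n, i, x, hn, hxU, hx, hfx, hdet⟩, ⟨m, j, y, hm, hyU, hy, hfy, hdety⟩⟩ :=
    h1 U hU hne hU1 hfU
  refine ⟨⟨n, x, hn, hxU, hfx, ?_⟩, ⟨m, y, hm, hyU, hfy, ?_⟩⟩
  · rw [← hjac n i x hx hfx]
    exact hdet
  · rw [← hjac m j y hy hfy]
    exact hdety

/-- The local theorem with the sums of the exponents, `f` a bundled diffeomorphism. -/
def Stmt_ANLQ : Prop :=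
  ∀ (d : ℕ) (M : Type) [TopologicalSpace M] [T2Space M] [CompactSpace M] [ConnectedSpace M]
    [ChartedSpace (EE d) M] [IsManifold 𝓘(ℝ, EE d) ∞ M]
    (f : M ≃ₘ^1⟮𝓘(ℝ, EE d), 𝓘(ℝ, EE d)⟯ M)
    (P : ∀ x : M, TangentSpace 𝓘(ℝ, EE d) x →L[ℝ] TangentSpace 𝓘(ℝ, EE d) x) (α : ℝ),
    0 < α → AnosovWith f P → HolderJac (d := d) f α →
    (∀ U : Set M, IsOpen U → U.Nonempty → U ≠ univ → f '' closure U ⊆ U →
      (∃ (k : ℕ) (p : M), 0 < k ∧ p ∈ U ∧ f^[k] p = p ∧ lamS f P k p < - lamU f P k p) ∧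
      ∃ (k : ℕ) (p : M), 0 < k ∧ p ∉ closure U ∧ f^[k] p = p ∧ - lamU f P k p < lamS f P k p) ∧
    (¬ Trans f → ∃ U : Set M, IsOpen U ∧ U.Nonempty ∧ U ≠ univ ∧ f '' closure U ⊆ U)

theorem anlq_of (hAN : Stmt_ANL) (hMIN : Stmt_MIN) (hMIT : Stmt_MIT) : Stmt_ANLQ := by
  intro d M _ _ _ _ _ _ f P α hα hA hH
  obtain ⟨g, c, β, η, hc, hβ, hβ1, hη, hPP, hPc, hPf, hyp⟩ := hA
  have hf1 : ContMDiff 𝓘(ℝ, EE d) 𝓘(ℝ, EE d) 1 f := f.contMDiff
  have hfs1 : ContMDiff 𝓘(ℝ, EE d) 𝓘(ℝ, EE d) 1 f.symm := f.symm.contMDiff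
  have hit := hMIT d M f (fun x => (P x : EE d →L[ℝ] EE d)) hf1 (fun x v => hPf x v)
  have hits : ∀ n, ContMDiff 𝓘(ℝ, EE d) 𝓘(ℝ, EE d) 1 (f.symm^[n]) := fun n =>
    (hMIT d M f.symm (fun x => 0) hfs1 (fun x v => by simp) n).1
  have hinv : ∀ (n : ℕ) (x : M), f.symm^[n] (f^[n] x) = x := fun n x =>
    (Function.LeftInverse.iterate (fun y => f.symm_apply_apply y) n) x
  have key : ∀ (k : ℕ) (p : M), f^[k] p = p →
      0 < jac (d := d) f k p ∧ lamU f P k p + lamS f P k p = Real.log (jac (d := d) f k p) / k := by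
    intro k p hp
    have hM := hMIN d M (f^[k]) (f.symm^[k]) (hit k).1 (hits k) (hinv k)
    have hp1 : p ∈ (ch (d := d) p).source := mem_chart_source _ p
    have h1 := hM.2 p p hp1 hp
    have h0 : (dch (d := d) p p (f^[k]) p).det ≠ 0 := hM.1 p p p hp1 (by rw [hp]; exact hp1)
    rw [h1] at h0
    have hD0 : (dd (d := d) (f^[k]) p).det ≠ 0 := h0
    have hsp := det_split (dd (d := d) (f^[k]) p) (P p : EE d →L[ℝ] EE d)
      (by ext1 v; exact hPP p v)
      (by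
        ext1 v
        have h2 := (hit k).2 p v
        rw [hp] at h2
        exact h2)
    refine ⟨abs_pos.2 hD0, ?_⟩
    have hj : jac (d := d) f k p = |(dd (d := d) (f^[k]) p).det| := rfl
    rw [hj, ← hsp, abs_mul, Real.log_mul, add_div]
    · rfl
    · intro h3
      rw [abs_eq_zero] at h3
      rw [h3, zero_mul] at hsp
      exact hD0 hsp.symm
    · intro h3
      rw [abs_eq_zero] at h3
      rw [h3, mul_zero] at hsp
      exact hD0 hsp.symm
  obtain ⟨h1, h2⟩ := hAN d M f α hα ⟨g, c, β, η, P, hc, hβ, hβ1, hη, hPP, hPc, hPf, hyp⟩ hH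
  refine ⟨fun U hU hne hU1 hfU => ?_, h2⟩
  obtain ⟨⟨k, p, hk, hpU, hp, h1⟩, ⟨l, q, hl, hqU, hq, h2⟩⟩ := h1 U hU hne hU1 hfU
  refine ⟨⟨k, p, hk, hpU, hp, ?_⟩, ⟨l, q, hl, hqU, hq, ?_⟩⟩
  · obtain ⟨h3, h4⟩ := key k p hp
    have h5 : Real.log (jac (d := d) f k p) / k < 0 :=
      div_neg_of_neg_of_pos (Real.log_neg h3 h1) (by exact_mod_cast hk)
    linarith
  · obtain ⟨h3, h4⟩ := key l q hq
    have h5 : 0 < Real.log (jac (d := d) f l q) / l :=
      div_pos (Real.log_pos h2) (by exact_mod_cast hl)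
    linarith

/-- The local theorem with the compact definitions. -/
def Stmt_ANLR : Prop :=
  ∀ (d : ℕ) (M : Type) [TopologicalSpace M] [T2Space M] [CompactSpace M] [ConnectedSpace M]
    [ChartedSpace (EE d) M] [Mfd d M] (f : M → M) (P : M → LL d) (α : ℝ),
    IsDiffeo d f → Anosov f P → 0 < α → HolderDet d f α →
    (∀ U : Set M, IsOpen U → U.Nonempty → U ≠ univ → f '' closure U ⊆ U →
      (∃ (k : ℕ) (p : M), 0 < k ∧ p ∈ U ∧ f^[k] p = p ∧ Ls f P k p < - Lu f P k p) ∧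
      ∃ (k : ℕ) (q : M), 0 < k ∧ q ∉ closure U ∧ f^[k] q = q ∧ - Lu f P k q < Ls f P k q) ∧
    (¬ Trans f → ∃ U : Set M, IsOpen U ∧ U.Nonempty ∧ U ≠ univ ∧ f '' closure U ⊆ U)

theorem anlr_of (h : Stmt_ANLQ) : Stmt_ANLR := by
  intro d M _ _ _ _ _ _ f P α hF hA hα hH
  obtain ⟨F, hF⟩ := hF
  obtain rfl : ⇑F = f := funext hF
  refine h d M F P α hα ?_ ?_
  · obtain ⟨g, c, β, η, hc, hβ, hβ1, hη, hPP, hPc, hPf, hyp⟩ := hA
    exact ⟨g, c, β, η, hc, hβ, hβ1, hη, hPP, hPc, hPf, hyp⟩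
  · intro x
    obtain ⟨r, H, hr, hrH⟩ := hH x
    refine ⟨r, H, hr, fun y hy z hz => ?_⟩
    rw [Metric.mem_ball, dist_comm] at hy hz
    exact hrH y z hy hz

end Pool.AN
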