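import Pool.Agent.Work.MP_bd2638_an.Stmt

/-!
# THEOREM AN (MP_bd2638_an): the form with the sums of the Lyapunov exponents at periodic points
-/

set_option autoImplicit false

open Set Bundle Topology
open scoped Manifold ContDiff

noncomputable section

namespace Pool.AN

variable {d : ℕ} {M : Type} [TopologicalSpace M] [ChartedSpace (EE d) M]

/-- `f` is an Anosov diffeomorphism. The splitting `T M = E^u ⊕ E^s` is given by the projections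
`P x` onto `E^u x` along `E^s x`; it is continuous and invariant under `Df`. -/
def AnosovWith [IsManifold 𝓘(ℝ, EE d) ∞ M] (f : M → M)
    (P : ∀ x : M, TangentSpace 𝓘(ℝ, EE d) x →L[ℝ] TangentSpace 𝓘(ℝ, EE d) x) : Prop :=
  ∃ (g : RMetric d M) (c β η : ℝ), 0 < c ∧ 0 < β ∧ β < 1 ∧ 1 < η ∧
    (∀ x v, P x (P x v) = P x v) ∧
    Continuous (fun v : TangentBundle 𝓘(ℝ, EE d) M =>
      (⟨v.1, P v.1 v.2⟩ : TangentBundle 𝓘(ℝ, EE d) M)) ∧
    (∀ x v, P (f x) (mfderiv 𝓘(ℝ, EE d) 𝓘(ℝ, EE d) f x v) =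
      mfderiv 𝓘(ℝ, EE d) 𝓘(ℝ, EE d) f x (P x v)) ∧
    ∀ (n : ℕ) (x : M) (v : TangentSpace 𝓘(ℝ, EE d) x),
      (P x v = v → c * η ^ n * len g x v ≤
        len g (f^[n] x) (mfderiv 𝓘(ℝ, EE d) 𝓘(ℝ, EE d) (f^[n]) x v)) ∧
      (P x v = 0 → c * len g (f^[n] x) (mfderiv 𝓘(ℝ, EE d) 𝓘(ℝ, EE d) (f^[n]) x v) ≤
        β ^ n * len g x v)

/-- For a point `p` with `f^k p = p` and the projection `Q` onto a `Df^k`-invariant subspace `E` of
`T_p M` along an invariant subspace: `(1/k) log |det (Df^k | E)|`. (The map `D ∘ Q + (1 - Q)`,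
`D = Df^k(p)`, is `D` on `E` and the identity on the complement, so its determinant is the one of
`D | E`.) -/
def lam (f : M → M) (k : ℕ) (p : M) (Q : EE d →L[ℝ] EE d) : ℝ :=
  let D : EE d →L[ℝ] EE d := mfderiv 𝓘(ℝ, EE d) 𝓘(ℝ, EE d) (f^[k]) p
  Real.log |(D.comp Q + (1 - Q)).det| / k

/-- `Λ^u_f(p)`, the sum of the positive Lyapunov exponents at `p`, if `f^k p = p`, `0 < k` -/
def lamU (f : M → M) (P : ∀ x : M, TangentSpace 𝓘(ℝ, EE d) x →L[ℝ] TangentSpace 𝓘(ℝ, EE d) x)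
    (k : ℕ) (p : M) : ℝ := lam f k p (P p : EE d →L[ℝ] EE d)

/-- `Λ^s_f(p)`, the sum of the negative Lyapunov exponents at `p`, if `f^k p = p`, `0 < k` -/
def lamS (f : M → M) (P : ∀ x : M, TangentSpace 𝓘(ℝ, EE d) x →L[ℝ] TangentSpace 𝓘(ℝ, EE d) x)
    (k : ℕ) (p : M) : ℝ := lam f k p (1 - (P p : EE d →L[ℝ] EE d))

/-- The theorem with the sums `Λ^u`, `Λ^s` of the positive and of the negative exponents. -/
def Stmt_ANQ : Prop :=
  ∀ (d : ℕ) (M : Type) [TopologicalSpace M] [T2Space M] [CompactSpace M] [ConnectedSpace M]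
    [ChartedSpace (EE d) M] [IsManifold 𝓘(ℝ, EE d) ∞ M]
    (f : M ≃ₘ^1⟮𝓘(ℝ, EE d), 𝓘(ℝ, EE d)⟯ M)
    (P : ∀ x : M, TangentSpace 𝓘(ℝ, EE d) x →L[ℝ] TangentSpace 𝓘(ℝ, EE d) x) (α : ℝ),
    0 < α → AnosovWith f P → HolderJac (d := d) f α →
    ((∃ (k : ℕ) (p : M), 0 < k ∧ f^[k] p = p ∧ lamS f P k p < - lamU f P k p) ∧
      ∃ (k : ℕ) (p : M), 0 < k ∧ f^[k] p = p ∧ - lamU f P k p < lamS f P k p) ∨
    ((∀ (k : ℕ) (p : M), 0 < k → f^[k] p = p → lamS f P k p = - lamU f P k p) ∧ Trans f)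

end Pool.AN
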