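import Pool.Agent.Work.MP_bd2638_an.StmtR
import Pool.Agent.Work.MP_bd2638_an.StmtQ

/-!
# MP_bd2638_an: the form of the theorem with the compact definitions
-/

set_option autoImplicit false

open Set Bundle Topology
open scoped Manifold ContDiff

noncomputable section

namespace Pool.AN

theorem anr_of (h : Stmt_ANQ) : Stmt_ANR := by
  intro d M _ _ _ _ _ _ f P α hF hA hα hH
  obtain ⟨F, hF⟩ := hF
  obtain rfl : ⇑F = f := funext hF
  refine h d M F P α hα ?_ ?_
  · obtain ⟨g, c, β, η, hc, hβ, hβ1, hη, hPP, hPc, hPf, hyp⟩ := hA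
    exact ⟨g, c, β, η, hc, hβ, hβ1, hη, hPP, hPc, hPf, hyp⟩
  · intro x
    obtain ⟨r, H, hr, hrH⟩ := hH x
    refine ⟨r, H, hr, fun y hy z hz => ?_⟩
    rw [Metric.mem_ball, dist_comm] at hy hz
    exact hrH y z hy hz

end Pool.AN
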