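import Pool.Agent.Work.MP_bd2638_an.InterfaceL

/-! # MP_bd2638_an, local form: block LOC (helper9) -/

set_option autoImplicit false

namespace Pool.AN

open Set Filter Topology Metric

/-- BLOCK LOC. -/
theorem p_LOC (hMES : Stmt_MES) (hMUF : Stmt_MUF) (hMUC : Stmt_MUC) (hSUL : Stmt_SUL)
    (hSUR : Stmt_SUR) (hMEL : Stmt_MEL) (hMEI : Stmt_MEI) (hTOP : Stmt_TOP) : Stmt_LOC := by
  classical
  intro d al M _ _ _ f S U hU hne hU1 hfU
  letI : MeasurableSpace M := borel M
  haveI : BorelSpace M := ⟨rfl⟩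
  have hfin := (hMUF d al M f S).1
  have hpos := (hMUF d al M f S).2
  have hg := (hMES d al M f S).2
  have hmu : ∀ B, MeasurableSet B → S.mu (f.toMeasurableEquiv '' B) =
      ∫⁻ x in B, ENNReal.ofReal (Real.exp (S.g x)) ∂S.mu := fun B hB => hMUC d al M f S B hB
  constructor
  · by_contra hno
    obtain ⟨C, hC⟩ := hSUL d al M f S U hU hfU (by
      intro n i x hn hx hi hf
      by_contra hlt
      exact hno ⟨n, i, x, hn, hx, hi, hf, not_le.1 hlt⟩)
    have h1 : S.mu (U \ f '' U) = 0 := hMEL M S.mu f.toMeasurableEquiv S.g C U hg hmu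
      hU.measurableSet ((image_mono subset_closure).trans hfU)
      (fun n x hx => hC n x (subset_closure hx))
    exact hU1 (hTOP M S.mu f U hU hne hfU hpos h1)
  · by_contra hno
    have hVo : IsOpen (closure U)ᶜ := isClosed_closure.isOpen_compl
    have hcl : closure (closure U)ᶜ ⊆ Uᶜ :=
      closure_minimal (compl_subset_compl.2 subset_closure) hU.isClosed_compl
    have hVV : f.symm '' closure (closure U)ᶜ ⊆ (closure U)ᶜ := by
      rintro _ ⟨y, hy, rfl⟩ hc
      have h1 : y ∈ U := hfU ⟨f.symm y, hc, f.apply_symm_apply y⟩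
      exact hcl hy h1
    have hVne : ((closure U)ᶜ).Nonempty := by
      by_contra hemp
      rw [not_nonempty_iff_eq_empty, compl_empty_iff] at hemp
      apply hU1
      rw [eq_univ_iff_forall]
      intro y
      exact hfU ⟨f.symm y, by rw [hemp]; trivial, f.apply_symm_apply y⟩
    obtain ⟨C, hC⟩ := hSUR d al M f S (closure U)ᶜ hVo hVV (by
      intro n i x hn hx hi hf
      by_contra hlt
      exact hno ⟨n, i, x, hn, hx, hi, hf, not_le.1 hlt⟩)
    obtain ⟨hg', hmu'⟩ := hMEI M S.mu f.toMeasurableEquiv S.g hg hmu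
    have h1 : S.mu ((closure U)ᶜ \ f.symm '' (closure U)ᶜ) = 0 :=
      hMEL M S.mu f.toMeasurableEquiv.symm (fun x => - S.g (f.toMeasurableEquiv.symm x)) C
        (closure U)ᶜ hg' hmu' hVo.measurableSet ((image_mono subset_closure).trans hVV)
        (fun n x hx => hC n x (subset_closure hx))
    have h2 := hTOP M S.mu f.symm (closure U)ᶜ hVo hVne hVV hpos h1
    obtain ⟨x, hx⟩ := hne
    have h3 : x ∈ (closure U)ᶜ := by
      rw [h2]
      trivial
    exact h3 (subset_closure hx)

end Pool.AN
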