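import Pool.Agent.Work.MP_bd2638_an.InterfaceL
set_option autoImplicit false
namespace Pool.AN
open Set Filter Topology Metric

theorem MEI_key {M : Type} [MeasurableSpace M] (mu : MeasureTheory.Measure M) (T : M ≃ᵐ M) (g : M → ℝ) (hg : Measurable g)
    (h : ∀ B, MeasurableSet B → mu (T '' B) = ∫⁻ x in B, ENNReal.ofReal (Real.exp (g x)) ∂mu) (B : Set M) (hB : MeasurableSet B) :
    mu (T.symm '' B) = ∫⁻ x in B, ENNReal.ofReal (Real.exp (-g (T.symm x))) ∂mu := by
  have hJ : Measurable fun x => ENNReal.ofReal (Real.exp (g x)) := (Real.measurable_exp.comp hg).ennreal_ofReal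
  have hmap : mu.map T.symm = mu.withDensity fun x => ENNReal.ofReal (Real.exp (g x)) := by
    ext A hA
    rw [MeasureTheory.Measure.map_apply T.symm.measurable hA, MeasureTheory.withDensity_apply _ hA, ← h A hA]
    congr 1
    ext z
    constructor
    · intro hz
      exact ⟨T.symm z, hz, T.apply_symm_apply z⟩
    · rintro ⟨w, hw, rfl⟩
      simpa using hw
  have hmap2 : mu = (mu.withDensity fun x => ENNReal.ofReal (Real.exp (g x))).map T := by
    rw [← hmap, MeasureTheory.Measure.map_map T.measurable T.symm.measurable]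
    have : (T : M → M) ∘ T.symm = id := by
      ext z
      exact T.apply_symm_apply z
    rw [this, MeasureTheory.Measure.map_id]
  have h3 : (∫⁻ x in B, ENNReal.ofReal (Real.exp (-g (T.symm x))) ∂((mu.withDensity fun x => ENNReal.ofReal (Real.exp (g x))).map T)) =
      mu (T ⁻¹' B) := by
    rw [MeasurableEquiv.restrict_map, MeasureTheory.lintegral_map_equiv, MeasureTheory.restrict_withDensity (T.measurable hB),
      MeasureTheory.lintegral_withDensity_eq_lintegral_mul _ hJ]
    · have h4 : ((fun x => ENNReal.ofReal (Real.exp (g x))) * fun a => ENNReal.ofReal (Real.exp (-g (T.symm (T a))))) = fun _ => 1 := by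
        ext a
        rw [Pi.mul_apply, MeasurableEquiv.symm_apply_apply, ← ENNReal.ofReal_mul (Real.exp_pos _).le, ← Real.exp_add, add_neg_cancel,
          Real.exp_zero, ENNReal.ofReal_one]
      rw [h4]
      simp
    · simp only [MeasurableEquiv.symm_apply_apply]
      exact (Real.measurable_exp.comp hg.neg).ennreal_ofReal
  rw [← hmap2] at h3
  rw [h3]
  congr 1
  ext z
  constructor
  · rintro ⟨w, hw, rfl⟩
    simpa using hw
  · intro hz
    exact ⟨T z, hz, T.symm_apply_apply z⟩

theorem p_MEI : Stmt_MEI := by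
  intro M _ mu _ T g hg h
  exact ⟨(hg.comp T.symm.measurable).neg, fun B hB => MEI_key mu T g hg h B hB⟩

end Pool.AN
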