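import Pool.Agent.Work.MP_bd2638_an.InterfaceL

/-! MP_bd2638_an, LOCAL FORM, block MEL (helper60). -/

set_option autoImplicit false

namespace Pool.AN

open Set Filter Topology Metric MeasureTheory

theorem p_MEL : Stmt_MEL := by
  intro M _ mu _ T g C U hg h1 hU hTU h2
  set j : M → ENNReal := fun x => ENNReal.ofReal (Real.exp (g x)) with hj
  have hjm : Measurable j := (Real.measurable_exp.comp hg).ennreal_ofReal
  have hj0 : ∀ x, j x ≠ 0 := fun x => by
    rw [hj]
    exact (ENNReal.ofReal_pos.2 (Real.exp_pos _)).ne'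
  have hjt : ∀ x, j x ≠ ⊤ := fun x => ENNReal.ofReal_ne_top
  set J : ℕ → M → ENNReal := fun n x => ENNReal.ofReal (Real.exp (∑ l ∈ Finset.range n, g (T^[l] x))) with hJ
  have hJ0 : ∀ x, J 0 x = 1 := fun x => by simp [hJ]
  have hJs : ∀ n x, J (n + 1) x = j x * J n (T x) := by
    intro n x
    simp only [hJ, hj]
    rw [← ENNReal.ofReal_mul (Real.exp_pos _).le, ← Real.exp_add, Finset.sum_range_succ', add_comm]
    simp only [Function.iterate_succ_apply, Function.iterate_zero_apply]
  have hJm : ∀ n, Measurable (J n) := by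
    intro n
    refine (Real.measurable_exp.comp ?_).ennreal_ofReal
    refine Finset.measurable_sum _ fun l _ => hg.comp ?_
    exact T.measurable.iterate l
  have hJl : ∀ n, ∀ x ∈ U, ENNReal.ofReal (Real.exp (-C)) ≤ J n x := fun n x hx =>
    ENNReal.ofReal_le_ofReal (Real.exp_le_exp.2 (h2 n x hx))
  -- change of variables
  have hmap : mu.map T.symm = mu.withDensity j := by
    refine Measure.ext fun B hB => ?_
    rw [T.symm.map_apply, withDensity_apply _ hB, ← h1 B hB]
    congr 1
    ext y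
    constructor
    · intro hy
      exact ⟨T.symm y, hy, T.apply_symm_apply y⟩
    · rintro ⟨x, hx, rfl⟩
      show T.symm (T x) ∈ B
      rwa [T.symm_apply_apply]
  have hA : ∀ h : M → ENNReal, Measurable h → ∫⁻ y, h y ∂mu = ∫⁻ x, h (T x) * j x ∂mu := by
    intro h hh
    have e1 : ∫⁻ x, h (T x) ∂(mu.map T.symm) = ∫⁻ y, h y ∂mu := by
      rw [lintegral_map_equiv]
      refine lintegral_congr fun y => ?_
      rw [T.apply_symm_apply]
    have e2 : ∫⁻ x, h (T x) ∂(mu.withDensity j) = ∫⁻ x, (j * fun x => h (T x)) x ∂mu :=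
      lintegral_withDensity_eq_lintegral_mul mu hjm (g := fun x => h (T x)) (hh.comp T.measurable)
    rw [← e1, hmap, e2]
    refine lintegral_congr fun x => ?_
    exact mul_comm _ _
  -- the density
  set W : M → ENNReal := fun x => ⨅ n, J n x with hW
  have hWm : Measurable W := Measurable.iInf hJm
  have hW1 : ∀ x, W x ≤ 1 := fun x => (iInf_le _ 0).trans (hJ0 x).le
  have hWl : ∀ x ∈ U, ENNReal.ofReal (Real.exp (-C)) ≤ W x := fun x hx => le_iInf fun n => hJl n x hx
  have hWT : ∀ x, W x ≤ W (T x) * j x := by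
    intro x
    have e : W (T x) * j x = ⨅ n, J (n + 1) x := by
      rw [mul_comm]
      simp only [hW]
      rw [ENNReal.mul_iInf_of_ne (hj0 x) (hjt x)]
      refine iInf_congr fun n => ?_
      rw [hJs]
    rw [e]
    exact le_iInf fun n => iInf_le _ (n + 1)
  have hfin : ∀ A : Set M, ∫⁻ x in A, W x ∂mu ≠ ⊤ := by
    intro A
    refine ne_top_of_le_ne_top (b := ∫⁻ _, 1 ∂mu) ?_
      ((setLIntegral_le_lintegral A W).trans (lintegral_mono hW1))
    rw [lintegral_const, one_mul]
    exact measure_ne_top _ _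
  have hTUm : MeasurableSet (T '' U) := T.measurableSet_image.2 hU
  have hge : ∫⁻ x in U, W x ∂mu ≤ ∫⁻ x in T '' U, W x ∂mu := by
    have e := hA ((T '' U).indicator W) (hWm.indicator hTUm)
    rw [lintegral_indicator hTUm] at e
    rw [e, ← lintegral_indicator hU]
    refine lintegral_mono fun x => ?_
    by_cases hx : x ∈ U
    · rw [indicator_of_mem hx]
      show W x ≤ (T '' U).indicator W (T x) * j x
      rw [indicator_of_mem (mem_image_of_mem T hx)]
      exact hWT x
    · rw [indicator_of_notMem hx]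
      exact bot_le
  have hsplit : ∫⁻ x in U, W x ∂mu = ∫⁻ x in T '' U, W x ∂mu + ∫⁻ x in U \ T '' U, W x ∂mu := by
    conv_lhs => rw [← union_sdiff_cancel hTU]
    exact lintegral_union (hU.diff hTUm) disjoint_sdiff_self_right
  have h0 : ∫⁻ x in U \ T '' U, W x ∂mu = 0 := by
    rw [hsplit] at hge
    have e : ∫⁻ x in T '' U, W x ∂mu + ∫⁻ x in U \ T '' U, W x ∂mu ≤ ∫⁻ x in T '' U, W x ∂mu + 0 := by
      rwa [add_zero]
    exact le_antisymm ((ENNReal.add_le_add_iff_left (hfin _)).1 e) bot_le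
  have h3 : ENNReal.ofReal (Real.exp (-C)) * mu (U \ T '' U) ≤ 0 := by
    rw [← h0, ← setLIntegral_const]
    exact setLIntegral_mono' (hU.diff hTUm) fun x hx => hWl x hx.1
  rcases mul_eq_zero.1 (le_antisymm h3 bot_le) with h4 | h4
  · exact absurd h4 (ENNReal.ofReal_pos.2 (Real.exp_pos _)).ne'
  · exact h4

end Pool.AN
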