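import Pool.Agent.Work.MP_bd2638_an.InterfaceL

/-!
# Block PGL: pigeonhole on a closed invariant set (helper46)
-/

set_option autoImplicit false

namespace Pool.AN

open Set Filter Topology Metric

theorem p_PGL (hPIG : Stmt_PIG) : Stmt_PGL := by
  intro M _ _ T g A δ B C hA hT hδ hg h
  have : CompactSpace A := isCompact_iff_compactSpace.mp hA.isCompact
  let T' : A → A := fun x => ⟨T x, hT x x.2⟩
  have hit : ∀ (l : ℕ) (x : A), ((T'^[l] x : A) : M) = T^[l] x := by
    intro l
    induction l with
    | zero => intro x; rfl
    | succ l ih =>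
      intro x
      rw [Function.iterate_succ_apply, Function.iterate_succ_apply, ih]
  obtain ⟨C', hC'⟩ := hPIG A T' (fun x => g x) δ B C hδ (fun x => hg x) (fun n x hn hd => by
    have h1 := h n x x.2 hn (by rw [← hit]; exact hd)
    simpa only [hit] using h1)
  refine ⟨C', fun n x hx => ?_⟩
  have h2 := hC' n ⟨x, hx⟩
  simpa only [hit] using h2

end Pool.AN
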