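import Pool.Agent.Work.MP_bd2638_an.InterfaceL

/-!
# Block SUL (helper77): lower bound for the orbits in a trapping region
-/

set_option autoImplicit false

namespace Pool.AN

open Set Filter Topology Metric

theorem p_SUL (hONE : Stmt_ONE) (hCLP : Stmt_CLP) (hPGL : Stmt_PGL) : Stmt_SUL := by
  intro d al M _ _ f S U hU hfU hp
  obtain ⟨δ₁, r, L, H, hδ₁, hr, hL, hH, h1, -⟩ := hONE d al M f S
  have hg : ∀ x, |S.g x| ≤ Real.log L := by
    intro x
    obtain ⟨-, -, -, -, h5, h6, -⟩ := h1 x (f x) (by rw [dist_self]; exact hδ₁.le) (S.pos x x)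
      (Metric.mem_closedBall_self hr.le)
    have e : S.g x = Real.log |(fderiv ℝ (S.G x (f x)) (S.pos x x)).det| := rfl
    have hL0 : 0 < L := by linarith
    rw [e, abs_le]
    constructor
    · rw [← Real.log_inv]
      exact Real.log_le_log (inv_pos.mpr hL0) h5
    · exact Real.log_le_log (lt_of_lt_of_le (inv_pos.mpr hL0) h5) h6
  have hK : IsCompact (f '' closure U) := isClosed_closure.isCompact.image f.continuous
  obtain ⟨ε₀, hε₀, hthick⟩ := hK.exists_cthickening_subset_open hU hfU
  obtain ⟨δ, C, hδ, hC, h2⟩ := hCLP d al M f S (ε₀ / 2) (by linarith)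
  have hinv : ∀ x ∈ closure U, f x ∈ closure U := fun x hx =>
    subset_closure (hfU ⟨x, hx, rfl⟩)
  have hit : ∀ (k : ℕ) (x : M), x ∈ closure U → f^[k] x ∈ closure U := by
    intro k
    induction k with
    | zero => intro x hx; exact hx
    | succ k ih =>
      intro x hx
      rw [Function.iterate_succ_apply']
      exact hinv _ (ih x hx)
  refine hPGL M f S.g (closure U) (min δ (ε₀ / 2)) (Real.log L) C isClosed_closure hinv
    (lt_min hδ (by linarith)) (fun x => (abs_le.mp (hg x)).1) (fun n x hxU hn hx => ?_)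
  obtain ⟨p, hfp, hxp, hpV, h3⟩ := h2 n x hn (hx.trans (min_le_left _ _))
  have hx2 : dist (f^[n] x) x ≤ ε₀ / 2 := hx.trans (min_le_right _ _)
  have hmem : f^[n] x ∈ f '' closure U := by
    obtain ⟨k, rfl⟩ : ∃ k, n = k + 1 := ⟨n - 1, by omega⟩
    rw [Function.iterate_succ_apply']
    exact ⟨_, hit k x hxU, rfl⟩
  have hpU : p ∈ U := by
    apply hthick
    refine mem_cthickening_of_dist_le p (f^[n] x) ε₀ _ hmem ?_
    calc dist p (f^[n] x) ≤ dist p x + dist x (f^[n] x) := dist_triangle _ _ _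
      _ ≤ ε₀ / 2 + ε₀ / 2 := by
        rw [dist_comm p x, dist_comm x (f^[n] x)]
        exact add_le_add hxp hx2
      _ = ε₀ := by ring
  have h5 := Real.log_nonneg (hp n (S.c x) p hn hpU hpV hfp)
  have h6 := (abs_le.mp h3).1
  have e : S.Sn n x = ∑ l ∈ Finset.range n, S.g (f^[l] x) := rfl
  linarith

end Pool.AN
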