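import Pool.Agent.Work.MP_bd2638_an.InterfaceL

/-! Local form, block SUR (helper93): lower bound of the Birkhoff sums of the inverse on the
closure of a trapping region of the inverse. -/

set_option autoImplicit false

namespace Pool.AN

open Set Filter Topology Metric

theorem SUR_refl {M : Type} [TopologicalSpace M] (f : M ≃ₜ M) (g : M → ℝ) (n : ℕ) (x : M) :
    ∑ l ∈ Finset.range n, (- g (f.symm (f.symm^[l] x))) =
      - ∑ l ∈ Finset.range n, g (f^[l] (f.symm^[n] x)) := by
  induction n with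
  | zero => simp
  | succ n ih =>
    rw [Finset.sum_range_succ, ih, Finset.sum_range_succ' (fun l => g (f^[l] (f.symm^[n + 1] x)))]
    have h1 : ∀ l : ℕ, f^[l + 1] (f.symm^[n + 1] x) = f^[l] (f.symm^[n] x) := by
      intro l
      rw [Function.iterate_succ_apply, Function.iterate_succ_apply', Homeomorph.apply_symm_apply]
    simp only [h1]
    rw [Function.iterate_zero_apply, Function.iterate_succ_apply' f.symm n x]
    ring

theorem SUR_back {M : Type} [TopologicalSpace M] (f : M ≃ₜ M) (n : ℕ) (x : M) :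
    f^[n] (f.symm^[n] x) = x := by
  have h : Function.RightInverse f.symm f := fun z => f.apply_symm_apply z
  exact h.iterate n x

theorem SUR_im {M : Type} [TopologicalSpace M] (f : M ≃ₜ M) (V : Set M)
    (hV : f.symm '' closure V ⊆ V) (n : ℕ) (x : M) (hx : x ∈ closure V) (hn : 0 < n) :
    f.symm^[n] x ∈ f.symm '' closure V := by
  obtain ⟨m, rfl⟩ : ∃ m, n = m + 1 := ⟨n - 1, by omega⟩
  rw [Function.iterate_succ_apply']
  refine ⟨f.symm^[m] x, ?_, rfl⟩
  clear hn
  induction m with
  | zero => exact hx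
  | succ k ih =>
    rw [Function.iterate_succ_apply']
    exact subset_closure (hV ⟨_, ih, rfl⟩)

theorem p_SUR (hONE : Stmt_ONE) (hCLP : Stmt_CLP) (hPGL : Stmt_PGL) : Stmt_SUR := by
  intro d al M _ _ f S V hVo hV hp
  obtain ⟨δ₁, r, L, H, hδ₁, hr, hL, hH, h1, -⟩ := hONE d al M f S
  have hg : ∀ x, |S.g x| ≤ Real.log L := by
    intro x
    obtain ⟨-, -, -, -, h5, h6, -⟩ := h1 x (f x) (by rw [dist_self]; exact hδ₁.le) (S.pos x x)
      (Metric.mem_closedBall_self hr.le)
    have e : S.g x = Real.log |(fderiv ℝ (S.G x (f x)) (S.pos x x)).det| := rfl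
    have hL0 : 0 < L := by linarith
    rw [e, abs_le]
    constructor
    · rw [← Real.log_inv]
      exact Real.log_le_log (inv_pos.mpr hL0) h5
    · exact Real.log_le_log (lt_of_lt_of_le (inv_pos.mpr hL0) h5) h6
  have hK : IsCompact (f.symm '' closure V) :=
    isClosed_closure.isCompact.image f.symm.continuous
  obtain ⟨ε, hε, hεV⟩ := hK.exists_cthickening_subset_open hVo hV
  obtain ⟨δ, C, hδ, hC, h2⟩ := hCLP d al M f S ε hε
  have hinv : ∀ x ∈ closure V, f.symm x ∈ closure V := fun x hx =>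
    subset_closure (hV ⟨x, hx, rfl⟩)
  have key : ∀ (n : ℕ) (x : M), x ∈ closure V → 0 < n → dist (f.symm^[n] x) x ≤ δ →
      -C ≤ ∑ l ∈ Finset.range n, (- S.g (f.symm (f.symm^[l] x))) := by
    intro n x hx hn hd
    have hfy : f^[n] (f.symm^[n] x) = x := SUR_back f n x
    have hd' : dist (f^[n] (f.symm^[n] x)) (f.symm^[n] x) ≤ δ := by
      rw [hfy, dist_comm]
      exact hd
    obtain ⟨p, hfp, hpd, hpV, h3⟩ := h2 n (f.symm^[n] x) hn hd'
    have hpV' : p ∈ V := hεV (mem_cthickening_of_dist_le p (f.symm^[n] x) ε _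
      (SUR_im f V hV n x hx hn) (by rw [dist_comm]; exact hpd))
    have h5 := Real.log_nonpos (abs_nonneg _) (hp n (S.c (f.symm^[n] x)) p hn hpV' hpV hfp)
    have h6 := (abs_le.mp h3).2
    have e : S.Sn n (f.symm^[n] x) = ∑ l ∈ Finset.range n, S.g (f^[l] (f.symm^[n] x)) := rfl
    rw [SUR_refl f S.g n x]
    linarith
  obtain ⟨C', hC'⟩ := hPGL M f.symm (fun x => - S.g (f.symm x)) (closure V) δ (Real.log L) C
    isClosed_closure hinv hδ (fun x => neg_le_neg (abs_le.mp (hg _)).2) key
  exact ⟨C', hC'⟩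

end Pool.AN
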