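import Pool.Agent.Work.MP_bd2638_an.InterfaceL

set_option autoImplicit false

namespace Pool.AN

open Set Filter Topology Metric

theorem TRN_trans (hSHD : Stmt_SHD) (hCYC : Stmt_CYC) (d : ℕ) (al : ℝ) (M : Type) [MetricSpace M] [CompactSpace M]
    (f : M ≃ₜ M) (S : Sys d al M f)
    (hch : ∀ δ : ℝ, 0 < δ → ∀ x y : M, Relation.TransGen (Jump f δ) x y) : Trans f := by
  intro U W hU hW ⟨x, hx⟩ ⟨y, hy⟩
  obtain ⟨e1, he1, h1⟩ := Metric.isOpen_iff.mp hU x hx
  obtain ⟨e2, he2, h2⟩ := Metric.isOpen_iff.mp hW y hy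
  have hε : 0 < min e1 e2 := lt_min he1 he2
  obtain ⟨δ, hδ, hsh⟩ := hSHD d al M f S (min e1 e2 / 2) (by linarith)
  obtain ⟨n, hn, v, k, hv0, hvk, hv⟩ := hCYC M (Jump f δ) x y (hch δ hδ x y) (hch δ hδ y x)
  obtain ⟨p, -, hp⟩ := hsh n v (fun j => le_of_lt (hv j))
  have hp0 : dist p x ≤ min e1 e2 / 2 := by
    have := (hp 0).1
    simpa [hv0] using this
  have hpk : dist (f^[k] p) y ≤ min e1 e2 / 2 := by
    have := (hp k).1
    rwa [hvk] at this
  refine ⟨k, f^[k] p, ⟨p, h1 ?_, rfl⟩, h2 ?_⟩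
  · rw [Metric.mem_ball]
    have := min_le_left e1 e2
    linarith
  · rw [Metric.mem_ball]
    have := min_le_right e1 e2
    linarith

theorem p_TRN (hSHD : Stmt_SHD) (hCYC : Stmt_CYC) : Stmt_TRN := by
  intro d al M _ _ _ f S hT
  have hex : ∃ δ : ℝ, 0 < δ ∧ ∃ x y : M, ¬ Relation.TransGen (Jump f δ) x y := by
    by_contra hcon
    push Not at hcon
    exact hT (TRN_trans hSHD hCYC d al M f S hcon)
  obtain ⟨δ, hδ, x, y, hxy⟩ := hex
  refine ⟨{z | Relation.TransGen (Jump f δ) x z}, ?_, ?_, ?_, ?_⟩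
  · rw [Metric.isOpen_iff]
    intro y hy
    obtain ⟨w, hw, hwy⟩ := Relation.TransGen.tail'_iff.mp hy
    have hwy' : dist (f w) y < δ := hwy
    refine ⟨δ - dist (f w) y, by linarith, fun y' hy' => ?_⟩
    refine Relation.TransGen.tail' hw ?_
    have h1 := dist_triangle (f w) y y'
    rw [mem_ball, dist_comm] at hy'
    show dist (f w) y' < δ
    linarith
  · exact ⟨f x, Relation.TransGen.single (by simpa [Jump] using hδ)⟩
  · intro hu
    exact hxy (by
      have : y ∈ {z | Relation.TransGen (Jump f δ) x z} := by rw [hu]; exact mem_univ _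
      exact this)
  · rintro _ ⟨z, hz, rfl⟩
    obtain ⟨η, hη, hf⟩ := Metric.continuous_iff.mp f.continuous z δ hδ
    obtain ⟨z', hz', hd⟩ := Metric.mem_closure_iff.mp hz η hη
    refine Relation.TransGen.tail hz' ?_
    show dist (f z') (f z) < δ
    exact hf z' (by rwa [dist_comm])

end Pool.AN
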