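import Pool.Agent.Work.MP_bd2638_an.AllM
import Pool.Agent.Work.MP_bd2638_an.AllS
import Pool.Agent.Work.MP_bd2638_an.AssemblyR
import Pool.Agent.Work.MP_bd2638_an.AssemblyL
import Pool.Agent.Work.MP_bd2638_an.B_CLP
import Pool.Agent.Work.MP_bd2638_an.B_PGL
import Pool.Agent.Work.MP_bd2638_an.B_SUL
import Pool.Agent.Work.MP_bd2638_an.B_SUR
import Pool.Agent.Work.MP_bd2638_an.B_MEL
import Pool.Agent.Work.MP_bd2638_an.B_MEI
import Pool.Agent.Work.MP_bd2638_an.B_TOP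
import Pool.Agent.Work.MP_bd2638_an.B_LOC
import Pool.Agent.Work.MP_bd2638_an.B_TRN

/-!
# MP_bd2638_an, LOCAL FORM: all blocks together
-/

set_option autoImplicit false

namespace Pool.AN

/-- `U` is a trapping region of `f`: open, not empty, not all of `M`, `f` maps its closure into it. -/
def Trapping {M : Type} [TopologicalSpace M] (f : M → M) (U : Set M) : Prop :=
  IsOpen U ∧ U.Nonempty ∧ U ≠ Set.univ ∧ f '' closure U ⊆ U

theorem t_CLP : Stmt_CLP := p_CLP t_NEA t_ONE t_CHN t_SHD t_EXP t_SUM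

theorem t_PGL : Stmt_PGL := p_PGL t_PIG

theorem t_SUL : Stmt_SUL := p_SUL t_ONE t_CLP t_PGL

theorem t_SUR : Stmt_SUR := p_SUR t_ONE t_CLP t_PGL

theorem t_LOC : Stmt_LOC := p_LOC t_MES t_MUF t_MUC t_SUL t_SUR p_MEL p_MEI p_TOP

theorem t_TRN : Stmt_TRN := p_TRN t_SHD t_CYC

theorem t_ANL : Stmt_ANL :=
  main_of_L (sysl_of t_LOC t_TRN) p_MTI p_MDF p_MSM q_MIN p_MIT (p_MHO p_MSM q_MIN) p_MNO
    (p_MQC p_MTI) p_MCV

theorem t_ANLR : Stmt_ANLR := anlr_of (anlq_of t_ANL q_MIN p_MIT)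

theorem t_ANR : Stmt_ANR := anr_of (anq_of_sys t_SYS)

end Pool.AN
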