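import Pool.Agent.Work.MP_bd2638_an.InterfaceM

/-!
# THEOREM AN (MP_bd2638_an): block MDF, the derivative in charts
-/

set_option autoImplicit false

open Set Bundle Topology Filter
open scoped Manifold ContDiff

noncomputable section

namespace Pool.AN

theorem p_MDF : Stmt_MDF := by
  intro d M _ _ _ a b x g hx hgx hg
  have ha : (ch (d := d) a).MDifferentiable 𝓘(ℝ, EE d) 𝓘(ℝ, EE d) :=
    mdifferentiable_chart (I := 𝓘(ℝ, EE d)) a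
  have hb : (ch (d := d) b).MDifferentiable 𝓘(ℝ, EE d) 𝓘(ℝ, EE d) :=
    mdifferentiable_chart (I := 𝓘(ℝ, EE d)) b
  have hinv : (ch (d := d) a).symm (ch (d := d) a x) = x := (ch (d := d) a).left_inv hx
  have htgt : ch (d := d) a x ∈ (ch (d := d) a).target := (ch (d := d) a).map_source hx
  have h1 : MDifferentiableAt 𝓘(ℝ, EE d) 𝓘(ℝ, EE d) (ch (d := d) a).symm (ch (d := d) a x) :=
    ha.mdifferentiableAt_symm htgt
  have h2 : MDifferentiableAt 𝓘(ℝ, EE d) 𝓘(ℝ, EE d) g ((ch (d := d) a).symm (ch (d := d) a x)) := by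
    rw [hinv]; exact hg
  have h3 : MDifferentiableAt 𝓘(ℝ, EE d) 𝓘(ℝ, EE d) (ch (d := d) b)
      (g ((ch (d := d) a).symm (ch (d := d) a x))) := by
    rw [hinv]; exact hb.mdifferentiableAt hgx
  have h4 : MDifferentiableAt 𝓘(ℝ, EE d) 𝓘(ℝ, EE d) (g ∘ (ch (d := d) a).symm)
      (ch (d := d) a x) := h2.comp _ h1
  have e1 : mfderiv 𝓘(ℝ, EE d) 𝓘(ℝ, EE d) (g ∘ (ch (d := d) a).symm) (ch (d := d) a x) =
      (mfderiv 𝓘(ℝ, EE d) 𝓘(ℝ, EE d) g ((ch (d := d) a).symm (ch (d := d) a x))).comp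
        (mfderiv 𝓘(ℝ, EE d) 𝓘(ℝ, EE d) (ch (d := d) a).symm (ch (d := d) a x)) :=
    mfderiv_comp _ h2 h1
  have e2 : mfderiv 𝓘(ℝ, EE d) 𝓘(ℝ, EE d) (ch (d := d) b ∘ (g ∘ (ch (d := d) a).symm))
      (ch (d := d) a x) =
      (mfderiv 𝓘(ℝ, EE d) 𝓘(ℝ, EE d) (ch (d := d) b)
        ((g ∘ (ch (d := d) a).symm) (ch (d := d) a x))).comp
        (mfderiv 𝓘(ℝ, EE d) 𝓘(ℝ, EE d) (g ∘ (ch (d := d) a).symm) (ch (d := d) a x)) :=
    mfderiv_comp _ h3 h4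
  have e3 : dch (d := d) a b g x =
      mfderiv 𝓘(ℝ, EE d) 𝓘(ℝ, EE d) (ch (d := d) b ∘ (g ∘ (ch (d := d) a).symm))
      (ch (d := d) a x) := by
    rw [mfderiv_eq_fderiv]; rfl
  have e4 : ∀ y, y = x → (mfderiv 𝓘(ℝ, EE d) 𝓘(ℝ, EE d) g y : EE d →L[ℝ] EE d) = dd g x := by
    intro y hy; subst hy; rfl
  have e5 : ∀ y, y = x → (mfderiv 𝓘(ℝ, EE d) 𝓘(ℝ, EE d) (ch (d := d) b) (g y) :
      EE d →L[ℝ] EE d) = TT b (g x) := by
    intro y hy; subst hy; rfl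
  rw [e3]
  refine e2.trans ?_
  rw [e1]
  have e4' := e4 _ hinv
  have e5' := e5 _ hinv
  refine ContinuousLinearMap.ext fun v => ?_
  show (mfderiv 𝓘(ℝ, EE d) 𝓘(ℝ, EE d) (ch (d := d) b)
        (g ((ch (d := d) a).symm (ch (d := d) a x))) : EE d →L[ℝ] EE d)
        ((mfderiv 𝓘(ℝ, EE d) 𝓘(ℝ, EE d) g ((ch (d := d) a).symm (ch (d := d) a x)) :
          EE d →L[ℝ] EE d) (TI a x v)) = TT b (g x) (dd g x (TI a x v))
  rw [e4', e5']
  rfl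

end Pool.AN
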