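import Pool.Agent.Work.MP_bd2638_an.InterfaceM

/-! # THEOREM AN (MP_bd2638_an), block MHO: the Jacobian is locally Hoelder in all charts -/

set_option autoImplicit false

open Set Bundle Topology Filter
open scoped Manifold ContDiff

noncomputable section

namespace Pool.AN

theorem MHO_det (d : ℕ) : ContDiff ℝ 1 (fun A : EE d →L[ℝ] EE d => A.det) := by
  have h1 : (fun A : EE d →L[ℝ] EE d => A.det) = fun A => ∑ σ : Equiv.Perm (Fin d),
      ((Equiv.Perm.sign σ : ℤ) : ℝ) * ∏ i, (A (EuclideanSpace.single i 1)) (σ i) := by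
    funext A
    have h2 := LinearMap.det_toMatrix (EuclideanSpace.basisFun (Fin d) ℝ).toBasis (A : EE d →ₗ[ℝ] EE d)
    show LinearMap.det (A : EE d →ₗ[ℝ] EE d) = _
    rw [← h2, Matrix.det_apply']
    refine Finset.sum_congr rfl fun σ _ => ?_
    congr 1
  rw [h1]
  refine ContDiff.sum fun σ _ => contDiff_const.mul (contDiff_prod fun i _ => ?_)
  exact ((EuclideanSpace.proj (𝕜 := ℝ) (σ i)).comp
    (ContinuousLinearMap.apply ℝ (EE d) (EuclideanSpace.single i (1 : ℝ)))).contDiff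

theorem MHO_log {d : ℕ} {τ : EE d → EE d} {u : EE d} (h : ContDiffAt ℝ 2 τ u)
    (hd : (fderiv ℝ τ u).det ≠ 0) : ContDiffAt ℝ 1 (logJac τ) u := by
  have h1 : ContDiffAt ℝ 1 (fderiv ℝ τ) u := h.fderiv_right (by norm_num)
  have h2 : ContDiffAt ℝ 1 (fun v => (fderiv ℝ τ v).det) u := (MHO_det d).contDiffAt.comp u h1
  have h3 := h2.log hd
  have h4 : logJac τ = fun v => Real.log (fderiv ℝ τ v).det := by
    funext v
    simp [logJac, Real.log_abs]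
  rw [h4]
  exact h3

theorem MHO_tau {d : ℕ} {M : Type} [TopologicalSpace M] [ChartedSpace (EE d) M]
    [IsManifold 𝓘(ℝ, EE d) ∞ M] (a b : M) :
    ContDiffOn ℝ ∞ (inch (d := d) a b id) (dom (d := d) a b id) := by
  rw [← contMDiffOn_iff_contDiffOn]
  have h1 : ContMDiffOn 𝓘(ℝ, EE d) 𝓘(ℝ, EE d) ∞ (ch (d := d) a).symm (ch (d := d) a).target :=
    contMDiffOn_chart_symm
  have h2 : ContMDiffOn 𝓘(ℝ, EE d) 𝓘(ℝ, EE d) ∞ (ch (d := d) b) (ch (d := d) b).source :=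
    contMDiffOn_chart
  exact h2.comp (h1.mono fun u hu => hu.1) fun u hu => hu.2

theorem MHO_comp {d : ℕ} (A B : EE d →L[ℝ] EE d) : (A.comp B).det = A.det * B.det :=
  LinearMap.det_comp (A : EE d →ₗ[ℝ] EE d) (B : EE d →ₗ[ℝ] EE d)

/-- the determinant of the derivative in charts at a point of the domain -/
theorem MHO_ne (hMIN : Stmt_MIN) {d : ℕ} {M : Type} [TopologicalSpace M] [ChartedSpace (EE d) M]
    [IsManifold 𝓘(ℝ, EE d) ∞ M] {g h : M → M} (hg : ContMDiff 𝓘(ℝ, EE d) 𝓘(ℝ, EE d) 1 g)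
    (hh : ContMDiff 𝓘(ℝ, EE d) 𝓘(ℝ, EE d) 1 h) (hgh : ∀ x, h (g x) = x) (a b : M) {u : EE d}
    (hu : u ∈ dom (d := d) a b g) : (fderiv ℝ (inch (d := d) a b g) u).det ≠ 0 := by
  have h1 := (hMIN d M g h hg hh hgh).1 a b ((ch (d := d) a).symm u)
    ((ch (d := d) a).map_target hu.1) hu.2
  unfold dch at h1
  rwa [(ch (d := d) a).right_inv hu.1] at h1

theorem p_MHO (hMSM : Stmt_MSM) (hMIN : Stmt_MIN) : Stmt_MHO := by
  intro d M _ _ _ f h α hα hf hh hfh hH a b x hxa hfxb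
  have hid : ContMDiff 𝓘(ℝ, EE d) 𝓘(ℝ, EE d) 1 (id : M → M) := contMDiff_id
  obtain ⟨hoF, hcF⟩ := hMSM d M x (f x) f hf
  obtain ⟨ho1, -⟩ := hMSM d M a x id hid
  obtain ⟨ho2, -⟩ := hMSM d M (f x) b id hid
  have hc1 := MHO_tau (d := d) (M := M) a x
  have hc2 := MHO_tau (d := d) (M := M) (f x) b
  obtain ⟨u₀, hu₀⟩ : ∃ u₀, u₀ = ch (d := d) a x := ⟨_, rfl⟩
  obtain ⟨w₀, hw₀⟩ : ∃ w₀, w₀ = ch (d := d) x x := ⟨_, rfl⟩
  obtain ⟨v₀, hv₀⟩ : ∃ v₀, v₀ = ch (d := d) (f x) (f x) := ⟨_, rfl⟩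
  obtain ⟨τ₁, hτ₁⟩ : ∃ τ₁, τ₁ = inch (d := d) a x id := ⟨_, rfl⟩
  obtain ⟨τ₂, hτ₂⟩ : ∃ τ₂, τ₂ = inch (d := d) (f x) b id := ⟨_, rfl⟩
  obtain ⟨F, hF⟩ : ∃ F, F = inch (d := d) x (f x) f := ⟨_, rfl⟩
  have hxx : x ∈ (ch (d := d) x).source := mem_chart_source _ _
  have hff : f x ∈ (ch (d := d) (f x)).source := mem_chart_source _ _
  have hx1 : (ch (d := d) a).symm u₀ = x := by rw [hu₀, (ch (d := d) a).left_inv hxa]
  have hx2 : (ch (d := d) x).symm w₀ = x := by rw [hw₀, (ch (d := d) x).left_inv hxx]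
  have hx3 : (ch (d := d) (f x)).symm v₀ = f x := by rw [hv₀, (ch (d := d) (f x)).left_inv hff]
  have hd1 : u₀ ∈ dom (d := d) a x id := by
    refine ⟨?_, ?_⟩
    · rw [hu₀]
      exact (ch (d := d) a).map_source hxa
    · show (ch (d := d) a).symm u₀ ∈ (ch (d := d) x).source
      rw [hx1]
      exact hxx
  have hd2 : w₀ ∈ dom (d := d) x (f x) f := by
    refine ⟨?_, ?_⟩
    · rw [hw₀]
      exact (ch (d := d) x).map_source hxx
    · rw [hx2]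
      exact hff
  have hd3 : v₀ ∈ dom (d := d) (f x) b id := by
    refine ⟨?_, ?_⟩
    · rw [hv₀]
      exact (ch (d := d) (f x)).map_source hff
    · show (ch (d := d) (f x)).symm v₀ ∈ (ch (d := d) b).source
      rw [hx3]
      exact hfxb
  have ht1 : τ₁ u₀ = w₀ := by
    rw [hτ₁, hw₀]
    show ch (d := d) x ((ch (d := d) a).symm u₀) = _
    rw [hx1]
  have ht2 : F w₀ = v₀ := by
    rw [hF, hv₀]
    show ch (d := d) (f x) (f ((ch (d := d) x).symm w₀)) = _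
    rw [hx2]
  have hs1 : ContDiffAt ℝ ∞ τ₁ u₀ := by
    rw [hτ₁]
    exact hc1.contDiffAt (ho1.mem_nhds hd1)
  have hs2 : ContDiffAt ℝ ∞ τ₂ v₀ := by
    rw [hτ₂]
    exact hc2.contDiffAt (ho2.mem_nhds hd3)
  have hsF : ContDiffAt ℝ 1 F w₀ := by
    rw [hF]
    exact hcF.contDiffAt (hoF.mem_nhds hd2)
  have hk1 : ContinuousAt τ₁ u₀ := hs1.continuousAt
  have hkF : ContinuousAt F (τ₁ u₀) := by
    rw [ht1]
    exact hsF.continuousAt
  -- the good neighbourhood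
  have hev : ∀ᶠ u in 𝓝 u₀, u ∈ dom (d := d) a x id ∧ τ₁ u ∈ dom (d := d) x (f x) f ∧
      F (τ₁ u) ∈ dom (d := d) (f x) b id := by
    have hev0 : ∀ᶠ u in 𝓝 u₀, u ∈ dom (d := d) a x id := ho1.mem_nhds hd1
    refine hev0.and ?_
    refine (hk1.eventually_mem (hoF.mem_nhds (by rw [ht1]; exact hd2))).and ?_
    exact (hkF.comp hk1).eventually_mem (ho2.mem_nhds (by
      show F (τ₁ u₀) ∈ _
      rw [ht1, ht2]
      exact hd3))
  have heq : ∀ u, u ∈ dom (d := d) a x id ∧ τ₁ u ∈ dom (d := d) x (f x) f ∧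
      F (τ₁ u) ∈ dom (d := d) (f x) b id → inch (d := d) a b f u = τ₂ (F (τ₁ u)) := by
    rintro u ⟨h1, h2, -⟩
    have e1 : (ch (d := d) x).symm (τ₁ u) = (ch (d := d) a).symm u := by
      rw [hτ₁]
      exact (ch (d := d) x).left_inv h1.2
    have e2 : (ch (d := d) (f x)).symm (F (τ₁ u)) = f ((ch (d := d) a).symm u) := by
      rw [← e1, hF]
      exact (ch (d := d) (f x)).left_inv h2.2
    rw [hτ₂]
    show ch (d := d) b (f ((ch (d := d) a).symm u)) = ch (d := d) b ((ch (d := d) (f x)).symm (F (τ₁ u)))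
    rw [e2]
  -- the chain rule
  have hchain : ∀ᶠ u in 𝓝 u₀, logJac (inch (d := d) a b f) u =
      logJac τ₂ (F (τ₁ u)) + logJac F (τ₁ u) + logJac τ₁ u := by
    filter_upwards [hev, eventually_eventually_nhds.2 hev] with u hu hu'
    obtain ⟨h1, h2, h3⟩ := hu
    have e1 : inch (d := d) a b f =ᶠ[𝓝 u] fun v => τ₂ (F (τ₁ v)) := hu'.mono heq
    have g1 : DifferentiableAt ℝ τ₁ u := by
      rw [hτ₁]
      exact (hc1.contDiffAt (ho1.mem_nhds h1)).differentiableAt (by simp)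
    have g2 : DifferentiableAt ℝ F (τ₁ u) := by
      rw [hF]
      exact (hcF.contDiffAt (hoF.mem_nhds h2)).differentiableAt (by simp)
    have g3 : DifferentiableAt ℝ τ₂ (F (τ₁ u)) := by
      rw [hτ₂]
      exact (hc2.contDiffAt (ho2.mem_nhds h3)).differentiableAt (by simp)
    have e2 : fderiv ℝ (inch (d := d) a b f) u =
        (fderiv ℝ τ₂ (F (τ₁ u))).comp ((fderiv ℝ F (τ₁ u)).comp (fderiv ℝ τ₁ u)) := by
      rw [e1.fderiv_eq]
      have e3 : HasFDerivAt (fun v => F (τ₁ v)) ((fderiv ℝ F (τ₁ u)).comp (fderiv ℝ τ₁ u)) u :=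
        HasFDerivAt.comp u g2.hasFDerivAt g1.hasFDerivAt
      exact (HasFDerivAt.comp u g3.hasFDerivAt e3).fderiv
    have n1 : (fderiv ℝ τ₁ u).det ≠ 0 := by
      rw [hτ₁]
      exact MHO_ne hMIN hid hid (fun _ => rfl) a x h1
    have n2 : (fderiv ℝ F (τ₁ u)).det ≠ 0 := by
      rw [hF]
      exact MHO_ne hMIN hf hh hfh x (f x) h2
    have n3 : (fderiv ℝ τ₂ (F (τ₁ u))).det ≠ 0 := by
      rw [hτ₂]
      exact MHO_ne hMIN hid hid (fun _ => rfl) (f x) b h3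
    unfold logJac
    rw [e2, MHO_comp, MHO_comp, abs_mul, abs_mul, Real.log_mul (abs_ne_zero.2 n3)
      (mul_ne_zero (abs_ne_zero.2 n2) (abs_ne_zero.2 n1)), Real.log_mul (abs_ne_zero.2 n2) (abs_ne_zero.2 n1)]
    ring
  -- the three terms
  have hn1 : (fderiv ℝ τ₁ u₀).det ≠ 0 := by
    rw [hτ₁]
    exact MHO_ne hMIN hid hid (fun _ => rfl) a x hd1
  have hn2 : (fderiv ℝ τ₂ v₀).det ≠ 0 := by
    rw [hτ₂]
    exact MHO_ne hMIN hid hid (fun _ => rfl) (f x) b hd3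
  have l1 : ContDiffAt ℝ 1 (logJac τ₁) u₀ := MHO_log (hs1.of_le (by norm_cast)) hn1
  have l2 : ContDiffAt ℝ 1 (logJac τ₂) (F (τ₁ u₀)) := by
    rw [ht1, ht2]
    exact MHO_log (hs2.of_le (by norm_cast)) hn2
  have hsF' : ContDiffAt ℝ 1 F (τ₁ u₀) := by
    rw [ht1]
    exact hsF
  have l3 : ContDiffAt ℝ 1 (fun u => F (τ₁ u)) u₀ := hsF'.comp u₀ (hs1.of_le (by norm_cast))
  have l4 : ContDiffAt ℝ 1 (fun u => logJac τ₂ (F (τ₁ u))) u₀ := ContDiffAt.comp (g := logJac τ₂) u₀ l2 l3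
  obtain ⟨K1, t1, ht1', hL1⟩ := l1.exists_lipschitzOnWith
  obtain ⟨K2, t2, ht2', hL2⟩ := l4.exists_lipschitzOnWith
  obtain ⟨K3, t3, ht3', hL3⟩ := (hs1.of_le (by norm_cast) : ContDiffAt ℝ 1 τ₁ u₀).exists_lipschitzOnWith
  obtain ⟨ρ, H, hρ, hHol⟩ := hH x
  have hball : ∀ᶠ u in 𝓝 u₀, τ₁ u ∈ Metric.ball (chartAt (EE d) x x) ρ := by
    refine hk1.eventually_mem (Metric.isOpen_ball.mem_nhds ?_)
    rw [ht1, hw₀]
    exact Metric.mem_ball_self hρ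
  have hall : ∀ᶠ u in 𝓝 u₀, (u ∈ t1 ∧ u ∈ t2 ∧ u ∈ t3) ∧ τ₁ u ∈ Metric.ball (chartAt (EE d) x x) ρ ∧
      logJac (inch (d := d) a b f) u = logJac τ₂ (F (τ₁ u)) + logJac F (τ₁ u) + logJac τ₁ u := by
    filter_upwards [ht1', ht2', ht3', hball, hchain] with u h1 h2 h3 h4 h5
    exact ⟨⟨h1, h2, h3⟩, h4, h5⟩
  obtain ⟨r₀, hr₀, hr⟩ := Metric.eventually_nhds_iff_ball.1 hall
  refine ⟨min r₀ (1 / 2), K2 + |H| * (K3 : ℝ) ^ α + K1, by positivity, ?_⟩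
  rw [← hu₀]
  intro y hy z hz
  obtain ⟨⟨y1, y2, y3⟩, y4, y5⟩ := hr y (Metric.ball_subset_ball (min_le_left _ _) hy)
  obtain ⟨⟨z1, z2, z3⟩, z4, z5⟩ := hr z (Metric.ball_subset_ball (min_le_left _ _) hz)
  have hy' := Metric.ball_subset_ball (min_le_right r₀ (1 / 2)) hy
  have hz' := Metric.ball_subset_ball (min_le_right r₀ (1 / 2)) hz
  rw [Metric.mem_ball] at hy' hz'
  have hd0 : 0 ≤ dist y z := dist_nonneg
  have hd1' : dist y z ≤ 1 := by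
    have h1 := dist_triangle_right y z u₀
    linarith
  have hm0 : 0 ≤ min α 1 := le_min hα.le zero_le_one
  have q1 : dist y z ≤ dist y z ^ min α 1 := by
    have h1 := Real.rpow_le_rpow_of_exponent_ge' hd0 hd1' hm0 (min_le_right α 1)
    rwa [Real.rpow_one] at h1
  have q2 : dist y z ^ α ≤ dist y z ^ min α 1 :=
    Real.rpow_le_rpow_of_exponent_ge' hd0 hd1' hm0 (min_le_left α 1)
  have a1 : |logJac τ₁ y - logJac τ₁ z| ≤ K1 * dist y z := by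
    rw [← Real.dist_eq]
    exact hL1.dist_le_mul y y1 z z1
  have a2 : |logJac τ₂ (F (τ₁ y)) - logJac τ₂ (F (τ₁ z))| ≤ K2 * dist y z := by
    rw [← Real.dist_eq]
    exact hL2.dist_le_mul y y2 z z2
  have a3 : |logJac F (τ₁ y) - logJac F (τ₁ z)| ≤ |H| * ((K3 : ℝ) ^ α * dist y z ^ α) := by
    have h1 : |logJac F (τ₁ y) - logJac F (τ₁ z)| ≤ H * dist (τ₁ y) (τ₁ z) ^ α := by
      rw [hF]
      exact hHol _ y4 _ z4
    have h2 : dist (τ₁ y) (τ₁ z) ≤ K3 * dist y z := hL3.dist_le_mul y y3 z z3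
    have h3 : dist (τ₁ y) (τ₁ z) ^ α ≤ (K3 * dist y z) ^ α :=
      Real.rpow_le_rpow dist_nonneg h2 hα.le
    rw [Real.mul_rpow (NNReal.coe_nonneg K3) hd0] at h3
    calc |logJac F (τ₁ y) - logJac F (τ₁ z)| ≤ H * dist (τ₁ y) (τ₁ z) ^ α := h1
      _ ≤ |H| * dist (τ₁ y) (τ₁ z) ^ α :=
        mul_le_mul_of_nonneg_right (le_abs_self H) (Real.rpow_nonneg dist_nonneg _)
      _ ≤ |H| * ((K3 : ℝ) ^ α * dist y z ^ α) := mul_le_mul_of_nonneg_left h3 (abs_nonneg _)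
  have hK3 : 0 ≤ (K3 : ℝ) ^ α := Real.rpow_nonneg K3.2 _
  calc |logJac (inch (d := d) a b f) y - logJac (inch (d := d) a b f) z|
      = |(logJac τ₂ (F (τ₁ y)) - logJac τ₂ (F (τ₁ z))) + (logJac F (τ₁ y) - logJac F (τ₁ z)) +
          (logJac τ₁ y - logJac τ₁ z)| := by
        rw [y5, z5]
        congr 1
        ring
    _ ≤ |logJac τ₂ (F (τ₁ y)) - logJac τ₂ (F (τ₁ z))| + |logJac F (τ₁ y) - logJac F (τ₁ z)| +
          |logJac τ₁ y - logJac τ₁ z| := abs_add_three _ _ _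
    _ ≤ K2 * dist y z + |H| * ((K3 : ℝ) ^ α * dist y z ^ α) + K1 * dist y z :=
        add_le_add (add_le_add a2 a3) a1
    _ ≤ K2 * dist y z ^ min α 1 + |H| * ((K3 : ℝ) ^ α * dist y z ^ min α 1) +
          K1 * dist y z ^ min α 1 := by
        refine add_le_add (add_le_add ?_ ?_) ?_
        · exact mul_le_mul_of_nonneg_left q1 K2.2
        · exact mul_le_mul_of_nonneg_left (mul_le_mul_of_nonneg_left q2 hK3) (abs_nonneg _)
        · exact mul_le_mul_of_nonneg_left q1 K1.2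
    _ = (K2 + |H| * (K3 : ℝ) ^ α + K1) * dist y z ^ min α 1 := by ring

end Pool.AN
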