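import Pool.Agent.Work.MP_bd2638_an.InterfaceM

/-!
# Block MIN: determinants of the derivatives in charts
-/

set_option autoImplicit false

open Set Bundle Topology Filter
open scoped Manifold ContDiff

noncomputable section

namespace Pool.AN

theorem MIN_det_comp {d : ℕ} (L K : EE d →L[ℝ] EE d) : (L.comp K).det = L.det * K.det := by
  exact LinearMap.det_comp (L : EE d →ₗ[ℝ] EE d) (K : EE d →ₗ[ℝ] EE d)

theorem MIN_det_id {d : ℕ} : (ContinuousLinearMap.id ℝ (EE d)).det = 1 := by
  exact LinearMap.det_id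

theorem MIN_det_mul {d : ℕ} {L K : EE d →L[ℝ] EE d}
    (h : L.comp K = ContinuousLinearMap.id ℝ (EE d)) : L.det * K.det = 1 := by
  rw [← MIN_det_comp, h, MIN_det_id]

theorem p_MIN (hMTI : Stmt_MTI) (hMDF : Stmt_MDF) : Stmt_MIN := by
  intro d M _ _ _ g h hg hh hgh
  have hgd : ∀ x, MDifferentiableAt 𝓘(ℝ, EE d) 𝓘(ℝ, EE d) g x :=
    fun x => hg.mdifferentiable one_ne_zero x
  have hhd : ∀ x, MDifferentiableAt 𝓘(ℝ, EE d) 𝓘(ℝ, EE d) h x :=
    fun x => hh.mdifferentiable one_ne_zero x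
  have hd : ∀ x, (dd (d := d) g x).det ≠ 0 := by
    intro x
    have h1 : dd (d := d) (h ∘ g) x = (dd (d := d) h (g x)).comp (dd (d := d) g x) :=
      mfderiv_comp x (hhd (g x)) (hgd x)
    have h2 : h ∘ g = id := funext hgh
    have h3 : dd (d := d) (id : M → M) x = ContinuousLinearMap.id ℝ (EE d) := mfderiv_id
    rw [h2, h3] at h1
    exact right_ne_zero_of_mul_eq_one (MIN_det_mul h1.symm)
  refine ⟨?_, ?_⟩
  · intro a b x hx hgx
    rw [hMDF d M a b x g hx hgx (hgd x), MIN_det_comp, MIN_det_comp]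
    have h1 := MIN_det_mul (hMTI d M b (g x) hgx).1
    have h2 := MIN_det_mul (hMTI d M a x hx).1
    exact mul_ne_zero (left_ne_zero_of_mul_eq_one h1)
      (mul_ne_zero (hd x) (right_ne_zero_of_mul_eq_one h2))
  · intro a x hx hfix
    have hgx : g x ∈ (ch (d := d) a).source := by
      rw [hfix]
      exact hx
    have h1 := hMDF d M a a x g hx hgx (hgd x)
    rw [hfix] at h1
    have h2 := MIN_det_mul (hMTI d M a x hx).1
    rw [h1, MIN_det_comp, MIN_det_comp]
    linear_combination (dd (d := d) g x).det * h2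

end Pool.AN
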