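import Pool.Agent.Work.MP_bd2638_an.InterfaceM

/-!
# Block MIT: iterates
-/

set_option autoImplicit false

open Set Bundle Topology Filter
open scoped Manifold ContDiff

noncomputable section

namespace Pool.AN

theorem MIT_comp {d : ℕ} {M : Type} [TopologicalSpace M] [ChartedSpace (EE d) M] (g f : M → M)
    (hg : ContMDiff 𝓘(ℝ, EE d) 𝓘(ℝ, EE d) 1 g) (hf : ContMDiff 𝓘(ℝ, EE d) 𝓘(ℝ, EE d) 1 f) (x : M) (v : EE d) :
    dd (d := d) (g ∘ f) x v = dd g (f x) (dd f x v) := by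
  have h1 : MDifferentiableAt 𝓘(ℝ, EE d) 𝓘(ℝ, EE d) g (f x) := (hg (f x)).mdifferentiableAt one_ne_zero
  have h2 : MDifferentiableAt 𝓘(ℝ, EE d) 𝓘(ℝ, EE d) f x := (hf x).mdifferentiableAt one_ne_zero
  have h := mfderiv_comp x h1 h2
  show mfderiv 𝓘(ℝ, EE d) 𝓘(ℝ, EE d) (g ∘ f) x v = _
  rw [h]
  rfl

theorem p_MIT : Stmt_MIT := by
  intro d M _ _ _ f P hf hP n
  induction n with
  | zero =>
    refine ⟨contMDiff_id, ?_⟩
    intro x v
    have h : ∀ w : EE d, dd (d := d) (f^[0]) x w = w := by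
      intro w
      show mfderiv 𝓘(ℝ, EE d) 𝓘(ℝ, EE d) (id : M → M) x w = w
      rw [mfderiv_id]
      rfl
    rw [h, h]
    rfl
  | succ n ih =>
    obtain ⟨h1, h2⟩ := ih
    rw [Function.iterate_succ]
    refine ⟨h1.comp hf, ?_⟩
    intro x v
    rw [MIT_comp _ _ h1 hf, MIT_comp _ _ h1 hf, ← hP, ← h2]
    rfl

end Pool.AN
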