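import Pool.Agent.Work.MP_bd2638_an.InterfaceM

set_option autoImplicit false

open Set Bundle Topology Filter
open scoped Manifold ContDiff

noncomputable section

namespace Pool.AN

theorem MNO_norm {B : Type*} [TopologicalSpace B] {F : Type*} [NormedAddCommGroup F] [NormedSpace ℝ F]
    {E : B → Type*} [TopologicalSpace (TotalSpace F E)]
    [∀ b, TopologicalSpace (E b)] [∀ b, AddCommGroup (E b)] [∀ b, Module ℝ (E b)]
    [∀ b, IsTopologicalAddGroup (E b)] [∀ b, ContinuousConstSMul ℝ (E b)]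
    [FiberBundle F E] [VectorBundle ℝ F E] (g : ContinuousRiemannianMetric F E) (b : B) (v : E b) :
    letI : RiemannianBundle E := ⟨g.toRiemannianMetric⟩
    ‖v‖ = Real.sqrt (g.inner b v v) := by
  letI : RiemannianBundle E := ⟨g.toRiemannianMetric⟩
  rw [@norm_eq_sqrt_real_inner]
  rfl

theorem MNO_gen {B : Type*} [TopologicalSpace B] {F : Type*} [NormedAddCommGroup F] [NormedSpace ℝ F]
    {E : B → Type*} [TopologicalSpace (TotalSpace F E)]
    [∀ b, TopologicalSpace (E b)] [∀ b, AddCommGroup (E b)] [∀ b, Module ℝ (E b)]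
    [∀ b, IsTopologicalAddGroup (E b)] [∀ b, ContinuousConstSMul ℝ (E b)]
    [FiberBundle F E] [VectorBundle ℝ F E] (g : ContinuousRiemannianMetric F E) (a : B) :
    ∃ c : ℝ, 0 < c ∧ ∀ᶠ x in 𝓝 a, ∀ v : E x,
      c * ‖(trivializationAt F E a).continuousLinearMapAt ℝ x v‖ ≤ Real.sqrt (g.inner x v v) ∧
      c * Real.sqrt (g.inner x v v) ≤ ‖(trivializationAt F E a).continuousLinearMapAt ℝ x v‖ := by
  letI : RiemannianBundle E := ⟨g.toRiemannianMetric⟩
  obtain ⟨C, hC0, hC⟩ := eventually_norm_trivializationAt_lt F E a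
  obtain ⟨D, hD0, hD⟩ := eventually_norm_symmL_trivializationAt_lt F E a
  refine ⟨min C⁻¹ D⁻¹, by positivity, ?_⟩
  filter_upwards [hC, hD, (trivializationAt F E a).open_baseSet.mem_nhds
    (FiberBundle.mem_baseSet_trivializationAt' a)] with x hx hy hz v
  rw [← MNO_norm g x v]
  have h1 : ‖(trivializationAt F E a).continuousLinearMapAt ℝ x v‖ ≤ C * ‖v‖ :=
    (ContinuousLinearMap.le_opNorm _ _).trans (mul_le_mul_of_nonneg_right hx.le (norm_nonneg _))
  have h2 : ‖v‖ ≤ D * ‖(trivializationAt F E a).continuousLinearMapAt ℝ x v‖ := by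
    have e : (trivializationAt F E a).symmL ℝ x
        ((trivializationAt F E a).continuousLinearMapAt ℝ x v) = v := by
      exact (trivializationAt F E a).symmL_continuousLinearMapAt hz v
    have h3 : ‖(trivializationAt F E a).symmL ℝ x
        ((trivializationAt F E a).continuousLinearMapAt ℝ x v)‖ ≤
        D * ‖(trivializationAt F E a).continuousLinearMapAt ℝ x v‖ :=
      (ContinuousLinearMap.le_opNorm _ _).trans
        (mul_le_mul_of_nonneg_right hy.le (norm_nonneg _))
    rw [e] at h3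
    exact h3
  set w := (trivializationAt F E a).continuousLinearMapAt ℝ x v with hw
  constructor
  · have h4 : min C⁻¹ D⁻¹ * ‖w‖ ≤ C⁻¹ * (C * ‖v‖) :=
      mul_le_mul (min_le_left _ _) h1 (norm_nonneg _) (by positivity)
    have h5 : C⁻¹ * (C * ‖v‖) = ‖v‖ := by field_simp
    linarith
  · have h4 : min C⁻¹ D⁻¹ * ‖v‖ ≤ D⁻¹ * (D * ‖w‖) :=
      mul_le_mul (min_le_right _ _) h2 (norm_nonneg _) (by positivity)
    have h5 : D⁻¹ * (D * ‖w‖) = ‖w‖ := by field_simp
    linarith

theorem p_MNO : Stmt_MNO := by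
  intro d M _ _ _ g a
  obtain ⟨c, hc, h⟩ := MNO_gen g.toContinuousRiemannianMetric a
  refine ⟨c, hc, ?_⟩
  filter_upwards [h, chart_source_mem_nhds (EE d) a] with x hx hxs v
  have e := TangentBundle.continuousLinearMapAt_trivializationAt (I := 𝓘(ℝ, EE d)) hxs
  have h1 := hx v
  rw [e] at h1
  exact h1

end Pool.AN
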