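import Pool.Agent.Work.MP_bd2638_an.InterfaceM

set_option autoImplicit false

open Set Bundle Topology Filter
open scoped Manifold ContDiff

noncomputable section

namespace Pool.AN

section

variable {d : ℕ} {M : Type} [TopologicalSpace M] [ChartedSpace (EE d) M]

theorem MQC_TT [IsManifold 𝓘(ℝ, EE d) ∞ M] (a x : M) (hx : x ∈ (ch (d := d) a).source) (v : EE d) :
    TT (d := d) a x v =
      (trivializationAt (EE d) (TangentSpace 𝓘(ℝ, EE d)) a).continuousLinearMapAt ℝ x v := by
  have : IsManifold 𝓘(ℝ, EE d) 1 M := IsManifold.of_le (n := ∞) (by simp)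
  have h := TangentBundle.continuousLinearMapAt_trivializationAt (I := 𝓘(ℝ, EE d)) (x₀ := a)
    (x := x) hx
  rw [h]
  simp only [TT, ch, mfld_simps]
  rfl

theorem MQC_TI [IsManifold 𝓘(ℝ, EE d) ∞ M] (a x : M) (hx : x ∈ (ch (d := d) a).source) (v : EE d) :
    TI (d := d) a x v =
      (trivializationAt (EE d) (TangentSpace 𝓘(ℝ, EE d)) a).symmL ℝ x v := by
  have : IsManifold 𝓘(ℝ, EE d) 1 M := IsManifold.of_le (n := ∞) (by simp)
  have h := TangentBundle.symmL_trivializationAt (I := 𝓘(ℝ, EE d)) (x₀ := a)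
    (x := x) hx
  rw [h]
  simp only [TI, ch, mfld_simps]
  rfl

end

theorem p_MQC (_hMTI : Stmt_MTI) : Stmt_MQC := by
  intro d M _ _ _ P hP a
  have : IsManifold 𝓘(ℝ, EE d) 1 M := IsManifold.of_le (n := ∞) (by simp)
  rw [continuousOn_clm_apply]
  intro e
  set τ := trivializationAt (EE d) (TangentSpace 𝓘(ℝ, EE d) : M → Type _) a with hτ
  have hb : τ.baseSet = (ch (d := d) a).source := TangentBundle.trivializationAt_baseSet a
  have h1 : ContinuousOn (fun x : M => TotalSpace.mk' (EE d) x (τ.symm x e)) τ.baseSet := by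
    have h := τ.continuousOn_symm
    exact h.comp (f := fun x : M => (x, e)) (by fun_prop) (fun x hx => ⟨hx, mem_univ _⟩)
  have h2 : ContinuousOn (fun x : M => TotalSpace.mk' (EE d) x (P x (τ.symm x e))) τ.baseSet :=
    hP.comp_continuousOn h1
  have h3 : ContinuousOn (fun x : M => (τ (TotalSpace.mk' (EE d) x (P x (τ.symm x e)))).2)
      τ.baseSet := by
    refine continuous_snd.comp_continuousOn (τ.continuousOn.comp h2 ?_)
    intro x hx
    exact τ.mem_source.2 hx
  rw [hb] at h3
  refine h3.congr ?_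
  intro x hx
  have hx' : x ∈ τ.baseSet := by rw [hb]; exact hx
  have e1 : TI (d := d) a x e = τ.symm x e :=
    (MQC_TI a x hx e).trans (Trivialization.symmL_apply τ hx' e)
  refine (MQC_TT a x hx (P x (TI (d := d) a x e))).trans ?_
  refine (Trivialization.continuousLinearMapAt_apply_of_mem ℝ τ hx' _).trans ?_
  exact congrArg (fun w : TangentSpace 𝓘(ℝ, EE d) x =>
    (τ (TotalSpace.mk' (EE d) x (P x w))).2) e1

end Pool.AN
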