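import Pool.Agent.Work.MP_bd2638_an.InterfaceM

/-! THEOREM AN, part M, block MSM (helper4). -/

set_option autoImplicit false

open Set Bundle Topology Filter
open scoped Manifold ContDiff

noncomputable section

namespace Pool.AN

theorem p_MSM : Stmt_MSM := by
  intro d M _ _ _ a b g hg
  have : IsManifold 𝓘(ℝ, EE d) 1 M := IsManifold.of_le (n := ∞) (by exact_mod_cast le_top)
  constructor
  · exact (ch (d := d) a).symm.continuousOn.isOpen_inter_preimage (ch (d := d) a).open_target
      ((ch (d := d) b).open_source.preimage hg.continuous)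
  · rw [← contMDiffOn_iff_contDiffOn]
    have h1 : ContMDiffOn 𝓘(ℝ, EE d) 𝓘(ℝ, EE d) 1 (ch (d := d) b) (ch (d := d) b).source := contMDiffOn_chart
    have h2 : ContMDiffOn 𝓘(ℝ, EE d) 𝓘(ℝ, EE d) 1 (ch (d := d) a).symm (ch (d := d) a).target :=
      contMDiffOn_chart_symm
    have h3 : ContMDiffOn 𝓘(ℝ, EE d) 𝓘(ℝ, EE d) 1 (fun u => g ((ch (d := d) a).symm u)) (dom (d := d) a b g) :=
      hg.comp_contMDiffOn (h2.mono fun u hu => hu.1)
    exact h1.comp h3 fun u hu => hu.2

end Pool.AN
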