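import Pool.Agent.Work.MP_bd2638_an.InterfaceM

/-! # THEOREM AN (MP_bd2638_an): block MTI -/

set_option autoImplicit false

open Set Bundle Topology Filter
open scoped Manifold ContDiff

noncomputable section

namespace Pool.AN

/-- BLOCK MTI. -/
theorem p_MTI : Stmt_MTI := by
  intro d M _ _ _ a x hx
  have he : (ch (d := d) a).MDifferentiable 𝓘(ℝ, EE d) 𝓘(ℝ, EE d) :=
    mdifferentiable_chart a
  refine ⟨?_, ?_⟩
  · have h := he.comp_symm_deriv ((ch (d := d) a).map_source hx)
    rw [(ch (d := d) a).left_inv hx] at h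
    exact h
  · exact he.symm_comp_deriv hx

end Pool.AN
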