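import Pool.Agent.Work.MP_bd2638_an.AssemblyM
import Pool.Agent.Work.MP_bd2638_an.AssemblyQ
import Pool.Agent.Work.MP_bd2638_an.B_MTI
import Pool.Agent.Work.MP_bd2638_an.B_MDF
import Pool.Agent.Work.MP_bd2638_an.B_MSM
import Pool.Agent.Work.MP_bd2638_an.B_MIN
import Pool.Agent.Work.MP_bd2638_an.B_MIT
import Pool.Agent.Work.MP_bd2638_an.B_MHO
import Pool.Agent.Work.MP_bd2638_an.B_MNO
import Pool.Agent.Work.MP_bd2638_an.B_MQC
import Pool.Agent.Work.MP_bd2638_an.B_MCV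

/-!
# THEOREM AN (MP_bd2638_an): everything except the dynamics of chart systems
-/

set_option autoImplicit false

namespace Pool.AN

theorem q_MIN : Stmt_MIN := p_MIN p_MTI p_MDF

theorem an_of_sys (h : Stmt_SYS) : Stmt_AN :=
  main_of h p_MTI p_MDF p_MSM q_MIN p_MIT (p_MHO p_MSM q_MIN) p_MNO (p_MQC p_MTI) p_MCV

theorem anq_of_sys (h : Stmt_SYS) : Stmt_ANQ := anq_of (an_of_sys h) q_MIN p_MIT

end Pool.AN
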