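import Pool.Agent.Work.MP_bd2638_an.InterfaceM

/-!
# THEOREM AN (MP_bd2638_an): assembly of part M: from the theorem on chart systems to manifolds
-/

set_option autoImplicit false

open Set Bundle Topology Filter
open scoped Manifold ContDiff

noncomputable section

namespace Pool.AN

theorem len_nonneg {d : ℕ} {M : Type} [TopologicalSpace M] [ChartedSpace (EE d) M]
    [IsManifold 𝓘(ℝ, EE d) ∞ M] (g : RMetric d M) (x : M) (v : TangentSpace 𝓘(ℝ, EE d) x) :
    0 ≤ len g x v := Real.sqrt_nonneg _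

/-- a positive lower bound on a finite set -/
theorem exists_pos_lower {M : Type} (A : Finset M) (ca : M → ℝ) (h : ∀ a, 0 < ca a) :
    ∃ c0 : ℝ, 0 < c0 ∧ ∀ a ∈ A, c0 ≤ ca a := by
  classical
  induction A using Finset.induction_on with
  | empty => exact ⟨1, one_pos, by simp⟩
  | insert a s _ ih =>
    obtain ⟨c, hc, hc'⟩ := ih
    refine ⟨min (ca a) c, lt_min (h a) hc, fun b hb => ?_⟩
    rcases Finset.mem_insert.1 hb with rfl | hb
    · exact min_le_left _ _
    · exact (min_le_right _ _).trans (hc' b hb)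

theorem main_of (hSYS : Stmt_SYS) (hMTI : Stmt_MTI) (hMDF : Stmt_MDF) (hMSM : Stmt_MSM)
    (hMIN : Stmt_MIN) (hMIT : Stmt_MIT) (hMHO : Stmt_MHO) (hMNO : Stmt_MNO) (hMQC : Stmt_MQC)
    (hMCV : Stmt_MCV) : Stmt_AN := by
  intro d M _ _ _ _ _ _ f α hα hA hH
  obtain ⟨g, c, β, η, P, hc, hβ, hβ1, hη, hPP, hPc, hPf, hyp⟩ := hA
  have hf1 : ContMDiff 𝓘(ℝ, EE d) 𝓘(ℝ, EE d) 1 f := f.contMDiff
  have hfs1 : ContMDiff 𝓘(ℝ, EE d) 𝓘(ℝ, EE d) 1 f.symm := f.symm.contMDiff
  -- iterates
  have hit := hMIT d M f (fun x => (P x : EE d →L[ℝ] EE d)) hf1 (fun x v => hPf x v)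
  have hits : ∀ n, ContMDiff 𝓘(ℝ, EE d) 𝓘(ℝ, EE d) 1 (f.symm^[n]) := fun n =>
    (hMIT d M f.symm (fun x => 0) hfs1 (fun x v => by simp) n).1
  have hinv : ∀ (n : ℕ) (x : M), f.symm^[n] (f^[n] x) = x := fun n x =>
    (Function.LeftInverse.iterate (fun y => f.symm_apply_apply y) n) x
  -- the constants of the metric
  choose ca hca hca' using hMNO d M g
  obtain ⟨A, K, V, hKV, hcov⟩ := hMCV M
    (fun a => {x | x ∈ (ch (d := d) a).source ∧ ∀ v : EE d,
      ca a * ‖TT (d := d) a x v‖ ≤ len g x v ∧ ca a * len g x v ≤ ‖TT (d := d) a x v‖})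
    (fun a => Filter.inter_mem ((ch (d := d) a).open_source.mem_nhds (mem_chart_source _ a))
      (hca' a))
  obtain ⟨c0, hc0, hc0'⟩ := exists_pos_lower A ca hca
  let e : Fin A.card ≃ A := A.equivFin.symm
  haveI : SecondCountableTopology M :=
    ChartedSpace.secondCountable_of_sigmaCompact (EE d) M
  letI : MetricSpace M := TopologicalSpace.metrizableSpaceMetric M
  have hVs : ∀ a : M, V a ⊆ (ch (d := d) a).source := fun a x hx => ((hKV a).2.2.2 hx).1
  -- the derivative in charts
  have hD : ∀ (n : ℕ) (a b x : M), x ∈ (ch (d := d) a).source →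
      f^[n] x ∈ (ch (d := d) b).source →
      dch (d := d) a b (f^[n]) x = (TT b (f^[n] x)).comp ((dd (f^[n]) x).comp (TI a x)) :=
    fun n a b x hx hy => hMDF d M a b x (f^[n]) hx hy
      (((hit n).1 x).mdifferentiableAt one_ne_zero)
  have hTI : ∀ a x : M, x ∈ (ch (d := d) a).source → ∀ v, TT (d := d) a x (TI a x v) = v :=
    fun a x hx v => by
      have := congrArg (fun T : EE d →L[ℝ] EE d => T v) (hMTI d M a x hx).1
      exact this
  have hIT : ∀ a x : M, x ∈ (ch (d := d) a).source → ∀ v, TI (d := d) a x (TT a x v) = v :=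
    fun a x hx v => by
      have := congrArg (fun T : EE d →L[ℝ] EE d => T v) (hMTI d M a x hx).2
      exact this
  have hmem : ∀ i : Fin A.card, (e i : M) ∈ A := fun i => (e i).2
  have hcV : ∀ i : Fin A.card, ∀ x ∈ V (e i), ∀ v : EE d,
      c0 * ‖TT (d := d) (e i : M) x v‖ ≤ len g x v ∧
      c0 * len g x v ≤ ‖TT (d := d) (e i : M) x v‖ := by
    intro i x hx v
    obtain ⟨h1, h2⟩ := ((hKV (e i)).2.2.2 hx).2 v
    exact ⟨(mul_le_mul_of_nonneg_right (hc0' _ (hmem i)) (norm_nonneg _)).trans h1,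
      (mul_le_mul_of_nonneg_right (hc0' _ (hmem i)) (len_nonneg g x v)).trans h2⟩
  let Q : Fin A.card → M → EE d →L[ℝ] EE d := fun i x => pch (d := d) (e i : M) x (P x)
  have hQ : ∀ i x v, Q i x v = TT (d := d) (e i : M) x (P x (TI (d := d) (e i : M) x v)) :=
    fun i x v => rfl
  have hDF : ∀ (n : ℕ) (i j : Fin A.card) (x : M), x ∈ V (e i) → f^[n] x ∈ V (e j) → ∀ v,
      dch (d := d) (e i : M) (e j : M) (f^[n]) x v =
        TT (e j : M) (f^[n] x) (dd (d := d) (f^[n]) x (TI (e i : M) x v)) := by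
    intro n i j x hx hy v
    rw [hD n _ _ x (hVs _ hx) (hVs _ hy)]
    rfl
  let S : Sys d (min α 1) M f.toHomeomorph :=
    { m := A.card
      φ := fun i => ch (d := d) (e i : M)
      K := fun i => K (e i)
      V := fun i => V (e i)
      Q := Q
      C := (c0 ^ 2 * c)⁻¹
      be := β
      eta := η
      hal := lt_min hα one_pos
      hC := by positivity
      hbe0 := hβ
      hbe := hβ1
      heta := hη
      hK := fun i => (hKV _).1
      hV := fun i => (hKV _).2.1
      hKV := fun i => (hKV _).2.2.1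
      hVs := fun i => hVs _
      cov := fun x => by
        obtain ⟨a, ha, hx⟩ := hcov x
        refine ⟨e.symm ⟨a, ha⟩, ?_⟩
        rw [e.apply_symm_apply]
        exact hx
      sm := fun n i j x hx hy => by
        obtain ⟨h1, h2⟩ := hMSM d M (e i : M) (e j : M) (f^[n]) (hit n).1
        refine h2.contDiffAt (h1.mem_nhds ⟨(ch (d := d) (e i : M)).map_source hx, ?_⟩)
        rw [(ch (d := d) (e i : M)).left_inv hx]
        exact hy
      inj := fun n i j x hx hy =>
        (hMIN d M (f^[n]) (f.symm^[n]) (hit n).1 (hits n) (hinv n)).1 _ _ x hx hy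
      hol := fun i j x hx hy => by
        obtain ⟨r, C, hr, hrC⟩ := hMHO d M f f.symm α hα hf1 hfs1 (fun y => f.symm_apply_apply y)
          hH (e i : M) (e j : M) x hx hy
        refine ⟨r, hr, C, fun u hu v hv => ?_⟩
        rw [← dist_eq_norm]
        exact hrC u hu v hv
      Qc := fun i => (hMQC d M P hPc (e i : M)).mono (hVs _)
      Qp := fun i x hx => by
        ext1 v
        show Q i x (Q i x v) = Q i x v
        rw [hQ, hQ, hIT _ _ (hVs _ hx)]
        congr 1
        exact hPP x _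
      Qe := fun n i j x hx hy => by
        ext1 v
        show Q j (f^[n] x) (dch (d := d) (e i : M) (e j : M) (f^[n]) x v) =
          dch (d := d) (e i : M) (e j : M) (f^[n]) x (Q i x v)
        have hy' : f^[n] x ∈ V (e j) := hy
        rw [hDF n i j x hx hy', hDF n i j x hx hy', hQ, hQ, hIT _ _ (hVs _ hx),
          hIT _ _ (hVs _ hy')]
        congr 1
        exact (hit n).2 x _
      hs := fun n i j x v hx hy hv => by
        have hy' : f^[n] x ∈ V (e j) := hy
        show ‖dch (d := d) (e i : M) (e j : M) (f^[n]) x v‖ ≤ _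
        rw [hDF n i j x hx hy']
        have h0 : P x (TI (d := d) (e i : M) x v) = 0 := by
          have h1 : TT (d := d) (e i : M) x (P x (TI (d := d) (e i : M) x v)) = 0 := hv
          have h2 := hIT (e i : M) x (hVs _ hx) (P x (TI (d := d) (e i : M) x v))
          rw [h1, map_zero] at h2
          exact h2.symm
        have h1 := (hcV i x hx (TI (d := d) (e i : M) x v)).2
        rw [hTI _ _ (hVs _ hx)] at h1
        have h2 := (hyp n x (TI (d := d) (e i : M) x v)).2 h0
        have h3 := (hcV j _ hy' (dd (d := d) (f^[n]) x (TI (e i : M) x v))).1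
        have h4 : c * (c0 * ‖TT (d := d) (e j : M) (f^[n] x)
            (dd (d := d) (f^[n]) x (TI (e i : M) x v))‖) ≤
            β ^ n * len g x (TI (d := d) (e i : M) x v) :=
          (mul_le_mul_of_nonneg_left h3 hc.le).trans h2
        have h5 : c0 * (c * (c0 * ‖TT (d := d) (e j : M) (f^[n] x)
            (dd (d := d) (f^[n]) x (TI (e i : M) x v))‖)) ≤ β ^ n * ‖v‖ := by
          calc _ ≤ c0 * (β ^ n * len g x (TI (d := d) (e i : M) x v)) :=
                mul_le_mul_of_nonneg_left h4 hc0.le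
            _ = β ^ n * (c0 * len g x (TI (d := d) (e i : M) x v)) := by ring
            _ ≤ β ^ n * ‖v‖ := mul_le_mul_of_nonneg_left h1 (pow_nonneg hβ.le n)
        have h6 : 0 < c0 ^ 2 * c := by positivity
        rw [mul_assoc, inv_mul_eq_div, le_div_iff₀ h6]
        calc _ = c0 * (c * (c0 * ‖TT (d := d) (e j : M) (f^[n] x)
            (dd (d := d) (f^[n]) x (TI (e i : M) x v))‖)) := by ring
          _ ≤ _ := h5
      hu := fun n i j x v hx hy hv => by
        have hy' : f^[n] x ∈ V (e j) := hy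
        show _ ≤ ‖dch (d := d) (e i : M) (e j : M) (f^[n]) x v‖
        rw [hDF n i j x hx hy']
        have h0 : P x (TI (d := d) (e i : M) x v) = TI (d := d) (e i : M) x v := by
          have h1 : TT (d := d) (e i : M) x (P x (TI (d := d) (e i : M) x v)) = v := hv
          have h2 := hIT (e i : M) x (hVs _ hx) (P x (TI (d := d) (e i : M) x v))
          rw [h1] at h2
          exact h2.symm
        have h1 := (hcV i x hx (TI (d := d) (e i : M) x v)).1
        rw [hTI _ _ (hVs _ hx)] at h1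
        have h2 := (hyp n x (TI (d := d) (e i : M) x v)).1 h0
        have h3 := (hcV j _ hy' (dd (d := d) (f^[n]) x (TI (e i : M) x v))).2
        rw [inv_inv]
        calc c0 ^ 2 * c * η ^ n * ‖v‖ = c0 * (c * η ^ n * (c0 * ‖v‖)) := by ring
          _ ≤ c0 * (c * η ^ n * len g x (TI (d := d) (e i : M) x v)) :=
            mul_le_mul_of_nonneg_left (mul_le_mul_of_nonneg_left h1 (by positivity)) hc0.le
          _ ≤ c0 * len g (f^[n] x) (dd (d := d) (f^[n]) x (TI (e i : M) x v)) :=
            mul_le_mul_of_nonneg_left h2 hc0.le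
          _ ≤ _ := h3 }
  have hjac : ∀ (k : ℕ) (i : Fin A.card) (p : M), p ∈ V (e i) → f^[k] p = p →
      |(DF S.φ f.toHomeomorph k i i p).det| = jac (d := d) f k p := by
    intro k i p hp hk
    have := (hMIN d M (f^[k]) (f.symm^[k]) (hit k).1 (hits k) (hinv k)).2 (e i : M) p
      (hVs _ hp) hk
    show |(dch (d := d) (e i : M) (e i : M) (f^[k]) p).det| = |(dd (d := d) (f^[k]) p).det|
    rw [this]
  have fin : (PerGe S ∨ PerLe S) →
      (∀ (k : ℕ) (p : M), 0 < k → f^[k] p = p → jac (d := d) f k p = 1) ∧ Trans f := by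
    intro h
    obtain ⟨h1, h2⟩ := hSYS d (min α 1) M f.toHomeomorph S h
    refine ⟨fun k p hk hp => ?_, h2⟩
    obtain ⟨i, hi⟩ := S.cov p
    have hiV : p ∈ S.V i := S.hKV i (interior_subset hi)
    rw [← hjac k i p hiV hp]
    exact h1 k i p hk hiV hp
  by_cases h1 : ∃ (k : ℕ) (p : M), 0 < k ∧ f^[k] p = p ∧ jac (d := d) f k p < 1
  · by_cases h2 : ∃ (k : ℕ) (p : M), 0 < k ∧ f^[k] p = p ∧ 1 < jac (d := d) f k p
    · exact Or.inl ⟨h1, h2⟩
    · right
      push_neg at h2
      have hle : PerLe S := by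
        intro n i x hn hx hfx
        rw [hjac n i x hx hfx]
        exact h2 n x hn hfx
      exact fin (Or.inr hle)
  · right
    push_neg at h1
    have hge : PerGe S := by
      intro n i x hn hx hfx
      rw [hjac n i x hx hfx]
      exact h1 n x hn hfx
    exact fin (Or.inl hge)

end Pool.AN
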