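import Pool.Agent.Work.MP_bd2638_an.Interface

set_option autoImplicit false

namespace Pool.AN

open Set Filter Topology Metric

theorem BND_one {d : ℕ} {al : ℝ} {M : Type} [MetricSpace M] [CompactSpace M] {f : M ≃ₜ M}
    (S : Sys d al M f) (i : Fin S.m) : ∃ B : ℝ, ∀ x ∈ S.K i, ‖S.Q i x‖ ≤ B :=
  (S.hK i).exists_bound_of_continuousOn ((S.Qc i).mono (S.hKV i))

theorem p_BND : Stmt_BND := by
  intro d al M _ _ f S
  choose B hB using BND_one S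
  have hP : ∀ x : M, ‖S.P x‖ ≤ ∑ i, |B i| := by
    intro x
    have h1 : ‖S.Q (S.c x) x‖ ≤ B (S.c x) := hB (S.c x) x (S.c_mem x)
    have h2 : |B (S.c x)| ≤ ∑ i, |B i| :=
      Finset.single_le_sum (f := fun i => |B i|) (fun i _ => abs_nonneg (B i)) (Finset.mem_univ (S.c x))
    exact h1.trans ((le_abs_self _).trans h2)
  have h0 : 0 ≤ ∑ i, |B i| := Finset.sum_nonneg (fun i _ => abs_nonneg (B i))
  refine ⟨1 + ∑ i, |B i|, by linarith, fun x v => ?_⟩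
  have h1 : ‖S.P x v‖ ≤ (∑ i, |B i|) * ‖v‖ :=
    ((S.P x).le_opNorm v).trans (mul_le_mul_of_nonneg_right (hP x) (norm_nonneg v))
  have h2 : ‖v - S.P x v‖ ≤ ‖v‖ + ‖S.P x v‖ := norm_sub_le _ _
  have h3 : (1 + ∑ i, |B i|) * ‖v‖ = ‖v‖ + (∑ i, |B i|) * ‖v‖ := by ring
  have h4 : 0 ≤ ‖v‖ := norm_nonneg v
  constructor
  · linarith
  · linarith

end Pool.AN
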