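import Pool.Agent.Work.MP_bd2638_an.Interface

/-!
# Block FIX: periodic orbit of a sequence of nearly linear maps (helper48)
-/

set_option autoImplicit false

namespace Pool.AN

open Set Filter Topology Metric

/-- The linear map `v ↦ v (j+1) - A j (v j)`. -/
def FIX_T (d n : ℕ) (A : ZMod n → (EE d →L[ℝ] EE d)) : (ZMod n → EE d) →ₗ[ℝ] (ZMod n → EE d) where
  toFun v := fun j => v (j + 1) - A j (v j)
  map_add' v w := by
    funext j
    simp only [Pi.add_apply, map_add]
    abel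
  map_smul' c v := by
    funext j
    simp only [Pi.smul_apply, map_smul, RingHom.id_apply, smul_sub]

theorem p_FIX : Stmt_FIX := by
  intro d n _ A F p C e0 e1 ρ hC hρ he1 hCe1 hCe0 hap hF hF0
  have hinj : Function.Injective (FIX_T d n A) := by
    rw [injective_iff_map_eq_zero]
    intro v hv
    have h1 := hap v 0 (fun j => by
      have h2 : v (j + 1) - A j (v j) = 0 := congrFun hv j
      rw [h2, norm_zero])
    funext j
    have h3 := h1 j
    rw [mul_zero] at h3
    exact norm_le_zero_iff.1 h3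
  let e : (ZMod n → EE d) ≃ₗ[ℝ] (ZMod n → EE d) := LinearEquiv.ofInjectiveEndo (FIX_T d n A) hinj
  have he : ∀ v j, e v j = v (j + 1) - A j (v j) := fun v j => rfl
  have hesymm : ∀ w, ‖e.symm w‖ ≤ C * ‖w‖ := by
    intro w
    rw [pi_norm_le_iff_of_nonneg (by positivity)]
    refine hap (e.symm w) ‖w‖ fun j => ?_
    have h1 := he (e.symm w) j
    rw [LinearEquiv.apply_symm_apply] at h1
    rw [← h1]
    exact norm_le_pi_norm w j
  let R : (ZMod n → EE d) → (ZMod n → EE d) := fun v j => F j (p j + v j) - p (j + 1) - A j (v j)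
  have hball : ∀ v ∈ closedBall (0 : ZMod n → EE d) ρ, ∀ j, p j + v j ∈ closedBall (p j) ρ := by
    intro v hv j
    rw [mem_closedBall_iff_norm, add_sub_cancel_left]
    rw [mem_closedBall_zero_iff] at hv
    exact (norm_le_pi_norm v j).trans hv
  have hR : ∀ v ∈ closedBall (0 : ZMod n → EE d) ρ, ∀ v' ∈ closedBall (0 : ZMod n → EE d) ρ,
      ‖R v - R v'‖ ≤ e1 * ‖v - v'‖ := by
    intro v hv v' hv'
    rw [pi_norm_le_iff_of_nonneg (by positivity)]
    intro j
    have h1 := hF j _ (hball v hv j) _ (hball v' hv' j)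
    have h2 : (R v - R v') j = F j (p j + v j) - F j (p j + v' j) - A j (p j + v j - (p j + v' j)) := by
      show F j (p j + v j) - p (j + 1) - A j (v j) - (F j (p j + v' j) - p (j + 1) - A j (v' j)) = _
      rw [add_sub_add_left_eq_sub, map_sub]
      abel
    rw [h2]
    refine h1.trans ?_
    rw [add_sub_add_left_eq_sub]
    exact mul_le_mul_of_nonneg_left (norm_le_pi_norm (v - v') j) he1
  have h0 : (0 : ZMod n → EE d) ∈ closedBall (0 : ZMod n → EE d) ρ := mem_closedBall_self hρ.le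
  have he0 : 0 ≤ e0 := (norm_nonneg _).trans (hF0 0)
  have hR0 : ‖R 0‖ ≤ e0 := by
    rw [pi_norm_le_iff_of_nonneg he0]
    intro j
    have h2 : R 0 j = F j (p j) - p (j + 1) := by
      show F j (p j + 0) - p (j + 1) - A j 0 = _
      rw [add_zero, map_zero, sub_zero]
    rw [h2]
    exact hF0 j
  let Ψ : (ZMod n → EE d) → (ZMod n → EE d) := fun v => e.symm (R v)
  have hΨ : ∀ v ∈ closedBall (0 : ZMod n → EE d) ρ, ∀ v' ∈ closedBall (0 : ZMod n → EE d) ρ,
      ‖Ψ v - Ψ v'‖ ≤ 1 / 2 * ‖v - v'‖ := by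
    intro v hv v' hv'
    show ‖e.symm (R v) - e.symm (R v')‖ ≤ _
    rw [← map_sub]
    calc ‖e.symm (R v - R v')‖ ≤ C * ‖R v - R v'‖ := hesymm _
      _ ≤ C * (e1 * ‖v - v'‖) := mul_le_mul_of_nonneg_left (hR v hv v' hv') hC.le
      _ = C * e1 * ‖v - v'‖ := by ring
      _ ≤ 1 / 2 * ‖v - v'‖ := mul_le_mul_of_nonneg_right hCe1 (norm_nonneg _)
  have hΨ0 : ‖Ψ 0‖ ≤ ρ / 2 := by
    calc ‖e.symm (R 0)‖ ≤ C * ‖R 0‖ := hesymm _
      _ ≤ C * e0 := mul_le_mul_of_nonneg_left hR0 hC.le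
      _ ≤ ρ / 2 := hCe0
  have hmaps : MapsTo Ψ (closedBall (0 : ZMod n → EE d) ρ) (closedBall (0 : ZMod n → EE d) ρ) := by
    intro v hv
    have h1 := hΨ v hv 0 h0
    rw [sub_zero] at h1
    rw [mem_closedBall_zero_iff] at hv ⊢
    calc ‖Ψ v‖ = ‖(Ψ v - Ψ 0) + Ψ 0‖ := by rw [sub_add_cancel]
      _ ≤ ‖Ψ v - Ψ 0‖ + ‖Ψ 0‖ := norm_add_le _ _
      _ ≤ ρ := by linarith
  have hcon : ContractingWith (1 / 2 : NNReal) (hmaps.restrict Ψ _ _) := by
    constructor
    · rw [← NNReal.coe_lt_coe]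
      norm_num
    · refine LipschitzWith.of_dist_le_mul fun v v' => ?_
      rw [Subtype.dist_eq, Subtype.dist_eq, MapsTo.val_restrict_apply, MapsTo.val_restrict_apply,
        dist_eq_norm, dist_eq_norm]
      have h1 := hΨ v.1 v.2 v'.1 v'.2
      push_cast
      exact h1
  obtain ⟨v, hv, hfix, -⟩ := hcon.exists_fixedPoint' (isClosed_closedBall.isComplete) hmaps h0 (edist_ne_top _ _)
  refine ⟨fun j => p j + v j, fun j => ⟨hball v hv j, ?_⟩⟩
  have h1 : R v = e v := by
    have h2 : e.symm (R v) = v := hfix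
    rw [← h2, LinearEquiv.apply_symm_apply, h2]
  have h3 : F j (p j + v j) - p (j + 1) - A j (v j) = v (j + 1) - A j (v j) := congrFun h1 j
  show F j (p j + v j) = p (j + 1) + v (j + 1)
  have h4 := sub_left_injective h3
  rw [← h4]
  abel

end Pool.AN
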