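import Pool.Agent.Work.MP_bd2638_an.InterfaceM

set_option autoImplicit false

open Set Bundle Topology Filter
open scoped Manifold ContDiff

noncomputable section

namespace Pool.AN

/-- block MCV -/
theorem p_MCV : Stmt_MCV := by
  intro M _ _ _ W hW
  have hex : ∀ a : M, ∃ K : Set M, IsCompact K ∧ a ∈ interior K ∧ K ⊆ interior (W a) := fun a =>
    exists_compact_subset isOpen_interior (mem_interior_iff_mem_nhds.2 (hW a))
  choose K hK1 hK2 hK3 using hex
  obtain ⟨A, hA⟩ := CompactSpace.elim_nhds_subcover (fun a => interior (K a))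
    (fun a => isOpen_interior.mem_nhds (hK2 a))
  refine ⟨A, K, fun a => interior (W a), fun a => ⟨hK1 a, isOpen_interior, hK3 a, interior_subset⟩,
    fun x => ?_⟩
  have hx : x ∈ ⋃ a ∈ A, interior (K a) := by
    rw [hA]
    exact mem_univ x
  simpa using hx

end Pool.AN
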