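import Pool.Agent.Work.MP_bd2638_an.Interface

/-!
# MP_bd2638_an, THEOREM AN: block NEA (points near x in the chart of x)
-/

set_option autoImplicit false

namespace Pool.AN

open Set Filter Topology Metric

/-- One distance for finitely many indices. -/
lemma NEA_fin {m : ℕ} (P : Fin m → ℝ → Prop) (h : ∀ i, ∃ δ : ℝ, 0 < δ ∧ ∀ δ' : ℝ, δ' ≤ δ → P i δ') :
    ∃ δ : ℝ, 0 < δ ∧ ∀ i, P i δ := by
  have h1 : ∀ i, ∀ᶠ δ : ℝ in 𝓝[>] (0 : ℝ), P i δ := by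
    intro i
    obtain ⟨δ, hδ, hP⟩ := h i
    have h2 : Ioo (0 : ℝ) δ ∈ 𝓝[>] (0 : ℝ) := Ioo_mem_nhdsGT hδ
    filter_upwards [h2] with t ht
    exact hP t ht.2.le
  have h3 : ∀ᶠ δ : ℝ in 𝓝[>] (0 : ℝ), ∀ i, P i δ := Filter.eventually_all.mpr h1
  have h4 : ∀ᶠ δ : ℝ in 𝓝[>] (0 : ℝ), 0 < δ := by
    filter_upwards [self_mem_nhdsWithin] with t ht
    exact ht
  obtain ⟨δ, hδ1, hδ2⟩ := (h4.and h3).exists
  exact ⟨δ, hδ1, hδ2⟩

/-- Uniform continuity at the points of a compact set. -/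
lemma NEA_uc {M E : Type} [MetricSpace M] [SeminormedAddCommGroup E] (K : Set M) (hK : IsCompact K) (F : M → E)
    (hF : ∀ a ∈ K, ContinuousAt F a) (ε : ℝ) (hε : 0 < ε) :
    ∃ δ : ℝ, 0 < δ ∧ ∀ x ∈ K, ∀ y : M, dist x y < δ → ‖F y - F x‖ ≤ ε := by
  have h := hK.uniformContinuousAt_of_continuousAt F hF (Metric.dist_mem_uniformity hε)
  obtain ⟨δ, hδ, hsub⟩ := Metric.mem_uniformity_dist.mp h
  refine ⟨δ, hδ, fun x hx y hxy => ?_⟩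
  have h1 := hsub hxy hx
  have h2 : dist (F x) (F y) < ε := h1
  rw [dist_comm, dist_eq_norm] at h2
  exact h2.le

theorem p_NEA : Stmt_NEA := by
  intro d al M _ _ f S ε hε
  have key : ∃ δ : ℝ, 0 < δ ∧ ∀ i : Fin S.m, ∀ x ∈ S.K i, ∀ y : M, dist x y ≤ δ →
      y ∈ S.V i ∧ ‖S.φ i y - S.φ i x‖ ≤ ε ∧ ‖S.Q i y - S.Q i x‖ ≤ ε := by
    apply NEA_fin (fun (i : Fin S.m) (δ : ℝ) => ∀ x ∈ S.K i, ∀ y : M, dist x y ≤ δ →
      y ∈ S.V i ∧ ‖S.φ i y - S.φ i x‖ ≤ ε ∧ ‖S.Q i y - S.Q i x‖ ≤ ε)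
    intro i
    obtain ⟨δ1, hδ1, h1⟩ := NEA_uc (S.K i) (S.hK i) (S.φ i)
      (fun a ha => (S.φ i).continuousAt (S.hVs i (S.hKV i ha))) ε hε
    obtain ⟨δ2, hδ2, h2⟩ := NEA_uc (S.K i) (S.hK i) (S.Q i)
      (fun a ha => (S.Qc i).continuousAt ((S.hV i).mem_nhds (S.hKV i ha))) ε hε
    obtain ⟨δ3, hδ3, h3⟩ := (S.hK i).exists_cthickening_subset_open (S.hV i) (S.hKV i)
    refine ⟨min (min δ1 δ2) δ3 / 2, by positivity, fun δ' hδ' x hx y hxy => ?_⟩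
    have hlt : min (min δ1 δ2) δ3 / 2 < min (min δ1 δ2) δ3 := half_lt_self (by positivity)
    have hd : dist x y < min (min δ1 δ2) δ3 := lt_of_le_of_lt (hxy.trans hδ') hlt
    have hd1 : dist x y < δ1 := lt_of_lt_of_le hd ((min_le_left _ _).trans (min_le_left _ _))
    have hd2 : dist x y < δ2 := lt_of_lt_of_le hd ((min_le_left _ _).trans (min_le_right _ _))
    have hd3 : dist x y < δ3 := lt_of_lt_of_le hd (min_le_right _ _)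
    refine ⟨h3 ?_, h1 x hx y hd1, h2 x hx y hd2⟩
    exact Metric.mem_cthickening_of_dist_le y x δ3 (S.K i) hx (by rw [dist_comm]; exact hd3.le)
  obtain ⟨δ, hδ, h⟩ := key
  exact ⟨δ, hδ, fun x y hxy => h (S.c x) x (S.c_mem x) y hxy⟩

end Pool.AN
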