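import Pool.Agent.Work.MP_bd2638_an.InterfaceL

/-!
# Block TOP
-/

set_option autoImplicit false

namespace Pool.AN

open Set Filter Topology Metric

theorem p_TOP : Stmt_TOP := by
  intro M _ _ _ _ _ mu f U hU hne hf hpos hnull
  have hcl : IsClosed (f '' closure U) := (isClosed_closure.isCompact.image f.continuous).isClosed
  have hopen : IsOpen (U \ f '' closure U) := hU.sdiff hcl
  have hsub : U \ f '' closure U ⊆ U \ f '' U :=
    diff_subset_diff_right (image_mono subset_closure)
  have hzero : mu (U \ f '' closure U) = 0 := MeasureTheory.measure_mono_null hsub hnull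
  have hempty : U \ f '' closure U = ∅ := by
    by_contra hcon
    exact (hpos _ hopen (nonempty_iff_ne_empty.2 hcon)).ne' hzero
  have hU2 : U = f '' closure U := Subset.antisymm (diff_eq_empty.1 hempty) hf
  have hclosed : IsClosed U := by
    rw [hU2]
    exact hcl
  exact IsClopen.eq_univ ⟨hclosed, hU⟩ hne

end Pool.AN
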