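import Pool.Agent.Work.MP_bd2638_an.Interface

/-!
# MP_bd2638_an, THEOREM AN: block TRS (transitivity)
-/

set_option autoImplicit false

namespace Pool.AN

open Set Filter Topology Metric

theorem p_TRS (hSHD : Stmt_SHD) (hCTR : Stmt_CTR) (hCYC : Stmt_CYC) : Stmt_TRS := by
  intro d al M _ _ _ f S hNW U W hU hW ⟨x, hx⟩ ⟨y, hy⟩
  obtain ⟨e1, he1, h1⟩ := Metric.isOpen_iff.mp hU x hx
  obtain ⟨e2, he2, h2⟩ := Metric.isOpen_iff.mp hW y hy
  have hε : 0 < min e1 e2 := lt_min he1 he2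
  obtain ⟨δ, hδ, hsh⟩ := hSHD d al M f S (min e1 e2 / 2) (by linarith)
  obtain ⟨n, hn, v, k, hv0, hvk, hv⟩ := hCYC M (Jump f δ) x y (hCTR M f hNW δ hδ x y) (hCTR M f hNW δ hδ y x)
  obtain ⟨p, -, hp⟩ := hsh n v (fun j => le_of_lt (hv j))
  have hp0 : dist p x ≤ min e1 e2 / 2 := by
    have := (hp 0).1
    simpa [hv0] using this
  have hpk : dist (f^[k] p) y ≤ min e1 e2 / 2 := by
    have := (hp k).1
    rwa [hvk] at this
  refine ⟨k, f^[k] p, ⟨p, h1 ?_, rfl⟩, h2 ?_⟩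
  · rw [Metric.mem_ball]
    have := min_le_left e1 e2
    linarith
  · rw [Metric.mem_ball]
    have := min_le_right e1 e2
    linarith

end Pool.AN
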