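import Pool.Agent.Work.MP_bd2638_an.Sys

/-!
# MP_bd2638_an, THEOREM AN: definitions for the dynamics and first lemmas
-/

set_option autoImplicit false

namespace Pool.AN

open Set Filter Topology Metric

/-- The product `A (n-1) ∘ ... ∘ A 0`. -/
noncomputable def Bp {d : ℕ} (A : ℕ → (EE d →L[ℝ] EE d)) : ℕ → (EE d →L[ℝ] EE d)
  | 0 => ContinuousLinearMap.id ℝ (EE d)
  | n + 1 => A n ∘L Bp A n

@[simp] lemma Bp_zero {d : ℕ} (A : ℕ → (EE d →L[ℝ] EE d)) : Bp A 0 = ContinuousLinearMap.id ℝ (EE d) := rfl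

lemma Bp_succ {d : ℕ} (A : ℕ → (EE d →L[ℝ] EE d)) (n : ℕ) : Bp A (n + 1) = A n ∘L Bp A n := rfl

lemma det_comp' {d : ℕ} (A B : EE d →L[ℝ] EE d) : (A ∘L B).det = A.det * B.det := by
  simp only [ContinuousLinearMap.det]
  exact LinearMap.det_comp _ _

lemma det_id' {d : ℕ} : (ContinuousLinearMap.id ℝ (EE d)).det = 1 := by
  simp [ContinuousLinearMap.det]

lemma det_Bp {d : ℕ} (A : ℕ → (EE d →L[ℝ] EE d)) (n : ℕ) : (Bp A n).det = ∏ l ∈ Finset.range n, (A l).det := by
  induction n with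
  | zero => simp [det_id']
  | succ n ih => rw [Bp_succ, det_comp', ih, Finset.prod_range_succ, mul_comm]

lemma norm_Bp_le {d : ℕ} (A : ℕ → (EE d →L[ℝ] EE d)) (L : ℝ) (hL : 0 ≤ L) (n : ℕ) (h : ∀ l < n, ‖A l‖ ≤ L) :
    ‖Bp A n‖ ≤ L ^ n := by
  induction n with
  | zero => simpa using ContinuousLinearMap.norm_id_le
  | succ n ih =>
    rw [Bp_succ, pow_succ, mul_comm]
    exact (ContinuousLinearMap.opNorm_comp_le _ _).trans
      (mul_le_mul (h n (Nat.lt_succ_self n)) (ih fun l hl => h l (hl.trans (Nat.lt_succ_self n))) (norm_nonneg _) hL)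

/-- One block of hyperbolicity: `Q0`, `Q1` the unstable projections at the start and at the end, `B` the derivative. -/
def H8 {d : ℕ} (Q0 Q1 B : EE d →L[ℝ] EE d) : Prop :=
  ∀ v, ‖B v - Q1 (B v)‖ ≤ 1 / 8 * (‖v - Q0 v‖ + ‖Q0 v‖) ∧ ‖Q0 v‖ ≤ 1 / 8 * (‖Q1 (B v)‖ + ‖v - Q0 v‖)

section

variable {d : ℕ} {al : ℝ} {M : Type} [MetricSpace M] [CompactSpace M] {f : M ≃ₜ M}

open Classical in
/-- The chart index of `x`: the smallest `i` with `x ∈ K i`. -/
noncomputable def Sys.c (S : Sys d al M f) (x : M) : Fin S.m :=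
  (Finset.univ.filter (fun i => x ∈ S.K i)).min' (by
    obtain ⟨i, hi⟩ := S.cov x
    exact ⟨i, by simpa using interior_subset hi⟩)

lemma Sys.c_mem (S : Sys d al M f) (x : M) : x ∈ S.K (S.c x) := by
  classical
  have := Finset.min'_mem (Finset.univ.filter (fun i => x ∈ S.K i)) (by
    obtain ⟨i, hi⟩ := S.cov x
    exact ⟨i, by simpa using interior_subset hi⟩)
  exact (Finset.mem_filter.mp this).2

lemma Sys.c_eq_iff (S : Sys d al M f) (x : M) (i : Fin S.m) : S.c x = i ↔ x ∈ S.K i ∧ ∀ j < i, x ∉ S.K j := by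
  classical
  constructor
  · rintro rfl
    refine ⟨S.c_mem x, fun j hj hx => ?_⟩
    have := Finset.min'_le (Finset.univ.filter (fun i => x ∈ S.K i)) j (by simpa using hx)
    exact absurd hj (not_lt.mpr this)
  · rintro ⟨h1, h2⟩
    refine le_antisymm (Finset.min'_le _ _ (by simpa using h1)) ?_
    by_contra hlt
    exact h2 _ (not_le.mp hlt) (S.c_mem x)

lemma Sys.c_V (S : Sys d al M f) (x : M) : x ∈ S.V (S.c x) := S.hKV _ (S.c_mem x)

lemma Sys.c_src (S : Sys d al M f) (x : M) : x ∈ (S.φ (S.c x)).source := S.hVs _ (S.c_V x)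

/-- The position of `y` in the chart of `x`. -/
noncomputable def Sys.pos (S : Sys d al M f) (x y : M) : EE d := S.φ (S.c x) y

/-- `f` read in the charts of `x` (source) and `y` (target). -/
noncomputable def Sys.G (S : Sys d al M f) (x y : M) : EE d → EE d := Fn S.φ f 1 (S.c x) (S.c y)

/-- The derivative of `G x y` at the position of `x`. -/
noncomputable def Sys.A (S : Sys d al M f) (x y : M) : EE d →L[ℝ] EE d := DF S.φ f 1 (S.c x) (S.c y) x

/-- The unstable projection at `x` in the chart of `x`. -/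
noncomputable def Sys.P (S : Sys d al M f) (x : M) : EE d →L[ℝ] EE d := S.Q (S.c x) x

/-- The logarithm of the determinant of one step. -/
noncomputable def Sys.g (S : Sys d al M f) (x : M) : ℝ := Real.log |(S.A x (f x)).det|

/-- The Birkhoff sum of `g`. -/
noncomputable def Sys.Sn (S : Sys d al M f) (n : ℕ) (x : M) : ℝ := ∑ l ∈ Finset.range n, S.g (f^[l] x)

/-- The finite measure of the charts: on the cell `{c = j}` the Lebesgue measure of the chart `j`. -/
noncomputable def Sys.mu [MeasurableSpace M] (S : Sys d al M f) : MeasureTheory.Measure M :=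
  ∑ j, MeasureTheory.Measure.map (S.φ j).symm (MeasureTheory.volume.restrict (S.φ j '' {x | S.c x = j}))

lemma Sys.G_apply (S : Sys d al M f) (x y : M) (u : EE d) : S.G x y u = S.φ (S.c y) (f ((S.φ (S.c x)).symm u)) := rfl

lemma Sys.A_eq (S : Sys d al M f) (x y : M) : S.A x y = fderiv ℝ (S.G x y) (S.pos x x) := rfl

lemma Sys.G_pos (S : Sys d al M f) (x y q : M) (hq : q ∈ (S.φ (S.c x)).source) : S.G x y (S.pos x q) = S.pos y (f q) := by
  rw [S.G_apply, Sys.pos, (S.φ (S.c x)).left_inv hq, Sys.pos]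

end

/-- `r`-chain relation: one step of a `δ`-pseudo-orbit. -/
def Jump {M : Type} [MetricSpace M] (f : M → M) (δ : ℝ) (a b : M) : Prop := dist (f a) b < δ

/-- Every nonempty open set returns. -/
def NW {M : Type} [TopologicalSpace M] (f : M → M) : Prop :=
  ∀ W : Set M, IsOpen W → W.Nonempty → ∃ n : ℕ, 0 < n ∧ (f^[n] '' W ∩ W).Nonempty

end Pool.AN
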