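import Pool.Agent.Work.MP_bd2638_an.Base

/-!
# MP_bd2638_an, THEOREM AN: the blocks of the dynamics

`Sys d al M f` (file `Sys.lean`): finitely many charts `φ i`, compact `K i ⊆ V i` (open) `⊆ (φ i).source`, the `K i` cover the compact metric space `M`,
`f : M ≃ₜ M` is `C^1` in the charts, the logarithm of its Jacobian determinant is locally `al`-Hoelder, `Q i x` = the unstable projection in the chart `i`. File `Base.lean`: `S.c x` =
the smallest `i` with `x ∈ K i` (`S.c_mem`, `S.c_eq_iff`, `S.c_V`, `S.c_src`), `S.pos x y = φ (c x) y`, `S.G x y` = `f` from the chart of `x` to the chart of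
`y`, `S.A x y` = its derivative at the position of `x`, `S.P x = Q (c x) x`, `S.g x = log |det (S.A x (f x))|`, `S.Sn n x` = the Birkhoff sum, `S.mu` = the
finite measure of the charts, `Bp A n = A (n-1) ∘ .. ∘ A 0` (`Bp_zero`, `Bp_succ`, `det_Bp`, `norm_Bp_le`, `det_comp'`), `H8`, `Jump`, `NW`, `Trans`.

RULES. Every block is one file `B_X.lean` in this folder, first line `import Pool.Agent.Work.MP_bd2638_an.Interface`, then `set_option autoImplicit false`,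
`namespace Pool.AN`, `open Set Filter Topology Metric`, `theorem p_X (h1 : Stmt_Y) .. : Stmt_X` with exactly the blocks named after `uses` as hypotheses in
that order (`theorem p_X : Stmt_X` if it uses nothing); auxiliary lemmas with the prefix `X_`. No straight double quotes. Numbers in brackets: upper
estimates for the number of lines.
-/

set_option autoImplicit false

namespace Pool.AN

open Set Filter Topology Metric

/-! ## 1. Uniform constants -/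

/-- **NEA** (120; uses nothing). POINTS NEAR `x` IN THE CHART OF `x`. For each `i`: `K i` is compact, `V i` is open, `φ i` and `Q i` are continuous at the
points of `K i`. `IsCompact.uniformContinuousAt_of_continuousAt` (Mathlib, HeineCantor) gives `δ i > 0` with `dist (φ i y) (φ i x) ≤ ε` and
`dist (Q i y) (Q i x) ≤ ε` for `x ∈ K i`, `dist x y < δ i`; `y ∈ V i` from `IsCompact.exists_cthickening_subset_open` (or thickening). `δ` = half of the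
minimum over the finitely many `i` (`Fin S.m`; if `S.m = 0` then `M` is empty: take the minimum over `insert 1 ..` or argue by `Finite.exists_..`, e.g. a
lemma: `∀ i, ∃ δ > 0, ∀ δ' ≤ δ, P i δ'` gives one `δ > 0` for all `i`, by `Finset.induction` or `Filter.eventually_all`). Then `i = S.c x`. -/
def Stmt_NEA : Prop := ∀ (d : ℕ) (al : ℝ) (M : Type) [MetricSpace M] [CompactSpace M] (f : M ≃ₜ M) (S : Sys d al M f) (ε : ℝ), 0 < ε →
  ∃ δ : ℝ, 0 < δ ∧ ∀ x y : M, dist x y ≤ δ → y ∈ S.V (S.c x) ∧ ‖S.pos x y - S.pos x x‖ ≤ ε ∧ ‖S.Q (S.c x) y - S.P x‖ ≤ ε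

/-- **SYM** (120; uses nothing). The inverse charts: `φ i '' K i` is compact, contained in the open set `(φ i).target`, and `(φ i).symm` is continuous at its
points; as in NEA. -/
def Stmt_SYM : Prop := ∀ (d : ℕ) (al : ℝ) (M : Type) [MetricSpace M] [CompactSpace M] (f : M ≃ₜ M) (S : Sys d al M f) (ε : ℝ), 0 < ε →
  ∃ δ : ℝ, 0 < δ ∧ ∀ (x : M) (u : EE d), ‖u - S.pos x x‖ ≤ δ → u ∈ (S.φ (S.c x)).target ∧ dist ((S.φ (S.c x)).symm u) x ≤ ε

/-- **BND** (60; uses nothing). `Q i` is continuous on the compact set `K i`, hence bounded there; finitely many `i`. `‖v - P x v‖ ≤ ‖v‖ + ‖P x‖ ‖v‖`. -/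
def Stmt_BND : Prop := ∀ (d : ℕ) (al : ℝ) (M : Type) [MetricSpace M] [CompactSpace M] (f : M ≃ₜ M) (S : Sys d al M f),
  ∃ L : ℝ, 1 ≤ L ∧ ∀ (x : M) (v : EE d), ‖S.P x v‖ ≤ L * ‖v‖ ∧ ‖v - S.P x v‖ ≤ L * ‖v‖

/-- **UCF** (220; uses nothing). UNIFORM CONSTANTS ON A COMPACT SET. `D` open, `Z ⊆ D` compact, `F` is `C^1` at every point of `D`, with invertible derivative, and
`log |det|` is locally `al`-Hoelder. `cthickening r Z ⊆ D` for small `r > 0` (`IsCompact.exists_cthickening_subset_open`), compact (`IsCompact.cthickening`, proper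
space). `fderiv ℝ F` is continuous on `D` (`ContDiffAt` of order 1 at every point of the open set), so `‖fderiv‖` and `|det fderiv|` are bounded on the
compact set and `|det|` has a positive minimum (`ContinuousLinearMap.det` is continuous: `ContinuousLinearMap.continuous_det`). Hoelder: every `z ∈ Z` has
a ball of radius `r z` with constant `H z`; finitely many balls `B(z_k, r_k / 2)` cover `Z`; with `r ≤ min r_k / 4` and `H = max (H_k, 0)`: for `z ∈ Z`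
choose `k` with `z ∈ B(z_k, r_k / 2)`, then `closedBall z r ⊆ ball z_k r_k`. (If `Z` is empty every `r` works.) Last part: uniform continuity of `fderiv ℝ F` on the
compact set `cthickening r Z` (`IsCompact.uniformContinuousOn_of_continuous`). -/
def Stmt_UCF : Prop := ∀ (d : ℕ) (al : ℝ) (D Z : Set (EE d)) (F : EE d → EE d), 0 < al → IsOpen D → IsCompact Z → Z ⊆ D →
  (∀ u ∈ D, ContDiffAt ℝ 1 F u) → (∀ u ∈ D, (fderiv ℝ F u).det ≠ 0) →
  (∀ u ∈ D, ∃ r > 0, ∃ H : ℝ, ∀ v ∈ ball u r, ∀ w ∈ ball u r,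
    abs (Real.log |(fderiv ℝ F v).det| - Real.log |(fderiv ℝ F w).det|) ≤ H * ‖v - w‖ ^ al) →
  ∃ r L H : ℝ, 0 < r ∧ 1 ≤ L ∧ 0 ≤ H ∧
    (∀ z ∈ Z, ∀ u ∈ closedBall z r, u ∈ D ∧ ‖fderiv ℝ F u‖ ≤ L ∧ L⁻¹ ≤ |(fderiv ℝ F u).det| ∧ |(fderiv ℝ F u).det| ≤ L ∧
      ∀ v ∈ closedBall z r, abs (Real.log |(fderiv ℝ F u).det| - Real.log |(fderiv ℝ F v).det|) ≤ H * ‖u - v‖ ^ al) ∧
    ∀ κ : ℝ, 0 < κ → ∃ s : ℝ, 0 < s ∧ ∀ z ∈ Z, ∀ u ∈ closedBall z r, ∀ v ∈ closedBall z r, ‖u - v‖ ≤ s → ‖fderiv ℝ F u - fderiv ℝ F v‖ ≤ κ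

/-- **ONE** (220; uses UCF). UNIFORM CONSTANTS FOR ONE STEP. `δ > 0` with `cthickening δ (K j) ⊆ (φ j).source` for all `j`. For each pair `(i, j)`: `D` = the set of
`u ∈ (φ i).target` with `f ((φ i).symm u) ∈ (φ j).source` (open: `OpenPartialHomeomorph`, `ContinuousOn.isOpen_inter_preimage`), `Z` = the image under `φ i`
of the compact set `{x ∈ K i | f x ∈ cthickening δ (K j)}`, `F = Fn φ f 1 i j`. UCF applies: `u ∈ D` is `φ i x` with `x = (φ i).symm u`, so `sm`, `inj`, `hol`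
(`n = 1`; `f^[1] = f` by `rfl`) give the three hypotheses. Take the minimum of the `r` (and of the `s` for given `κ`) and the maximum of `L`, `H` over all pairs. For `dist (f x) y ≤ δ`:
`i = c x`, `j = c y`, `y ∈ K j`, so `f x ∈ cthickening δ (K j)` (`mem_cthickening_of_dist_le`) and `S.pos x x ∈ Z`. Differentiability from `ContDiffAt`. -/
def Stmt_ONE : Prop := ∀ (d : ℕ) (al : ℝ) (M : Type) [MetricSpace M] [CompactSpace M] (f : M ≃ₜ M) (S : Sys d al M f),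
  ∃ δ r L H : ℝ, 0 < δ ∧ 0 < r ∧ 1 ≤ L ∧ 0 ≤ H ∧
    (∀ x y : M, dist (f x) y ≤ δ → ∀ u ∈ closedBall (S.pos x x) r,
      u ∈ (S.φ (S.c x)).target ∧ f ((S.φ (S.c x)).symm u) ∈ (S.φ (S.c y)).source ∧ DifferentiableAt ℝ (S.G x y) u ∧
      ‖fderiv ℝ (S.G x y) u‖ ≤ L ∧ L⁻¹ ≤ |(fderiv ℝ (S.G x y) u).det| ∧ |(fderiv ℝ (S.G x y) u).det| ≤ L ∧
      ∀ v ∈ closedBall (S.pos x x) r, abs (Real.log |(fderiv ℝ (S.G x y) u).det| - Real.log |(fderiv ℝ (S.G x y) v).det|) ≤ H * ‖u - v‖ ^ al) ∧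
    ∀ κ : ℝ, 0 < κ → ∃ s : ℝ, 0 < s ∧ ∀ x y : M, dist (f x) y ≤ δ → ∀ u ∈ closedBall (S.pos x x) r, ∀ v ∈ closedBall (S.pos x x) r,
      ‖u - v‖ ≤ s → ‖fderiv ℝ (S.G x y) u - fderiv ℝ (S.G x y) v‖ ≤ κ

/-- **LER** (100; uses ONE). LINEARISATION ERROR OF ONE STEP. `δ, r₀` of ONE, `s` for `κ`, `r = min r₀ s`. The ball `closedBall (S.pos x x) r` is convex, the map `u ↦ S.G x y u - S.A x y u` has the derivative
`fderiv (S.G x y) u - S.A x y` there, of norm at most `κ` (`S.A x y = fderiv (S.G x y) (S.pos x x)`: `S.A_eq`):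
`Convex.norm_image_sub_le_of_norm_hasFDerivWithin_le`. -/
def Stmt_LER : Prop := ∀ (d : ℕ) (al : ℝ) (M : Type) [MetricSpace M] [CompactSpace M] (f : M ≃ₜ M) (S : Sys d al M f) (κ : ℝ), 0 < κ →
  ∃ δ r : ℝ, 0 < δ ∧ 0 < r ∧ ∀ x y : M, dist (f x) y ≤ δ →
    (∀ u ∈ closedBall (S.pos x x) r, u ∈ (S.φ (S.c x)).target ∧ f ((S.φ (S.c x)).symm u) ∈ (S.φ (S.c y)).source) ∧
    ∀ u ∈ closedBall (S.pos x x) r, ∀ v ∈ closedBall (S.pos x x) r, ‖S.G x y u - S.G x y v - S.A x y (u - v)‖ ≤ κ * ‖u - v‖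

/-- **CH2** (100; uses nothing). CHAIN RULE FOR TWO STEPS. For `u` near `φ i x` one has `f^[a] ((φ i).symm u) ∈ (φ j).source` (open, continuity of `symm` at `φ i x`), so `Fn (a+b) i l u = Fn b j l (Fn a i j u)` near `φ i x`
(`Function.iterate_add_apply` in the form `f^[a+b] = f^[b] ∘ f^[a]`: use `Nat.add_comm`), `Fn a i j (φ i x) = φ j (f^[a] x)`, both maps are differentiable (`S.sm`), `fderiv_comp`, `Filter.EventuallyEq.fderiv_eq`. -/
def Stmt_CH2 : Prop := ∀ (d : ℕ) (al : ℝ) (M : Type) [MetricSpace M] [CompactSpace M] (f : M ≃ₜ M) (S : Sys d al M f)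
  (a b : ℕ) (i j l : Fin S.m) (x : M), x ∈ (S.φ i).source → f^[a] x ∈ (S.φ j).source → f^[b] (f^[a] x) ∈ (S.φ l).source →
  DF S.φ f (a + b) i l x = DF S.φ f b j l (f^[a] x) ∘L DF S.φ f a i j x

/-- **CHN** (60; uses CH2). CHAIN RULE ALONG AN ORBIT. Induction on `n`. `n = 0`: `Fn φ f 0 (i 0) (i 0) u = φ (i 0) ((φ (i 0)).symm u) = u` for `u` near `φ (i 0) q`
(`q ∈ source`, target open), the derivative is the identity. Step: CH2 with `a = n`, `b = 1`. -/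
def Stmt_CHN : Prop := ∀ (d : ℕ) (al : ℝ) (M : Type) [MetricSpace M] [CompactSpace M] (f : M ≃ₜ M) (S : Sys d al M f)
  (i : ℕ → Fin S.m) (q : M) (n : ℕ), (∀ l ≤ n, f^[l] q ∈ (S.φ (i l)).source) →
  DF S.φ f n (i 0) (i n) q = Bp (fun l => DF S.φ f 1 (i l) (i (l + 1)) (f^[l] q)) n

/-- **BPD** (60; uses nothing). DIFFERENCE OF PRODUCTS, by induction: `A n B_n - A' n B'_n = A n (B_n - B'_n) + (A n - A' n) B'_n`, so the difference is at most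
`n L^n κ` (`L ≥ 1`; `norm_Bp_le`). -/
def Stmt_BPD : Prop := ∀ (d : ℕ) (A A' : ℕ → (EE d →L[ℝ] EE d)) (L κ : ℝ) (n : ℕ), 1 ≤ L → 0 ≤ κ → (∀ l < n, ‖A l‖ ≤ L) → (∀ l < n, ‖A' l‖ ≤ L) →
  (∀ l < n, ‖A l - A' l‖ ≤ κ) → ‖Bp A n - Bp A' n‖ ≤ n * L ^ n * κ

/-- **PSO** (80; uses nothing). PSEUDO-ORBITS STAY NEAR THE TRUE ORBIT for `N` steps. `f` is uniformly continuous (`CompactSpace.uniformContinuous_of_continuous`).
Induction on `N`: `dist (x (l+1)) (f^[l+1] (x 0)) ≤ dist (x (l+1)) (f (x l)) + dist (f (x l)) (f (f^[l] (x 0)))`. -/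
def Stmt_PSO : Prop := ∀ (M : Type) [MetricSpace M] [CompactSpace M] (f : M ≃ₜ M) (N : ℕ) (ε : ℝ), 0 < ε →
  ∃ δ : ℝ, 0 < δ ∧ ∀ x : ℕ → M, (∀ l < N, dist (f (x l)) (x (l + 1)) ≤ δ) → ∀ l ≤ N, dist (x l) (f^[l] (x 0)) ≤ ε

/-- **NST** (200; uses NEA ONE CHN BPD PSO). `N` STEPS OF A PSEUDO-ORBIT. Let `δ₁, r, L, H` be of ONE. Let `κ' = κ / (N L ^ N + 1)` and `s` of ONE for `κ'`; `ε = min r (min s κ)`, then `δ₂` of NEA for `ε`, then `δ` of PSO for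
`N`, `min δ₂ ..` and `δ ≤ δ₁`. For the chain `x` put `q l = f^[l] (x 0)`: `dist (x l) (q l) ≤ δ₂`, so `q l ∈ V (c (x l))`, `‖S.pos (x l) (q l) - S.pos (x l) (x l)‖ ≤ ε`.
CHN with `i l = S.c (x l)`, `q = x 0`: `DF φ f N (c (x 0)) (c (x N)) (x 0) = Bp A' N`, `A' l = DF φ f 1 (c (x l)) (c (x (l+1))) (q l) = fderiv (S.G (x l) (x (l+1))) (S.pos (x l) (q l))`;
`‖S.A (x l) (x (l+1)) - A' l‖ ≤ κ'` and both norms are `≤ L` by ONE (`dist (f (x l)) (x (l+1)) ≤ δ₁`); BPD. The last claim is NEA for `x N`, `q N`. -/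
def Stmt_NST : Prop := ∀ (d : ℕ) (al : ℝ) (M : Type) [MetricSpace M] [CompactSpace M] (f : M ≃ₜ M) (S : Sys d al M f) (N : ℕ) (κ : ℝ), 0 < κ →
  ∃ δ : ℝ, 0 < δ ∧ ∀ x : ℕ → M, (∀ l < N, dist (f (x l)) (x (l + 1)) ≤ δ) → f^[N] (x 0) ∈ S.V (S.c (x N)) ∧
    ‖Bp (fun l => S.A (x l) (x (l + 1))) N - DF S.φ f N (S.c (x 0)) (S.c (x N)) (x 0)‖ ≤ κ ∧
    ‖S.Q (S.c (x N)) (f^[N] (x 0)) - S.P (x N)‖ ≤ κ

/-- **HYP** (200; uses BND ONE NST). HYPERBOLICITY OF PSEUDO-ORBITS. `L` = the maximum of the constants of BND and ONE. `N ≥ 1` with `S.C * be ^ N ≤ 1/16` and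
`S.C * (eta ^ N)⁻¹ ≤ 1/16` (`tendsto_pow_atTop_nhds_zero_of_lt_one`). `κ ≤ 1` with `κ (1 + L + (L ^ N + 1)) ≤ 1/16` (and so `κ L ^ 2 (..)` small enough below: take
`κ = 1 / (64 L (L ^ N + 2))`). NST for `N`, `κ`. For a chain: `i = c (x 0)`, `j = c (x N)`, `D = DF φ f N i j (x 0)`, `Q0 = S.P (x 0) = Q i (x 0)`, `Q' = Q j (f^[N] (x 0))`, `Q1 = S.P (x N)`,
`B` = the product; `‖B - D‖ ≤ κ`, `‖Q' - Q1‖ ≤ κ`, `‖B‖ ≤ L ^ N`, `‖D‖ ≤ L ^ N + 1`. `Q' (D v) = D (Q0 v)` (`S.Qe`). `w = v - Q0 v` has `Q0 w = 0` (`S.Qp`), so by `S.hs`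
`‖D v - Q' (D v)‖ = ‖D w‖ ≤ C be ^ N ‖w‖ ≤ (1/16) ‖v - Q0 v‖`. `Q0 (Q0 v) = Q0 v`, so by `S.hu` `C⁻¹ eta ^ N ‖Q0 v‖ ≤ ‖D (Q0 v)‖ = ‖Q' (D v)‖`, that is
`‖Q0 v‖ ≤ (1/16) ‖Q' (D v)‖`. With `E = B - D`: `B v - Q1 (B v) = (D v - Q' (D v)) + (E v - Q1 (E v)) + (Q' - Q1) (D v)`, so
`‖B v - Q1 (B v)‖ ≤ (1/16) ‖v - Q0 v‖ + κ (L + L ^ N + 1) ‖v‖`, `‖v‖ ≤ ‖v - Q0 v‖ + ‖Q0 v‖`, `κ (L + L^N + 1) ≤ 1/16`. And
`‖Q' (D v)‖ ≤ ‖Q1 (B v)‖ + ‖Q1 (E v)‖ + ‖(Q' - Q1) (D v)‖ ≤ ‖Q1 (B v)‖ + κ (L + L ^ N + 1) ‖v‖`, so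
`‖Q0 v‖ ≤ (1/16) ‖Q1 (B v)‖ + (1/256) (‖v - Q0 v‖ + ‖Q0 v‖)`, which gives the second half of `H8`. `‖S.A x y‖ ≤ L` for `dist (f x) y ≤ δ` by ONE at `u = S.pos x x`. -/
def Stmt_HYP : Prop := ∀ (d : ℕ) (al : ℝ) (M : Type) [MetricSpace M] [CompactSpace M] (f : M ≃ₜ M) (S : Sys d al M f),
  ∃ (N : ℕ) (L δ : ℝ), 1 ≤ N ∧ 1 ≤ L ∧ 0 < δ ∧ (∀ (x : M) (v : EE d), ‖S.P x v‖ ≤ L * ‖v‖ ∧ ‖v - S.P x v‖ ≤ L * ‖v‖) ∧
    (∀ x y : M, dist (f x) y ≤ δ → ‖S.A x y‖ ≤ L) ∧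
    ∀ x : ℕ → M, (∀ l < N, dist (f (x l)) (x (l + 1)) ≤ δ) →
      H8 (S.P (x 0)) (S.P (x N)) (Bp (fun l => S.A (x l) (x (l + 1))) N)

/-! ## 2. Periodic shadowing -/

/-- **LIN** (180; uses nothing). A PRIORI ESTIMATE. `c ≥ 0` (it bounds a norm). `e_j = v (j+N) - B_j (v j)`, `B_j = Bp (fun l => A (j + l)) N`: by induction on `k`,
`‖v (j+k) - Bp (fun l => A (j+l)) k (v j)‖ ≤ k L ^ k c` (`v (j+k+1) - A (j+k) (v (j+k))` is at most `c`), so `‖e_j‖ ≤ N L ^ N c`. Let `m_s`, `m_u` be the maxima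
over the finite set `ZMod n` of `‖v j - Q j (v j)‖`, `‖Q j (v j)‖` (`Fintype (ZMod n)` from `NeZero n`: `ZMod.fintype`). By `H8` at `j`, applied to `v j`, and
`v (j+N) = B_j (v j) + e_j`: `‖v (j+N) - Q (j+N) (v (j+N))‖ ≤ (1/8) (m_s + m_u) + L ‖e_j‖`; `j ↦ j + N` is onto, so `m_s ≤ (1/8) (m_s + m_u) + t`, `t = N L ^ (N+1) c`.
`‖Q j (v j)‖ ≤ (1/8) (‖Q (j+N) (B_j v_j)‖ + m_s) ≤ (1/8) (m_u + t + m_s)`. Adding: `m_s + m_u ≤ (1/4) (m_s + m_u) + 2 t`, so `‖v j‖ ≤ m_s + m_u ≤ 3 t`. `C = 3 N L ^ (N+1)`. -/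
def Stmt_LIN : Prop := ∀ (d N : ℕ) (L : ℝ), 1 ≤ N → 1 ≤ L → ∃ C : ℝ, 0 < C ∧ ∀ (n : ℕ) [NeZero n] (A Q : ZMod n → (EE d →L[ℝ] EE d)),
  (∀ j, ‖A j‖ ≤ L) → (∀ j v, ‖Q j v‖ ≤ L * ‖v‖ ∧ ‖v - Q j v‖ ≤ L * ‖v‖) →
  (∀ j, H8 (Q j) (Q (j + (N : ZMod n))) (Bp (fun l => A (j + (l : ZMod n))) N)) →
  ∀ (v : ZMod n → EE d) (c : ℝ), (∀ j, ‖v (j + 1) - A j (v j)‖ ≤ c) → ∀ j, ‖v j‖ ≤ C * c

/-- **FIX** (200; uses nothing). PERIODIC ORBIT OF A SEQUENCE OF NEARLY LINEAR MAPS. The linear map `T : (ZMod n → EE d) → (ZMod n → EE d)`,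
`T v j = v (j+1) - A j (v j)`, is injective by the a priori estimate (`c = 0`), hence bijective (finite dimension: `LinearMap.injective_iff_surjective`), and
`‖v‖ ≤ C ‖T v‖` in the sup norm (`pi_norm_le_iff_of_nonneg`, `norm_le_pi_norm`). For `v` with `‖v‖ ≤ ρ` let `R v j = F j (p j + v j) - p (j+1) - A j (v j)` and `Ψ v = T⁻¹ (R v)`:
`‖R v - R v'‖ ≤ e1 ‖v - v'‖`, `‖R 0‖ ≤ e0`, so `‖Ψ v - Ψ v'‖ ≤ (1/2) ‖v - v'‖`, `‖Ψ v‖ ≤ (1/2) ρ + ρ / 2`. Banach fixed point theorem on the closed ball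
(`ContractingWith` on the subtype of a closed ball, `ContractingWith.exists_fixedPoint'` for a complete set): `Ψ v = v` means `v (j+1) - A j (v j) = R v j`, that is
`p (j+1) + v (j+1) = F j (p j + v j)`. `y j = p j + v j`. -/
def Stmt_FIX : Prop := ∀ (d n : ℕ) [NeZero n] (A : ZMod n → (EE d →L[ℝ] EE d)) (F : ZMod n → EE d → EE d) (p : ZMod n → EE d) (C e0 e1 ρ : ℝ),
  0 < C → 0 < ρ → 0 ≤ e1 → C * e1 ≤ 1 / 2 → C * e0 ≤ ρ / 2 →
  (∀ (v : ZMod n → EE d) (c : ℝ), (∀ j, ‖v (j + 1) - A j (v j)‖ ≤ c) → ∀ j, ‖v j‖ ≤ C * c) →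
  (∀ j, ∀ u ∈ closedBall (p j) ρ, ∀ v ∈ closedBall (p j) ρ, ‖F j u - F j v - A j (u - v)‖ ≤ e1 * ‖u - v‖) →
  (∀ j, ‖F j (p j) - p (j + 1)‖ ≤ e0) → ∃ y : ZMod n → EE d, ∀ j, y j ∈ closedBall (p j) ρ ∧ F j (y j) = y (j + 1)

/-- **SHD** (220; uses NEA SYM LER HYP LIN FIX). PERIODIC SHADOWING. `N, L, δ₁` of HYP, `C` of LIN for `d, N, L`, `δ₂, r` of LER for `κ = 1 / (2 C)`, `ρ₁` of SYM for `ε`. `ρ = min r (min ε ρ₁)`,
`e1 = κ`, `e0 = ρ / (2 C)`, `δ₃` of NEA for `e0`, `δ = min δ₁ δ₂ δ₃`. For a cyclic `δ`-chain `x` put `A j = S.A (x j) (x (j+1))`, `Q j = S.P (x j)`,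
`F j = S.G (x j) (x (j+1))`, `p j = S.pos (x j) (x j)`. `H8` for LIN at `j`: HYP for the sequence `l ↦ x (j + l)` (`(l+1 : ℕ)` cast: `Nat.cast_add`, `add_assoc`). FIX: `F j (p j) = S.pos (x (j+1)) (f (x j))`
(`S.G_pos`, `S.c_src`) and NEA for `x (j+1)`, `f (x j)` gives `‖F j (p j) - p (j+1)‖ ≤ e0`. So there are `y j`. `P j = (φ (c (x j))).symm (y j)`, `y j ∈ target` (LER / SYM), `f (P j) ∈ (φ (c (x (j+1)))).source`
(LER), `F j (y j) = φ (c (x (j+1))) (f (P j)) = y (j+1)`, so `f (P j) = P (j+1)` (`left_inv`). By induction `f^[l] (P 0) = P (l : ZMod n)`; `(n : ZMod n) = 0` gives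
`f^[n] (P 0) = P 0`. `P j ∈ source` (`map_target`), `φ (c (x j)) (P j) = y j` (`right_inv`), `dist (P j) (x j) ≤ ε` by SYM. -/
def Stmt_SHD : Prop := ∀ (d : ℕ) (al : ℝ) (M : Type) [MetricSpace M] [CompactSpace M] (f : M ≃ₜ M) (S : Sys d al M f) (ε : ℝ), 0 < ε →
  ∃ δ : ℝ, 0 < δ ∧ ∀ (n : ℕ) [NeZero n] (x : ZMod n → M), (∀ j, dist (f (x j)) (x (j + 1)) ≤ δ) →
    ∃ p : M, f^[n] p = p ∧ ∀ l : ℕ, dist (f^[l] p) (x (l : ZMod n)) ≤ ε ∧ f^[l] p ∈ (S.φ (S.c (x (l : ZMod n)))).source ∧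
      ‖S.pos (x (l : ZMod n)) (f^[l] p) - S.pos (x (l : ZMod n)) (x (l : ZMod n))‖ ≤ ε

/-! ## 3. Exponential closeness, determinants of closed orbits -/

/-- **MAX** (150; uses nothing). DISCRETE MAXIMUM PRINCIPLE. `W j = la ^ j + la ^ (m - j) > 0`. `W (j - N) ≤ (4/3) W j` for `N ≤ j ≤ m` and `W (j + N) ≤ (4/3) W j` for `j + N ≤ m` (`la ^ N ≥ 3/4`, `la < 1`).
Let `μ` be the maximum over `j ≤ m` of `max (a j) (b j) / W j`, attained at `j`; claim `μ ≤ (4/3) ρ`. (`ρ ≥ 0`.) Suppose `μ > 0`. If `a j = μ W j` and `N ≤ j`: `a j ≤ (1/4) (a (j-N) + b (j-N)) ≤ (1/2) μ W (j-N) ≤ (2/3) μ W j`,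
impossible. If `a j = μ W j` and `j < N`: `W j ≥ la ^ j ≥ la ^ N ≥ 3/4`, `a j ≤ ρ`, so `μ ≤ (4/3) ρ`. If `b j = μ W j` and `j + N ≤ m`: `b j ≤ (1/4) (b (j+N) + a j) ≤ (1/4) μ (4/3 + 1) W j < μ W j`, impossible. If `b j = μ W j` and
`m < j + N`: `W j ≥ la ^ (m - j) ≥ la ^ N ≥ 3/4`. -/
def Stmt_MAX : Prop := ∀ (N m : ℕ) (la ρ : ℝ) (a b : ℕ → ℝ), 1 ≤ N → 0 < la → la < 1 → 3 / 4 ≤ la ^ N →
  (∀ j ≤ m, 0 ≤ a j ∧ a j ≤ ρ ∧ 0 ≤ b j ∧ b j ≤ ρ) →
  (∀ j, j + N ≤ m → a (j + N) ≤ 1 / 4 * (a j + b j) ∧ b j ≤ 1 / 4 * (b (j + N) + a j)) →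
  ∀ j ≤ m, a j ≤ 4 / 3 * ρ * (la ^ j + la ^ (m - j)) ∧ b j ≤ 4 / 3 * ρ * (la ^ j + la ^ (m - j))

/-- **EXP** (250; uses LER HYP MAX). TWO ORBITS WHICH STAY NEAR ARE EXPONENTIALLY NEAR IN THE MIDDLE. `N, L, δ₁` of HYP; `la = 1 - 1 / (4 N)`, `la ^ N ≥ 3/4` (Bernoulli: `one_add_mul_le_pow`; for `N ≥ 1`, `la ≥ 3/4 > 0`).
`η > 0` with `η ≤ L` and `L * (N * (2 L) ^ N * η) ≤ 1/8`; `δ₂, r` of LER for `κ = η`; `ρ = r`. Put `X j = f^[j] x`, `z j = S.pos (X j) (f^[j] q) - S.pos (X j) (X j)` for `j ≤ m`. For `j < m`: `S.G (X j) (X (j+1))` maps `S.pos (X j) (f^[j] q)`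
to `S.pos (X (j+1)) (f^[j+1] q)` and `S.pos (X j) (X j)` to `S.pos (X (j+1)) (X (j+1))` (`S.G_pos`, `f (X j) = X (j+1)`), so LER gives `‖z (j+1) - A_j (z j)‖ ≤ η ‖z j‖`, `A_j = S.A (X j) (X (j+1))`, `‖A_j‖ ≤ L`. By induction on `k`
(`j + k ≤ m`): `‖z (j+k)‖ ≤ (2 L) ^ k ‖z j‖` and `‖z (j+k) - B_k (z j)‖ ≤ k (2 L) ^ k η ‖z j‖`, `B_k = Bp (fun l => A_(j+l)) k`. So for `j + N ≤ m`: `z (j+N) = B (z j) + E`, `L ‖E‖ ≤ (1/8) ‖z j‖ ≤ (1/8) (a j + b j)`, where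
`a j = ‖z j - P_j (z j)‖`, `b j = ‖P_j (z j)‖`, `P_j = S.P (X j)`. HYP for the sequence `l ↦ X (j + l)` gives `H8 P_j P_(j+N) B`: `a (j+N) ≤ (1/8) (a j + b j) + L ‖E‖ ≤ (1/4) (a j + b j)`;
`b j ≤ (1/8) (‖P_(j+N) (B (z j))‖ + a j) ≤ (1/8) (b (j+N) + (1/8) (a j + b j) + a j)`, so `b j ≤ (1/4) (b (j+N) + a j)`. `a j, b j ≤ L ρ`. MAX: `‖z j‖ ≤ a j + b j ≤ (8/3) L ρ (la ^ j + la ^ (m-j))`. -/
def Stmt_EXP : Prop := ∀ (d : ℕ) (al : ℝ) (M : Type) [MetricSpace M] [CompactSpace M] (f : M ≃ₜ M) (S : Sys d al M f),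
  ∃ ρ C la : ℝ, 0 < ρ ∧ 0 < C ∧ 0 < la ∧ la < 1 ∧ ∀ (x q : M) (m : ℕ),
    (∀ j ≤ m, f^[j] q ∈ (S.φ (S.c (f^[j] x))).source ∧ ‖S.pos (f^[j] x) (f^[j] q) - S.pos (f^[j] x) (f^[j] x)‖ ≤ ρ) →
    ∀ j ≤ m, ‖S.pos (f^[j] x) (f^[j] q) - S.pos (f^[j] x) (f^[j] x)‖ ≤ C * (la ^ j + la ^ (m - j))

/-- **SUM** (100; uses nothing). For `s, t ≥ 0`: `(s + t) ^ al ≤ (2 max s t) ^ al ≤ 2 ^ al (s ^ al + t ^ al)`; `(la ^ j) ^ al = (la ^ al) ^ j`, `la ^ al < 1`, geometric series, the second sum by `Finset.sum_range_reflect`.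
`C = 2 * 2 ^ al / (1 - la ^ al)`. -/
def Stmt_SUM : Prop := ∀ la al : ℝ, 0 < la → la < 1 → 0 < al → ∃ C : ℝ, 0 < C ∧ ∀ m : ℕ,
  ∑ j ∈ Finset.range (m + 1), (la ^ j + la ^ (m - j)) ^ al ≤ C

/-- **CLO** (280; uses NEA ONE CHN SHD EXP SUM). ALMOST CLOSED ORBITS. `δ₁, r, L, H` of ONE, `ρ, C₁, la` of EXP, `C₃` of SUM. `ε₀` of NEA (for `ε = 1`, used only for `p ∈ V (c x)`), `ε = min ρ r ε₀`, `δ` = the minimum of `δ₁` and the `δ` of
SHD for `ε`. Given `x`, `n ≥ 1`, `dist (f^[n] x) x ≤ δ`: `NeZero n`; the cyclic chain `X : ZMod n → M`, `X j = f^[j.val] x`: if `j.val + 1 < n` then `(j+1).val = j.val + 1` and `f (X j) = X (j+1)`, otherwise `j + 1 = 0` and the jump is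
`dist (f^[n] x) x`. (`ZMod.val_natCast`, `ZMod.val_lt`.) SHD: `p`. For `l < n`: `X (l : ZMod n) = f^[l] x`, so EXP with `q = p`, `m = n - 1` gives `‖z l‖ ≤ C₁ (la ^ l + la ^ (m - l))`, `z l = S.pos (f^[l] x) (f^[l] p) - S.pos (f^[l] x) (f^[l] x)`.
CHN with `i l = S.c (X (l : ZMod n))`, `q = p` (`(n : ZMod n) = 0`, `X 0 = x`): `DF φ f n (c x) (c x) p = Bp D n`, `D l = DF φ f 1 (i l) (i (l+1)) (f^[l] p) = fderiv (S.G (X l) (X (l+1))) (S.pos (X l) (f^[l] p))`, so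
`log |det| = ∑ l < n, log |det (D l)|` (`det_Bp`, `Finset.abs_prod`, `Real.log_prod`; all factors are nonzero by ONE). Compare with `S.g (f^[l] x) = log |det (S.A (f^[l] x) (f^[l+1] x))|`: for `l + 1 < n` the charts are the same, so ONE gives
`|..| ≤ H ‖z l‖ ^ al ≤ H C₁ ^ al (la ^ l + la ^ (m-l)) ^ al`; for `l = n - 1` both logarithms are at most `log L` in absolute value (ONE; `dist (f (f^[n-1] x)) (f^[n] x) = 0`). Total: `H C₁ ^ al C₃ + 2 log L`.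
`p ∈ V (c x)`: `dist x p ≤ ε ≤ ε₀` (SHD at `l = 0`). -/
def Stmt_CLO : Prop := ∀ (d : ℕ) (al : ℝ) (M : Type) [MetricSpace M] [CompactSpace M] (f : M ≃ₜ M) (S : Sys d al M f),
  ∃ δ C : ℝ, 0 < δ ∧ 0 ≤ C ∧ ∀ (n : ℕ) (x : M), 0 < n → dist (f^[n] x) x ≤ δ →
    ∃ p : M, f^[n] p = p ∧ p ∈ S.V (S.c x) ∧ abs (S.Sn n x - Real.log |(DF S.φ f n (S.c x) (S.c x) p).det|) ≤ C

/-- **PIG** (150; uses nothing). PIGEONHOLE. `M` is covered by finitely many sets (cells) of diameter at most `δ` (`finite_cover_balls_of_compact` with radius `δ / 2`; choose a cell index `k x` for every `x`, `k x = k y → dist x y ≤ δ`). Write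
`s n x = ∑ l < n, g (T^[l] x)`. Claim, by induction on the number `r`: if `{k (T^[l] x) | l < n}` has at most `r` elements then `s n x ≥ - r (C + B)` (`B, C ≥ 0`; enlarge them). `n = 0`: trivial. Otherwise let `m` be the LAST `l < n` with
`k (T^[l] x) = k x` (`l = 0` is one). `s n x = s m x + g (T^[m] x) + s (n - m - 1) (T^[m+1] x)`. `s m x ≥ -C` (`m = 0`, or `dist (T^[m] x) x ≤ δ`), `g ≥ -B`, and the rest does not visit the cell of `x`. -/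
def Stmt_PIG : Prop := ∀ (M : Type) [MetricSpace M] [CompactSpace M] (T : M → M) (g : M → ℝ) (δ B C : ℝ), 0 < δ → (∀ x, -B ≤ g x) →
  (∀ (n : ℕ) (x : M), 0 < n → dist (T^[n] x) x ≤ δ → -C ≤ ∑ l ∈ Finset.range n, g (T^[l] x)) →
  ∃ C' : ℝ, ∀ (n : ℕ) (x : M), -C' ≤ ∑ l ∈ Finset.range n, g (T^[l] x)

/-- **SGB** (100; uses ONE CLO PIG). BOUNDS FOR ALL ORBITS. `|S.g x| ≤ log L` (ONE with `y = f x`, `u = S.pos x x`). First part: for almost closed orbits `S.Sn n x ≥ log |det DF n p| - C ≥ - C`; PIG with `g = S.g`, `T = f`. Second part: the same for `-S.g`. -/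
def Stmt_SGB : Prop := ∀ (d : ℕ) (al : ℝ) (M : Type) [MetricSpace M] [CompactSpace M] (f : M ≃ₜ M) (S : Sys d al M f),
  (PerGe S → ∃ C : ℝ, ∀ (n : ℕ) (x : M), -C ≤ S.Sn n x) ∧ (PerLe S → ∃ C : ℝ, ∀ (n : ℕ) (x : M), S.Sn n x ≤ C)

/-- **DTN** (60; uses CHN). CHN with `i l = S.c (f^[l] x)`, `q = x`: `det DF φ f n (c x) (c (f^[n] x)) x = ∏ det (S.A (f^[l] x) (f^[l+1] x))` (`det_Bp`, `S.A` is `DF φ f 1 ..`), all factors are nonzero (`S.inj` with `n = 1`), `Real.exp (∑ log) = ∏`. -/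
def Stmt_DTN : Prop := ∀ (d : ℕ) (al : ℝ) (M : Type) [MetricSpace M] [CompactSpace M] (f : M ≃ₜ M) (S : Sys d al M f) (n : ℕ) (x : M),
  Real.exp (S.Sn n x) = |(DF S.φ f n (S.c x) (S.c (f^[n] x)) x).det|

/-! ## 4. The measure -/

/-- **DCT** (60; uses nothing). `Fn φ f n i j` is `C^1` at `φ i x` (`S.sm`), so its `fderiv` is continuous at `φ i x` (`ContDiffAt.fderiv_right` and `ContDiffAt.continuousAt`), and `φ i` is continuous at `x`. -/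
def Stmt_DCT : Prop := ∀ (d : ℕ) (al : ℝ) (M : Type) [MetricSpace M] [CompactSpace M] (f : M ≃ₜ M) (S : Sys d al M f) (n : ℕ) (i j : Fin S.m) (x : M),
  x ∈ (S.φ i).source → f^[n] x ∈ (S.φ j).source → ContinuousAt (DF S.φ f n i j) x

/-- **MES** (180; uses DCT). MEASURABILITY. `{x | S.c x = j} = K j \ ⋃ i < j, K i` (`S.c_eq_iff`), the `K i` are closed. For a Borel set `T` contained in `(φ j).source`: `φ j '' T = {u ∈ target | symm u ∈ T}`; `symm` restricted to the open set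
`target` is continuous, hence measurable (`ContinuousOn.restrict`, `MeasurableSet.subtype_image`). `S.g`: on the measurable cell `{c x = i, c (f x) = j}` it is `log |det (DF φ f 1 i j x)|`, continuous there by DCT (and `S.inj`, or because `Real.log` is measurable);
finitely many cells. -/
def Stmt_MES : Prop := ∀ (d : ℕ) (al : ℝ) (M : Type) [MetricSpace M] [CompactSpace M] [MeasurableSpace M] [BorelSpace M] (f : M ≃ₜ M) (S : Sys d al M f),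
  (∀ j : Fin S.m, MeasurableSet {x | S.c x = j} ∧ ∀ T : Set M, MeasurableSet T → T ⊆ (S.φ j).source → MeasurableSet (S.φ j '' T)) ∧ Measurable S.g

/-- **MUR** (180; uses MES). THE MEASURE ON ONE CELL. For measurable `B ⊆ {c = j}` and measurable `h`: `∫⁻ x in B, h x ∂S.mu = ∫⁻ u in φ j '' B, h ((φ j).symm u)`. The `i`-th summand of `S.mu` with `i ≠ j` gives no mass to `B` (it is concentrated on `(φ i).symm '' (φ i '' {c = i}) = {c = i}`).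
The `j`-th: `AEMeasurable (φ j).symm (volume.restrict (φ j '' {c = j}))` from `ContinuousOn.aemeasurable` (continuous on the target, restrict to a measurable subset), `Measure.restrict_map_of_aemeasurable` / `lintegral_map'`, `(φ j).symm ⁻¹' B ∩ φ j '' {c = j} = φ j '' B`. `h = 1`: `S.mu B = volume (φ j '' B)`. -/
def Stmt_MUR : Prop := ∀ (d : ℕ) (al : ℝ) (M : Type) [MetricSpace M] [CompactSpace M] [MeasurableSpace M] [BorelSpace M] (f : M ≃ₜ M) (S : Sys d al M f)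
  (j : Fin S.m) (B : Set M) (h : M → ENNReal), MeasurableSet B → B ⊆ {x | S.c x = j} → Measurable h →
  ∫⁻ x in B, h x ∂S.mu = ∫⁻ u in S.φ j '' B, h ((S.φ j).symm u)

/-- **MUF** (200; uses MES MUR). `S.mu` IS FINITE AND POSITIVE ON OPEN SETS. Finite: `S.mu univ = ∑ j, S.mu {c = j} = ∑ j, volume (φ j '' {c = j}) ≤ ∑ j, volume (φ j '' K j) < ⊤` (compact; `IsCompact.measure_lt_top`) or directly from the definition. Positive: let `W` be open, nonempty. CLAIM: there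
is an open nonempty `W' ⊆ W` on which `c` is constant. Let `i` be the SMALLEST index such that `W ∩ interior (K i)` is nonempty (it exists by `S.cov`). `W₁ = W ∩ interior (K i)` is open, nonempty; for `j < i` a nonempty open subset of `W` is not contained in `K j`, so removing the
finitely many closed sets `K j`, `j < i`, one after the other (induction over a finite set of indices) leaves an open nonempty `W' ⊆ W₁`. On `W'` one has `c = i` (`S.c_eq_iff`). `φ i '' W'` is open (`OpenPartialHomeomorph.isOpen_image_of_subset_source`) and nonempty, so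
`S.mu W' = volume (φ i '' W') > 0` (`IsOpen.measure_pos`). -/
def Stmt_MUF : Prop := ∀ (d : ℕ) (al : ℝ) (M : Type) [MetricSpace M] [CompactSpace M] [MeasurableSpace M] [BorelSpace M] (f : M ≃ₜ M) (S : Sys d al M f),
  MeasureTheory.IsFiniteMeasure S.mu ∧ ∀ W : Set M, IsOpen W → W.Nonempty → 0 < S.mu W

/-- **MUC** (280; uses MES MUR). CHANGE OF VARIABLES FOR ONE STEP. `B i j = {x ∈ B | c x = i, c (f x) = j}` (measurable, finitely many, disjoint, union `B`; the images `f '' B i j` are measurable (`f` is a homeomorphism) and disjoint, union `f '' B`): enough for `B = B i j`.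
With `F = Fn φ f 1 i j`: `φ j '' (f '' B) = F '' (φ i '' B)`, `F` is injective on `φ i '' B` (`f` injective, `φ j` injective on its source) and differentiable at its points (`S.sm`), so by `MeasureTheory.lintegral_abs_det_fderiv_eq_addHaar_image` and MUR
`S.mu (f '' B) = volume (φ j '' (f '' B)) = ∫⁻ u in φ i '' B, ENNReal.ofReal |det (fderiv F u)|`. At `u = φ i x`, `x ∈ B`: `|det (fderiv F u)| = |det (S.A x (f x))| = exp (S.g x)` (`S.inj`: the determinant is not `0`; `Real.exp_log`), and MUR for `h x = ENNReal.ofReal (exp (S.g x))` gives the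
right-hand side. -/
def Stmt_MUC : Prop := ∀ (d : ℕ) (al : ℝ) (M : Type) [MetricSpace M] [CompactSpace M] [MeasurableSpace M] [BorelSpace M] (f : M ≃ₜ M) (S : Sys d al M f)
  (B : Set M), MeasurableSet B → S.mu (f '' B) = ∫⁻ x in B, ENNReal.ofReal (Real.exp (S.g x)) ∂S.mu

/-- **MEA** (250; uses nothing). INVARIANT MEASURE (helper44). Write `J n x = ENNReal.ofReal (exp (∑ l < n, g (T^[l] x)))`, `J = J 1`; `J (n+1) x = J x * J n (T x)`, `J 0 = 1`, `J n x ≥ ofReal (exp (-C))`. The hypothesis says: `mu.map T.symm = mu.withDensity J` (as `(mu.map T.symm) B = mu (T '' B)`), so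
`∫⁻ x in T '' B, h x ∂mu = ∫⁻ x in B, h (T x) * J x ∂mu` for measurable `h` (`lintegral_map_equiv`, `lintegral_withDensity_eq_lintegral_mul`, `restrict`). `U x = ⨅ n, J n x` (measurable: `Measurable.iInf`), `ofReal (exp (-C)) ≤ U ≤ 1`, and `U x ≤ J x * U (T x)`
(`J x * ⨅ n, J n (T x) = ⨅ n, J (n+1) x`: `ENNReal.mul_iInf_of_ne`). `nu = mu.withDensity U`: finite, `mu ≪ nu` (`withDensity_absolutelyContinuous'`; `U ≠ 0`). `nu (T '' B) = ∫⁻ x in B, U (T x) * J x ∂mu ≥ nu B`, with equality for `B = univ`, so `U (T x) * J x = U x` for almost all `x`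
(`lintegral` finite: `ae_eq_of_ae_le_of_lintegral_le`), hence `nu (T '' B) = nu B`: `T.symm` and then `T` preserve `nu` (`MeasurePreserving.symm`). `T` is quasi-measure-preserving for `mu` (`mu (T '' B) = 0 ↔ mu B = 0` since `0 < J < ⊤`), so almost everywhere for all `n`:
`U (T^[n] x) * J n x = U x` (induction), `J n x ≤ ofReal (exp C)`. Together `|∑| ≤ |C|` almost everywhere. -/
def Stmt_MEA : Prop := ∀ (M : Type) [MeasurableSpace M] (mu : MeasureTheory.Measure M) [MeasureTheory.IsFiniteMeasure mu] (T : M ≃ᵐ M) (g : M → ℝ) (C : ℝ), Measurable g →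
  (∀ B, MeasurableSet B → mu (T '' B) = ∫⁻ x in B, ENNReal.ofReal (Real.exp (g x)) ∂mu) →
  (∀ (n : ℕ) (x : M), -C ≤ ∑ l ∈ Finset.range n, g (T^[l] x)) →
  ∃ nu : MeasureTheory.Measure M, MeasureTheory.IsFiniteMeasure nu ∧ MeasureTheory.MeasurePreserving T nu nu ∧ MeasureTheory.Measure.AbsolutelyContinuous mu nu ∧
    ∀ n : ℕ, ∀ᵐ x ∂mu, |∑ l ∈ Finset.range n, g (T^[l] x)| ≤ |C|

/-- **MEB** (180; uses MEA). THE OTHER CASE. `T' = T.symm`, `g' x = - g (T.symm x)`. `mu (T' '' B) = ∫⁻ x in B, ofReal (exp (g' x)) ∂mu`: with `J x = ofReal (exp (g x))` the hypothesis gives `∫⁻ x, h x ∂mu = ∫⁻ x, h (T x) * J x ∂mu` for measurable `h`; take `h = indicator B (J ∘ T.symm)⁻¹`, `(J x)⁻¹ * J x = 1`,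
`T.symm '' B = T ⁻¹' B`. `∑ l < n, g' (T'^[l] x) = - ∑ l < n, g (T^[l] y)` with `y = T.symm^[n] x` (reflect the sum: `Finset.sum_range_reflect`; `T.symm^[l+1] x = T^[n-1-l] y`). So the lower bound `-C` holds for `g'` and MEA gives `nu`, preserved by `T.symm`, hence by `T`, and `|∑ g' (T'^[l] x)| ≤ |C|` for
almost all `x`; put `x = T^[n] y`: the set of bad `y` is `T^[n] ⁻¹'` of a null set, null because `mu (T '' B) = 0 → mu B = 0` (`J > 0`). -/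
def Stmt_MEB : Prop := ∀ (M : Type) [MeasurableSpace M] (mu : MeasureTheory.Measure M) [MeasureTheory.IsFiniteMeasure mu] (T : M ≃ᵐ M) (g : M → ℝ) (C : ℝ), Measurable g →
  (∀ B, MeasurableSet B → mu (T '' B) = ∫⁻ x in B, ENNReal.ofReal (Real.exp (g x)) ∂mu) →
  (∀ (n : ℕ) (x : M), ∑ l ∈ Finset.range n, g (T^[l] x) ≤ C) →
  ∃ nu : MeasureTheory.Measure M, MeasureTheory.IsFiniteMeasure nu ∧ MeasureTheory.MeasurePreserving T nu nu ∧ MeasureTheory.Measure.AbsolutelyContinuous mu nu ∧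
    ∀ n : ℕ, ∀ᵐ x ∂mu, |∑ l ∈ Finset.range n, g (T^[l] x)| ≤ |C|

/-- **VOL** (100; uses MES MUF MUC MEA MEB). `borel M`, `f.toMeasurableEquiv`, MEA in the first case, MEB in the second (`S.Sn n x` is the sum by definition). `NW f`: `W` open, nonempty: `S.mu W > 0`, so `nu W > 0` (`mu ≪ nu`), and `MeasurePreserving.conservative`, `Conservative.exists_mem_iterate_mem` give
`x ∈ W`, `n ≠ 0`, `f^[n] x ∈ W`. -/
def Stmt_VOL : Prop := ∀ (d : ℕ) (al : ℝ) (M : Type) [MetricSpace M] [CompactSpace M] [MeasurableSpace M] [BorelSpace M] (f : M ≃ₜ M) (S : Sys d al M f),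
  ((∃ C : ℝ, ∀ (n : ℕ) (x : M), -C ≤ S.Sn n x) ∨ (∃ C : ℝ, ∀ (n : ℕ) (x : M), S.Sn n x ≤ C)) →
  NW f ∧ ∃ C : ℝ, ∀ n : ℕ, ∀ᵐ x ∂S.mu, |S.Sn n x| ≤ C

/-- **TRB** (120; uses DCT). CHART CHANGES NEAR A POINT. Let `p ∈ (φ i).source`. If `p ∉ K j` then `c x ≠ j` for `x` near `p` (`K j` is closed). If `p ∈ K j` then `DF φ f 0 i j x` and `DF φ f 0 j i x` are continuous at `p` (DCT with `n = 0`) with nonzero determinants (`S.inj`), so the logarithms of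
`|det|` are bounded near `p`. Finitely many `j`. -/
def Stmt_TRB : Prop := ∀ (d : ℕ) (al : ℝ) (M : Type) [MetricSpace M] [CompactSpace M] (f : M ≃ₜ M) (S : Sys d al M f) (i : Fin S.m) (p : M), p ∈ (S.φ i).source →
  ∃ C : ℝ, ∀ᶠ x in 𝓝 p, x ∈ (S.φ i).source ∧ abs (Real.log |(DF S.φ f 0 i (S.c x) x).det|) ≤ C ∧ abs (Real.log |(DF S.φ f 0 (S.c x) i x).det|) ≤ C

/-- **PDT** (250; uses CH2 DCT DTN MUF TRB). THE DETERMINANTS AT PERIODIC POINTS ARE `1`. Let `p ∈ V i`, `f^[k] p = p`, `k > 0`; `C₁` of TRB for `p`, `C` the bound of `Sn`. CLAIM: `|log |det DF φ f (k * n) i i p|| ≤ C + 2 C₁ + 1` for all `n`. Let `N = k * n`, `f^[N] p = p`. For `x` near `p` (then `f^[N] x` is near `p` too, `ContinuousAt`):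
CH2 twice (`0 + N`, `N + 0`) gives `DF φ f N i i x = DF φ f 0 l i (f^[N] x) ∘L DF φ f N j l x ∘L DF φ f 0 i j x` with `j = c x`, `l = c (f^[N] x)`, so `|log |det DF φ f N i i x|| ≤ 2 C₁ + |S.Sn N x|` (DTN; all determinants are nonzero). The function `x ↦ log |det DF φ f N i i x|` is continuous at `p` (DCT, `S.inj`):
near `p` it differs from its value at `p` by at most `1`. The set of `x` near `p` with `|S.Sn N x| ≤ C` is nonempty, because its complement is a null set and open sets have positive measure (MUF). This proves the claim. By CH2 and induction `det DF φ f (k * n) i i p = (det DF φ f k i i p) ^ n`, so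
`n |log |det DF φ f k i i p|| ≤ C + 2 C₁ + 1` for all `n`: the logarithm is `0`, and `|det| = 1` (nonzero by `S.inj`). -/
def Stmt_PDT : Prop := ∀ (d : ℕ) (al : ℝ) (M : Type) [MetricSpace M] [CompactSpace M] [MeasurableSpace M] [BorelSpace M] (f : M ≃ₜ M) (S : Sys d al M f) (C : ℝ),
  (∀ n : ℕ, ∀ᵐ x ∂S.mu, |S.Sn n x| ≤ C) → ∀ (k : ℕ) (i : Fin S.m) (p : M), 0 < k → p ∈ S.V i → f^[k] p = p → |(DF S.φ f k i i p).det| = 1

/-! ## 5. Chains, transitivity -/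

/-- **CTR** (150; uses nothing). CHAIN TRANSITIVITY. `R` = the set of `y` with `TransGen (Jump f δ) x y`. It contains `f x`. It is open: the last jump `dist (f w) y < δ` allows all `y'` near `y` (`Relation.TransGen` : last step `TransGen.tail`, `cases`). It is closed: let `y` be in the closure,
`ε > 0` with `dist (f a) (f b) < δ / 2` for `dist a b < 2 ε` (uniform continuity), `ε < δ / 2`; `y' ∈ R` with `dist y' y < ε`; NW for `ball y ε`: `z ∈ ball y ε`, `k > 0`, `f^[k] z ∈ ball y ε`. Then `y' → f z` is a jump if `k ≥ 2` (`dist (f y') (f z) < δ / 2`),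
`f z → f^[2] z → .. → f^[k-1] z` (true orbit, induction), `f^[k-1] z → y` is a jump (`dist (f^[k] z) y < ε`). If `k = 1`: `y' → y` is a jump, `dist (f y') y ≤ dist (f y') (f z) + dist (f z) y < δ`. So `R` is clopen and nonempty: `IsClopen.eq_univ`
(connected). -/
def Stmt_CTR : Prop := ∀ (M : Type) [MetricSpace M] [CompactSpace M] [ConnectedSpace M] (f : M ≃ₜ M), NW f → ∀ δ : ℝ, 0 < δ → ∀ x y : M,
  Relation.TransGen (Jump f δ) x y

/-- **CYC** (120; uses nothing). CYCLIC CHAINS. From `TransGen r x y` one gets `k ≥ 1` and `u : ℕ → M` with `u 0 = x`, `u k = y`, `r (u l) (u (l+1))` for `l < k` (induction); the same from `y` to `x` with `k'`, `u'`. `n = k + k'`, `w : ℕ → M`, `w l = u l` for `l ≤ k`, `w (k + l) = u' l`; then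
`w 0 = x`, `w k = y`, `w n = x = w 0`, `r (w l) (w (l+1))` for `l < n`. `v : ZMod n → M`, `v j = w j.val`: for `j.val + 1 < n` use `(j+1).val = j.val + 1`, otherwise `j + 1 = 0` and `w n = w 0`. `v k = y`: `k < n`, `ZMod.val_natCast_of_lt`. -/
def Stmt_CYC : Prop := ∀ (M : Type) (r : M → M → Prop) (x y : M), Relation.TransGen r x y → Relation.TransGen r y x →
  ∃ (n : ℕ) (_ : NeZero n) (v : ZMod n → M) (k : ℕ), v 0 = x ∧ v (k : ZMod n) = y ∧ ∀ j, r (v j) (v (j + 1))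

/-- **TRS** (80; uses SHD CTR CYC). `x ∈ U`, `y ∈ W`, `ball x ε ⊆ U`, `ball y ε ⊆ W`; `δ` of SHD for `ε / 2`; CTR and CYC: a cyclic chain through `x` and `y` with jumps `< δ`. SHD: `p` with `dist p x ≤ ε / 2`, `dist (f^[k] p) y ≤ ε / 2`. So `f^[k] p ∈ f^[k] '' U ∩ W`. -/
def Stmt_TRS : Prop := ∀ (d : ℕ) (al : ℝ) (M : Type) [MetricSpace M] [CompactSpace M] [ConnectedSpace M] (f : M ≃ₜ M) (_ : Sys d al M f), NW f → Trans f

/-- Assembly (typed here): from SGB, VOL, PDT, TRS. -/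
theorem sys_of (hSGB : Stmt_SGB) (hVOL : Stmt_VOL) (hPDT : Stmt_PDT) (hTRS : Stmt_TRS) : Stmt_SYS := by
  intro d al M _ _ _ f S h
  let _ : MeasurableSpace M := borel M
  have _ : BorelSpace M := ⟨rfl⟩
  have hb : (∃ C : ℝ, ∀ (n : ℕ) (x : M), -C ≤ S.Sn n x) ∨ (∃ C : ℝ, ∀ (n : ℕ) (x : M), S.Sn n x ≤ C) := by
    rcases h with h | h
    · exact Or.inl ((hSGB d al M f S).1 h)
    · exact Or.inr ((hSGB d al M f S).2 h)
  obtain ⟨hNW, C, hC⟩ := hVOL d al M f S hb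
  exact ⟨fun n i x hn hx hp => hPDT d al M f S C hC n i x hn hx hp, hTRS d al M f S hNW⟩

end Pool.AN
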