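import Pool.Agent.Work.MP_bd2638_an.Sys

/-!
# Anosov diffeomorphisms and the Jacobians at periodic points (MP_bd2638_an): definitions

`M` is a compact connected smooth manifold without boundary, modelled on the Euclidean space of
dimension `d`.
-/

set_option autoImplicit false

open Set Bundle Topology
open scoped Manifold ContDiff

noncomputable section

namespace Pool.AN

variable {d : ℕ} {M : Type} [TopologicalSpace M] [ChartedSpace (EE d) M]

/-- Riemannian metrics on `M` -/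
abbrev RMetric (d : ℕ) (M : Type) [TopologicalSpace M] [ChartedSpace (EE d) M]
    [IsManifold 𝓘(ℝ, EE d) ∞ M] : Type :=
  ContMDiffRiemannianMetric 𝓘(ℝ, EE d) ∞ (EE d) (fun x : M => TangentSpace 𝓘(ℝ, EE d) x)

/-- the length of the tangent vector `v` at `x` -/
def len [IsManifold 𝓘(ℝ, EE d) ∞ M] (g : RMetric d M) (x : M)
    (v : TangentSpace 𝓘(ℝ, EE d) x) : ℝ :=
  Real.sqrt (g.inner x v v)

/-- `f` is an Anosov diffeomorphism. The splitting `T M = E^u ⊕ E^s` is given by the projections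
`P x` onto `E^u x` along `E^s x`; it is continuous and invariant under `Df`. -/
def IsAnosov [IsManifold 𝓘(ℝ, EE d) ∞ M] (f : M → M) : Prop :=
  ∃ (g : RMetric d M) (c β η : ℝ)
    (P : ∀ x : M, TangentSpace 𝓘(ℝ, EE d) x →L[ℝ] TangentSpace 𝓘(ℝ, EE d) x),
    0 < c ∧ 0 < β ∧ β < 1 ∧ 1 < η ∧
    (∀ x v, P x (P x v) = P x v) ∧
    Continuous (fun v : TangentBundle 𝓘(ℝ, EE d) M =>
      (⟨v.1, P v.1 v.2⟩ : TangentBundle 𝓘(ℝ, EE d) M)) ∧
    (∀ x v, P (f x) (mfderiv 𝓘(ℝ, EE d) 𝓘(ℝ, EE d) f x v) =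
      mfderiv 𝓘(ℝ, EE d) 𝓘(ℝ, EE d) f x (P x v)) ∧
    ∀ (n : ℕ) (x : M) (v : TangentSpace 𝓘(ℝ, EE d) x),
      (P x v = v → c * η ^ n * len g x v ≤
        len g (f^[n] x) (mfderiv 𝓘(ℝ, EE d) 𝓘(ℝ, EE d) (f^[n]) x v)) ∧
      (P x v = 0 → c * len g (f^[n] x) (mfderiv 𝓘(ℝ, EE d) 𝓘(ℝ, EE d) (f^[n]) x v) ≤
        β ^ n * len g x v)

/-- `f` in the charts at `x` and at `f x` -/
def loc (f : M → M) (x : M) (u : EE d) : EE d :=
  chartAt (EE d) (f x) (f ((chartAt (EE d) x).symm u))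

/-- the logarithm of the absolute value of the Jacobian determinant of `F` at `u` -/
def logJac (F : EE d → EE d) (u : EE d) : ℝ := Real.log |(fderiv ℝ F u).det|

/-- The Jacobian determinant of `f` is locally Hölder continuous with exponent `α` (in charts, for
the logarithm of its absolute value). -/
def HolderJac (f : M → M) (α : ℝ) : Prop :=
  ∀ x : M, ∃ r H : ℝ, 0 < r ∧ ∀ y ∈ Metric.ball (chartAt (EE d) x x) r,
    ∀ z ∈ Metric.ball (chartAt (EE d) x x) r,
      |logJac (loc f x) y - logJac (loc f x) z| ≤ H * dist y z ^ α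

/-- `|det Df^k(p)|` for a point `p` with `f^k p = p` (both tangent spaces are `T_p M`, given in the
same chart) -/
def jac (f : M → M) (k : ℕ) (p : M) : ℝ :=
  |ContinuousLinearMap.det (mfderiv 𝓘(ℝ, EE d) 𝓘(ℝ, EE d) (f^[k]) p : EE d →L[ℝ] EE d)|

/-- The theorem: for an Anosov diffeomorphism `f` of class `C^1` with Hölder continuous Jacobian
determinant either there are periodic points where the Jacobian is less than one and periodic points
where it is greater than one, or it is equal to one at all periodic points and `f` is transitive. -/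
def Stmt_AN : Prop :=
  ∀ (d : ℕ) (M : Type) [TopologicalSpace M] [T2Space M] [CompactSpace M] [ConnectedSpace M]
    [ChartedSpace (EE d) M] [IsManifold 𝓘(ℝ, EE d) ∞ M]
    (f : M ≃ₘ^1⟮𝓘(ℝ, EE d), 𝓘(ℝ, EE d)⟯ M) (α : ℝ), 0 < α → IsAnosov (d := d) f →
    HolderJac (d := d) f α →
    ((∃ (k : ℕ) (p : M), 0 < k ∧ f^[k] p = p ∧ jac (d := d) f k p < 1) ∧
      ∃ (k : ℕ) (p : M), 0 < k ∧ f^[k] p = p ∧ 1 < jac (d := d) f k p) ∨
    ((∀ (k : ℕ) (p : M), 0 < k → f^[k] p = p → jac (d := d) f k p = 1) ∧ Trans f)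

end Pool.AN
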