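import Mathlib

/-!
# MP_bd2638_an, THEOREM AN: the abstract chart system

`M` is a compact metric space, `f` a homeomorphism of `M`. A chart system `Sys d al M f` is a finite family of charts `φ i` (open partial homeomorphisms
into `EE d`), compact sets `K i` covering `M`, open sets `V i` with `K i ⊆ V i ⊆ (φ i).source`, and the unstable projections `Q i x` read in the chart `i`.
`Fn φ f n i j` is `f^n` read in the charts `i` (source) and `j` (target), `DF φ f n i j x` its derivative at `φ i x`.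
-/

set_option autoImplicit false

namespace Pool.AN

open Set Filter Topology Metric

/-- Euclidean space. -/
abbrev EE (d : ℕ) := EuclideanSpace ℝ (Fin d)

/-- `f^n` read in the charts `i`, `j`. -/
def Fn {d : ℕ} {M : Type} [TopologicalSpace M] {m : ℕ} (φ : Fin m → OpenPartialHomeomorph M (EE d)) (f : M → M)
    (n : ℕ) (i j : Fin m) : EE d → EE d := fun u => φ j (f^[n] ((φ i).symm u))

/-- The derivative of `f^n` at `x` in the charts `i`, `j`. -/
noncomputable def DF {d : ℕ} {M : Type} [TopologicalSpace M] {m : ℕ} (φ : Fin m → OpenPartialHomeomorph M (EE d)) (f : M → M)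
    (n : ℕ) (i j : Fin m) (x : M) : EE d →L[ℝ] EE d := fderiv ℝ (Fn φ f n i j) (φ i x)

/-- The abstract chart system of a `C^1` Anosov diffeomorphism whose Jacobian determinant is `al`-Hoelder. -/
structure Sys (d : ℕ) (al : ℝ) (M : Type) [MetricSpace M] [CompactSpace M] (f : M ≃ₜ M) where
  /-- the number of charts -/
  m : ℕ
  /-- the charts -/
  φ : Fin m → OpenPartialHomeomorph M (EE d)
  /-- compact sets which cover `M` -/
  K : Fin m → Set M
  /-- open neighbourhoods -/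
  V : Fin m → Set M
  /-- the projection onto the unstable space along the stable space, in the chart `i` -/
  Q : Fin m → M → (EE d →L[ℝ] EE d)
  /-- constants of hyperbolicity -/
  C : ℝ
  /-- contraction -/
  be : ℝ
  /-- expansion -/
  eta : ℝ
  hal : 0 < al
  hC : 0 < C
  hbe0 : 0 < be
  hbe : be < 1
  heta : 1 < eta
  hK : ∀ i, IsCompact (K i)
  hV : ∀ i, IsOpen (V i)
  hKV : ∀ i, K i ⊆ V i
  hVs : ∀ i, V i ⊆ (φ i).source
  cov : ∀ x, ∃ i, x ∈ interior (K i)
  sm : ∀ n i j x, x ∈ (φ i).source → f^[n] x ∈ (φ j).source → ContDiffAt ℝ 1 (Fn φ f n i j) (φ i x)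
  inj : ∀ n i j x, x ∈ (φ i).source → f^[n] x ∈ (φ j).source → (DF φ f n i j x).det ≠ 0
  hol : ∀ i j x, x ∈ (φ i).source → f x ∈ (φ j).source → ∃ r > 0, ∃ H : ℝ, ∀ u ∈ ball (φ i x) r, ∀ v ∈ ball (φ i x) r,
    abs (Real.log |(fderiv ℝ (Fn φ f 1 i j) u).det| - Real.log |(fderiv ℝ (Fn φ f 1 i j) v).det|) ≤ H * ‖u - v‖ ^ al
  Qc : ∀ i, ContinuousOn (Q i) (V i)
  Qp : ∀ i, ∀ x ∈ V i, Q i x ∘L Q i x = Q i x
  Qe : ∀ n i j x, x ∈ V i → f^[n] x ∈ V j → Q j (f^[n] x) ∘L DF φ f n i j x = DF φ f n i j x ∘L Q i x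
  hs : ∀ n i j x v, x ∈ V i → f^[n] x ∈ V j → Q i x v = 0 → ‖DF φ f n i j x v‖ ≤ C * be ^ n * ‖v‖
  hu : ∀ n i j x v, x ∈ V i → f^[n] x ∈ V j → Q i x v = v → C⁻¹ * eta ^ n * ‖v‖ ≤ ‖DF φ f n i j x v‖

/-- All periodic points have `1 ≤ |det Df^n|`. -/
def PerGe {d : ℕ} {al : ℝ} {M : Type} [MetricSpace M] [CompactSpace M] {f : M ≃ₜ M} (S : Sys d al M f) : Prop :=
  ∀ n i x, 0 < n → x ∈ S.V i → f^[n] x = x → 1 ≤ |(DF S.φ f n i i x).det|

/-- All periodic points have `|det Df^n| ≤ 1`. -/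
def PerLe {d : ℕ} {al : ℝ} {M : Type} [MetricSpace M] [CompactSpace M] {f : M ≃ₜ M} (S : Sys d al M f) : Prop :=
  ∀ n i x, 0 < n → x ∈ S.V i → f^[n] x = x → |(DF S.φ f n i i x).det| ≤ 1

/-- Topological transitivity. -/
def Trans {M : Type} [TopologicalSpace M] (f : M → M) : Prop :=
  ∀ U W : Set M, IsOpen U → IsOpen W → U.Nonempty → W.Nonempty → ∃ n : ℕ, (f^[n] '' U ∩ W).Nonempty

/-- **The theorem on chart systems** (the dynamics). -/
def Stmt_SYS : Prop := ∀ (d : ℕ) (al : ℝ) (M : Type) [MetricSpace M] [CompactSpace M] [ConnectedSpace M] (f : M ≃ₜ M)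
  (S : Sys d al M f), (PerGe S ∨ PerLe S) →
  (∀ n i x, 0 < n → x ∈ S.V i → f^[n] x = x → |(DF S.φ f n i i x).det| = 1) ∧ Trans f

end Pool.AN
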